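import Pool.Agent.Lib.MP_9fa4ca_an.PD.SpecB

/-!
# MP_9fa4ca_an, PD : FIN, the final statements in the plane `ℝ × ℝ`, from PER
-/

set_option autoImplicit false

open Set Topology Filter Complex MeasureTheory

namespace Pool.Agent.Lib.MP9fa4ca

universe u

/-- A persistent annular rotation domain of the family `henon b (c t)`: for the parameters `t` of the
open set `V` the set `O t` is an annular rotation domain; the set of the pairs `(t, q)`, `q ∈ O t`,
is open; `H` is a jointly continuous function on it with values in the circle,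
`H (t, f_t q) = exp (2 π i α) H (t, q)`, and `H (t, ·)` is homotopic to the circle coordinate of a
homeomorphism of `O t` with the open annulus. -/
structure Persistent {X : Type u} [TopologicalSpace X] {d : ℕ} (b : ℝ)
    (c : X → Fin (d + 1) → ℝ) (α : ℝ) (V : Set X) (O : X → Set (ℝ × ℝ))
    (H : X × (ℝ × ℝ) → Circle) : Prop where
  opn : IsOpen V
  dom : ∀ t ∈ V, RotDom b (c t) (O t)
  opE : IsOpen {x : X × (ℝ × ℝ) | x.1 ∈ V ∧ x.2 ∈ O x.1}
  con : ContinuousOn H {x : X × (ℝ × ℝ) | x.1 ∈ V ∧ x.2 ∈ O x.1}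
  eqv : ∀ t ∈ V, ∀ q ∈ O t,
    H (t, henon b (c t) q) = Circle.exp (2 * Real.pi * α) * H (t, q)
  crd : ∀ t ∈ V, ∃ (e : ↥(O t) ≃ₜ (Circle × ↥(Ioo (0 : ℝ) 1))) (w : ℝ × ℝ → ℝ),
    ContinuousOn w (O t) ∧
      ∀ q (hq : q ∈ O t), H (t, q) = (e ⟨q, hq⟩).1 * Circle.exp (w q)

/-- the coefficients of the degree `d` maps with an annular rotation domain -/
def RotSet (d : ℕ) (b : ℝ) : Set (Fin (d + 1) → ℝ) :=
  {c | c (Fin.last d) ≠ 0 ∧ ∃ A : Set (ℝ × ℝ), RotDom b c A}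

namespace PD

/-- a unit complex number as an element of the circle -/
noncomputable def toC (z : ℂ) : Circle := Circle.exp (arg z)

theorem toC_coe {z : ℂ} (h : ‖z‖ = 1) : ((toC z : Circle) : ℂ) = z := by
  unfold toC
  rw [Circle.coe_exp]
  have := Complex.norm_mul_exp_arg_mul_I z
  rw [h] at this
  simpa using this

theorem continuousOn_toC {Y : Type*} [TopologicalSpace Y] {S : Set Y} {g : Y → ℂ}
    (hg : ContinuousOn g S) (h : ∀ y ∈ S, ‖g y‖ = 1) : ContinuousOn (fun y => toC (g y)) S := by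
  rw [continuousOn_iff_continuous_domRestrict] at hg ⊢
  have h1 : Continuous fun y : S => ((toC (g y) : Circle) : ℂ) := by
    refine hg.congr fun y => ?_
    exact (toC_coe (h y y.2)).symm
  exact Topology.IsInducing.subtypeVal.continuous_iff.2 h1

theorem persistent_one (hPER : SpecPER.{u}) {X : Type u} [TopologicalSpace X]
    [SecondCountableTopology X] [LocallyConnectedSpace X] (d : ℕ) (hd : 2 ≤ d)
    (c : X → Fin (d + 1) → ℝ) (hc : Continuous c) (hlast : ∀ t, c t (Fin.last d) ≠ 0) :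
    ∃ (S : Set ℝ) (M : Set X), S.Countable ∧ IsMeagre M ∧ ∀ t₀ ∉ M, ∀ A : Set (ℝ × ℝ),
      RotDom 1 (c t₀) A → (∀ α, RotNum 1 (c t₀) A α → α ∈ S) ∧
      ∃ α ∈ S, Irrational α ∧ ∃ (V : Set X) (O : X → Set (ℝ × ℝ)) (H : X × (ℝ × ℝ) → Circle),
        t₀ ∈ V ∧ O t₀ ⊆ A ∧ Persistent 1 c α V O H := by
  obtain ⟨S, M, hS, hM, h⟩ := hPER X d hd c hc hlast
  refine ⟨S, M, hS, hM, fun t₀ ht₀ A hA => ?_⟩
  rw [rotDom_one] at hA
  obtain ⟨e₀⟩ := hA.ann
  refine ⟨fun α hα => ?_, ?_⟩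
  · rw [rotNum_one] at hα
    obtain ⟨e, he⟩ := hα.hasRot
    exact (h t₀ ht₀ (cplx ⁻¹' A) hA.isARD e).1 α he
  obtain ⟨α, hαS, hirr, V, O, H, htV, hsub, hP⟩ :=
    (h t₀ ht₀ (cplx ⁻¹' A) hA.isARD ((cplx.sets rfl).trans e₀)).2
  have hnorm : ∀ t ∈ V, ∀ z ∈ O t, ‖H (t, z)‖ = 1 := by
    intro t ht z hz
    obtain ⟨e, w, -, hw⟩ := hP.crd t ht
    rw [hw z hz, norm_mul, Circle.norm_coe, norm_exp_ofReal_mul_I, one_mul]
  refine ⟨α, hαS, hirr, V, fun t => cplx.symm ⁻¹' O t,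
    fun x => toC (H (x.1, cplx.symm x.2)), htV, ?_, ?_⟩
  · intro q hq
    have := hsub hq
    rwa [mem_preimage, Homeomorph.apply_symm_apply] at this
  have hcs : Continuous fun x : X × (ℝ × ℝ) => (x.1, cplx.symm x.2) :=
    continuous_fst.prodMk (cplx.symm.continuous.comp continuous_snd)
  refine
    { opn := hP.opn
      dom := fun t ht => ?_
      opE := hP.opE.preimage hcs
      con := ?_
      eqv := fun t ht q hq => ?_
      crd := fun t ht => ?_ }
  · obtain ⟨e, -, -, -⟩ := hP.crd t ht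
    exact rotDom_one.2 ((hP.ard t ht).rotDomOne e)
  · exact continuousOn_toC (hP.con.comp hcs.continuousOn fun x hx => hx)
      fun x hx => hnorm x.1 hx.1 _ hx.2
  · have hz : cplx.symm (henon 1 (c t) q) = hen (pol (c t)) 1 (cplx.symm q) := by
      apply cplx.injective
      rw [cplx_hen, Homeomorph.apply_symm_apply, Homeomorph.apply_symm_apply, henon_one]
      rfl
    rw [hz]
    apply Subtype.ext
    have hz' := ((hP.ard t ht).inv _).2 hq
    have h1 := hP.eqv t ht _ hq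
    have e1 := toC_coe (hnorm t ht _ hz')
    have e2 := toC_coe (hnorm t ht _ hq)
    show ((toC (H (t, hen (pol (c t)) 1 (cplx.symm q))) : Circle) : ℂ) =
      ((Circle.exp (2 * Real.pi * α) * toC (H (t, cplx.symm q)) : Circle) : ℂ)
    rw [e1, Circle.coe_mul, e2, h1, Circle.coe_exp]
    simp [lam]
  · obtain ⟨e, w, hw, hHw⟩ := hP.crd t ht
    refine ⟨(cplx.symm.sets rfl).trans e, fun q => w (cplx.symm q),
      hw.comp cplx.symm.continuous.continuousOn fun q hq => hq, fun q hq => ?_⟩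
    apply Subtype.ext
    have e2 := toC_coe (hnorm t ht _ hq)
    show ((toC (H (t, cplx.symm q)) : Circle) : ℂ) =
      (((e ⟨cplx.symm q, hq⟩).1 * Circle.exp (w (cplx.symm q)) : Circle) : ℂ)
    rw [e2, hHw _ hq, Circle.coe_mul, Circle.coe_exp]

theorem persistent (hPER : SpecPER.{u}) {X : Type u} [TopologicalSpace X]
    [SecondCountableTopology X] [LocallyConnectedSpace X] (d : ℕ) (hd : 2 ≤ d) (b : ℝ)
    (hb : b = 1 ∨ b = -1) (c : X → Fin (d + 1) → ℝ) (hc : Continuous c)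
    (hlast : ∀ t, c t (Fin.last d) ≠ 0) :
    ∃ (S : Set ℝ) (M : Set X), S.Countable ∧ IsMeagre M ∧ ∀ t₀ ∉ M, ∀ A : Set (ℝ × ℝ),
      RotDom b (c t₀) A → (∀ α, RotNum b (c t₀) A α → α ∈ S) ∧
      ∃ α ∈ S, Irrational α ∧ ∃ (V : Set X) (O : X → Set (ℝ × ℝ)) (H : X × (ℝ × ℝ) → Circle),
        t₀ ∈ V ∧ O t₀ ⊆ A ∧ Persistent b c α V O H := by
  rcases hb with rfl | rfl
  · exact persistent_one hPER d hd c hc hlast
  · exact ⟨∅, ∅, countable_empty, IsMeagre.empty, fun t _ A hA => absurd hA (no_rotDom _ A)⟩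

theorem meagre_family (hPER : SpecPER.{u}) {X : Type u} [TopologicalSpace X]
    [SecondCountableTopology X] [LocallyConnectedSpace X] (d : ℕ) (hd : 2 ≤ d) (b : ℝ)
    (hb : b = 1 ∨ b = -1) (c : X → Fin (d + 1) → ℝ) (hc : Continuous c)
    (hlast : ∀ t, c t (Fin.last d) ≠ 0) :
    IsMeagre ({t | ∃ A, RotDom b (c t) A} \ interior {t | ∃ A, RotDom b (c t) A}) := by
  obtain ⟨S, M, -, hM, h⟩ := persistent hPER d hd b hb c hc hlast
  refine hM.mono ?_
  rintro t ⟨⟨A, hA⟩, ht⟩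
  by_contra htM
  obtain ⟨-, α, -, -, V, O, H, htV, -, hP⟩ := h t htM A hA
  exact ht (mem_interior.2 ⟨V, fun s hs => ⟨O s, hP.dom s hs⟩, hP.opn, htV⟩)

theorem meagre_rotSet (hPER : SpecPER.{0}) (d : ℕ) (hd : 2 ≤ d) (b : ℝ) (hb : b = 1 ∨ b = -1) :
    IsMeagre (RotSet d b \ interior (RotSet d b)) := by
  set X₀ : Set (Fin (d + 1) → ℝ) := {c | c (Fin.last d) ≠ 0} with hX₀
  have hXo : IsOpen X₀ := isOpen_ne_fun (continuous_apply _) continuous_const
  have : LocallyConnectedSpace X₀ := hXo.isOpenEmbedding_subtypeVal.locallyConnectedSpace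
  have h1 := meagre_family hPER (X := X₀) d hd b hb (fun c => (c : Fin (d + 1) → ℝ))
    continuous_subtype_val fun c => c.2
  refine h1.image_val.mono ?_
  rintro c ⟨⟨hc0, hA⟩, hc⟩
  refine ⟨⟨c, hc0⟩, ⟨hA, fun hint => hc ?_⟩, rfl⟩
  obtain ⟨W, hW, hWo, hcW⟩ := mem_interior.1 hint
  refine mem_interior.2 ⟨Subtype.val '' W, ?_, hXo.isOpenMap_subtype_val W hWo, ⟨_, hcW, rfl⟩⟩
  rintro _ ⟨c', hc', rfl⟩
  exact ⟨c'.2, hW hc'⟩

/-- Q1 of the problem has a positive answer if and only if for some degree the set of the maps with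
an annular rotation domain is not meagre. -/
theorem open_iff (hPER : SpecPER.{0}) :
    (∃ d : ℕ, 2 ≤ d ∧ ∃ b : ℝ, (b = 1 ∨ b = -1) ∧ ∃ U : Set (Fin (d + 1) → ℝ), IsOpen U ∧
      U.Nonempty ∧ ∀ c ∈ U, c (Fin.last d) ≠ 0 ∧ ∃ A : Set (ℝ × ℝ), RotDom b c A) ↔
    ∃ d : ℕ, 2 ≤ d ∧ ∃ b : ℝ, (b = 1 ∨ b = -1) ∧ ¬ IsMeagre (RotSet d b) := by
  constructor
  · rintro ⟨d, hd, b, hb, U, hU, hne, h⟩
    exact ⟨d, hd, b, hb, fun hM => not_isMeagre_of_isOpen hU hne (hM.mono fun c hc => h c hc)⟩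
  · rintro ⟨d, hd, b, hb, hM⟩
    refine ⟨d, hd, b, hb, interior (RotSet d b), isOpen_interior, ?_,
      fun c hc => (interior_subset hc : c ∈ RotSet d b)⟩
    by_contra hne
    rw [not_nonempty_iff_eq_empty] at hne
    have h1 := meagre_rotSet hPER d hd b hb
    rw [hne, sdiff_empty] at h1
    exact hM h1

end PD

end Pool.Agent.Lib.MP9fa4ca
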