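import Pool.Agent.Lib.MP_9fa4ca_an.PD.SpecD

/-!
# MP_9fa4ca_an, PD : the labels, the final statements (`SpecB`)
-/

set_option autoImplicit false

open Set Topology Filter Complex MeasureTheory

namespace Pool.Agent.Lib.MP9fa4ca

namespace PD

universe u

/-- LBL. Every annular rotation domain has a label. Uses: nothing. Proof: the periodic `γ₀` gives a
continuous map `g` on `UnitAddCircle` (`Function.Periodic.lift`). `range γ₀` is compact (image of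
`[0, 1]`) and in the open set `A`: there is a rational `ρ > 0` with `ball (γ₀ x) (2 ρ) ⊆ A` for all
`x`, and there is `η > 0` such that `‖z - γ₀ x‖ < η` implies `z ∈ A` and `‖h z - h (γ₀ x)‖ < 1`
(compactness, continuity of `h`). Take `γ ∈ Γ` with `‖γ - g‖ < min η (ρ / 4)`. Then
`ball (γ x) ρ ⊆ ball (γ₀ x) (2 ρ) ⊆ A`; `LDeg (h ∘ γ) 1` by `LDeg.of_near` (`‖h (γ₀ x)‖ = 1`);
`x = 0` and `x = 1 / 2` for the two points. -/
def SpecLBL : Prop :=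
  ∀ (Γ : Set C(UnitAddCircle, ℂ)), Dense Γ → ∀ (d : ℕ) (c : Fin (d + 1) → ℝ) (A : Set ℂ)
    (α u : ℝ) (h : ℂ → ℂ), Eig c A α u h → ∀ γ₀, Lp γ₀ A → LDeg (fun x => h (γ₀ x)) 1 →
    γ₀ 0 = ⟨u, u⟩ → γ₀ (1 / 2) = fc c ⟨u, u⟩ → ∃ γ ∈ Γ, ∃ ρ : ℚ, 0 < ρ ∧ Lab c γ ρ u α A h

/-- MGR. Uses: nothing. Proof: the frontier of a closed set is nowhere dense, a countable union of
nowhere dense sets is meagre. -/
def SpecMGR : Prop :=
  ∀ (X : Type u) [TopologicalSpace X] (ι : Type) [Countable ι] (P : ι → Set X),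
    IsMeagre (⋃ i, closure (P i) \ interior (closure (P i)))

/-- The conclusion for one data set (assembly, captain). -/
def SpecDTH : Prop :=
  ∀ (X : Type u) [TopologicalSpace X] (d : ℕ) (D : Dat X d), IsOpen D.E ∧
    ContinuousOn D.H D.E ∧ (∀ t ∈ D.V, t ∈ D.P → D.O t ⊆ D.A t) ∧ ∀ t ∈ D.V,
    IsARD (pol (D.c t)) (D.O t) ∧
    (∀ z ∈ D.O t, D.H (t, hen (pol (D.c t)) 1 z) = lam D.α * D.H (t, z)) ∧
    ∃ (e : ↥(D.O t) ≃ₜ (Circle × ↥(Ioo (0 : ℝ) 1))) (w : ℂ → ℝ), ContinuousOn w (D.O t) ∧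
      ∀ z (hz : z ∈ D.O t), D.H (t, z) = (((e ⟨z, hz⟩).1 : Circle) : ℂ) * exp (w z * I)

/-- A persistent annular rotation domain: the domains `O t`, `t ∈ V`, and the eigenfunctions
`H (t, ·)`. -/
structure Pers {X : Type u} [TopologicalSpace X] {d : ℕ} (c : X → Fin (d + 1) → ℝ) (α : ℝ)
    (V : Set X) (O : X → Set ℂ) (H : X × ℂ → ℂ) : Prop where
  opn : IsOpen V
  opE : IsOpen {x : X × ℂ | x.1 ∈ V ∧ x.2 ∈ O x.1}
  con : ContinuousOn H {x : X × ℂ | x.1 ∈ V ∧ x.2 ∈ O x.1}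
  ard : ∀ t ∈ V, IsARD (pol (c t)) (O t)
  eqv : ∀ t ∈ V, ∀ z ∈ O t, H (t, hen (pol (c t)) 1 z) = lam α * H (t, z)
  crd : ∀ t ∈ V, ∃ (e : ↥(O t) ≃ₜ (Circle × ↥(Ioo (0 : ℝ) 1))) (w : ℂ → ℝ),
    ContinuousOn w (O t) ∧
      ∀ z (hz : z ∈ O t), H (t, z) = (((e ⟨z, hz⟩).1 : Circle) : ℂ) * exp (w z * I)

/-- PER (assembly, captain). The persistence theorem for `b = 1`, in the coordinate `z = x + i y`.
Uses: EIG, LBL, MGR, DTH and `specFab`. Proof: let `S₀`, `N` be from `specFab`: `S₀` countable, `N`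
meagre, and all rotation numbers of the parameters `t ∉ N` are in `S₀`. Let `Γ` be a countable dense
subset of `C(UnitAddCircle, ℂ)`. For a label `ℓ = (γ, ρ, u, α)`, `γ ∈ Γ`, `ρ, u` rational, `ρ > 0`,
`α ∈ S₀` irrational, let `P ℓ` be the set of the `t` such that some `A`, `h` satisfy
`Lab (c t) γ ρ u α A h`. `M = N ∪ ⋃ ℓ, closure (P ℓ) \ interior (closure (P ℓ))` is meagre (MGR).
Let `t₀ ∉ M` and `A₀` an annular rotation domain. By EIG and LBL there is a label `ℓ` and `h₀` with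
`Lab (c t₀) γ ρ u α A₀ h₀`; so `t₀ ∈ P ℓ`, hence `t₀ ∈ V = interior (closure (P ℓ))`. Choose
`A t`, `h t` for `t ∈ P ℓ`, with `A t₀ = A₀`. These are data `D`; DTH. -/
def SpecPER : Prop :=
  ∀ (X : Type u) [TopologicalSpace X] [SecondCountableTopology X] [LocallyConnectedSpace X]
    (d : ℕ), 2 ≤ d → ∀ c : X → Fin (d + 1) → ℝ, Continuous c → (∀ t, c t (Fin.last d) ≠ 0) →
    ∃ (S : Set ℝ) (M : Set X), S.Countable ∧ IsMeagre M ∧ ∀ t₀ ∉ M, ∀ A : Set ℂ,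
      IsARD (pol (c t₀)) A → ∀ e : ↥A ≃ₜ (Circle × ↥(Ioo (0 : ℝ) 1)),
      (∀ α, HasRot (pol (c t₀)) A e α → α ∈ S) ∧
      ∃ α ∈ S, Irrational α ∧ ∃ (V : Set X) (O : X → Set ℂ) (H : X × ℂ → ℂ), t₀ ∈ V ∧
        O t₀ ⊆ A ∧ Pers c α V O H

end PD

end Pool.Agent.Lib.MP9fa4ca
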