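import Pool.Agent.Lib.MP_9fa4ca_an.PD.SpecL

/-!
# MP_9fa4ca_an, PD : the specifications of the plane topology (`SpecD`)

The aim is DCA: a plane domain with one hole is an open annulus.
-/

set_option autoImplicit false

open Set Topology Filter Complex MeasureTheory

namespace Pool.Agent.Lib.MP9fa4ca

namespace PD

/-! ### The filling lemma -/

/-- CPS. The filled loop is compact. Uses: nothing. Proof: `z = σ x` is in the set (`exp` has no
zero). Closed: if `LDeg (σ - z) 0` then the distance of `z` from `σ` is positive (`σ` is periodic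
and continuous), `LDeg.of_near`. Bounded: for `‖z‖ > sup ‖σ‖`, `σ x - z = -z (1 - σ x / z)`, with
the bracket in the slit plane (`mem_slitPlane_of_norm_lt_one`). -/
def SpecCPS : Prop :=
  ∀ σ : ℝ → ℂ, Continuous σ → (∀ x, σ (x + 1) = σ x) →
    IsCompact {z : ℂ | ¬ LDeg (fun x => σ x - z) 0} ∧ ∀ x, ¬ LDeg (fun y => σ y - σ x) 0

/-- SMA. Smooth approximation. Uses: nothing. Proof: Stone-Weierstrass: the functions in `C(S, ℂ)`
which are restrictions of `C ^ 1` functions (in the real sense) of the plane are a star subalgebra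
which contains the constants and `z`, it separates points, so it is dense
(`ContinuousMap.starSubalgebra_topologicalClosure_eq_top_of_separatesPoints`). -/
def SpecSMA : Prop :=
  ∀ (S : Set ℂ), IsCompact S → ∀ u : ℂ → ℂ, ContinuousOn u S → ∀ ε : ℝ, 0 < ε →
    ∃ v : ℂ → ℂ, ContDiff ℝ 1 v ∧ ∀ z ∈ S, ‖v z - u z‖ < ε

/-- SRD. Sard. Uses: nothing. Proof: the set of the critical values has measure zero
(`MeasureTheory.addHaar_image_eq_zero_of_det_fderiv_eq_zero`), so it does not contain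
`ball 0 ε`. -/
def SpecSRD : Prop :=
  ∀ v : ℂ → ℂ, ContDiff ℝ 1 v → ∀ ε : ℝ, 0 < ε → ∃ w : ℂ, ‖w‖ < ε ∧ ∀ z, v z = w →
    (fderiv ℝ v z).det ≠ 0

/-- LOZ. Nondegenerate zeros. Uses: nothing. Proof: the real linear map `L = fderiv ℝ v z₀` is
`L ζ = a ζ + b conj ζ` (`a = (L 1 - I L I) / 2`, `b = (L 1 + I L I) / 2`) and
`det L = ‖a‖ ^ 2 - ‖b‖ ^ 2`. If `‖a‖ > ‖b‖`: `L ζ / (a ζ) = 1 + (b / a) (conj ζ / ζ)` has real part
`≥ δ = 1 - ‖b / a‖ > 0`; `v (z₀ + ζ) / (a ζ)` differs from it by less than `δ` for small `ζ ≠ 0`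
(differentiability at `z₀`, `v z₀ = 0`); `k = a` constant. If `‖a‖ < ‖b‖`: in the same way
`L ζ / (b conj ζ) = 1 + (a / b) (ζ / conj ζ)`, `k = b`. -/
def SpecLOZ : Prop :=
  ∀ v : ℂ → ℂ, ContDiff ℝ 1 v → ∀ z₀ : ℂ, v z₀ = 0 → (fderiv ℝ v z₀).det ≠ 0 → SZ v z₀

/-- RMZ. Removing zeros. Uses: nothing. Proof: induction on the number of elements of `Z` (for all
`v`). `Z` empty: `exists_log_on` on the ball gives a logarithm `l` of `v`, `x ↦ l (σ x)` is
periodic. Step: `z₀ ∈ Z` with `k`, `r`; `ω z` is `z - z₀` or its conjugate. Choose `0 < r' < r` such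
that the closed ball of radius `r'` around `z₀` is in `ball 0 R`, does not meet `σ` (`σ x ≠ z₀` by
`LDeg (σ - z₀) 0`, compactness) and contains no other point of `Z`. Let
`χ z = min 1 (max 0 (2 - 2 ‖z - z₀‖ / r'))` (`1` for `‖z - z₀‖ ≤ r' / 2`, `0` for
`‖z - z₀‖ ≥ r'`) and `v₁ z = (1 - χ z) v z / ω z + χ z k z` (this is `k z` near `z₀`, where
`1 - χ = 0`, and `v z / ω z` for `‖z - z₀‖ ≥ r'`). `v₁` is continuous on `ball 0 R`. In `ball z₀ r`:
`v₁ / k = (1 - χ) v / (k ω) + χ` has a positive real part, so `v₁ ≠ 0` there; outside of the ball of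
radius `r'`: `v₁ = v / ω`. So the zeros of `v₁` are in `Z \ {z₀}`, and for `z₁ ∈ Z \ {z₀}`
`SZ v₁ z₁` with `k₁ / ω` (the `k₁` of `v`) on a smaller ball. By induction `LDeg (v₁ ∘ σ) 0`, and
`v ∘ σ = (v₁ ∘ σ) (ω ∘ σ)`, where `LDeg (ω ∘ σ) 0` (conjugate the logarithm in the second case);
add the logarithms. -/
def SpecRMZ : Prop :=
  ∀ (R : ℝ) (σ : ℝ → ℂ), Lp σ (Metric.ball 0 R) → ∀ (Z : Finset ℂ) (v : ℂ → ℂ),
    ContinuousOn v (Metric.ball 0 R) → (∀ z ∈ Metric.ball 0 R, v z = 0 → z ∈ Z) →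
    (∀ z₀ ∈ Z, z₀ ∈ Metric.ball 0 R ∧ SZ v z₀ ∧ LDeg (fun x => σ x - z₀) 0) →
    (∀ x, v (σ x) ≠ 0) → LDeg (fun x => v (σ x)) 0

/-- FIL. The filling lemma: a loop with winding number `0` around all points outside of `S` has
degree `0` for all functions without zeros on `S`. Uses: CPS, SMA, SRD, LOZ, RMZ. Proof: let
`K = {z | ¬ LDeg (σ - z) 0}`: compact (CPS), contains `σ`, contained in `S`. Let `m > 0` be the
minimum of `‖u‖` on `K`. SMA with `ε = m / 4` gives `v₀`, SRD with `ε = m / 4` gives `w`;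
`v = v₀ - w` is `C ^ 1`, `‖v - u‖ < m / 2` on `K`, all zeros of `v` are nondegenerate. Let `R` with
`K ⊆ ball 0 R`. By LOZ every zero of `v` is isolated (`SZ`: `v z ≠ 0` for `z ≠ z₀` near `z₀`), so
the zeros in the compact `closedBall 0 R` are finitely many; `Z`: those in `ball 0 R`. They are
not in `K`, so `LDeg (σ - z₀) 0`. RMZ: `LDeg (v ∘ σ) 0`; `‖u - v‖ < m / 2 < ‖v‖` on `σ`, so
`LDeg (u ∘ σ) 0` by `LDeg.of_near`. -/
def SpecFIL : Prop :=
  ∀ (S : Set ℂ), IsOpen S → ∀ σ, Lp σ S → (∀ b, b ∉ S → LDeg (fun x => σ x - b) 0) →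
    ∀ u : ℂ → ℂ, ContinuousOn u S → (∀ z ∈ S, u z ≠ 0) → LDeg (fun x => u (σ x)) 0

/-! ### The Riemann map of the cover -/

/-- CNN. The cover is connected. Uses: nothing. Proof: nonempty: `log (z - b)`, `z ∈ O`. Let
`Y = {ζ | exp ζ + b ∈ O}` and fix a logarithm `l` of `γ - b` with `l (x + 1) = l x + m 2 π i`,
`m = ±1`. All points `l 0 + k 2 π i` are joined in `Y` by the paths `x ↦ l x + j 2 π i`. Let
`ζ ∈ Y`; `O` is open and connected, so there is a path `c` in `O` from `exp ζ + b` to `γ 0`; its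
lift `l' : [0, 1] → Y` with `exp (l' s) = c s - b`, `l' 0 = ζ` (`exists_log` on `unitInterval`, add
a multiple of `2 π i`) ends at a point with `exp = γ 0 - b = exp (l 0)`, so at some
`l 0 + k 2 π i`. So `Y` is path connected. -/
def SpecCNN : Prop :=
  ∀ (O : Set ℂ), IsOpen O → IsConnected O → ∀ b, b ∉ O → ∀ γ, Lp γ O →
    (LDeg (fun x => γ x - b) 1 ∨ LDeg (fun x => γ x - b) (-1)) → IsConnected {ζ | exp ζ + b ∈ O}

/-- LGX. Logarithms from degrees. Uses: nothing. Proof: `S` is path connected. Fix `z₀ ∈ S`; for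
`z ∈ S` choose a path `c` from `z₀` to `z` in `S`, lift `u ∘ c` (`exists_log` on `unitInterval`) to
a logarithm starting at `log (u z₀)`, let `l z` be its endpoint. It does not depend on the path: two
paths give a loop (run through `c` and back through `c'`, extended with period `1`); a logarithm of
`u ∘ loop` is periodic by the hypothesis, compare it with the two lifts. `exp (l z) = u z`.
Continuity at `z`: in a small ball around `z` in `S` on which `‖u y - u z‖ < ‖u z‖`: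
`l y = l z + log (u y / u z)` (use the path to `z` followed by the segment). -/
def SpecLGX : Prop :=
  ∀ (S : Set ℂ), IsOpen S → IsConnected S → ∀ u : ℂ → ℂ, ContinuousOn u S →
    (∀ z ∈ S, u z ≠ 0) → (∀ σ, Lp σ S → LDeg (fun x => u (σ x)) 0) →
    ∃ l : ℂ → ℂ, ContinuousOn l S ∧ ∀ z ∈ S, exp (l z) = u z

/-- RMR. The Riemann mapping theorem from square roots. Uses: nothing. Proof: copy
`Pool/Agent/Lib/MP_87ece0_an/RMT.lean` (`RMT.main` and the lemmas before it; do not import it),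
where `IsSimplyConnected D` is used only for preconnectedness and for
`Complex.exists_continuousOn_pow_eq`, which is now the hypothesis. -/
def SpecRMR : Prop :=
  ∀ (S : Set ℂ), IsOpen S → Bornology.IsBounded S → (0 : ℂ) ∈ S → IsPreconnected S →
    (∀ u : ℂ → ℂ, ContinuousOn u S → (∀ z ∈ S, u z ≠ 0) →
      ∃ g : ℂ → ℂ, ContinuousOn g S ∧ ∀ z ∈ S, g z ^ 2 = u z) →
    ∃ F : ℂ → ℂ, DifferentiableOn ℂ F S ∧ BijOn F S (Metric.ball 0 1)

/-- IND. The inverse of an injective holomorphic map is holomorphic. Uses: nothing. Proof: `F` is not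
constant on any ball, so it is open (`AnalyticOnNhd.is_constant_or_isOpen`), and the inverse `G` is
continuous on `S'`. Where `deriv F ≠ 0` the inverse function has a derivative
(`HasDerivAt.of_local_left_inverse` or `HasStrictDerivAt.to_localInverse`). The zeros of `deriv F`
are isolated (otherwise `deriv F = 0` near a point and `F` is constant there), so are their images;
at such a point `G` is continuous and differentiable in a punctured neighbourhood, so it is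
differentiable (`Complex.differentiableOn_compl_singleton_and_continuousAt_iff` or
`Complex.analyticAt_of_differentiable_on_punctured_nhds_of_continuousAt`). (Search Mathlib first:
there may be a theorem that the derivative of an injective holomorphic function has no zero.) -/
def SpecIND : Prop :=
  ∀ (S S' : Set ℂ) (F G : ℂ → ℂ), IsOpen S → DifferentiableOn ℂ F S → BijOn F S S' →
    (∀ z ∈ S, G (F z) = z) → IsOpen S' ∧ DifferentiableOn ℂ G S'

/-- RMH. Uses: RMR, IND. Proof: fix `ζ₀ ∈ S`. `κ ζ = 1 / (ζ - C - 1)` is injective on `S`, bounded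
by `1` (`re ζ < C`), holomorphic; `S' = {κ ζ - κ ζ₀ | ζ ∈ S}` is open (IND), bounded, connected, it
contains `0`, and square roots exist on `S'` (compose with the homeomorphism and its inverse). RMR
gives `F'` on `S'`; `F = F' ∘ (κ - κ ζ₀)`, `G` its inverse (`Set.BijOn.invOn_invFunOn` or a choice),
holomorphic by IND. -/
def SpecRMH : Prop :=
  ∀ (S : Set ℂ), IsOpen S → IsConnected S → (∃ C : ℝ, ∀ z ∈ S, z.re < C) →
    (∀ u : ℂ → ℂ, ContinuousOn u S → (∀ z ∈ S, u z ≠ 0) →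
      ∃ g : ℂ → ℂ, ContinuousOn g S ∧ ∀ z ∈ S, g z ^ 2 = u z) →
    ∃ F G : ℂ → ℂ, Hom S (Metric.ball 0 1) F G ∧ DifferentiableOn ℂ F S ∧
      DifferentiableOn ℂ G (Metric.ball 0 1)

/-- AUM. Automorphisms of the disc. Uses: nothing. Proof: let `a = τ' 0`, so `τ a = 0`, and
`μ w = (w - a) / (1 - conj a w)`, `μ' w = (w + a) / (1 + conj a w)` the inverse automorphism of the
disc. `ρ = τ ∘ μ'` and its inverse `μ ∘ τ'` are holomorphic self-maps of the disc fixing `0`. By the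
Schwarz lemma (`Complex.norm_le_norm_of_mapsTo_ball` or a similar name) `‖ρ w‖ ≤ ‖w‖` and
`‖w‖ ≤ ‖ρ w‖`, so `‖ρ w‖ = ‖w‖`; `ρ w / w` (extended by `dslope`) has constant norm `1`, so it is a
constant `η` (maximum principle: `Complex.eqOn_of_isPreconnected_of_isMaxOn_norm`). So
`τ w = ρ (μ w) = η μ w`. -/
def SpecAUM : Prop :=
  ∀ τ τ' : ℂ → ℂ, Hom (Metric.ball (0 : ℂ) 1) (Metric.ball (0 : ℂ) 1) τ τ' →
    DifferentiableOn ℂ τ (Metric.ball 0 1) → DifferentiableOn ℂ τ' (Metric.ball 0 1) →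
    ∃ a η : ℂ, ‖a‖ < 1 ∧ ‖η‖ = 1 ∧ ∀ w ∈ Metric.ball (0 : ℂ) 1,
      τ w = η * ((w - a) / (1 - (starRingEnd ℂ) a * w))

/-- AUP. A fixed point on the circle. Uses: nothing. Proof: the fixed points of
`M w = η (w - a) / (1 - conj a w)` are the roots of `conj a w ^ 2 + (η - 1) w - η a = 0` with
`1 - conj a w ≠ 0` (this is true for `‖w‖ ≤ 1`). If `a = 0` then `0` is a fixed point in the disc,
excluded. So `a ≠ 0` and there are two roots `w₁`, `w₂` with `w₁ w₂ = -η a / conj a`, of norm `1`.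
None is in the open disc by the hypothesis, so both have norm `≥ 1` and their product has norm `1`:
`‖w₁‖ = 1`. -/
def SpecAUP : Prop :=
  ∀ a η : ℂ, ‖a‖ < 1 → ‖η‖ = 1 → (∀ w ∈ Metric.ball (0 : ℂ) 1,
      η * ((w - a) / (1 - (starRingEnd ℂ) a * w)) ≠ w) →
    ∃ p : ℂ, ‖p‖ = 1 ∧ η * ((p - a) / (1 - (starRingEnd ℂ) a * p)) = p

/-- AUT. An automorphism of the disc without fixed point is affine in a half plane. Uses: AUM, AUP.
Proof: let `a`, `η` be from AUM and `p` from AUP, `G w = 1 / (1 - conj p w) - 1 / 2`,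
`G' ξ = p (1 - 1 / (ξ + 1 / 2))`: a homeomorphism of the disc and the half plane `{re > 0}`
(`re (1 / (1 - u)) > 1 / 2 ↔ ‖u‖ < 1`). `p - τ w = η (1 - ‖a‖ ^ 2) (p - w) /
((1 - conj a p) (1 - conj a w))` (from `p = τ p`) and `1 - conj a w = 1 - conj a p + conj a (p - w)`
give `1 / (p - τ w) = A / (p - w) + B` with constants `A`, `B`; as `conj p = 1 / p`,
`G (τ w) = A G w + B'`. The affine map `ξ ↦ A ξ + B'` is a bijection of the half plane onto itself
(`Hom`): so `A` is real and positive and `re B' = 0` (let `ξ → ∞` in the half plane in the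
directions `1`, `±i`: `re A ≥ 0`, `im A = 0`; `A ≠ 0`; `ξ → 0`: `re B' ≥ 0`, and the same for the
inverse `(ξ - B') / A`). `(A, B') = (1, 0)` would give `τ = id` on the disc, excluded. -/
def SpecAUT : Prop :=
  ∀ τ τ' : ℂ → ℂ, Hom (Metric.ball (0 : ℂ) 1) (Metric.ball (0 : ℂ) 1) τ τ' →
    DifferentiableOn ℂ τ (Metric.ball 0 1) → DifferentiableOn ℂ τ' (Metric.ball 0 1) →
    (∀ w ∈ Metric.ball (0 : ℂ) 1, τ w ≠ w) →
    ∃ (G G' : ℂ → ℂ) (a b : ℝ), Hom (Metric.ball (0 : ℂ) 1) {ξ : ℂ | 0 < ξ.re} G G' ∧ 0 < a ∧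
      ¬ (a = 1 ∧ b = 0) ∧ ∀ w ∈ Metric.ball (0 : ℂ) 1, G (τ w) = a * G w + b * I

/-- TRN. The affine map is conjugate to a translation. Uses: nothing. Proof: if `a = 1`, `b ≠ 0`:
`Θ ξ = (im ξ / b, log (re ξ))`, `Θ' (x, y) = exp y + b x I`. If `a ≠ 1`: `t₀ = b / (1 - a)`,
`Θ ξ = (log ‖ξ - t₀ I‖ / log a, im (ξ - t₀ I) / re ξ)`,
`Θ' (x, y) = t₀ I + a ^ x (1 + y I) / ‖1 + y I‖`; `a ξ + b I - t₀ I = a (ξ - t₀ I)`. -/
def SpecTRN : Prop :=
  ∀ a b : ℝ, 0 < a → ¬ (a = 1 ∧ b = 0) → ∃ (Θ : ℂ → ℝ × ℝ) (Θ' : ℝ × ℝ → ℂ),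
    Hom {ξ : ℂ | 0 < ξ.re} univ Θ Θ' ∧ ∀ ξ : ℂ, 0 < ξ.re →
      Θ (a * ξ + b * I) = ((Θ ξ).1 + 1, (Θ ξ).2)

/-- QUO. The quotient is an annulus. Uses: nothing. Proof: `P w = exp (E' w) + b` is a continuous open
map (`E'` is open onto the open set `{ζ | exp ζ + b ∈ O}`; `exp` is open) of `ℝ × ℝ` onto `O`.
`P w = P w'` iff `E' w' = E' w + k 2 π i` iff `w' = (w.1 + k, w.2)` for some `k : ℤ` (iterate the
hypothesis on `E`). `Ψ w = (Circle.exp (2 π w.1), kap w.2)` is a continuous open map of `ℝ × ℝ` onto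
`Circle × (0, 1)` with the same fibres (`Circle.exp_eq_exp`). So there is a homeomorphism `e` with
`e (P w) = Ψ w` (open surjections are quotient maps). Let `l` be a logarithm of `γ - b`,
`l (x + 1) = l x + m 2 π i`, `m = ±1`; `(e (γ x)).1 = Circle.exp (2 π (E (l x)).1)` and
`(E (l (x + 1))).1 = (E (l x)).1 + m`: `LDeg` with `m`. If `m = -1` compose `e` with the inversion
`z ↦ z⁻¹` of the circle. -/
def SpecQUO : Prop :=
  ∀ (O : Set ℂ), IsOpen O → ∀ b, b ∉ O → ∀ (E : ℂ → ℝ × ℝ) (E' : ℝ × ℝ → ℂ),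
    Hom {ζ : ℂ | exp ζ + b ∈ O} univ E E' →
    (∀ ζ, exp ζ + b ∈ O → E (ζ + 2 * Real.pi * I) = ((E ζ).1 + 1, (E ζ).2)) →
    ∀ γ (hγ : Lp γ O), (LDeg (fun x => γ x - b) 1 ∨ LDeg (fun x => γ x - b) (-1)) →
    ∃ e : ↥O ≃ₜ (Circle × ↥(Ioo (0 : ℝ) 1)),
      LDeg (fun x => (((e ⟨γ x, hγ.mem x⟩).1 : Circle) : ℂ)) 1

/-- DCA (assembly, captain). A plane domain with one hole is an annulus. Uses: FIL, CNN, LGX, RMH,
AUT, TRN, QUO. Proof: `Y = {ζ | exp ζ + b ∈ O}` is open, connected (CNN), `re ζ` is bounded above on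
it. Every loop in `Y` has degree `0` for every function without zeros (FIL), so logarithms exist
(LGX) and square roots; RMH gives `F : Y → 𝔻`, `G`. `τ = F (G w + 2 π i)` has no fixed point. AUT,
TRN: `E = Θ ∘ G₁ ∘ F`; QUO. -/
def SpecDCA : Prop :=
  ∀ (O : Set ℂ), IsOpen O → IsConnected O → Bornology.IsBounded O → ∀ b, b ∉ O →
    ∀ γ (hγ : Lp γ O), (LDeg (fun x => γ x - b) 1 ∨ LDeg (fun x => γ x - b) (-1)) →
    (∀ σ : ℝ → ℂ, Continuous σ → (∀ x, σ (x + 1) = σ x) → (∀ x, exp (σ x) + b ∈ O) →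
      ∀ β, exp β + b ∉ O → LDeg (fun x => σ x - β) 0) →
    ∃ e : ↥O ≃ₜ (Circle × ↥(Ioo (0 : ℝ) 1)),
      LDeg (fun x => (((e ⟨γ x, hγ.mem x⟩).1 : Circle) : ℂ)) 1

/-- RTN. A function of degree `1` is homotopic to the circle coordinate. Uses: LPL. Proof:
`exists_ann` gives `Q` with `(e (Q.P w)).1 = Circle.exp (2 π w.1)`. `φ z = (e z).1` (extended by
`1` outside of `O`) is continuous on `O`, `Q.Deg φ 1`. `Q.Deg H m` for some `m`
(`Ann.exists_deg`). By LPL: `LDeg (φ ∘ γ) k` and `LDeg (H ∘ γ) (k m)` (iterate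
`L (T w) = L w + m 2 π i`, as in LPD), so `k = 1` and `m = 1`. `H / φ` has the degree `0`:
`Deg.exists_log` gives `l`, its real part is `0`; `w = im l`. -/
def SpecRTN : Prop :=
  ∀ (O : Set ℂ), IsOpen O → ∀ (e : ↥O ≃ₜ (Circle × ↥(Ioo (0 : ℝ) 1))) (γ : ℝ → ℂ)
    (hγ : Lp γ O), LDeg (fun x => (((e ⟨γ x, hγ.mem x⟩).1 : Circle) : ℂ)) 1 →
    ∀ H : ℂ → ℂ, ContinuousOn H O → (∀ z ∈ O, ‖H z‖ = 1) → LDeg (fun x => H (γ x)) 1 →
    ∃ w : ℂ → ℝ, ContinuousOn w O ∧
      ∀ z (hz : z ∈ O), H z = (((e ⟨z, hz⟩).1 : Circle) : ℂ) * exp (w z * I)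

end PD

end Pool.Agent.Lib.MP9fa4ca
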