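import Pool.Agent.Lib.MP_9fa4ca_an.PD.SpecE
import Pool.Agent.Lib.MP_9fa4ca_an.PD.SpecB
import Pool.Agent.Lib.MP_9fa4ca_an.PD.SpecD
import Pool.Agent.Lib.MP_9fa4ca_an.Minus
import Pool.Agent.Lib.MP_9fa4ca_an.Fin2

section
/-!
# MP_9fa4ca_an, PD, module ARG: a continuous argument on a ball
-/
set_option autoImplicit false

open Set Topology Filter Complex MeasureTheory

namespace Pool.Agent.Lib.MP9fa4ca

namespace PD

theorem specARG : SpecARG := by
  intro h q ρ hρ hc hn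
  obtain ⟨L, hL, hLe⟩ := exists_log_on (convex_ball q ρ) Metric.isOpen_ball
    ⟨q, Metric.mem_ball_self hρ⟩ h hc (fun x hx h0 => by
      have h1 := hn x hx
      rw [h0, norm_zero] at h1
      exact zero_ne_one h1)
  have hπ : (2 * Real.pi) ≠ 0 := by positivity
  refine ⟨fun z => (L z).im / (2 * Real.pi), ?_, ?_⟩
  · exact (Complex.continuous_im.comp_continuousOn hL).div_const _
  · intro z hz
    have h1 := hLe z hz
    have h2 : (L z).re = 0 := by
      have h3 := hn z hz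
      rw [← h1, Complex.norm_exp] at h3
      exact Real.exp_eq_one_iff _ |>.1 h3
    have h4 : (2 * Real.pi * ((((L z).im / (2 * Real.pi) : ℝ)) : ℂ) * I) = L z := by
      have h5 : (2 * Real.pi * ((((L z).im / (2 * Real.pi) : ℝ)) : ℂ)) = (((L z).im : ℝ) : ℂ) := by
        have h6 : 2 * Real.pi * ((L z).im / (2 * Real.pi)) = (L z).im := mul_div_cancel₀ _ hπ
        exact_mod_cast h6
      rw [h5]
      apply Complex.ext
      · simp [h2]
      · simp
    show h z = exp (2 * Real.pi * ((((L z).im / (2 * Real.pi) : ℝ)) : ℂ) * I)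
    rw [h4, h1]

end PD

end Pool.Agent.Lib.MP9fa4ca
end

section
/-!
# MP_9fa4ca_an, PD : ARN, an eigenfunction is not constant on a ball
-/
set_option autoImplicit false

open Set Topology Filter Complex MeasureTheory

namespace Pool.Agent.Lib.MP9fa4ca

namespace PD

namespace ARNAux

theorem lam_inj {α : ℝ} (hα : Irrational α) {i j : ℤ} (h : lam α ^ i = lam α ^ j) : i = j := by
  unfold lam at h
  rw [← Complex.exp_int_mul, ← Complex.exp_int_mul, Complex.exp_eq_exp_iff_exists_int] at h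
  obtain ⟨k, hk⟩ := h
  have hpi : (2 * Real.pi * I : ℂ) ≠ 0 := Complex.two_pi_I_ne_zero
  have h1 : ((i : ℂ) - j) * α = k := by
    have : (2 * Real.pi * I : ℂ) * (((i : ℂ) - j) * α) = (2 * Real.pi * I) * k := by
      linear_combination hk
    exact mul_left_cancel₀ hpi this
  have h2 : ((i : ℝ) - j) * α = k := by exact_mod_cast h1
  by_contra hne
  have h3 : ((i : ℝ) - j) ≠ 0 := by
    intro h
    apply hne
    have : (i : ℝ) = j := by linarith
    exact_mod_cast this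
  have h4 : Irrational (((i - j : ℤ) : ℝ) * α) := hα.intCast_mul (sub_ne_zero.2 hne)
  apply h4
  refine ⟨k, ?_⟩
  push_cast
  rw [h2]

end ARNAux

theorem specARN (hEVZ : SpecEVZ) : SpecARN := by
  intro p hp S hb hi g α hα heq hn q r hr hq
  by_contra hcon
  push Not at hcon
  set B := Metric.ball q r with hB
  have hE := hEVZ (hf p hp) S hi g α heq
  have hdisj : ∀ i j : ℕ, i ≠ j →
      Disjoint ((hf p hp ^ (i : ℤ)) '' B) ((hf p hp ^ (j : ℤ)) '' B) := by
    intro i j hij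
    rw [Set.disjoint_left]
    rintro _ ⟨z, hz, rfl⟩ ⟨z', hz', h⟩
    have h1 := (hE i z (hq hz)).2
    have h2 := (hE j z' (hq hz')).2
    rw [h, h1, hcon z hz z' hz'] at h2
    have h3 : g z' ≠ 0 := by
      intro h0
      have := hn z' (hq hz')
      rw [h0, norm_zero] at this
      exact zero_ne_one this
    have h4 : lam α ^ (i : ℤ) = lam α ^ (j : ℤ) := mul_right_cancel₀ h3 h2
    exact hij (by exact_mod_cast ARNAux.lam_inj hα h4)
  have hvol : ∀ n : ℕ, n * volume B ≤ volume S := by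
    intro N
    have h3 : volume (⋃ j ∈ Finset.range N, (hf p hp ^ (j : ℤ)) '' B) =
        ∑ j ∈ Finset.range N, volume ((hf p hp ^ (j : ℤ)) '' B) := by
      refine measure_biUnion_finset ?_ fun j _ => ?_
      · intro i _ j _ hij
        exact hdisj i j hij
      · exact ((hf p hp ^ (j : ℤ)).isOpenMap _ Metric.isOpen_ball).measurableSet
    calc N * volume B = ∑ j ∈ Finset.range N, volume B := by simp
      _ = ∑ j ∈ Finset.range N, volume ((hf p hp ^ (j : ℤ)) '' B) :=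
          Finset.sum_congr rfl fun j _ => (vol_zpow hp j B Metric.isOpen_ball).symm
      _ = volume (⋃ j ∈ Finset.range N, (hf p hp ^ (j : ℤ)) '' B) := h3.symm
      _ ≤ volume S := measure_mono (iUnion₂_subset fun j _ => by
          rintro _ ⟨w, hw, rfl⟩
          exact (hE j w (hq hw)).1)
  obtain ⟨n, hn'⟩ := ENNReal.exists_nat_mul_gt (Metric.measure_ball_pos volume q hr).ne'
    (hb.measure_lt_top (μ := volume)).ne
  exact absurd (hvol n) (not_le.2 hn')

end PD

end Pool.Agent.Lib.MP9fa4ca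
end

section
/-!
# MP_9fa4ca_an, PD : AUM, the automorphisms of the disc
-/
set_option autoImplicit false

open Set Topology Filter Complex MeasureTheory

namespace Pool.Agent.Lib.MP9fa4ca

namespace PD

namespace AUMAux

theorem den_ne (a w : ℂ) (ha : ‖a‖ < 1) (hw : ‖w‖ < 1) : 1 - (starRingEnd ℂ) a * w ≠ 0 := by
  intro h
  have h1 : (starRingEnd ℂ) a * w = 1 := (sub_eq_zero.1 h).symm
  have h2 : ‖(starRingEnd ℂ) a * w‖ = 1 := by rw [h1, norm_one]
  rw [norm_mul, Complex.norm_conj] at h2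
  have h3 : ‖a‖ * ‖w‖ < 1 := by
    have := norm_nonneg a
    have := norm_nonneg w
    nlinarith
  linarith

theorem mob_lt (a w : ℂ) (ha : ‖a‖ < 1) (hw : ‖w‖ < 1) :
    ‖(w - a) / (1 - (starRingEnd ℂ) a * w)‖ < 1 := by
  have hne := den_ne a w ha hw
  rw [norm_div, div_lt_one (norm_pos_iff.2 hne)]
  have h1 : ‖a‖ ^ 2 < 1 := by
    have := norm_nonneg a
    nlinarith
  have h2 : ‖w‖ ^ 2 < 1 := by
    have := norm_nonneg w
    nlinarith
  have key : ‖1 - (starRingEnd ℂ) a * w‖ ^ 2 - ‖w - a‖ ^ 2 = (1 - ‖a‖ ^ 2) * (1 - ‖w‖ ^ 2) := by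
    rw [Complex.sq_norm, Complex.sq_norm, Complex.sq_norm, Complex.sq_norm]
    simp only [Complex.normSq_apply, Complex.sub_re, Complex.sub_im, Complex.mul_re,
      Complex.mul_im, Complex.conj_re, Complex.conj_im, Complex.one_re, Complex.one_im]
    ring
  have h3 : ‖w - a‖ ^ 2 < ‖1 - (starRingEnd ℂ) a * w‖ ^ 2 := by nlinarith
  exact lt_of_pow_lt_pow_left₀ 2 (norm_nonneg _) h3

/-- the inverse -/
theorem mob_inv (a w : ℂ) (ha : ‖a‖ < 1) (hw : ‖w‖ < 1) :
    ((w - a) / (1 - (starRingEnd ℂ) a * w) + a) /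
      (1 + (starRingEnd ℂ) a * ((w - a) / (1 - (starRingEnd ℂ) a * w))) = w := by
  have hne := den_ne a w ha hw
  have hn2 : 1 - (starRingEnd ℂ) a * a ≠ 0 := den_ne a a ha ha
  obtain ⟨c, hc⟩ : ∃ c, c = (starRingEnd ℂ) a := ⟨_, rfl⟩
  rw [← hc] at hne hn2 ⊢
  have e1 : (w - a) / (1 - c * w) + a = w * (1 - c * a) / (1 - c * w) := by
    rw [div_add' _ _ _ hne, div_left_inj' hne]
    ring
  have e2 : 1 + c * ((w - a) / (1 - c * w)) = (1 - c * a) / (1 - c * w) := by
    rw [← mul_div_assoc, add_comm, div_add' _ _ _ hne, div_left_inj' hne]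
    ring
  rw [e1, e2, div_div_div_cancel_right₀ hne, mul_div_assoc, div_self hn2, mul_one]

end AUMAux

open AUMAux in
theorem specAUM : SpecAUM := by
  intro τ τ' hH hd hd'
  have b0 : (0 : ℂ) ∈ Metric.ball (0 : ℂ) 1 := by simp
  have mb : ∀ w : ℂ, w ∈ Metric.ball (0 : ℂ) 1 ↔ ‖w‖ < 1 := fun w => by
    rw [Metric.mem_ball, dist_zero_right]
  obtain ⟨a, ha⟩ : ∃ a, a = τ' 0 := ⟨_, rfl⟩
  have ha1 : ‖a‖ < 1 := by rw [← mb, ha]; exact hH.mG 0 b0
  have hna : ‖-a‖ < 1 := by rwa [norm_neg]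
  have hτa : τ a = 0 := by rw [ha]; exact hH.FG 0 b0
  -- the inverse automorphism
  obtain ⟨ν, hν⟩ : ∃ ν : ℂ → ℂ, ν = fun w => (w + a) / (1 + (starRingEnd ℂ) a * w) := ⟨_, rfl⟩
  obtain ⟨μ, hμ⟩ : ∃ μ : ℂ → ℂ, μ = fun w => (w - a) / (1 - (starRingEnd ℂ) a * w) := ⟨_, rfl⟩
  have hμl : ∀ w ∈ Metric.ball (0 : ℂ) 1, μ w ∈ Metric.ball (0 : ℂ) 1 := by
    intro w hw
    rw [mb] at hw ⊢
    rw [hμ]
    exact mob_lt a w ha1 hw
  have hνl : ∀ w ∈ Metric.ball (0 : ℂ) 1, ν w ∈ Metric.ball (0 : ℂ) 1 := by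
    intro w hw
    rw [mb] at hw ⊢
    have := mob_lt (-a) w hna hw
    rw [hν]
    simpa only [map_neg, neg_mul, sub_neg_eq_add] using this
  have hdμ : DifferentiableOn ℂ μ (Metric.ball 0 1) := by
    rw [hμ]
    refine DifferentiableOn.div (by fun_prop) (by fun_prop) fun w hw => ?_
    exact den_ne a w ha1 ((mb w).1 hw)
  have hdν : DifferentiableOn ℂ ν (Metric.ball 0 1) := by
    rw [hν]
    refine DifferentiableOn.div (by fun_prop) (by fun_prop) fun w hw => ?_
    have := den_ne (-a) w hna ((mb w).1 hw)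
    simpa only [map_neg, neg_mul, sub_neg_eq_add] using this
  have hμν : ∀ w ∈ Metric.ball (0 : ℂ) 1, μ (ν w) = w := by
    intro w hw
    have := mob_inv (-a) w hna ((mb w).1 hw)
    rw [hμ, hν]
    simpa only [map_neg, neg_mul, sub_neg_eq_add, ← sub_eq_add_neg] using this
  have hνμ : ∀ w ∈ Metric.ball (0 : ℂ) 1, ν (μ w) = w := by
    intro w hw
    have := mob_inv a w ha1 ((mb w).1 hw)
    rw [hμ, hν]
    exact this
  have hν0 : ν 0 = a := by rw [hν]; simp
  have hμa : μ a = 0 := by rw [hμ]; simp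
  -- the rotation
  obtain ⟨ρ, hρ⟩ : ∃ ρ : ℂ → ℂ, ρ = fun w => τ (ν w) := ⟨_, rfl⟩
  obtain ⟨ρ', hρ'⟩ : ∃ ρ' : ℂ → ℂ, ρ' = fun w => μ (τ' w) := ⟨_, rfl⟩
  have hdρ : DifferentiableOn ℂ ρ (Metric.ball 0 1) := by
    rw [hρ]; exact hd.comp hdν hνl
  have hdρ' : DifferentiableOn ℂ ρ' (Metric.ball 0 1) := by
    rw [hρ']; exact hdμ.comp hd' hH.mG
  have hρl : ∀ w ∈ Metric.ball (0 : ℂ) 1, ρ w ∈ Metric.ball (0 : ℂ) 1 := fun w hw => by
    rw [hρ]; exact hH.mF _ (hνl w hw)
  have hρl' : ∀ w ∈ Metric.ball (0 : ℂ) 1, ρ' w ∈ Metric.ball (0 : ℂ) 1 := fun w hw => by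
    rw [hρ']; exact hμl _ (hH.mG w hw)
  have hρ0 : ρ 0 = 0 := by rw [hρ]; simp only [hν0, hτa]
  have hρ0' : ρ' 0 = 0 := by rw [hρ']; simp only [← ha, hμa]
  have hinv : ∀ w ∈ Metric.ball (0 : ℂ) 1, ρ' (ρ w) = w := by
    intro w hw
    rw [hρ', hρ]
    simp only [hH.GF _ (hνl w hw), hμν w hw]
  have hn1 : ∀ w ∈ Metric.ball (0 : ℂ) 1, ‖ρ w‖ = ‖w‖ := by
    intro w hw
    have h1 : ‖ρ w‖ ≤ ‖w‖ := Complex.norm_le_norm_of_mapsTo_ball hdρ
      (fun z hz => Metric.ball_subset_closedBall (hρl z hz)) hρ0 ((mb w).1 hw)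
    have h2 : ‖ρ' (ρ w)‖ ≤ ‖ρ w‖ := Complex.norm_le_norm_of_mapsTo_ball hdρ'
      (fun z hz => Metric.ball_subset_closedBall (hρl' z hz)) hρ0' ((mb _).1 (hρl w hw))
    rw [hinv w hw] at h2
    exact le_antisymm h1 h2
  have hhalf : (1 / 2 : ℂ) ∈ Metric.ball (0 : ℂ) 1 := by
    rw [mb]
    norm_num
  obtain ⟨η, hη, hlin⟩ := Complex.affine_of_mapsTo_ball_of_exists_norm_dslope_eq_div'
    (f := ρ) (c := 0) (R₁ := 1) (R₂ := 1) hdρ
    (fun z hz => by rw [hρ0]; exact Metric.ball_subset_closedBall (hρl z hz))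
    ⟨1 / 2, hhalf, by
      have hne : (1 / 2 : ℂ) ≠ 0 := by norm_num
      rw [dslope_of_ne _ hne, slope_def_field, hρ0, sub_zero, sub_zero, norm_div, hn1 _ hhalf]
      norm_num⟩
  refine ⟨a, η, ha1, by simpa using hη, fun w hw => ?_⟩
  have h1 : τ w = ρ (μ w) := by rw [hρ]; simp only [hνμ w hw]
  have h2 := hlin (hμl w hw)
  simp only [hρ0, zero_add, sub_zero, smul_eq_mul] at h2
  rw [h1, h2, mul_comm, hμ]

end PD

end Pool.Agent.Lib.MP9fa4ca
end

section
/-!
# MP_9fa4ca_an, PD : AUP, a fixed point on the circle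
-/
set_option autoImplicit false

open Set Topology Filter Complex MeasureTheory

namespace Pool.Agent.Lib.MP9fa4ca

namespace PD

theorem specAUP : SpecAUP := by
  intro a η ha hη hfix
  have hη0 : η ≠ 0 := by
    intro h
    rw [h, norm_zero] at hη
    exact zero_ne_one hη
  have ha0 : a ≠ 0 := by
    intro h
    refine hfix 0 (by simp) ?_
    rw [h]
    simp
  obtain ⟨c, hc⟩ : ∃ c, c = (starRingEnd ℂ) a := ⟨_, rfl⟩
  rw [← hc] at hfix ⊢
  have hcn : ‖c‖ = ‖a‖ := by rw [hc, Complex.norm_conj]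
  have hc0 : c ≠ 0 := by
    rw [← norm_pos_iff, hcn]
    exact norm_pos_iff.2 ha0
  obtain ⟨s, hs⟩ := IsAlgClosed.exists_pow_nat_eq ((η - 1) ^ 2 + 4 * c * (η * a)) (n := 2)
    (by norm_num)
  -- a root of norm at most one is a fixed point on the circle
  have key : ∀ p : ℂ, ‖p‖ ≤ 1 → c * p ^ 2 + (η - 1) * p - η * a = 0 →
      ‖p‖ = 1 ∧ η * ((p - a) / (1 - c * p)) = p := by
    intro p hp hr
    have hne : 1 - c * p ≠ 0 := by
      intro h
      have h1 : c * p = 1 := (sub_eq_zero.1 h).symm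
      have h2 : ‖c * p‖ = 1 := by rw [h1, norm_one]
      rw [norm_mul, hcn] at h2
      have := norm_nonneg a
      have := norm_nonneg p
      nlinarith
    have hfp : η * ((p - a) / (1 - c * p)) = p := by
      rw [← mul_div_assoc, div_eq_iff hne]
      linear_combination hr
    refine ⟨?_, hfp⟩
    rcases hp.lt_or_eq with h | h
    · exact absurd hfp (hfix p (by rwa [Metric.mem_ball, dist_zero_right]))
    · exact h
  obtain ⟨w₁, hw₁⟩ : ∃ w, w = (-(η - 1) + s) / (2 * c) := ⟨_, rfl⟩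
  obtain ⟨w₂, hw₂⟩ : ∃ w, w = (-(η - 1) - s) / (2 * c) := ⟨_, rfl⟩
  have r₁ : c * w₁ ^ 2 + (η - 1) * w₁ - η * a = 0 := by
    rw [hw₁]
    field_simp
    linear_combination hs
  have r₂ : c * w₂ ^ 2 + (η - 1) * w₂ - η * a = 0 := by
    rw [hw₂]
    field_simp
    linear_combination hs
  have hprod : w₁ * w₂ = -(η * a) / c := by
    rw [hw₁, hw₂]
    field_simp
    linear_combination -hs
  have hn : ‖w₁‖ * ‖w₂‖ = 1 := by
    rw [← norm_mul, hprod, norm_div, norm_neg, norm_mul, hη, one_mul, hcn]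
    exact div_self (norm_ne_zero_iff.2 ha0)
  rcases le_or_gt ‖w₁‖ 1 with h | h
  · exact ⟨w₁, key w₁ h r₁⟩
  · have h2 : ‖w₂‖ ≤ 1 := by
      have := norm_nonneg w₂
      nlinarith
    exact ⟨w₂, key w₂ h2 r₂⟩

end PD

end Pool.Agent.Lib.MP9fa4ca
end

section
/-!
# MP_9fa4ca_an, PD : AUT, an automorphism of the disc without fixed point is affine in a half plane
-/
set_option autoImplicit false

open Set Topology Filter Complex MeasureTheory

namespace Pool.Agent.Lib.MP9fa4ca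

namespace PD

namespace AUTAux

/-- the Cayley map of the disc onto the right half plane which sends `p` to infinity -/
noncomputable def G (q w : ℂ) : ℂ := 1 / (1 - q * w) - 1 / 2

/-- its inverse -/
noncomputable def G' (p ξ : ℂ) : ℂ := p * (1 - 1 / (ξ + 1 / 2))

theorem one_sub_ne {q w : ℂ} (hq : ‖q‖ = 1) (hw : ‖w‖ < 1) : 1 - q * w ≠ 0 := by
  intro h
  have h1 : q * w = 1 := by linear_combination -h
  have h2 : ‖q * w‖ = 1 := by rw [h1, norm_one]
  rw [norm_mul, hq, one_mul] at h2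
  linarith

theorem half_ne {ξ : ℂ} (h : 0 < ξ.re) : ξ + 1 / 2 ≠ 0 := by
  intro h0
  have h1 := congrArg Complex.re h0
  simp at h1
  linarith

theorem re_pos {q w : ℂ} (hq : ‖q‖ = 1) (hw : ‖w‖ < 1) : 0 < (G q w).re := by
  have hne := one_sub_ne hq hw
  have hu : ‖q * w‖ < 1 := by rw [norm_mul, hq, one_mul]; exact hw
  set u := q * w with hu'
  have h1 : (G q w) = (1 + u) / (2 * (1 - u)) := by
    rw [G, ← hu']
    field_simp
    ring
  have h2 : normSq u < 1 := by
    rw [normSq_eq_norm_sq]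
    have := norm_nonneg u
    nlinarith
  have h3 : 0 < normSq (1 - u) := normSq_pos.2 hne
  have h4 : (1 + u) / (2 * (1 - u)) =
      ((1 + u) * (starRingEnd ℂ) (1 - u)) / ((2 * normSq (1 - u) : ℝ) : ℂ) := by
    have h5 : ((normSq (1 - u) : ℝ) : ℂ) = (1 - u) * (starRingEnd ℂ) (1 - u) :=
      (mul_conj _).symm
    have h6 : (starRingEnd ℂ) (1 - u) ≠ 0 := by
      simpa only [ne_eq, map_eq_zero] using hne
    push_cast
    rw [h5]
    field_simp
  rw [h1, h4, div_ofReal_re]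
  apply div_pos _ (by positivity)
  rw [normSq_apply] at h2
  simp only [mul_re, add_re, one_re, map_sub, map_one, sub_re, conj_re, add_im, one_im, sub_im,
    conj_im]
  nlinarith

theorem norm_lt {p ξ : ℂ} (hp : ‖p‖ = 1) (h : 0 < ξ.re) : ‖G' p ξ‖ < 1 := by
  have hne := half_ne h
  have h1 : G' p ξ = p * ((ξ - 1 / 2) / (ξ + 1 / 2)) := by
    rw [G']
    congr 1
    rw [eq_div_iff hne, sub_mul, one_mul, one_div_mul_cancel hne]
    ring
  rw [h1, norm_mul, hp, one_mul, norm_div, div_lt_one (norm_pos_iff.2 hne)]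
  have h2 : ‖ξ - 1 / 2‖ ^ 2 < ‖ξ + 1 / 2‖ ^ 2 := by
    rw [← normSq_eq_norm_sq, ← normSq_eq_norm_sq, normSq_apply, normSq_apply]
    simp
    nlinarith
  exact lt_of_pow_lt_pow_left₀ 2 (norm_nonneg _) h2

theorem hom {p q : ℂ} (hp : ‖p‖ = 1) (hq : ‖q‖ = 1) (hpq : p * q = 1) :
    Hom (Metric.ball (0 : ℂ) 1) {ξ : ℂ | 0 < ξ.re} (G q) (G' p) where
  cF := by
    intro w hw
    rw [mem_ball_zero_iff] at hw
    have hne := one_sub_ne hq hw
    apply ContinuousAt.continuousWithinAt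
    unfold G
    apply ContinuousAt.sub _ continuousAt_const
    exact ContinuousAt.div continuousAt_const (by fun_prop) hne
  cG := by
    intro ξ hξ
    have hne := half_ne hξ
    apply ContinuousAt.continuousWithinAt
    unfold G'
    apply ContinuousAt.mul continuousAt_const
    apply ContinuousAt.sub continuousAt_const
    exact ContinuousAt.div continuousAt_const (by fun_prop) hne
  mF := fun w hw => re_pos hq (by rwa [mem_ball_zero_iff] at hw)
  mG := fun ξ hξ => by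
    rw [mem_ball_zero_iff]
    exact norm_lt hp hξ
  GF := fun w hw => by
    rw [mem_ball_zero_iff] at hw
    have hne := one_sub_ne hq hw
    rw [G', G, sub_add_cancel, one_div_one_div]
    linear_combination w * hpq
  FG := fun ξ hξ => by
    have hne := half_ne hξ
    have h1 : 1 - q * G' p ξ = 1 / (ξ + 1 / 2) := by
      rw [G']
      linear_combination (1 / (ξ + 1 / 2) - 1) * hpq
    rw [G, h1, one_div_one_div]
    ring

end AUTAux

open AUTAux in
theorem specAUT (hAUM : SpecAUM) (hAUP : SpecAUP) : SpecAUT := by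
  intro τ τ' hτ hd hd' hfix
  obtain ⟨a, η, ha, hη, hM⟩ := hAUM τ τ' hτ hd hd'
  obtain ⟨p, hp, hpM⟩ := hAUP a η ha hη fun w hw h => hfix w hw (by rw [hM w hw, h])
  set q : ℂ := (starRingEnd ℂ) p with hq
  set a' : ℂ := (starRingEnd ℂ) a with ha'
  have hq1 : ‖q‖ = 1 := by rw [hq, norm_conj, hp]
  have ha1 : ‖a'‖ < 1 := by rw [ha', norm_conj]; exact ha
  have hpq : p * q = 1 := by
    rw [hq, mul_conj, normSq_eq_norm_sq, hp]
    norm_num
  have hn : 0 < 1 - ‖a‖ ^ 2 := by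
    have := norm_nonneg a
    nlinarith
  have hnC : ((1 - ‖a‖ ^ 2 : ℝ) : ℂ) = 1 - a * a' := by
    rw [ha', mul_conj, normSq_eq_norm_sq]
    push_cast
    ring
  have hn0 : (1 - a * a' : ℂ) ≠ 0 := by
    rw [← hnC]
    exact_mod_cast hn.ne'
  have h1p : 1 - a' * p ≠ 0 := by
    rw [mul_comm]
    exact one_sub_ne hp ha1
  have hpa : p - a ≠ 0 := by
    intro h
    have h1 : p = a := by linear_combination h
    rw [← h1, hp] at ha
    exact lt_irrefl _ ha
  have hηp : η * (p - a) = p * (1 - a' * p) := by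
    have h2 := hpM
    rw [← mul_div_assoc, div_eq_iff h1p] at h2
    exact h2
  -- the constants
  set A : ℝ := normSq (1 - a' * p) / (1 - ‖a‖ ^ 2) with hA
  set B : ℝ := (a' * p).im / (1 - ‖a‖ ^ 2) with hB
  have hA0 : 0 < A := div_pos (normSq_pos.2 h1p) hn
  have hAC : (A : ℂ) * (1 - a * a') = (1 - a' * p) * (1 - a * q) := by
    rw [← hnC, hA, ← ofReal_mul, div_mul_cancel₀ _ hn.ne', ← mul_conj]
    congr 1
    rw [map_sub, map_one, map_mul, ha', conj_conj, hq]
  have hBC : (B : ℂ) * I * (1 - a * a') = (a' * p - a * q) / 2 := by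
    have h3 : ((a' * p).im : ℂ) * I = (a' * p - a * q) / 2 := by
      have h4 : (starRingEnd ℂ) (a' * p) = a * q := by rw [map_mul, ha', conj_conj, hq]
      rw [← h4]
      apply Complex.ext
      · simp
      · simp
        ring
    rw [← hnC, ← h3, hB]
    rw [mul_right_comm, ← ofReal_mul, div_mul_cancel₀ _ hn.ne']
  have key : ∀ w ∈ Metric.ball (0 : ℂ) 1, G q (τ w) = A * G q w + B * I := by
    intro w hw
    have hw' : ‖w‖ < 1 := by rwa [mem_ball_zero_iff] at hw
    have h1w : 1 - a' * w ≠ 0 := by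
      intro h
      have h1 : a' * w = 1 := by linear_combination -h
      have h2 : ‖a' * w‖ = 1 := by rw [h1, norm_one]
      rw [norm_mul] at h2
      have := norm_nonneg w
      have := norm_nonneg a'
      nlinarith
    have hqw := one_sub_ne hq1 hw'
    have hpw : p - w ≠ 0 := by
      intro h
      have h1 : p = w := by linear_combination h
      rw [← h1, hp] at hw'
      exact lt_irrefl _ hw'
    have e1 : (p - a) * (1 - a' * w) * (1 - q * τ w) = (p - w) * (1 - a * a') := by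
      have e0 : τ w * (1 - a' * w) = η * (w - a) := by
        rw [hM w hw, mul_assoc, div_mul_cancel₀ _ h1w]
      linear_combination (-q * (p - a)) * e0 - q * (w - a) * hηp - (1 - a' * p) * (w - a) * hpq
    have e2 : 1 / (1 - q * τ w) = (p - a) * (1 - a' * w) / ((p - w) * (1 - a * a')) := by
      have e2' : 1 - q * τ w ≠ 0 := by
        intro h0
        rw [h0, mul_zero] at e1
        exact mul_ne_zero hpw hn0 e1.symm
      rw [div_eq_div_iff e2' (mul_ne_zero hpw hn0)]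
      linear_combination -e1
    have e3 : 1 / (1 - q * w) = p / (p - w) := by
      rw [div_eq_div_iff hqw hpw]
      linear_combination w * hpq
    have e4 : (G q (τ w) - (A * G q w + B * I)) * ((p - w) * (1 - a * a')) = 0 := by
      rw [G, G, e2, e3]
      have e5 : (p - a) * (1 - a' * w) / ((p - w) * (1 - a * a')) * ((p - w) * (1 - a * a')) =
          (p - a) * (1 - a' * w) := div_mul_cancel₀ _ (mul_ne_zero hpw hn0)
      have e6 : p / (p - w) * (p - w) = p := div_mul_cancel₀ _ hpw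
      linear_combination e5 - (A * (1 - a * a')) * e6 - (p - (p - w) / 2) * hAC - (p - w) * hBC
        + (a - a * a' * (p + w) / 2) * hpq
    have e7 := (mul_eq_zero.1 e4).resolve_right (mul_ne_zero hpw hn0)
    linear_combination e7
  have hH := hom hp hq1 hpq
  refine ⟨G q, G' p, A, B, hH, hA0, ?_, key⟩
  rintro ⟨h1, h2⟩
  have h0 : (0 : ℂ) ∈ Metric.ball (0 : ℂ) 1 := by simp
  have h3 := key 0 h0
  rw [h1, h2] at h3
  have h4 : G q (τ 0) = G q 0 := by
    rw [h3]
    push_cast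
    ring
  have h5 := congrArg (G' p) h4
  rw [hH.GF _ (hτ.mF 0 h0), hH.GF 0 h0] at h5
  exact hfix 0 h0 h5

end PD

end Pool.Agent.Lib.MP9fa4ca
end

section
/-!
# MP_9fa4ca_an, PD : BND, bounded invariant sets are uniformly bounded
-/
set_option autoImplicit false

open Set Topology Filter Complex MeasureTheory

namespace Pool.Agent.Lib.MP9fa4ca

namespace PD

namespace BNDAux

noncomputable def B {d : ℕ} (c : Fin (d + 1) → ℝ) : ℝ := 1 + (2 + ∑ i, |c i|) / |c (Fin.last d)|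

theorem contAt_B {d : ℕ} (c₀ : Fin (d + 1) → ℝ) (h : c₀ (Fin.last d) ≠ 0) : ContinuousAt B c₀ := by
  unfold B
  refine continuousAt_const.add (ContinuousAt.div ?_ ?_ (abs_ne_zero.2 h))
  · exact Continuous.continuousAt (by fun_prop)
  · exact Continuous.continuousAt (by fun_prop)

theorem key {d : ℕ} (hd : 2 ≤ d) (c : Fin (d + 1) → ℝ) (h : c (Fin.last d) ≠ 0) (S : Set ℂ)
    (hb : Bornology.IsBounded S) (hi : ∀ z, fc c z ∈ S ↔ z ∈ S) : ∀ z ∈ S, ‖z‖ ≤ 2 * B c := by
  intro z hz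
  set T := (fun z : ℂ => |z.re|) '' S with hT
  have hTb : BddAbove T := by
    obtain ⟨R, hR⟩ := hb.exists_norm_le
    refine ⟨R, ?_⟩
    rintro _ ⟨w, hw, rfl⟩
    exact (Complex.abs_re_le_norm w).trans (hR w hw)
  have hTn : T.Nonempty := ⟨_, z, hz, rfl⟩
  set M := sSup T with hM
  have hre : ∀ w ∈ S, |w.re| ≤ M := fun w hw => le_csSup hTb ⟨w, hw, rfl⟩
  have hfre : ∀ w, (fc c w).re = pol c w.re - w.im := fun w => by
    rw [fc_apply]; simp [hen]
  have hfim : ∀ w, (fc c w).im = w.re := fun w => by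
    rw [fc_apply]; simp [hen]
  have him : ∀ w ∈ S, |w.im| ≤ M := by
    intro w hw
    have h1 : (fc c).symm w ∈ S := by
      rw [← hi, Homeomorph.apply_symm_apply]; exact hw
    have h2 := hre _ h1
    have h3 := hfim ((fc c).symm w)
    rw [Homeomorph.apply_symm_apply] at h3
    rwa [h3]
  have hc : 0 < |c (Fin.last d)| := abs_pos.2 h
  have hL : 0 ≤ ∑ i, |c i| := Finset.sum_nonneg fun i _ => abs_nonneg _
  have hMB : M ≤ B c := by
    by_cases hM1 : M ≤ 1
    · refine hM1.trans ?_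
      unfold B
      have : 0 ≤ (2 + ∑ i, |c i|) / |c (Fin.last d)| := by positivity
      linarith
    · push Not at hM1
      have hcl : M ∈ closure T := csSup_mem_closure hTn hTb
      have hclosed : IsClosed {y : ℝ | |c (Fin.last d)| * y ^ d ≤ (2 + ∑ i, |c i|) * M ^ (d - 1)} :=
        isClosed_le (by fun_prop) (by fun_prop)
      have hsub : T ⊆ {y : ℝ | |c (Fin.last d)| * y ^ d ≤ (2 + ∑ i, |c i|) * M ^ (d - 1)} := by
        rintro _ ⟨w, hw, rfl⟩
        have h1 : |pol c w.re| ≤ 2 * M := by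
          have h2 : pol c w.re = (fc c w).re + w.im := by rw [hfre]; ring
          rw [h2]
          have h3 := hre _ ((hi w).2 hw)
          have h4 := him w hw
          have := abs_add_le (fc c w).re w.im
          linarith
        have h5 : pol c w.re = (∑ i : Fin d, c i.castSucc * w.re ^ (i : ℕ)) +
            c (Fin.last d) * w.re ^ d := by
          unfold pol
          rw [Fin.sum_univ_castSucc]
          simp
        have h6 : |∑ i : Fin d, c i.castSucc * w.re ^ (i : ℕ)| ≤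
            (∑ i : Fin d, |c i.castSucc|) * M ^ (d - 1) := by
          refine (Finset.abs_sum_le_sum_abs _ _).trans ?_
          rw [Finset.sum_mul]
          refine Finset.sum_le_sum fun i _ => ?_
          rw [abs_mul, abs_pow]
          refine mul_le_mul_of_nonneg_left ?_ (abs_nonneg _)
          calc |w.re| ^ (i : ℕ) ≤ M ^ (i : ℕ) := pow_le_pow_left₀ (abs_nonneg _) (hre w hw) _
            _ ≤ M ^ (d - 1) := pow_le_pow_right₀ hM1.le (by have := i.2; omega)
        have h7 : ∑ i : Fin d, |c i.castSucc| ≤ ∑ i, |c i| := by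
          rw [Fin.sum_univ_castSucc]
          have := abs_nonneg (c (Fin.last d))
          linarith
        have h8 : M ≤ M ^ (d - 1) := by
          calc M = M ^ 1 := (pow_one M).symm
            _ ≤ M ^ (d - 1) := pow_le_pow_right₀ hM1.le (by omega)
        have h9 : |c (Fin.last d) * w.re ^ d| ≤ 2 * M + (∑ i : Fin d, |c i.castSucc|) * M ^ (d - 1) := by
          have h10 : c (Fin.last d) * w.re ^ d =
              pol c w.re - ∑ i : Fin d, c i.castSucc * w.re ^ (i : ℕ) := by rw [h5]; ring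
          rw [h10]
          have := abs_sub (pol c w.re) (∑ i : Fin d, c i.castSucc * w.re ^ (i : ℕ))
          linarith
        rw [abs_mul, abs_pow] at h9
        show |c (Fin.last d)| * |w.re| ^ d ≤ (2 + ∑ i, |c i|) * M ^ (d - 1)
        have h11 : (∑ i : Fin d, |c i.castSucc|) * M ^ (d - 1) ≤ (∑ i, |c i|) * M ^ (d - 1) :=
          mul_le_mul_of_nonneg_right h7 (by positivity)
        have : (2 + ∑ i, |c i|) * M ^ (d - 1) = 2 * M ^ (d - 1) + (∑ i, |c i|) * M ^ (d - 1) := by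
          ring
        rw [this]
        linarith
      have h12 : |c (Fin.last d)| * M ^ d ≤ (2 + ∑ i, |c i|) * M ^ (d - 1) :=
        closure_minimal hsub hclosed hcl
      have hMp : 0 < M ^ (d - 1) := by positivity
      have h13 : M ^ d = M * M ^ (d - 1) := by
        conv_lhs => rw [show d = (d - 1) + 1 by omega, pow_succ']
      rw [h13, ← mul_assoc] at h12
      have h14 : |c (Fin.last d)| * M ≤ 2 + ∑ i, |c i| := le_of_mul_le_mul_right h12 hMp
      unfold B
      have h15 : M ≤ (2 + ∑ i, |c i|) / |c (Fin.last d)| := by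
        rw [le_div_iff₀ hc]
        linarith
      linarith
  calc ‖z‖ ≤ |z.re| + |z.im| := Complex.norm_le_abs_re_add_abs_im z
    _ ≤ M + M := add_le_add (hre z hz) (him z hz)
    _ ≤ 2 * B c := by linarith

end BNDAux

theorem specBND : SpecBND := by
  intro d hd c₀ h0
  have h1 : ∀ᶠ c in 𝓝 c₀, BNDAux.B c < BNDAux.B c₀ + 1 :=
    (BNDAux.contAt_B c₀ h0).eventually (gt_mem_nhds (by linarith))
  have h2 : ∀ᶠ c : Fin (d + 1) → ℝ in 𝓝 c₀, c (Fin.last d) ≠ 0 :=
    (continuous_apply (Fin.last d)).continuousAt.eventually_ne h0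
  refine ⟨_, h1.and h2, 2 * (BNDAux.B c₀ + 1), ?_⟩
  rintro c ⟨hc1, hc2⟩ S hb hi z hz
  have := BNDAux.key hd c hc2 S hb hi z hz
  rw [mem_ball_zero_iff]
  linarith

end PD

end Pool.Agent.Lib.MP9fa4ca
end

section
/-!
# MP_9fa4ca_an, PD : CNN, the cover is connected
-/
set_option autoImplicit false

open Set Topology Filter Complex MeasureTheory

namespace Pool.Agent.Lib.MP9fa4ca

namespace PD

namespace CNNM

/-- two values of a continuous function of the line with values in `Y` are joined in `Y` -/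
theorem joined {Y : Set ℂ} {l : ℝ → ℂ} (hl : Continuous l) (h : ∀ x, l x ∈ Y) (x y : ℝ) :
    JoinedIn Y (l x) (l y) := by
  have h1 : IsPathConnected (range l) := isPathConnected_range hl
  exact (h1.joinedIn (l x) ⟨x, rfl⟩ (l y) ⟨y, rfl⟩).mono (by
    rintro _ ⟨z, rfl⟩
    exact h z)

theorem iter {L : ℝ → ℂ} {m : ℤ} (h : ∀ x, L (x + 1) = L x + m * (2 * Real.pi * I)) (n : ℤ) :
    L n = L 0 + (n * m : ℤ) * (2 * Real.pi * I) := by
  induction n using Int.induction_on with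
  | zero => simp
  | succ k ih =>
    have h1 := h (k : ℝ)
    push_cast at ih ⊢
    rw [h1, ih]
    ring
  | pred k ih =>
    have h1 := h (-(k : ℝ) - 1)
    rw [sub_add_cancel] at h1
    push_cast at ih ⊢
    rw [h1] at ih
    linear_combination ih

end CNNM

theorem specCNN : SpecCNN := by
  intro O hO hOc b hb γ hγ hdeg
  obtain ⟨m, hm, L, hL, hLe, hLm⟩ : ∃ m : ℤ, m * m = 1 ∧ LDeg (fun x => γ x - b) m := by
    rcases hdeg with h | h
    · exact ⟨1, by norm_num, h⟩
    · exact ⟨-1, by norm_num, h⟩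
  have hLY : ∀ x, L x ∈ {ζ | exp ζ + b ∈ O} := by
    intro x
    rw [mem_ofPred_eq, hLe, sub_add_cancel]
    exact hγ.mem x
  have h1 : ∀ k : ℤ, JoinedIn {ζ | exp ζ + b ∈ O} (L 0) (L 0 + k * (2 * Real.pi * I)) := by
    intro k
    have h2 := CNNM.joined hL hLY 0 ((k * m : ℤ) : ℝ)
    rw [CNNM.iter hLm (k * m), mul_assoc k m m, hm, mul_one] at h2
    exact h2
  have hpc : IsPathConnected O := hO.isConnected_iff_isPathConnected.1 hOc
  refine IsPathConnected.isConnected ⟨L 0, hLY 0, ?_⟩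
  intro ζ hζ
  have hj : JoinedIn O (exp ζ + b) (γ 0) := hpc.joinedIn _ hζ _ (hγ.mem 0)
  obtain ⟨c, hc⟩ := hj
  have hcO : ∀ x, c.extend x ∈ O := fun x => hc _
  obtain ⟨M, hM, hMe⟩ := exists_log (fun x : ℝ => c.extend x - b)
    (c.continuous_extend.sub continuous_const) (fun x hx => hb (by
      have := hcO x
      rwa [sub_eq_zero.1 hx] at this))
  obtain ⟨j, hj⟩ : ∃ j : ℤ, M 0 = ζ + j * (2 * Real.pi * I) := by
    apply Complex.exp_eq_exp_iff_exists_int.1
    rw [hMe]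
    simp
  obtain ⟨k, hk⟩ : ∃ k : ℤ, M 1 = L 0 + k * (2 * Real.pi * I) := by
    apply Complex.exp_eq_exp_iff_exists_int.1
    rw [hMe, hLe]
    simp
  have h2 : JoinedIn {ζ | exp ζ + b ∈ O} (M 0 - j * (2 * Real.pi * I))
      (M 1 - j * (2 * Real.pi * I)) := by
    refine CNNM.joined (l := fun x => M x - j * (2 * Real.pi * I)) (by fun_prop) ?_ 0 1
    intro x
    rw [mem_ofPred_eq, exp_sub, Complex.exp_int_mul_two_pi_mul_I, div_one, hMe, sub_add_cancel]
    exact hcO x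
  rw [hj, hk, add_sub_cancel_right] at h2
  have h3 := h1 (k - j)
  have h4 : L 0 + (k : ℂ) * (2 * Real.pi * I) - j * (2 * Real.pi * I) =
      L 0 + ((k - j : ℤ) : ℂ) * (2 * Real.pi * I) := by
    push_cast
    ring
  rw [h4] at h2
  exact h3.trans h2.symm

end PD

end Pool.Agent.Lib.MP9fa4ca
end

section
/-!
# MP_9fa4ca_an, PD : CNV, the eigenfunctions converge
-/
set_option autoImplicit false

open Set Topology Filter Complex MeasureTheory

namespace Pool.Agent.Lib.MP9fa4ca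

namespace PD

universe u

theorem specCNV (hEQC : SpecEQC.{u}) (hLIX : SpecLIX.{u}) (hUNQ : SpecUNQ.{u}) :
    SpecCNV.{u} := by
  intro X _ d D t ht z hz
  have hzU : z ∈ D.Ut t := connectedComponentIn_subset _ _ hz
  have hne : (𝓝[D.P] t).NeBot := mem_closure_iff_nhdsWithin_neBot.1 (D.cl ht)
  obtain ⟨g, hg⟩ := hLIX X d D t (Ultrafilter.of (𝓝[D.P] t)) (Ultrafilter.of_le _)
  refine ⟨g z, ?_⟩
  have h1 : Tendsto (fun t' => D.h t' z) (𝓝[D.P] t) (𝓝 (g z)) := by
    rw [tendsto_iff_ultrafilter]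
    intro W hW
    obtain ⟨g', hg'⟩ := hLIX X d D t W hW
    have h := hg' z hzU
    rwa [hUNQ X d D t ht W (Ultrafilter.of (𝓝[D.P] t)) hW (Ultrafilter.of_le _) g' g hg' hg z hz]
      at h
  rw [Metric.tendsto_nhds]
  intro ε hε
  obtain ⟨N, hN, r, hr, h2⟩ := hEQC X d D t z hzU (ε / 2) (half_pos hε)
  have h3 := (Metric.tendsto_nhds.1 h1) (ε / 2) (half_pos hε)
  have h4 : ∀ᶠ t' in 𝓝[D.P] t, t' ∈ N := mem_nhdsWithin_of_mem_nhds hN
  have h5 : ∀ᶠ t' in 𝓝[D.P] t, t' ∈ D.P := self_mem_nhdsWithin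
  have h6 : ∀ᶠ y in 𝓝 z, y ∈ Metric.ball z r := Metric.ball_mem_nhds z hr
  rw [nhdsWithin_prod_eq, nhdsWithin_univ]
  filter_upwards [((h3.and h4).and h5).prod_mk h6]
  rintro ⟨t', y⟩ ⟨⟨⟨h7, h8⟩, h9⟩, h10⟩
  have h11 := (h2 t' h8 h9).2 y h10
  rw [← dist_eq_norm] at h11
  have h12 : dist (D.hh (t', y)) (g z) ≤ dist (D.h t' y) (D.h t' z) + dist (D.h t' z) (g z) :=
    dist_triangle _ _ _
  simp only at h7
  linarith

end PD

end Pool.Agent.Lib.MP9fa4ca
end

section
/-!
# Module WND: the winding number is constant on connected sets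
-/
set_option autoImplicit false

open Set Topology Filter Complex MeasureTheory

namespace Pool.Agent.Lib.MP9fa4ca

namespace PD

namespace WNDAux

theorem fract_eq {Y : Type*} {γ : ℝ → Y} (hp : ∀ x, γ (x + 1) = γ x) (x : ℝ) :
    γ (Int.fract x) = γ x := by
  have h : Function.Periodic γ 1 := hp
  have := h.sub_zsmul_eq (x := x) ⌊x⌋
  rw [← this, Int.fract]
  simp

theorem exists_min (g : ℝ → ℝ) (hg : Continuous g) (hp : ∀ x, g (x + 1) = g x) :
    ∃ y, ∀ x, g y ≤ g x := by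
  obtain ⟨y, -, hy⟩ := (isCompact_Icc (a := (0 : ℝ)) (b := 1)).exists_isMinOn
    (nonempty_Icc.2 zero_le_one) hg.continuousOn
  refine ⟨y, fun x => ?_⟩
  rw [← fract_eq hp x]
  exact hy ⟨Int.fract_nonneg x, (Int.fract_lt_one x).le⟩

theorem exists_max (g : ℝ → ℝ) (hg : Continuous g) (hp : ∀ x, g (x + 1) = g x) :
    ∃ y, ∀ x, g x ≤ g y := by
  obtain ⟨y, hy⟩ := exists_min (fun x => -g x) hg.neg (fun x => by rw [hp])
  exact ⟨y, fun x => neg_le_neg_iff.1 (hy x)⟩

/-- a continuous periodic function without zeros has a degree -/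
theorem exists_ldeg (φ : ℝ → ℂ) (hφ : Continuous φ) (hp : ∀ x, φ (x + 1) = φ x)
    (h0 : ∀ x, φ x ≠ 0) : ∃ m, LDeg φ m := by
  obtain ⟨L, hL, hLe⟩ := exists_log φ hφ h0
  obtain ⟨k, hk⟩ := log_unique (fun x => L (x + 1)) L (by fun_prop) hL
    (fun x => by rw [hLe, hLe, hp])
  exact ⟨k, L, hL, hLe, hk⟩

end WNDAux

open WNDAux in
theorem specWND : SpecWND := by
  intro σ hσ hp S hS hσS b hb b' hb'
  have hdeg : ∀ b ∈ S, ∃ m, LDeg (fun x => σ x - b) m := by
    intro b hb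
    refine exists_ldeg _ (hσ.sub continuous_const) (fun x => by rw [hp]) fun x => ?_
    rw [sub_ne_zero]
    rintro h
    exact hσS x (h ▸ hb)
  have hnear : ∀ b ∈ S, ∃ δ : ℝ, 0 < δ ∧ ∀ b₁ : ℂ, ‖b₁ - b‖ < δ → ∀ m,
      LDeg (fun x => σ x - b) m → LDeg (fun x => σ x - b₁) m := by
    intro b hb
    obtain ⟨y, hy⟩ := exists_min (fun x => ‖σ x - b‖) (by fun_prop) (fun x => by rw [hp])
    refine ⟨‖σ y - b‖, ?_, fun b₁ hb₁ m hm => ?_⟩
    · rw [norm_pos_iff, sub_ne_zero]
      intro h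
      exact hσS y (h ▸ hb)
    · refine hm.of_near (hσ.sub continuous_const) (fun x => by rw [hp]) fun x => ?_
      have : σ x - b₁ - (σ x - b) = -(b₁ - b) := by ring
      rw [this, norm_neg]
      exact hb₁.trans_le (hy x)
  refine hS.induction₂' (fun b b' => LDeg (fun x => σ x - b) 0 → LDeg (fun x => σ x - b') 0)
    (fun b hb => ?_) (fun x y z _ _ _ h1 h2 h3 => h2 (h1 h3)) hb hb'
  obtain ⟨δ, hδ, hn⟩ := hnear b hb
  obtain ⟨m, hm⟩ := hdeg b hb
  have hball : Metric.ball b δ ∈ 𝓝 b := Metric.ball_mem_nhds b hδ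
  filter_upwards [mem_nhdsWithin_of_mem_nhds hball] with b₁ hb₁
  rw [Metric.mem_ball, dist_eq_norm] at hb₁
  refine ⟨hn b₁ hb₁ 0, fun h => ?_⟩
  have h1 := (hn b₁ hb₁ m hm).unique h
  rw [← h1]
  exact hm

end PD

end Pool.Agent.Lib.MP9fa4ca
end

section
/-!
# Module CPS: the filled loop is compact
-/
set_option autoImplicit false

open Set Topology Filter Complex MeasureTheory

namespace Pool.Agent.Lib.MP9fa4ca

namespace PD

namespace CPSAux

theorem not_self (σ : ℝ → ℂ) (x : ℝ) : ¬ LDeg (fun y => σ y - σ x) 0 := by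
  rintro ⟨L, -, hL, -⟩
  have h := hL x
  simp only [sub_self] at h
  exact exp_ne_zero _ h

theorem ldeg_const {c : ℂ} (hc : c ≠ 0) : LDeg (fun _ => c) 0 :=
  ⟨fun _ => log c, continuous_const, fun _ => exp_log hc, fun _ => by simp⟩

end CPSAux

open CPSAux in
theorem specCPS : SpecCPS := by
  intro σ hσ hp
  refine ⟨Metric.isCompact_of_isClosed_isBounded ?_ ?_, not_self σ⟩
  · rw [← isOpen_compl_iff, Metric.isOpen_iff]
    intro z hz
    have hz' : LDeg (fun x => σ x - z) 0 := by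
      by_contra h
      exact hz h
    obtain ⟨y, hy⟩ := WNDAux.exists_min (fun x => ‖σ x - z‖) (by fun_prop) (fun x => by rw [hp])
    refine ⟨‖σ y - z‖, ?_, fun z' hz₁ h => ?_⟩
    · rw [gt_iff_lt, norm_pos_iff, sub_ne_zero]
      intro h
      rw [← h] at hz'
      exact not_self σ y hz'
    · refine h (hz'.of_near (hσ.sub continuous_const) (fun x => by rw [hp]) fun x => ?_)
      rw [Metric.mem_ball, dist_eq_norm] at hz₁
      have : σ x - z' - (σ x - z) = -(z' - z) := by ring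
      rw [this, norm_neg]
      exact hz₁.trans_le (hy x)
  · obtain ⟨y, hy⟩ := WNDAux.exists_max (fun x => ‖σ x‖) (by fun_prop) (fun x => by rw [hp])
    rw [isBounded_iff_forall_norm_le]
    refine ⟨‖σ y‖, fun z hz => ?_⟩
    by_contra hlt
    rw [not_le] at hlt
    apply hz
    have hz0 : z ≠ 0 := by
      rintro rfl
      rw [norm_zero] at hlt
      exact absurd (norm_nonneg (σ y)) (not_le.2 hlt)
    refine (ldeg_const (neg_ne_zero.2 hz0)).of_near (hσ.sub continuous_const)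
      (fun x => by rw [hp]) fun x => ?_
    have : σ x - z - -z = σ x := by ring
    rw [this, norm_neg]
    exact (hy x).trans_lt hlt

end PD

end Pool.Agent.Lib.MP9fa4ca
end

section
/-!
# PD/CRB : crossings
-/
set_option autoImplicit false

open Set Topology Filter Complex MeasureTheory

namespace Pool.Agent.Lib.MP9fa4ca.PD

theorem specCRB (hHTI : SpecHTI) (hLFB : SpecLFB) : SpecCRB := by
  intro p hp A e C h hD q ρ hball χ hχ z hz z' hz' m j h1 h2
  have hρ : 0 < ρ := lt_of_le_of_lt dist_nonneg (Metric.mem_ball.1 hz)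
  obtain ⟨-, -, -, -, hle, hge⟩ := hHTI p A e C
  obtain ⟨s, hs, hP, hχs⟩ := hLFB p A e C h hD q ρ hρ hball χ hχ
  have hseg : segment ℝ z z' ⊆ Metric.ball q ρ := (convex_ball q ρ).segment_subset hz hz'
  have hcont : ContinuousOn (fun y => C.θ ((C.F ^ m) (s y))) (segment ℝ z z') :=
    C.cut.cont.comp_continuousOn ((C.F ^ m).continuous.comp_continuousOn (hs.mono hseg))
  have hz1 : C.θ ((C.F ^ m) (s z)) ≤ j := hle _ _ _ (by rw [hχs z hz]; exact h1)
  have hz2 : (j : ℝ) ≤ C.θ ((C.F ^ m) (s z')) := hge _ _ _ (by rw [hχs z' hz']; exact h2)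
  obtain ⟨y, hy, hyj⟩ := (convex_segment z z').isPreconnected.intermediate_value
    (left_mem_segment ℝ z z') (right_mem_segment ℝ z z') hcont ⟨hz1, hz2⟩
  obtain ⟨t, ht0, ht1, ht⟩ := (C.int ((C.F ^ m) (s y))).1 ⟨j, hyj⟩
  refine ⟨y, hy, t, ht0, ht1, ?_⟩
  rw [C.lft_zpow hp, hP y (hseg hy)] at ht
  rw [ht, diag_eq]

end Pool.Agent.Lib.MP9fa4ca.PD
end

section
/-!
# MP_9fa4ca_an, PD : DCA, a plane domain with one hole is an annulus (assembly)
-/
set_option autoImplicit false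

open Set Topology Filter Complex MeasureTheory

namespace Pool.Agent.Lib.MP9fa4ca

namespace PD

theorem Hom.trans {Y Z W : Type*} [TopologicalSpace Y] [TopologicalSpace Z] [TopologicalSpace W]
    {S : Set Y} {S' : Set Z} {S'' : Set W} {F : Y → Z} {G : Z → Y} {F' : Z → W} {G' : W → Z}
    (h : Hom S S' F G) (h' : Hom S' S'' F' G') : Hom S S'' (F' ∘ F) (G ∘ G') where
  cF := h'.cF.comp h.cF h.mF
  cG := h.cG.comp h'.cG h'.mG
  mF := fun y hy => h'.mF _ (h.mF y hy)
  mG := fun z hz => h.mG _ (h'.mG z hz)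
  GF := fun y hy => by
    simp only [Function.comp]
    rw [h'.GF _ (h.mF y hy), h.GF y hy]
  FG := fun z hz => by
    simp only [Function.comp]
    rw [h.FG _ (h'.mG z hz), h'.FG z hz]

theorem specDCA (hFIL : SpecFIL) (hCNN : SpecCNN) (hLGX : SpecLGX) (hRMH : SpecRMH)
    (hAUT : SpecAUT) (hTRN : SpecTRN) (hQUO : SpecQUO) : SpecDCA := by
  intro O hO hOc hOb b hb γ hγ hdeg hups
  set Y : Set ℂ := {ζ | exp ζ + b ∈ O} with hY
  have hYo : IsOpen Y := hO.preimage (by fun_prop)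
  have hYc : IsConnected Y := hCNN O hO hOc b hb γ hγ hdeg
  have hper : ∀ ζ, ζ + 2 * Real.pi * I ∈ Y ↔ ζ ∈ Y := fun ζ => by
    rw [hY, mem_ofPred_eq, mem_ofPred_eq, exp_add, exp_two_pi_mul_I, mul_one]
  have hbd : ∃ C : ℝ, ∀ z ∈ Y, z.re < C := by
    obtain ⟨R, hR⟩ := hOb.exists_norm_le
    have hR0 : 0 ≤ R := (norm_nonneg _).trans (hR _ (hγ.mem 0))
    refine ⟨Real.log (R + ‖b‖ + 1), fun z hz => ?_⟩
    have h1 := hR _ hz
    have h2 : ‖exp z‖ ≤ R + ‖b‖ := by
      calc ‖exp z‖ = ‖exp z + b - b‖ := by rw [add_sub_cancel_right]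
        _ ≤ ‖exp z + b‖ + ‖b‖ := norm_sub_le _ _
        _ ≤ R + ‖b‖ := by linarith
    rw [norm_exp] at h2
    rw [Real.lt_log_iff_exp_lt (by positivity)]
    linarith
  have hsq : ∀ u : ℂ → ℂ, ContinuousOn u Y → (∀ z ∈ Y, u z ≠ 0) →
      ∃ g : ℂ → ℂ, ContinuousOn g Y ∧ ∀ z ∈ Y, g z ^ 2 = u z := by
    intro u hu hu0
    obtain ⟨l, hl, hle⟩ := hLGX Y hYo hYc u hu hu0 fun σ hσ =>
      hFIL Y hYo σ hσ (fun β hβ => hups σ hσ.cont hσ.per (fun x => hσ.mem x) β hβ) u hu hu0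
    refine ⟨fun z => exp (l z / 2), (hl.div_const 2).cexp, fun z hz => ?_⟩
    rw [← exp_nat_mul, ← hle z hz]
    congr 1
    push_cast
    ring
  obtain ⟨F, G, hFG, hFd, hGd⟩ := hRMH Y hYo hYc hbd hsq
  have hGY : ∀ w ∈ Metric.ball (0 : ℂ) 1, G w + 2 * Real.pi * I ∈ Y := fun w hw =>
    (hper _).2 (hFG.mG w hw)
  have hGY' : ∀ w ∈ Metric.ball (0 : ℂ) 1, G w - 2 * Real.pi * I ∈ Y := fun w hw => by
    rw [← hper, sub_add_cancel]
    exact hFG.mG w hw
  obtain ⟨G₁, G₁', a, b', hG₁, ha, hab, hG₁τ⟩ := hAUT (fun w => F (G w + 2 * Real.pi * I))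
    (fun w => F (G w - 2 * Real.pi * I))
    { cF := hFG.cF.comp (hFG.cG.add continuousOn_const) hGY
      cG := hFG.cF.comp (hFG.cG.sub continuousOn_const) hGY'
      mF := fun w hw => hFG.mF _ (hGY w hw)
      mG := fun w hw => hFG.mF _ (hGY' w hw)
      GF := fun w hw => by
        rw [hFG.GF _ (hGY w hw), add_sub_cancel_right, hFG.FG w hw]
      FG := fun w hw => by
        rw [hFG.GF _ (hGY' w hw), sub_add_cancel, hFG.FG w hw] }
    (hFd.comp (hGd.add_const _) hGY) (hFd.comp (hGd.sub_const _) hGY')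
    (fun w hw h => by
      have h1 := hFG.GF _ (hGY w hw)
      rw [h] at h1
      have h2 : (2 * Real.pi * I : ℂ) = 0 := by linear_combination -h1
      exact two_pi_I_ne h2)
  obtain ⟨Θ, Θ', hΘ, hΘτ⟩ := hTRN a b' ha hab
  have hE := (hFG.trans hG₁).trans hΘ
  refine hQUO O hO b hb _ _ hE (fun ζ hζ => ?_) γ hγ hdeg
  have h1 : F (ζ + 2 * Real.pi * I) = F (G (F ζ) + 2 * Real.pi * I) := by rw [hFG.GF ζ hζ]
  simp only [Function.comp]
  rw [h1, hG₁τ (F ζ) (hFG.mF ζ hζ), hΘτ _ (hG₁.mF _ (hFG.mF ζ hζ))]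

end PD

end Pool.Agent.Lib.MP9fa4ca
end

section
/-!
# MP_9fa4ca_an, PD : module DG1
-/
set_option autoImplicit false

open Set Topology Filter Complex MeasureTheory

namespace Pool.Agent.Lib.MP9fa4ca

namespace PD

universe u

theorem specDG1 (hTHK : SpecTHK.{u}) (hHPR : SpecHPR.{u}) (hUCV : SpecUCV.{u}) :
    SpecDG1.{u} := by
  intro X _ d D t ht
  have hγO : ∀ x, D.γ x ∈ D.O t := fun x =>
    (hTHK X d D t ht).1 x (Metric.mem_ball_self D.hρ)
  have hrange : range D.γ = D.γ '' Icc (0 : ℝ) 1 := by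
    apply Subset.antisymm
    · rintro _ ⟨x, rfl⟩
      have hp : Function.Periodic D.γ 1 := D.γp
      obtain ⟨y, hy, hxy⟩ := hp.exists_mem_Ico₀ one_pos x
      exact ⟨y, ⟨hy.1, hy.2.le⟩, hxy.symm⟩
    · rintro _ ⟨x, _, rfl⟩
      exact ⟨x, rfl⟩
  have hK : IsCompact (range D.γ) := by
    rw [hrange]
    exact isCompact_Icc.image D.γc
  have hKO : range D.γ ⊆ D.O t := by
    rintro _ ⟨x, rfl⟩
    exact hγO x
  obtain ⟨N, hN, hN'⟩ := hUCV X d D t ht (range D.γ) hKO hK (1 / 2) (by norm_num)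
  obtain ⟨t', ht'N, ht'P⟩ := mem_closure_iff_nhds.1 (D.cl ht) N hN
  obtain ⟨hsub, hnear⟩ := hN' t' ht'N ht'P
  have hcont : Continuous fun x => D.H (t, D.γ x) := by
    have h1 := (hHPR X d D).1
    have h2 : Continuous fun x : ℝ => ((t, D.γ x) : X × ℂ) := by
      have := D.γc
      fun_prop
    rw [← continuousOn_univ]
    exact h1.comp h2.continuousOn fun x _ => ⟨ht, hγO x⟩
  refine LDeg.of_near (D.deg t' ht'P) hcont (fun x => by simp only [D.γp]) fun x => ?_
  have h1 := hnear (D.γ x) ⟨x, rfl⟩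
  have h2 := (D.eig t' ht'P).nor (D.γ x) (hsub ⟨x, rfl⟩)
  rw [norm_sub_rev, h2]
  exact lt_of_le_of_lt h1 (by norm_num)

end PD

end Pool.Agent.Lib.MP9fa4ca
end

section
/-!
# MP_9fa4ca_an, PD, module DNO: the images of the crosscut are dense
-/
set_option autoImplicit false

open Set Topology Filter Complex MeasureTheory

namespace Pool.Agent.Lib.MP9fa4ca

namespace PD

theorem specDNO (hARG : SpecARG) (hARN : SpecARN) (hEQH : SpecEQH) (hCRB : SpecCRB) :
    SpecDNO := by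
  intro p hp A hA e C h hD q r hr hball
  obtain ⟨hn, he, _, _⟩ := hEQH p A e C h hD
  have hcon : ContinuousOn h (Metric.ball q r) := hD.con.mono hball
  obtain ⟨χ, hχ⟩ := hARG h q r hr hcon (fun z hz => hn z (hball hz))
  obtain ⟨z, hz, z', hz', hne⟩ := hARN p hp A hA.bdd (fun z => hA.inv z) h C.α C.irr
    (fun z hz => he z hz) hn q r hr hball
  have hχne : χ z ≠ χ z' := by
    intro h1
    exact hne (by rw [hχ.eq z hz, hχ.eq z' hz', h1])
  have key : ∀ z ∈ Metric.ball q r, ∀ z' ∈ Metric.ball q r, χ z < χ z' →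
      ∃ y ∈ Metric.ball q r, ∃ m : ℤ, ∃ s : ℝ,
        C.s₀ < s ∧ s < C.s₁ ∧ (hf p hp ^ m) y = ⟨s, s⟩ := by
    intro z hz z' hz' hlt
    obtain ⟨m, j, h1, h2⟩ := ROTAux.dense_comb C.irr hlt
    obtain ⟨y, hy, s, hs0, hs1, hs⟩ := hCRB p hp A e C h hD q r hball χ hχ z hz z' hz' m j h1 h2
    exact ⟨y, (convex_ball q r).segment_subset hz hz' hy, m, s, hs0, hs1, hs⟩
  rcases lt_or_gt_of_ne hχne with h1 | h1
  · exact key z hz z' hz' h1
  · exact key z' hz' z hz h1

end PD

end Pool.Agent.Lib.MP9fa4ca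
end

section
/-!
# MP_9fa4ca_an, PD : module DNS (the points which visit the diagonal are dense)
-/
set_option autoImplicit false

open Set Topology Filter Complex MeasureTheory

namespace Pool.Agent.Lib.MP9fa4ca

namespace PD

universe u

namespace DNSAux

/-- the exponential is Lipschitz on the unit circle -/
theorem exp_dist (a b : ℝ) :
    ‖exp (2 * Real.pi * a * I) - exp (2 * Real.pi * b * I)‖ ≤ 2 * Real.pi * |a - b| := by
  have h1 : exp (2 * Real.pi * a * I) - exp (2 * Real.pi * b * I) =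
      exp (((2 * Real.pi * b : ℝ) : ℂ) * I) *
        (exp (I * ((2 * Real.pi * (a - b) : ℝ) : ℂ)) - 1) := by
    rw [mul_sub, ← exp_add, mul_one]
    congr 1
    · congr 1
      push_cast
      ring
    · congr 1
      push_cast
      ring
  rw [h1, norm_mul, norm_exp_ofReal_mul_I, one_mul]
  refine (Real.norm_exp_I_mul_ofReal_sub_one_le).trans (le_of_eq ?_)
  rw [Real.norm_eq_abs, abs_mul, abs_of_pos (by positivity : (0 : ℝ) < 2 * Real.pi)]

end DNSAux

theorem specDNS (hARG : SpecARG) (hNUM : SpecNUM) (hJCO : SpecJCO) (hARN : SpecARN)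
    (hUKT : SpecUKT.{u}) (hUIN : SpecUIN.{u}) (hLIX : SpecLIX.{u}) (hLMC : SpecLMC.{u})
    (hLMV : SpecLMV.{u}) (hUBD : SpecUBD.{u}) : SpecDNS.{u} := by
  intro X _ d D t ht q r hr hball
  have hNB : (𝓝[D.P] t).NeBot := mem_closure_iff_nhdsWithin_neBot.1 (D.cl ht)
  set W : Ultrafilter X := Ultrafilter.of (𝓝[D.P] t) with hWdef
  have hW : (W : Filter X) ≤ 𝓝[D.P] t := Ultrafilter.of_le _
  have hWt : (W : Filter X) ≤ 𝓝 t := hW.trans nhdsWithin_le_nhds
  have hWP : ∀ᶠ t' in (W : Filter X), t' ∈ D.P := hW self_mem_nhdsWithin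
  obtain ⟨g, hg⟩ := hLIX X d D t W hW
  obtain ⟨hgc, hgn, -, -⟩ := hLMC X d D t W hW g hg
  have hgv := hLMV X d D t W hW g hg
  have hinv : ∀ z, hf (pol (D.c t)) (BAIAux.continuous_pol' (D.c t)) z ∈ D.Ut t ↔ z ∈ D.Ut t :=
    fun z => (hUIN X d D t z).symm
  obtain ⟨z, hz, z', hz', hne⟩ := hARN (pol (D.c t)) (BAIAux.continuous_pol' (D.c t)) (D.Ut t)
    (hUBD X d D t ht) hinv g D.α D.irr hgv hgn q r hr hball
  -- a smaller ball
  have hzr : dist z q < r := hz
  have hz'r : dist z' q < r := hz'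
  obtain ⟨r', hr'1, hr'2⟩ := exists_between (max_lt (max_lt hzr hz'r) hr)
  have hr'0 : 0 < r' := (le_max_right _ _).trans_lt hr'1
  have hzr' : z ∈ Metric.ball q r' :=
    ((le_max_left _ _).trans (le_max_left _ _)).trans_lt hr'1
  have hz'r' : z' ∈ Metric.ball q r' :=
    ((le_max_right _ _).trans (le_max_left _ _)).trans_lt hr'1
  have hcb : Metric.closedBall q r' ⊆ D.Ut t :=
    (Metric.closedBall_subset_ball hr'2).trans hball
  obtain ⟨N, hN, ρ, hρ, hNA⟩ := hUKT X d D t (Metric.closedBall q r') hcb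
    (isCompact_closedBall q r')
  have hsub : ∀ t' ∈ N, t' ∈ D.P → Metric.ball q r' ⊆ D.A t' := fun t' h1 h2 y hy =>
    hNA t' h1 h2 y (Metric.ball_subset_closedBall hy) (Metric.mem_ball_self hρ)
  -- the values stay apart
  have hpos : 0 < ‖g z' - g z‖ := norm_pos_iff.2 (sub_ne_zero.2 hne.symm)
  have hlim : Tendsto (fun t' => ‖D.h t' z' - D.h t' z‖) W (𝓝 ‖g z' - g z‖) :=
    ((hg z' (hball hz')).sub (hg z (hball hz))).norm
  have hapart : ∀ᶠ t' in (W : Filter X), ‖g z' - g z‖ / 2 < ‖D.h t' z' - D.h t' z‖ :=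
    hlim.eventually (lt_mem_nhds (by linarith))
  have hδ : 0 < ‖g z' - g z‖ / 2 / (2 * Real.pi) := by positivity
  obtain ⟨S, -, hS⟩ := hNUM D.α D.irr _ hδ 0
  -- crossings
  have hcross : ∀ᶠ t' in (W : Filter X), ∃ m ∈ (S : Set ℤ), ∃ y ∈ segment ℝ z z',
      ((D.f t' ^ m) y).re = ((D.f t' ^ m) y).im := by
    filter_upwards [hWP, hWt hN, hapart] with t' htP htN htA
    have hb := hsub t' htN htP
    have hE := D.eig t' htP
    obtain ⟨χ, hχ⟩ := hARG (D.h t') q r' hr'0 (hE.con.mono hb) (fun y hy => hE.nor y (hb hy))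
    rw [hχ.eq z hzr', hχ.eq z' hz'r'] at htA
    have h1 := htA.trans_le (DNSAux.exp_dist _ _)
    have h2 : ‖g z' - g z‖ / 2 / (2 * Real.pi) < |χ z' - χ z| := by
      rw [div_lt_iff₀ (by positivity)]
      linarith
    rcases lt_abs.1 h2 with h3 | h3
    · obtain ⟨m, hm, j, hj1, hj2⟩ := hS (χ z)
      obtain ⟨y, hy, hyΔ⟩ := hE.crs q r' hb χ hχ z hzr' z' hz'r' m j hj1 (by linarith)
      exact ⟨m, hm, y, hy, hyΔ⟩
    · obtain ⟨m, hm, j, hj1, hj2⟩ := hS (χ z')
      obtain ⟨y, hy, hyΔ⟩ := hE.crs q r' hb χ hχ z' hz'r' z hzr' m j hj1 (by linarith)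
      exact ⟨m, hm, y, by rwa [segment_symm], hyΔ⟩
  obtain ⟨m, -, hm⟩ := (Ultrafilter.eventually_exists_mem_iff S.finite_toSet).1 hcross
  -- the limit of the crossing points
  have hex : ∃ y : X → ℂ, ∀ᶠ t' in (W : Filter X), y t' ∈ segment ℝ z z' ∧
      ((D.f t' ^ m) (y t')).re = ((D.f t' ^ m) (y t')).im := by
    classical
    refine ⟨fun t' => if h : ∃ y ∈ segment ℝ z z', ((D.f t' ^ m) y).re = ((D.f t' ^ m) y).im
      then h.choose else z, ?_⟩
    filter_upwards [hm] with t' h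
    simp only [dif_pos h]
    exact h.choose_spec
  obtain ⟨y, hy⟩ := hex
  have hcomp : IsCompact (segment ℝ z z') := by
    rw [segment_eq_image_lineMap]
    exact isCompact_Icc.image AffineMap.lineMap_continuous
  obtain ⟨y₀, hy₀, hle⟩ := hcomp.ultrafilter_le_nhds (W.map y)
    (le_principal_iff.2 (hy.mono fun t' h => h.1))
  have hyt : Tendsto y (W : Filter X) (𝓝 y₀) := hle
  refine ⟨y₀, (convex_ball q r).segment_subset hz hz' hy₀, m, ?_⟩
  have hc : Continuous fun x : X × ℂ => (D.f x.1 ^ m) x.2 :=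
    (hJCO d m).comp ((D.cc.comp continuous_fst).prodMk continuous_snd)
  have hpair : Tendsto (fun t' => (t', y t')) (W : Filter X) (𝓝 (t, y₀)) := by
    rw [nhds_prod_eq]
    exact Tendsto.prodMk (tendsto_id'.2 hWt) hyt
  have hlim2 := (hc.tendsto (t, y₀)).comp hpair
  have hclosed : IsClosed {w : ℂ | w.re = w.im} := isClosed_eq continuous_re continuous_im
  exact hclosed.mem_of_tendsto hlim2 (hy.mono fun t' h => h.2)

end PD

end Pool.Agent.Lib.MP9fa4ca
end

section
/-!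
# PD/DSC : the eigenfunction
-/
set_option autoImplicit false

open Set Topology Filter Complex MeasureTheory

namespace Pool.Agent.Lib.MP9fa4ca.PD

theorem specDSC (hHTI : SpecHTI) : SpecDSC := by
  intro p A e C
  obtain ⟨hc, hT, -⟩ := hHTI p A e C
  have hinv : ∀ w w', C.Q.P w = C.Q.P w' →
      exp (2 * Real.pi * hti C w * I) = exp (2 * Real.pi * hti C w' * I) := by
    intro w w' h
    obtain ⟨k, hk⟩ := C.Q.inj _ _ h
    rw [hk, iterFun hT]
    refine (Complex.exp_eq_exp_iff_exists_int.2 ⟨-k, ?_⟩)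
    push_cast
    ring
  choose! s hs using C.Q.surj
  have hl : ∀ w, exp (2 * Real.pi * hti C (s (C.Q.P w)) * I) = exp (2 * Real.pi * hti C w * I) :=
    fun w => hinv _ _ (hs _ (C.Q.mem w))
  refine ⟨fun z => exp (2 * Real.pi * hti C (s z) * I), ⟨?_, fun w => hl w⟩⟩
  intro z hz
  obtain ⟨w, rfl⟩ := C.Q.surj z hz
  refine ContinuousAt.continuousWithinAt ?_
  have hcont : Continuous fun w => exp (2 * Real.pi * hti C w * I) := by fun_prop
  rw [ContinuousAt, hl w]
  intro U hU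
  rw [Filter.mem_map]
  have h1 : (fun w => exp (2 * Real.pi * hti C w * I)) ⁻¹' U ∈ 𝓝 w := hcont.continuousAt hU
  have h2 := C.Q.opn.image_mem_nhds h1
  refine Filter.mem_of_superset h2 ?_
  rintro _ ⟨v, hv, rfl⟩
  show exp (2 * Real.pi * hti C (s (C.Q.P v)) * I) ∈ U
  rw [hl v]
  exact hv

end Pool.Agent.Lib.MP9fa4ca.PD
end

section
/-!
# MP_9fa4ca_an, PD : DTH, the conclusion of the limit theory (assembly)
-/
set_option autoImplicit false

open Set Topology Filter Complex MeasureTheory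

namespace Pool.Agent.Lib.MP9fa4ca

namespace PD

universe u

namespace Dat

variable {X : Type u} [TopologicalSpace X] {d : ℕ} (D : Dat X d)

theorem U_subset {t : X} {z : ℂ} (h : (t, z) ∈ D.U) (ht : t ∈ D.P) : z ∈ D.A t := by
  obtain ⟨-, N, hN, r, hr, h⟩ := h
  exact h t (mem_of_mem_nhds hN) ht (Metric.mem_ball_self hr)

theorem O_subset_Ut (t : X) : D.O t ⊆ D.Ut t := connectedComponentIn_subset _ _

end Dat

theorem specDTH (hUOP : SpecUOP.{u}) (hNPR : SpecNPR.{u}) (hUBD : SpecUBD.{u})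
    (hTHK : SpecTHK.{u}) (hHPR : SpecHPR.{u}) (hHEQ : SpecHEQ.{u}) (hEOP : SpecEOP.{u})
    (hOIN : SpecOIN.{u}) (hDG1 : SpecDG1.{u}) (hHOL : SpecHOL.{u}) (hUPC : SpecUPC.{u})
    (hDCA : SpecDCA) (hRTN : SpecRTN) : SpecDTH.{u} := by
  intro X _ d D
  refine ⟨hEOP X d D, (hHPR X d D).1, fun t _ htP z hz =>
    D.U_subset (D.O_subset_Ut t hz) htP, fun t ht => ?_⟩
  obtain ⟨hthk, hzu, hfz⟩ := hTHK X d D t ht
  have hUto : IsOpen (D.Ut t) := (hUOP X d D).preimage (Continuous.prodMk_right t)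
  have hOo : IsOpen (D.O t) := hUto.connectedComponentIn
  have hOc : IsConnected (D.O t) := ⟨⟨_, hzu⟩, isPreconnected_connectedComponentIn⟩
  have hOb : Bornology.IsBounded (D.O t) := (hUBD X d D t ht).subset (D.O_subset_Ut t)
  have hinv := hOIN X d D t ht
  have hγ : Lp D.γ (D.O t) := ⟨D.γc, D.γp, fun x => hthk x (Metric.mem_ball_self D.hρ)⟩
  have hiter : ∀ n : ℕ, ∀ z, (D.f t ^ n) z = (hen (pol (D.c t)) 1)^[n] z := by
    intro n
    induction n with
    | zero => intro z; rfl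
    | succ n ih =>
      intro z
      rw [pow_succ, Homeomorph.mul_apply, ih, Function.iterate_succ_apply]
      rfl
  have heq : ∀ z ∈ D.O t, D.H (t, hen (pol (D.c t)) 1 z) = lam D.α * D.H (t, z) := fun z hz =>
    hHEQ X d D t ht z hz ((hinv z).2 hz)
  refine ⟨⟨hOo, hOb, hinv, fun z hz n hn => ?_⟩, heq, ?_⟩
  · rw [← hiter]
    exact hNPR X d D t z (D.O_subset_Ut t hz) n hn
  · obtain ⟨b, hb⟩ := hHOL X d D t ht
    obtain ⟨e, he⟩ := hDCA (D.O t) hOo hOc hOb b (fun h => hb.nm (D.O_subset_Ut t h)) D.γ hγ hb.dg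
      (hUPC X d D t ht b hb)
    have hHc : ContinuousOn (fun z => D.H (t, z)) (D.O t) :=
      (hHPR X d D).1.comp (Continuous.prodMk_right t).continuousOn fun z hz => ⟨ht, hz⟩
    obtain ⟨w, hw, hw'⟩ := hRTN (D.O t) hOo e D.γ hγ he (fun z => D.H (t, z)) hHc
      (fun z hz => ((hHPR X d D).2 t ht z hz).2) (hDG1 X d D t ht)
    exact ⟨e, w, hw, hw'⟩

end PD

end Pool.Agent.Lib.MP9fa4ca
end

section
/-!
# MP_9fa4ca_an, PD : EIG, the eigenfunction of an annular rotation domain (assembly)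
-/
set_option autoImplicit false

open Set Topology Filter Complex MeasureTheory

namespace Pool.Agent.Lib.MP9fa4ca

namespace PD

theorem specEIG (hDSC : SpecDSC) (hEQH : SpecEQH) (hCRB : SpecCRB) (hOSB : SpecOSB)
    (hRFH : SpecRFH) (hNUO : SpecNUO) (hLPD : SpecLPD) (hUPO : SpecUPO) (hIDO : SpecIDO)
    (hLP1 : SpecLP1) : SpecEIG := by
  intro d hd c A hA e
  have hp : Continuous (pol c) := BAIAux.continuous_pol' c
  obtain ⟨C⟩ := exists_core2 (pol c) hp A hA.opn hA.bdd e hA.inv hA.per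
  obtain ⟨h, hh⟩ := hDSC _ _ _ C
  obtain ⟨hn, heq, hone, hdeg⟩ := hEQH _ _ _ C h hh
  obtain ⟨u, hu0, hu1⟩ := exists_rat_btwn C.lt
  have hmem : (⟨u, u⟩ : ℂ) ∈ A := by
    have := C.seg u hu0 hu1
    rwa [diag_eq] at this
  refine ⟨C.α, u, h, C.rot, C.irr, ?_, hLP1 _ _ _ C h hh _ hmem⟩
  exact
    { opn := hA.opn
      bdd := hA.bdd
      inv := hA.inv
      con := hh.con
      nor := hn
      eqv := heq
      mem := hmem
      one := hone u hu0 hu1
      rea := hRFH _ hp A hA e C h hh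
      crs := fun q ρ hq χ hχ z hz z' hz' m j h1 h2 => by
        obtain ⟨y, hy, s, -, -, hs⟩ := hCRB _ hp A e C h hh q ρ hq χ hχ z hz z' hz' m j h1 h2
        refine ⟨y, hy, ?_⟩
        have h3 : (fc c ^ m) y = ⟨s, s⟩ := hs
        rw [h3]
      osc := fun q ρ hq χ hχ z hz z' hz' => hOSB _ A e C h hh q ρ hq χ hχ z hz z' hz'
      idx := fun γ hγ hd => hIDO _ hp A hA e C h hh γ hγ hd
      nuo := fun b hb γ hγ hd => ⟨C.Q.nu b, hNUO A C.Q b hb,
        (hLPD A C.Q h hdeg γ hγ hd).2 (fun z => z - b) _ (Ann.nu_deg hb)⟩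
      ups := hUPO A C.Q h hdeg }

end PD

end Pool.Agent.Lib.MP9fa4ca
end

section
/-!
# MP_9fa4ca_an, PD : EOP, the family of the domains is open
-/
set_option autoImplicit false

open Set Topology Filter Complex MeasureTheory

namespace Pool.Agent.Lib.MP9fa4ca

namespace PD

universe u

theorem specEOP (hUOP : SpecUOP.{u}) (hTHK : SpecTHK.{u}) : SpecEOP.{u} := by
  intro X _ d D
  rw [isOpen_iff_mem_nhds]
  rintro ⟨t, z⟩ ⟨ht, hz⟩
  have hU := hUOP X d D
  have hUt : IsOpen (D.Ut t) := hU.preimage (Continuous.prodMk_right t)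
  have hO : IsOpen (D.O t) := hUt.connectedComponentIn
  have hOs : D.O t ⊆ D.Ut t := connectedComponentIn_subset _ _
  have hzu : (⟨D.u, D.u⟩ : ℂ) ∈ D.O t := (hTHK X d D t ht).2.1
  obtain ⟨s, hs, hsO⟩ := Metric.nhds_basis_closedBall.mem_iff.1 (hO.mem_nhds hz)
  have hconn : IsConnected (D.O t) := ⟨⟨_, hzu⟩, isPreconnected_connectedComponentIn⟩
  have hpc : IsPathConnected (D.O t) := hO.isConnected_iff_isPathConnected.1 hconn
  obtain ⟨p, hp⟩ := hpc.joinedIn _ hzu _ hz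
  have hKc : IsCompact (range p ∪ Metric.closedBall z s) :=
    (isCompact_range p.continuous).union (isCompact_closedBall z s)
  have hKp : IsPreconnected (range p ∪ Metric.closedBall z s) := by
    refine IsPreconnected.union z ⟨1, p.target⟩ (Metric.mem_closedBall_self hs.le)
      (isPreconnected_range p.continuous) ?_
    exact (convex_closedBall z s).isPreconnected
  have hKO : range p ∪ Metric.closedBall z s ⊆ D.O t := by
    rintro y (⟨i, rfl⟩ | hy)
    · exact hp i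
    · exact hsO hy
  have hKU : ({t} : Set X) ×ˢ (range p ∪ Metric.closedBall z s) ⊆ D.U := by
    rintro ⟨a, b⟩ ⟨ha, hb⟩
    rw [mem_singleton_iff] at ha
    simp only at ha hb
    subst ha
    exact hOs (hKO hb)
  obtain ⟨N, W, hN, -, htN, hKW, hNW⟩ :=
    generalized_tube_lemma isCompact_singleton hKc hU hKU
  refine Filter.mem_of_superset (prod_mem_nhds (hN.mem_nhds (htN rfl))
    (Metric.ball_mem_nhds z hs)) ?_
  rintro ⟨t₁, z₁⟩ ⟨h1, h2⟩
  have hK1 : range p ∪ Metric.closedBall z s ⊆ D.Ut t₁ := fun y hy => hNW ⟨h1, hKW hy⟩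
  have hzK : (⟨D.u, D.u⟩ : ℂ) ∈ range p ∪ Metric.closedBall z s := Or.inl ⟨0, p.source⟩
  refine ⟨(hK1 hzK).1, ?_⟩
  exact hKp.subset_connectedComponentIn hzK hK1 (Or.inr (Metric.ball_subset_closedBall h2))

end PD

end Pool.Agent.Lib.MP9fa4ca
end

section
/-!
# MP_9fa4ca_an, PD : module EQC (equicontinuity)
-/
set_option autoImplicit false

open Set Topology Filter Complex MeasureTheory

namespace Pool.Agent.Lib.MP9fa4ca

namespace PD

universe u

namespace EQCAux

/-- the exponential is Lipschitz on the unit circle -/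
theorem exp_dist (a b : ℝ) :
    ‖exp (2 * Real.pi * a * I) - exp (2 * Real.pi * b * I)‖ ≤ 2 * Real.pi * |a - b| := by
  have h1 : exp (2 * Real.pi * a * I) - exp (2 * Real.pi * b * I) =
      exp (((2 * Real.pi * b : ℝ) : ℂ) * I) *
        (exp (I * ((2 * Real.pi * (a - b) : ℝ) : ℂ)) - 1) := by
    rw [mul_sub, ← exp_add, mul_one]
    congr 1
    · congr 1
      push_cast
      ring
    · congr 1
      push_cast
      ring
  rw [h1, norm_mul, norm_exp_ofReal_mul_I, one_mul]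
  refine (Real.norm_exp_I_mul_ofReal_sub_one_le).trans (le_of_eq ?_)
  rw [Real.norm_eq_abs, abs_mul, abs_of_pos (by positivity : (0 : ℝ) < 2 * Real.pi)]

end EQCAux

theorem specEQC (hARG : SpecARG) (hNUM : SpecNUM) (hJCO : SpecJCO) (hSYM : SpecSYM)
    (hNPR : SpecNPR.{u}) : SpecEQC.{u} := by
  intro X _ d D t q hU ε hε
  obtain ⟨htV, N₀, hN₀, r₀, hr₀, hA₀⟩ := hU
  -- the exceptional integer
  have hm₀ : ∃ m₀ : ℤ, ∀ m : ℤ, m ≠ m₀ → ((D.f t ^ m) q).re ≠ ((D.f t ^ m) q).im := by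
    by_cases h : ∃ m : ℤ, ((D.f t ^ m) q).re = ((D.f t ^ m) q).im
    · obtain ⟨m₁, h₁⟩ := h
      refine ⟨m₁, fun m hm h₂ => ?_⟩
      obtain ⟨n, hn, hq⟩ := hSYM d (D.c t) q m m₁ hm h₂ h₁
      exact hNPR X d D t q ⟨htV, N₀, hN₀, r₀, hr₀, hA₀⟩ n hn hq
    · push Not at h
      exact ⟨0, fun m _ => h m⟩
  obtain ⟨m₀, hm₀⟩ := hm₀
  have hδ : 0 < ε / (2 * Real.pi) := by positivity
  obtain ⟨S, hS₀, hS⟩ := hNUM D.α D.irr (ε / (2 * Real.pi)) hδ m₀
  have hev : ∀ᶠ x : X × ℂ in 𝓝 (t, q), ∀ m ∈ S, ((D.f x.1 ^ m) x.2).re ≠ ((D.f x.1 ^ m) x.2).im := by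
    rw [Filter.eventually_all_finset]
    intro m hm
    have hc : Continuous fun x : X × ℂ => (D.f x.1 ^ m) x.2 := by
      have := (hJCO d m).comp ((D.cc.comp continuous_fst).prodMk continuous_snd)
      exact this
    have hne := hm₀ m (fun h => hS₀ (h ▸ hm))
    have ho : IsOpen {x : X × ℂ | ((D.f x.1 ^ m) x.2).re ≠ ((D.f x.1 ^ m) x.2).im} :=
      isOpen_ne_fun (continuous_re.comp hc) (continuous_im.comp hc)
    exact ho.mem_nhds hne
  obtain ⟨u, hu, v, hv, huv⟩ := mem_nhds_prod_iff.1 hev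
  obtain ⟨r₁, hr₁, hr₁v⟩ := Metric.mem_nhds_iff.1 hv
  have hrpos : 0 < min r₀ r₁ := lt_min hr₀ hr₁
  refine ⟨N₀ ∩ u, Filter.inter_mem hN₀ hu, min r₀ r₁, hrpos, fun t' ht' htP => ?_⟩
  have hball : Metric.ball q (min r₀ r₁) ⊆ D.A t' :=
    (Metric.ball_subset_ball (min_le_left _ _)).trans (hA₀ t' ht'.1 htP)
  refine ⟨hball, fun y hy => ?_⟩
  have hE := D.eig t' htP
  obtain ⟨χ, hχ⟩ := hARG (D.h t') q (min r₀ r₁) hrpos (hE.con.mono hball)
    (fun z hz => hE.nor z (hball hz))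
  have key : ∀ z ∈ Metric.ball q (min r₀ r₁), ∀ z' ∈ Metric.ball q (min r₀ r₁),
      χ z' - χ z ≤ ε / (2 * Real.pi) := by
    intro z hz z' hz'
    by_contra hcon
    push Not at hcon
    obtain ⟨m, hm, j, hj1, hj2⟩ := hS (χ z)
    obtain ⟨y', hy', hy'Δ⟩ := hE.crs q (min r₀ r₁) hball χ hχ z hz z' hz' m j hj1 (by linarith)
    have hy'b : y' ∈ Metric.ball q (min r₀ r₁) :=
      (convex_ball q (min r₀ r₁)).segment_subset hz hz' hy'
    exact huv (Set.mk_mem_prod ht'.2 (hr₁v (Metric.ball_subset_ball (min_le_right _ _) hy'b))) m hm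
      hy'Δ
  have hq : q ∈ Metric.ball q (min r₀ r₁) := Metric.mem_ball_self hrpos
  rw [hχ.eq y hy, hχ.eq q hq]
  refine (EQCAux.exp_dist _ _).trans ?_
  have habs : |χ y - χ q| ≤ ε / (2 * Real.pi) :=
    abs_le.2 ⟨by linarith [key y hy q hq], key q hq y hy⟩
  calc 2 * Real.pi * |χ y - χ q| ≤ 2 * Real.pi * (ε / (2 * Real.pi)) :=
        mul_le_mul_of_nonneg_left habs (by positivity)
    _ = ε := by field_simp

end PD

end Pool.Agent.Lib.MP9fa4ca
end

section
/-!
# MP_9fa4ca_an, PD : EQH, the properties of the eigenfunction of an annulus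
-/
set_option autoImplicit false

open Set Topology Filter Complex MeasureTheory

namespace Pool.Agent.Lib.MP9fa4ca

namespace PD

namespace EQHAux

theorem norm_exp_two_pi (x : ℝ) : ‖exp (2 * Real.pi * x * I)‖ = 1 := by
  have : (2 * Real.pi * x * I : ℂ) = ((2 * Real.pi * x : ℝ) : ℂ) * I := by push_cast; ring
  rw [this, Complex.norm_exp_ofReal_mul_I]

theorem P_zpow {A : Set ℂ} (Q : Ann A) (k : ℤ) (w : ℝ × ℝ) : Q.P ((T ^ k) w) = Q.P w := by
  induction k using Int.induction_on generalizing w with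
  | zero => simp
  | succ n ih =>
    rw [zpow_add_one, Homeomorph.mul_apply, ih, Q.per]
  | pred n ih =>
    rw [zpow_sub_one, Homeomorph.mul_apply, ih]
    have h2 : T (T⁻¹ w) = w := T.apply_symm_apply w
    rw [← Q.per, h2]

end EQHAux

theorem specEQH (hHTI : SpecHTI) : SpecEQH := by
  intro p A e C h hh
  obtain ⟨hc, hT, hF, h0, -, -⟩ := hHTI p A e C
  refine ⟨?_, ?_, ?_, ?_⟩
  · intro z hz
    obtain ⟨w, rfl⟩ := C.Q.surj z hz
    rw [hh.eq, EQHAux.norm_exp_two_pi]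
  · intro z hz
    obtain ⟨w, rfl⟩ := C.Q.surj z hz
    rw [← C.lft, hh.eq, hh.eq, hF, lam, ← Complex.exp_add]
    congr 1
    push_cast
    ring
  · intro s hs0 hs1
    have hm := C.seg s hs0 hs1
    obtain ⟨w, hw⟩ := C.Q.surj _ hm
    obtain ⟨n, hn⟩ := (C.int w).2 ⟨s, hs0, hs1, hw⟩
    have h1 : C.θ ((T ^ (-n)) w) = 0 := by
      rw [ROTAux.theta_T C.cut, hn]
      push_cast
      ring
    have h2 := h0 _ h1
    rw [← diag_eq, ← hw, ← EQHAux.P_zpow C.Q (-n), hh.eq, h2]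
    simp
  · refine ⟨fun w => 2 * Real.pi * hti C w * I, ?_, fun w => (hh.eq w).symm, fun w => ?_⟩
    · fun_prop
    · beta_reduce
      rw [hT]
      push_cast
      ring

end PD

end Pool.Agent.Lib.MP9fa4ca
end

section
/-!
# MP_9fa4ca_an, PD : EVZ, powers
-/
set_option autoImplicit false

open Set Topology Filter Complex MeasureTheory

namespace Pool.Agent.Lib.MP9fa4ca

namespace PD

theorem specEVZ : SpecEVZ := by
  intro f S hS g α hg
  have hl : lam α ≠ 0 := exp_ne_zero _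
  have hfi : ∀ z, f (f⁻¹ z) = z := fun z => by
    rw [← Homeomorph.mul_apply, mul_inv_cancel, Homeomorph.one_apply]
  have hmi : ∀ z, z ∈ S → f⁻¹ z ∈ S := fun z hz => by
    rw [← hS, hfi]
    exact hz
  have hgi : ∀ z ∈ S, g (f⁻¹ z) = (lam α)⁻¹ * g z := fun z hz => by
    have h1 := hg _ (hmi z hz)
    rw [hfi] at h1
    rw [h1, inv_mul_cancel_left₀ hl]
  intro m
  induction m using Int.induction_on with
  | zero =>
    intro z hz
    rw [zpow_zero, zpow_zero, Homeomorph.one_apply, one_mul]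
    exact ⟨hz, rfl⟩
  | succ n ih =>
    intro z hz
    obtain ⟨h1, h2⟩ := ih z hz
    have h3 : (f ^ ((n : ℤ) + 1)) z = f ((f ^ (n : ℤ)) z) := by
      rw [add_comm, zpow_one_add, Homeomorph.mul_apply]
    rw [h3]
    refine ⟨(hS _).2 h1, ?_⟩
    rw [hg _ h1, h2, zpow_add_one₀ hl]
    ring
  | pred n ih =>
    intro z hz
    obtain ⟨h1, h2⟩ := ih z hz
    have h3 : (f ^ (-(n : ℤ) - 1)) z = f⁻¹ ((f ^ (-(n : ℤ))) z) := by
      rw [show -(n : ℤ) - 1 = -1 + -(n : ℤ) by ring, zpow_add, zpow_neg_one, Homeomorph.mul_apply]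
    rw [h3]
    refine ⟨hmi _ h1, ?_⟩
    rw [hgi _ h1, h2, zpow_sub_one₀ hl]
    ring

end PD

end Pool.Agent.Lib.MP9fa4ca
end

section
/-!
# MP_9fa4ca_an, PD : FIL, the filling lemma
-/
set_option autoImplicit false

open Set Topology Filter Complex MeasureTheory

namespace Pool.Agent.Lib.MP9fa4ca

namespace PD

namespace FILAux

/-- a zero of a nondegenerate kind is isolated -/
theorem SZ.isolated {v : ℂ → ℂ} {z₀ : ℂ} (h : SZ v z₀) :
    ∃ r : ℝ, 0 < r ∧ ∀ z ∈ Metric.ball z₀ r, z ≠ z₀ → v z ≠ 0 := by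
  obtain ⟨k, r, hr, -, -, h⟩ := h
  refine ⟨r, hr, fun z hz hne h0 => ?_⟩
  rcases h with h | h
  · have := h z hz hne
    rw [h0, zero_div, zero_re] at this
    exact lt_irrefl _ this
  · have := h z hz hne
    rw [h0, zero_div, zero_re] at this
    exact lt_irrefl _ this

/-- the zeros of a function with isolated zeros in a compact set are finitely many -/
theorem finite_zeros {v : ℂ → ℂ} (hv : Continuous v) (hz : ∀ z, v z = 0 → SZ v z) {C : Set ℂ}
    (hC : IsCompact C) : {z | z ∈ C ∧ v z = 0}.Finite := by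
  by_contra hinf
  have hinf' : {z | z ∈ C ∧ v z = 0}.Infinite := hinf
  obtain ⟨x, hxC, hx⟩ := hinf'.exists_accPt_of_subset_isCompact hC fun z hz => hz.1
  rw [accPt_iff_nhds] at hx
  have hclosed : IsClosed {z | v z = 0} := isClosed_eq hv continuous_const
  have hx0 : v x = 0 := by
    have : x ∈ closure {z | v z = 0} := by
      rw [mem_closure_iff_nhds]
      intro t ht
      obtain ⟨y, hy, -⟩ := hx t ht
      exact ⟨y, hy.1, hy.2.2⟩
    rw [hclosed.closure_eq] at this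
    exact this
  obtain ⟨r, hr, hiso⟩ := SZ.isolated (hz x hx0)
  obtain ⟨y, hy, hne⟩ := hx _ (Metric.ball_mem_nhds x hr)
  exact hiso y hy.1 hne hy.2.2

end FILAux

theorem specFIL (hCPS : SpecCPS) (hSMA : SpecSMA) (hSRD : SpecSRD) (hLOZ : SpecLOZ)
    (hRMZ : SpecRMZ) : SpecFIL := by
  intro S hS σ hσ hdeg u hu hu0
  obtain ⟨hK, hσK⟩ := hCPS σ hσ.cont hσ.per
  set K : Set ℂ := {z : ℂ | ¬ LDeg (fun x => σ x - z) 0} with hKdef
  have hKS : K ⊆ S := fun z hz => by
    by_contra h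
    exact hz (hdeg z h)
  have hmemK : ∀ x, σ x ∈ K := fun x => hσK x
  have huK : ContinuousOn u K := hu.mono hKS
  obtain ⟨z₁, hz₁, hmin⟩ := hK.exists_isMinOn ⟨σ 0, hmemK 0⟩ huK.norm
  have hmin' : ∀ z ∈ K, ‖u z₁‖ ≤ ‖u z‖ := fun z hz => hmin hz
  set m : ℝ := ‖u z₁‖ with hmdef
  have hm : 0 < m := norm_pos_iff.2 (hu0 z₁ (hKS hz₁))
  obtain ⟨v₀, hv₀, hv₀u⟩ := hSMA K hK u huK (m / 4) (by positivity)
  obtain ⟨w, hw, hwd⟩ := hSRD v₀ hv₀ (m / 4) (by positivity)
  set v : ℂ → ℂ := fun z => v₀ z - w with hvdef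
  have hv : ContDiff ℝ 1 v := hv₀.sub contDiff_const
  have hvu : ∀ z ∈ K, ‖v z - u z‖ < m / 2 := by
    intro z hz
    have h1 := hv₀u z hz
    calc ‖v z - u z‖ = ‖(v₀ z - u z) - w‖ := by
          congr 1
          simp only [hvdef]
          ring
      _ ≤ ‖v₀ z - u z‖ + ‖w‖ := norm_sub_le _ _
      _ < m / 2 := by linarith
  have hvbig : ∀ z ∈ K, m / 2 < ‖v z‖ := by
    intro z hz
    have h1 := hvu z hz
    have h2 := hmin' z hz
    have h3 : ‖u z‖ ≤ ‖v z‖ + ‖v z - u z‖ := by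
      calc ‖u z‖ = ‖v z - (v z - u z)‖ := by
            congr 1
            ring
        _ ≤ ‖v z‖ + ‖v z - u z‖ := norm_sub_le _ _
    linarith
  have hSZ : ∀ z, v z = 0 → SZ v z := by
    intro z hz
    refine hLOZ v hv z hz ?_
    have h1 : fderiv ℝ v z = fderiv ℝ v₀ z := by
      simp only [hvdef]
      exact fderiv_sub_const w
    rw [h1]
    exact hwd z (sub_eq_zero.1 hz)
  obtain ⟨R, hR⟩ := hK.isBounded.subset_ball (0 : ℂ)
  have hfin := FILAux.finite_zeros hv.continuous hSZ (isCompact_closedBall (0 : ℂ) R)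
  have hfin' : {z | z ∈ Metric.ball (0 : ℂ) R ∧ v z = 0}.Finite :=
    hfin.subset fun z hz => ⟨Metric.ball_subset_closedBall hz.1, hz.2⟩
  have hlog : LDeg (fun x => v (σ x)) 0 := by
    refine hRMZ R σ ⟨hσ.cont, hσ.per, fun x => hR (hmemK x)⟩ hfin'.toFinset v
      hv.continuous.continuousOn (fun z hz h0 => ?_) (fun z₀ hz₀ => ?_) (fun x h0 => ?_)
    · rw [Finite.mem_toFinset]
      exact ⟨hz, h0⟩
    · rw [Finite.mem_toFinset] at hz₀
      refine ⟨hz₀.1, hSZ z₀ hz₀.2, ?_⟩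
      by_contra hcon
      have h1 := hvbig z₀ hcon
      rw [hz₀.2, norm_zero] at h1
      linarith
    · have h1 := hvbig _ (hmemK x)
      rw [h0, norm_zero] at h1
      linarith
  refine hlog.of_near ?_ (fun x => ?_) (fun x => ?_)
  · exact hu.comp_continuous hσ.cont hσ.mem
  · rw [hσ.per]
  · have h1 := hvu _ (hmemK x)
    have h2 := hvbig _ (hmemK x)
    rw [norm_sub_rev]
    linarith

end PD

end Pool.Agent.Lib.MP9fa4ca
end

section
/-!
# MP_9fa4ca_an, PD, module HEQ: the equation of the limit eigenfunction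
-/
set_option autoImplicit false

open Set Topology Filter Complex MeasureTheory

namespace Pool.Agent.Lib.MP9fa4ca

namespace PD

universe u

theorem specHEQ (hJCO : SpecJCO) (hHPR : SpecHPR.{u}) : SpecHEQ.{u} := by
  intro X _ d D t ht z hz hfz
  obtain ⟨-, hlim⟩ := hHPR X d D
  obtain ⟨hA, -⟩ := hlim t ht z hz
  obtain ⟨hB, -⟩ := hlim t ht _ hfz
  have hne : (𝓝[D.P] t).NeBot := mem_closure_iff_nhdsWithin_neBot.1 (D.cl ht)
  -- the map `t' ↦ f_t' z`
  have hc : Continuous fun t' : X => D.f t' z := by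
    have h1 := hJCO d 1
    have h2 : Continuous fun t' : X => (D.c t', z) := D.cc.prodMk continuous_const
    have h3 := h1.comp h2
    have h4 : (fun t' : X => D.f t' z) =
        (fun x : (Fin (d + 1) → ℝ) × ℂ => (fc x.1 ^ (1 : ℤ)) x.2) ∘ fun t' : X => (D.c t', z) := by
      funext t'
      simp only [Function.comp_apply, zpow_one]
      rfl
    rw [h4]
    exact h3
  have hP : ∀ᶠ t' in 𝓝[D.P] t, t' ∈ D.P := self_mem_nhdsWithin
  have hT1 : Tendsto (fun t' : X => (t', z)) (𝓝[D.P] t) (𝓝[D.P ×ˢ univ] (t, z)) := by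
    rw [tendsto_nhdsWithin_iff]
    refine ⟨?_, ?_⟩
    · have h1 : Continuous fun t' : X => (t', z) := continuous_id.prodMk continuous_const
      exact (h1.tendsto t).mono_left nhdsWithin_le_nhds
    · filter_upwards [hP] with t' h
      exact ⟨h, mem_univ _⟩
  have hT2 : Tendsto (fun t' : X => (t', D.f t' z)) (𝓝[D.P] t)
      (𝓝[D.P ×ˢ univ] (t, D.f t z)) := by
    rw [tendsto_nhdsWithin_iff]
    refine ⟨?_, ?_⟩
    · have h1 : Continuous fun t' : X => (t', D.f t' z) := continuous_id.prodMk hc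
      exact (h1.tendsto t).mono_left nhdsWithin_le_nhds
    · filter_upwards [hP] with t' h
      exact ⟨h, mem_univ _⟩
  have hL1 : Tendsto (fun t' : X => lam D.α * D.hh (t', z)) (𝓝[D.P] t)
      (𝓝 (lam D.α * D.H (t, z))) := (hA.comp hT1).const_mul _
  have hL2 : Tendsto (fun t' : X => D.hh (t', D.f t' z)) (𝓝[D.P] t)
      (𝓝 (D.H (t, D.f t z))) := hB.comp hT2
  have hU : z ∈ D.Ut t := connectedComponentIn_subset _ _ hz
  obtain ⟨-, N, hN, r, hr, hNr⟩ := hU
  have hev : (fun t' : X => D.hh (t', D.f t' z)) =ᶠ[𝓝[D.P] t]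
      fun t' : X => lam D.α * D.hh (t', z) := by
    filter_upwards [hP, mem_nhdsWithin_of_mem_nhds hN] with t' h1 h2
    exact (D.eig t' h1).eqv z (hNr t' h2 h1 (Metric.mem_ball_self hr))
  exact tendsto_nhds_unique hL2 (hL1.congr' hev.symm)

end PD

end Pool.Agent.Lib.MP9fa4ca
end

section
/-!
# MP_9fa4ca_an, PD, module HOL: a stable point of the hole
-/
set_option autoImplicit false

open Set Topology Filter Complex MeasureTheory

namespace Pool.Agent.Lib.MP9fa4ca

namespace PD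

universe u

namespace HOLAux

theorem exists_min {φ : ℝ → ℂ} (hφ : Continuous φ) (hp : ∀ x, φ (x + 1) = φ x)
    (h0 : ∀ x, φ x ≠ 0) : ∃ δ : ℝ, 0 < δ ∧ ∀ x, δ ≤ ‖φ x‖ := by
  have hc1 : Continuous fun x : ℝ => ‖φ x‖ := by fun_prop
  obtain ⟨x₀, -, hx₀⟩ := (isCompact_Icc (a := (0 : ℝ)) (b := 1)).exists_isMinOn
    (nonempty_Icc.2 zero_le_one) hc1.continuousOn
  refine ⟨‖φ x₀‖, norm_pos_iff.2 (h0 x₀), fun x => ?_⟩
  have hper : Function.Periodic φ 1 := hp
  have h1 : φ x = φ (Int.fract x) := by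
    have := hper.int_mul ⌊x⌋ (Int.fract x)
    rw [← this]
    congr 1
    rw [mul_one, Int.fract_add_floor]
  rw [h1]
  exact hx₀ ⟨Int.fract_nonneg x, (Int.fract_lt_one x).le⟩

theorem lam_ne_one {α : ℝ} (h : Irrational α) : lam α ≠ 1 := by
  intro h1
  unfold lam at h1
  rw [Complex.exp_eq_one_iff] at h1
  obtain ⟨n, hn⟩ := h1
  have h2 : (α : ℂ) = n := by
    have h3 : (2 * (Real.pi : ℂ) * I) * (α - n) = 0 := by linear_combination hn
    rcases mul_eq_zero.1 h3 with h4 | h4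
    · exact absurd h4 two_pi_I_ne
    · linear_combination h4
  have h5 : α = n := by exact_mod_cast h2
  exact h.ne_int n h5

theorem norm_dz (x x₀ : ℝ) : ‖(⟨x, x⟩ : ℂ) - ⟨x₀, x₀⟩‖ ≤ 2 * |x - x₀| := by
  have := norm_le_abs_re_add_abs_im ((⟨x, x⟩ : ℂ) - ⟨x₀, x₀⟩)
  simp only [Complex.sub_re, Complex.sub_im] at this
  linarith

/-- degrees around near points -/
theorem ldeg_near {γ : ℝ → ℂ} (hγ : Continuous γ) (hp : ∀ x, γ (x + 1) = γ x) {b b' : ℂ} {m : ℤ}
    (h : LDeg (fun x => γ x - b') m) (hd : ∀ x, ‖b' - b‖ < ‖γ x - b'‖) :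
    LDeg (fun x => γ x - b) m := by
  refine h.of_near (by fun_prop) (fun x => by simp only [hp]) fun x => ?_
  have : γ x - b - (γ x - b') = b' - b := by ring
  rw [this]
  exact hd x

end HOLAux

open HOLAux in
/-- HOL. -/
theorem specHOL (hJCO : SpecJCO) (hNPR : SpecNPR.{u}) (hTHK : SpecTHK.{u}) (hSTB : SpecSTB) :
    SpecHOL.{u} := by
  intro X _ d D t ht
  -- `t` is a limit of parameters of `P`
  have hcl : ∀ N ∈ 𝓝 t, ∃ t' ∈ N, t' ∈ D.P := by
    intro N hN
    obtain ⟨t', h1, h2⟩ := mem_closure_iff_nhds.1 (D.cl ht) N hN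
    exact ⟨t', h1, h2⟩
  have hγU : ∀ x, D.γ x ∈ D.Ut t := by
    intro x
    exact connectedComponentIn_subset _ _
      ((hTHK X d D t ht).1 x (Metric.mem_ball_self D.hρ))
  have hnofix : ∀ q : ℂ, fc (D.c t) q = q → q ∉ D.Ut t := by
    intro q hq hqU
    have := hNPR X d D t q hqU 1 one_pos
    rw [pow_one] at this
    exact this hq
  have hfix : ∀ x, fc (D.c t) (D.γ x) ≠ D.γ x := fun x h => hnofix _ h (hγU x)
  have hLp : ∀ t' ∈ D.P, Lp D.γ (D.A t') := fun t' ht' =>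
    ⟨D.γc, D.γp, fun x => D.thk t' ht' x (Metric.mem_ball_self D.hρ)⟩
  have hJ : Continuous fun x : (Fin (d + 1) → ℝ) × ℂ => fc x.1 x.2 := by
    have := hJCO d 1
    simpa only [zpow_one] using this
  -- the index
  have hidx : ¬ LDeg (fun x => fc (D.c t) (D.γ x) - D.γ x) 0 := by
    intro hdeg
    have hc1 : ∀ t' : X, Continuous fun x : ℝ => fc (D.c t') (D.γ x) - D.γ x := fun t' =>
      ((fc (D.c t')).continuous.comp D.γc).sub D.γc
    have hp1 : ∀ (t' : X) (x : ℝ), fc (D.c t') (D.γ (x + 1)) - D.γ (x + 1) =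
        fc (D.c t') (D.γ x) - D.γ x := fun t' x => by rw [D.γp]
    obtain ⟨m₀, hm₀, hmin⟩ := exists_min (hc1 t) (hp1 t) (fun x => sub_ne_zero.2 (hfix x))
    have hFc : Continuous fun q : X × ℝ => ‖fc (D.c q.1) (D.γ q.2) - fc (D.c t) (D.γ q.2)‖ := by
      have h1 : Continuous fun q : X × ℝ => fc (D.c q.1) (D.γ q.2) :=
        hJ.comp ((D.cc.comp continuous_fst).prodMk (D.γc.comp continuous_snd))
      have h2 : Continuous fun q : X × ℝ => fc (D.c t) (D.γ q.2) :=
        (fc (D.c t)).continuous.comp (D.γc.comp continuous_snd)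
      exact (h1.sub h2).norm
    have hev : ∀ᶠ t' in 𝓝 t, ∀ x ∈ Icc (0 : ℝ) 1,
        ‖fc (D.c t') (D.γ x) - fc (D.c t) (D.γ x)‖ < m₀ := by
      refine isCompact_Icc.eventually_forall_of_forall_eventually fun x _ => ?_
      refine hFc.continuousAt.eventually_lt continuousAt_const ?_
      simpa using hm₀
    obtain ⟨t', h1, h2⟩ := hcl _ hev
    refine (D.eig t' h2).idx D.γ (hLp t' h2) (D.deg t' h2) ?_
    refine hdeg.of_near (hc1 t') (hp1 t') fun x => ?_
    refine lt_of_lt_of_le ?_ (hmin x)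
    have hper : Function.Periodic D.γ 1 := D.γp
    have h3 : D.γ x = D.γ (Int.fract x) := by
      have := hper.int_mul ⌊x⌋ (Int.fract x)
      rw [← this]
      congr 1
      rw [mul_one, Int.fract_add_floor]
    have h4 := h1 (Int.fract x) ⟨Int.fract_nonneg x, (Int.fract_lt_one x).le⟩
    rw [← h3] at h4
    have h5 : fc (D.c t') (D.γ x) - D.γ x - (fc (D.c t) (D.γ x) - D.γ x) =
        fc (D.c t') (D.γ x) - fc (D.c t) (D.γ x) := by ring
    rw [h5]
    exact h4
  obtain ⟨x₀, hx1, hx2, hx3⟩ := hSTB d D.deg2 (D.c t) (D.last t) D.γ D.γc D.γp hfix hidx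
  -- `b` is fixed
  have hbfix : fc (D.c t) ⟨x₀, x₀⟩ = ⟨x₀, x₀⟩ := by
    have hcl2 : IsClosed {x : ℝ | fc (D.c t) ⟨x, x⟩ = ⟨x, x⟩} := by
      have h1 : Continuous fun x : ℝ => (⟨x, x⟩ : ℂ) := continuous_mk continuous_id continuous_id
      exact isClosed_eq ((fc (D.c t)).continuous.comp h1) h1
    have : x₀ ∈ closure {x : ℝ | fc (D.c t) ⟨x, x⟩ = ⟨x, x⟩} := by
      rw [Metric.mem_closure_iff]
      intro ε hε
      obtain ⟨N, hN, h⟩ := hx3 ε hε
      obtain ⟨x', h1, h2⟩ := h (D.c t) (mem_of_mem_nhds hN)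
      exact ⟨x', h2, by rw [Real.dist_eq, abs_sub_comm]; exact h1⟩
    rw [hcl2.closure_eq] at this
    exact this
  obtain ⟨η, hη, hηd⟩ := exists_min (φ := fun x => D.γ x - ⟨x₀, x₀⟩) (by have := D.γc; fun_prop)
    (fun x => by simp only [D.γp]) (fun x => sub_ne_zero.2 (hx2 x))
  -- the nearby points
  have key : ∀ ε : ℝ, 0 < ε → ∃ N ∈ 𝓝 t, ∀ t' ∈ N, t' ∈ D.P → ∃ b' : ℂ,
      ‖b' - ⟨x₀, x₀⟩‖ < ε ∧ ‖b' - ⟨x₀, x₀⟩‖ < η / 2 ∧ b' ∉ D.A t' := by
    intro ε hε
    obtain ⟨N, hN, h⟩ := hx3 (min (ε / 2) (η / 4)) (lt_min (by linarith) (by linarith))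
    refine ⟨D.c ⁻¹' N, D.cc.continuousAt hN, fun t' ht' hP => ?_⟩
    obtain ⟨x', h1, h2⟩ := h (D.c t') ht'
    have h3 := norm_dz x' x₀
    refine ⟨⟨x', x'⟩, ?_, ?_, ?_⟩
    · have := h1.trans_le (min_le_left _ _)
      linarith
    · have := h1.trans_le (min_le_right _ _)
      linarith
    · intro hmem
      have h4 := (D.eig t' hP).eqv _ hmem
      rw [h2] at h4
      have h5 : D.h t' ⟨x', x'⟩ ≠ 0 := by
        rw [← norm_pos_iff, (D.eig t' hP).nor _ hmem]
        exact one_pos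
      have h6 : (lam D.α - 1) * D.h t' ⟨x', x'⟩ = 0 := by linear_combination -h4
      rcases mul_eq_zero.1 h6 with h7 | h7
      · exact lam_ne_one D.irr (sub_eq_zero.1 h7)
      · exact h5 h7
  have hfar : ∀ b' : ℂ, ‖b' - ⟨x₀, x₀⟩‖ < η / 2 → ∀ x, ‖b' - ⟨x₀, x₀⟩‖ < ‖D.γ x - b'‖ := by
    intro b' hb' x
    have h1 := hηd x
    have h2 : D.γ x - ⟨x₀, x₀⟩ = (D.γ x - b') + (b' - ⟨x₀, x₀⟩) := by ring
    rw [h2] at h1
    have h3 := norm_add_le (D.γ x - b') (b' - ⟨x₀, x₀⟩)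
    linarith
  refine ⟨⟨x₀, x₀⟩, hnofix _ hbfix, ?_, ?_⟩
  · obtain ⟨N, hN, h⟩ := key 1 one_pos
    obtain ⟨t', h1, h2⟩ := hcl N hN
    obtain ⟨b', -, hb2, hb3⟩ := h t' h1 h2
    obtain ⟨m, hm1, hm2⟩ := (D.eig t' h2).nuo b' hb3 D.γ (hLp t' h2) (D.deg t' h2)
    have h3 := ldeg_near D.γc D.γp hm2 (hfar b' hb2)
    have hm0 : m ≠ 0 := by
      rintro rfl
      exact hx1 h3
    rw [abs_le] at hm1
    have h4 : m = 1 ∨ m = -1 := by omega
    rcases h4 with rfl | rfl
    · exact Or.inl h3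
    · exact Or.inr h3
  · intro ε hε
    obtain ⟨N, hN, h⟩ := key ε hε
    refine ⟨N, hN, fun t' h1 h2 => ?_⟩
    obtain ⟨b', hb1, hb2, hb3⟩ := h t' h1 h2
    refine ⟨b', hb1, hb3, fun h4 => hx1 ?_⟩
    exact ldeg_near D.γc D.γp h4 (hfar b' hb2)

end PD

end Pool.Agent.Lib.MP9fa4ca
end

section
/-!
# MP_9fa4ca_an, PD : module HPR
-/
set_option autoImplicit false

open Set Topology Filter Complex MeasureTheory

namespace Pool.Agent.Lib.MP9fa4ca

namespace PD

universe u

theorem specHPR (hCNV : SpecCNV.{u}) : SpecHPR.{u} := by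
  intro X _ d D
  have hcl : D.E ⊆ closure (D.P ×ˢ (univ : Set ℂ)) := by
    rintro ⟨t, z⟩ ⟨ht, _⟩
    rw [closure_prod_eq, closure_univ]
    exact ⟨D.cl ht, mem_univ _⟩
  refine ⟨continuousOn_extendFrom hcl (fun x hx => hCNV X d D x.1 hx.1 x.2 hx.2), ?_⟩
  intro t ht z hz
  have h1 : Tendsto D.hh (𝓝[D.P ×ˢ univ] (t, z)) (𝓝 (D.H (t, z))) :=
    tendsto_extendFrom (hCNV X d D t ht z hz)
  refine ⟨h1, ?_⟩
  have hne : (𝓝[D.P ×ˢ (univ : Set ℂ)] (t, z)).NeBot :=
    mem_closure_iff_nhdsWithin_neBot.1 (hcl ⟨ht, hz⟩)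
  have hzU : z ∈ D.Ut t := connectedComponentIn_subset _ _ hz
  obtain ⟨-, N, hN, r, hr, hA⟩ := hzU
  have h2 : ∀ᶠ x in 𝓝[D.P ×ˢ (univ : Set ℂ)] (t, z), ‖D.hh x‖ = 1 := by
    have h3 : N ×ˢ Metric.ball z r ∈ 𝓝 (t, z) := prod_mem_nhds hN (Metric.ball_mem_nhds z hr)
    filter_upwards [mem_nhdsWithin_of_mem_nhds h3, self_mem_nhdsWithin] with x hx hxP
    exact (D.eig x.1 hxP.1).nor x.2 (hA x.1 hx.1 hxP.1 hx.2)
  have h4 : Tendsto (fun x => ‖D.hh x‖) (𝓝[D.P ×ˢ (univ : Set ℂ)] (t, z)) (𝓝 1) :=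
    tendsto_const_nhds.congr' (h2.mono fun x hx => hx.symm)
  exact tendsto_nhds_unique h1.norm h4

end PD

end Pool.Agent.Lib.MP9fa4ca
end

section
/-!
# PD/HTI : the lift of the eigenfunction
-/
set_option autoImplicit false

open Set Topology Filter Complex

namespace Pool.Agent.Lib.MP9fa4ca

namespace PD

namespace HTIAux

open ROTAux

variable {p : ℝ → ℝ} {A : Set ℂ} {e : ↥A ≃ₜ (Circle × ↥(Ioo (0 : ℝ) 1))}

theorem comb_ne {α : ℝ} (hα : Irrational α) {n : ℤ} (hn : n ≠ 0) (k : ℤ) :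
    (n : ℝ) * α + k ≠ 0 := by
  intro h
  have h1 : Irrational ((n : ℝ) * α) := hα.intCast_mul hn
  exact h1.ne_int (-k) (by push_cast; linarith)

theorem theta_ne (C : Core2 p A e) {n : ℤ} (hn : n ≠ 0) (j k : ℤ) (w : ℝ × ℝ)
    (hw : C.θ w = j) : C.θ ((C.F ^ n) w) ≠ k := by
  intro h
  rcases lt_or_gt_of_ne (comb_ne C.irr hn (j - k)) with h1 | h1
  · have h2 := C.neg n (j - k) h1 w j hw.le
    rw [h] at h2
    push_cast at h2
    linarith
  · have h2 := C.pos n (j - k) h1 w j hw.ge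
    rw [h] at h2
    push_cast at h2
    linarith

end HTIAux

open ROTAux HTIAux in
/-- HTI. The lift of the eigenfunction. -/
theorem specHTI : SpecHTI := by
  intro p A e C
  have hθ := C.cut
  have hc := hθ.cont
  have hlub : ∀ w, IsLUB (Lo C.θ C.F C.α w) (hti C w) := fun w =>
    isLUB_csSup (lo_ne w) (lo_bdd C.pos w)
  have key : ∀ (w : ℝ × ℝ) (n j : ℤ), hti C w < j - n * C.α → C.θ ((C.F ^ n) w) ≤ j := by
    intro w n j h
    by_contra hlt
    rw [not_le] at hlt
    exact absurd ((hlub w).1 ⟨n, j, rfl, hlt⟩) (not_le.2 h)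
  have hup : ∀ w y, hti C w < y → ∃ n j : ℤ, C.θ ((C.F ^ n) w) < j ∧ j - n * C.α < y := by
    intro w y hy
    obtain ⟨n, j, h1, h2⟩ := dense_comb C.irr hy
    obtain ⟨n', j', h3, h4⟩ := dense_comb C.irr h2
    have h5 := key w n j h1
    have h6 := key w n' j' (h1.trans h3)
    rcases lt_or_eq_of_le h5 with h5 | h5
    · exact ⟨n, j, h5, h2⟩
    rcases lt_or_eq_of_le h6 with h6 | h6
    · exact ⟨n', j', h6, h4⟩
    exfalso
    by_cases hnn : n' = n
    · rw [hnn] at h6 h3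
      rw [h5] at h6
      rw [h6] at h3
      exact lt_irrefl _ h3
    · refine theta_ne C (sub_ne_zero.2 hnn) j j' ((C.F ^ n) w) h5 ?_
      rw [← Homeomorph.mul_apply, ← zpow_add, sub_add_cancel]
      exact h6
  refine ⟨?_, fun w => ?_, fun w => ?_, fun w hw => ?_, key, fun w n j h => ?_⟩
  · refine continuous_iff_continuousAt.2 fun w => tendsto_order.2 ⟨fun x hx => ?_, fun y hy => ?_⟩
    · obtain ⟨l, ⟨n, j, rfl, hj⟩, hl⟩ := exists_lt_of_lt_csSup (lo_ne w) hx
      have h1 : Continuous fun v => C.θ ((C.F ^ n) v) := hc.comp (C.F ^ n).continuous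
      filter_upwards [(isOpen_lt continuous_const h1).mem_nhds hj] with v hv
      exact hl.trans_le ((hlub v).1 ⟨n, j, rfl, hv⟩)
    · obtain ⟨n, j, hj, hl⟩ := hup w y hy
      have h1 : Continuous fun v => C.θ ((C.F ^ n) v) := hc.comp (C.F ^ n).continuous
      filter_upwards [(isOpen_lt h1 continuous_const).mem_nhds hj] with v hv
      exact ((hlub v).2 fun l hl => lo_le C.pos hl hv).trans_lt hl
  · refine (hlub (T w)).unique (isLUB_shift (hlub w) _ fun y => ?_)
    have h1 : ∀ n : ℤ, C.θ ((C.F ^ n) (T w)) = C.θ ((C.F ^ n) w) + 1 := by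
      intro n
      have h2 : T w = (T ^ (1 : ℤ)) w := by rw [zpow_one]
      rw [h2, comm_zpow C.comm, theta_T hθ]
      simp
    constructor
    · rintro ⟨n, j, rfl, hj⟩
      rw [h1] at hj
      exact ⟨n, j - 1, by push_cast; ring, by push_cast; linarith⟩
    · rintro ⟨n, j, hy, hj⟩
      refine ⟨n, j + 1, by push_cast; linarith, ?_⟩
      rw [h1]
      push_cast
      linarith
  · refine (hlub (C.F w)).unique (isLUB_shift (hlub w) _ fun y => ?_)
    have h1 : ∀ n : ℤ, (C.F ^ n) (C.F w) = (C.F ^ (n + 1)) w := by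
      intro n
      rw [zpow_add_one, Homeomorph.mul_apply]
    constructor
    · rintro ⟨n, j, rfl, hj⟩
      rw [h1] at hj
      exact ⟨n + 1, j, by push_cast; ring, hj⟩
    · rintro ⟨n, j, hy, hj⟩
      refine ⟨n - 1, j, by push_cast; linarith, ?_⟩
      rw [h1, sub_add_cancel]
      exact hj
  · apply le_antisymm
    · refine (hlub w).2 ?_
      rintro l ⟨n, j, rfl, hj⟩
      by_contra hlt
      rw [not_le] at hlt
      have h1 := C.neg n (-j) (by push_cast; linarith) w 0 (by rw [hw]; simp)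
      push_cast at h1
      linarith
    · by_contra hlt
      rw [not_le] at hlt
      obtain ⟨n, j, h1, h2⟩ := dense_comb C.irr hlt
      have h3 := C.pos n (-j) (by push_cast; linarith) w 0 (by rw [hw]; simp)
      push_cast at h3
      have h4 := (hlub w).1 ⟨n, j, rfl, by linarith⟩
      linarith
  · by_contra hlt
    rw [not_le] at hlt
    have h1 : hti C w ≤ j - n * C.α := (hlub w).2 fun l hl => lo_le C.pos hl hlt
    linarith

end PD

end Pool.Agent.Lib.MP9fa4ca
end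

section
/-!
# MP_9fa4ca_an, PD, module IDO : the degree of `f z - z` is not zero
-/
set_option autoImplicit false

open Set Topology Filter Complex MeasureTheory

namespace Pool.Agent.Lib.MP9fa4ca

namespace PD

theorem specIDO (hLPD : SpecLPD) (hEQH : SpecEQH) : SpecIDO := by
  intro p hp A hA e C h hh γ hγ hd h0
  have hne : ∀ z ∈ A, hen p 1 z ≠ z := fun z hz => hA.per z hz 1 one_pos
  obtain ⟨m, hm⟩ := C.Q.exists_deg (fun z => hen p 1 z - z)
    ((henH p hp 1 one_ne_zero).continuous.continuousOn.sub continuousOn_id)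
    (fun z hz => sub_ne_zero.2 (hne z hz))
  have hm0 : m ≠ 0 := by
    rintro rfl
    exact specDeg specNat specRec A C.Q hA.opn hA.bdd p hp hA.inv hne C.F C.lft hm
  have h1 := (hLPD A C.Q h (hEQH p A e C h hh).2.2.2 γ hγ hd).2 _ m hm
  exact hm0 (h1.unique h0)

end PD

end Pool.Agent.Lib.MP9fa4ca
end

section
/-!
# MP_9fa4ca_an, PD : IND, the inverse of an injective holomorphic map is holomorphic
-/
set_option autoImplicit false

open Set Topology Filter Complex MeasureTheory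

namespace Pool.Agent.Lib.MP9fa4ca

namespace PD

theorem specIND : SpecIND := by
  intro S S' F G hS hF hbij hGF
  have hFG : ∀ y ∈ S', F (G y) = y := by
    intro y hy
    obtain ⟨z, hz, rfl⟩ := hbij.surjOn hy
    rw [hGF z hz]
  have hGS : ∀ y ∈ S', G y ∈ S := by
    intro y hy
    obtain ⟨z, hz, rfl⟩ := hbij.surjOn hy
    rw [hGF z hz]
    exact hz
  have hFa : ∀ z ∈ S, AnalyticAt ℂ F z := fun z hz => hF.analyticAt (hS.mem_nhds hz)
  -- `F` is not locally constant
  have hnc : ∀ z ∈ S, ¬ ∀ᶠ w in 𝓝 z, F w = F z := by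
    intro z hz h
    have h1 : ∀ᶠ w in 𝓝 z, w = z := by
      filter_upwards [h, hS.mem_nhds hz] with w hw hwS
      exact hbij.injOn hwS hz hw
    have h2 : ∀ᶠ w in 𝓝[≠] z, w = z := h1.filter_mono nhdsWithin_le_nhds
    have h3 : ∀ᶠ w in 𝓝[≠] z, w ≠ z := self_mem_nhdsWithin
    obtain ⟨w, hw1, hw2⟩ := (h2.and h3).exists
    exact hw2 hw1
  have hmap : ∀ z ∈ S, 𝓝 (F z) ≤ map F (𝓝 z) := fun z hz =>
    (hFa z hz).eventually_constant_or_nhds_le_map_nhds.resolve_left (hnc z hz)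
  have himg : ∀ z ∈ S, ∀ N ∈ 𝓝 z, F '' (N ∩ S) ∈ 𝓝 (F z) := fun z hz N hN =>
    hmap z hz (image_mem_map (inter_mem hN (hS.mem_nhds hz)))
  have hS' : IsOpen S' := by
    rw [isOpen_iff_mem_nhds]
    intro y hy
    obtain ⟨z, hz, rfl⟩ := hbij.surjOn hy
    refine mem_of_superset (himg z hz univ univ_mem) ?_
    rintro _ ⟨w, hw, rfl⟩
    exact hbij.mapsTo hw.2
  have hGt : ∀ z ∈ S, Tendsto G (𝓝 (F z)) (𝓝 z) := by
    intro z hz N hN
    rw [mem_map]
    refine mem_of_superset (himg z hz N hN) ?_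
    rintro _ ⟨w, hw, rfl⟩
    rw [mem_preimage]
    rw [hGF w hw.2]
    exact hw.1
  have hGc : ∀ z ∈ S, ContinuousAt G (F z) := by
    intro z hz
    have := hGt z hz
    rw [ContinuousAt, hGF z hz]
    exact this
  have hd : ∀ z ∈ S, deriv F z ≠ 0 → DifferentiableAt ℂ G (F z) := by
    intro z hz h0
    have h1 : HasDerivAt F (deriv F z) (G (F z)) := by
      rw [hGF z hz]
      exact (hFa z hz).differentiableAt.hasDerivAt
    exact (HasDerivAt.of_local_left_inverse (hGc z hz) h1 h0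
      (by
        filter_upwards [hS'.mem_nhds (hbij.mapsTo hz)] with y hy
        exact hFG y hy)).differentiableAt
  refine ⟨hS', ?_⟩
  intro y hy
  obtain ⟨z, hz, rfl⟩ := hbij.surjOn hy
  apply DifferentiableAt.differentiableWithinAt
  rcases (hFa z hz).deriv.eventually_eq_zero_or_eventually_ne_zero with h | h
  · exfalso
    apply hnc z hz
    obtain ⟨r, hr, hball⟩ := Metric.eventually_nhds_iff_ball.mp (h.and (hS.mem_nhds hz))
    filter_upwards [Metric.ball_mem_nhds z hr] with w hw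
    exact Metric.isOpen_ball.is_const_of_deriv_eq_zero (convex_ball z r).isPreconnected
      (fun x hx => (hFa x (hball x hx).2).differentiableAt.differentiableWithinAt)
      (fun x hx => (hball x hx).1) hw (Metric.mem_ball_self hr)
  · have ht : Tendsto G (𝓝[≠] (F z)) (𝓝[≠] z) := by
      rw [tendsto_nhdsWithin_iff]
      refine ⟨(hGt z hz).mono_left nhdsWithin_le_nhds, ?_⟩
      filter_upwards [self_mem_nhdsWithin,
        nhdsWithin_le_nhds (hS'.mem_nhds (hbij.mapsTo hz))] with y hy1 hy2 h3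
      apply hy1
      rw [mem_singleton_iff] at h3 ⊢
      rw [← hFG y hy2, h3]
    refine (analyticAt_of_differentiable_on_punctured_nhds_of_continuousAt ?_
      (hGc z hz)).differentiableAt
    filter_upwards [ht.eventually h, nhdsWithin_le_nhds (hS'.mem_nhds (hbij.mapsTo hz))] with y h1 h2
    have h3 := hd (G y) (hGS y h2) h1
    rwa [hFG y h2] at h3

end PD

end Pool.Agent.Lib.MP9fa4ca
end

section
/-!
# MP_9fa4ca_an, PD, module JCO: joint continuity of the powers in the parameter and the point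
-/
set_option autoImplicit false

open Set Topology Filter Complex MeasureTheory

namespace Pool.Agent.Lib.MP9fa4ca

namespace PD

namespace JCOAux

theorem cont_fc (d : ℕ) : Continuous fun x : (Fin (d + 1) → ℝ) × ℂ => fc x.1 x.2 := by
  have h1 : Continuous fun x : (Fin (d + 1) → ℝ) × ℂ => pol x.1 x.2.re :=
    SGNAux.continuous_pol.comp (continuous_fst.prodMk (Complex.continuous_re.comp continuous_snd))
  have h2 : Continuous fun x : (Fin (d + 1) → ℝ) × ℂ =>
      (⟨pol x.1 x.2.re - 1 * x.2.im, x.2.re⟩ : ℂ) :=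
    continuous_mk (by fun_prop) (by fun_prop)
  exact h2

theorem cont_inv (d : ℕ) : Continuous fun x : (Fin (d + 1) → ℝ) × ℂ => (fc x.1)⁻¹ x.2 := by
  have h1 : Continuous fun x : (Fin (d + 1) → ℝ) × ℂ => pol x.1 x.2.im :=
    SGNAux.continuous_pol.comp (continuous_fst.prodMk (Complex.continuous_im.comp continuous_snd))
  have h2 : Continuous fun x : (Fin (d + 1) → ℝ) × ℂ =>
      (⟨x.2.im, (pol x.1 x.2.im - x.2.re) / 1⟩ : ℂ) :=
    continuous_mk (by fun_prop) (by fun_prop)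
  exact h2

end JCOAux

open JCOAux in
theorem specJCO : SpecJCO := by
  intro d m
  induction m using Int.induction_on with
  | zero =>
    simp only [zpow_zero]
    exact continuous_snd
  | succ n ih =>
    have h1 : Continuous fun x : (Fin (d + 1) → ℝ) × ℂ => (x.1, fc x.1 x.2) :=
      continuous_fst.prodMk (cont_fc d)
    have h2 := ih.comp h1
    refine h2.congr fun x => ?_
    rw [zpow_add_one]
    rfl
  | pred n ih =>
    have h1 : Continuous fun x : (Fin (d + 1) → ℝ) × ℂ => (x.1, (fc x.1)⁻¹ x.2) :=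
      continuous_fst.prodMk (cont_inv d)
    have h2 := ih.comp h1
    refine h2.congr fun x => ?_
    rw [zpow_sub_one]
    rfl

end PD

end Pool.Agent.Lib.MP9fa4ca
end

section
/-!
# MP_9fa4ca_an, PD : LBL, every annular rotation domain has a label
-/
set_option autoImplicit false

open Set Topology Filter Complex MeasureTheory

namespace Pool.Agent.Lib.MP9fa4ca

namespace PD

theorem specLBL : SpecLBL := by
  intro Γ hΓ d c A α u h hE γ₀ hγ hdeg h0 h2
  have hper : Function.Periodic γ₀ 1 := hγ.per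
  -- the loop as a map of the circle
  obtain ⟨g, hg⟩ : ∃ g : C(UnitAddCircle, ℂ), ∀ x : ℝ, g x = γ₀ x := by
    refine ⟨⟨hper.lift, ?_⟩, fun x => hper.lift_coe x⟩
    exact continuous_quot_lift _ hγ.cont
  -- the compact range
  have hK : IsCompact (range γ₀) := by
    have : range γ₀ = γ₀ '' Icc 0 1 := by
      apply Subset.antisymm
      · rintro _ ⟨x, rfl⟩
        refine ⟨Int.fract x, ⟨Int.fract_nonneg x, (Int.fract_lt_one x).le⟩, ?_⟩
        have h1 := hper.sub_int_mul_eq (x := x) ⌊x⌋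
        rw [mul_one] at h1
        exact h1
      · rintro _ ⟨x, -, rfl⟩
        exact ⟨x, rfl⟩
    rw [this]
    exact isCompact_Icc.image hγ.cont
  have hKA : range γ₀ ⊆ A := by
    rintro _ ⟨x, rfl⟩
    exact hγ.mem x
  obtain ⟨δ, hδ, hδA⟩ := hK.exists_thickening_subset_open hE.opn hKA
  obtain ⟨ρ, hρ0, hρ⟩ := exists_rat_btwn (half_pos hδ)
  have hρ0' : (0 : ℝ) < ρ := by exact_mod_cast hρ0
  have hball : ∀ x, Metric.ball (γ₀ x) (2 * ρ) ⊆ A := by
    intro x z hz
    apply hδA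
    rw [Metric.mem_thickening_iff]
    exact ⟨γ₀ x, ⟨x, rfl⟩, (Metric.mem_ball.1 hz).trans (by linarith)⟩
  -- uniform continuity of `h` near the range
  have hU := hK.uniformContinuousAt_of_continuousAt h
    (fun a ha => hE.con.continuousAt (hE.opn.mem_nhds (hKA ha)))
    (Metric.dist_mem_uniformity (zero_lt_one' ℝ))
  obtain ⟨η, hη, hηh⟩ := Metric.mem_uniformity_dist.1 hU
  obtain ⟨γ, hγΓ, hgγ⟩ := hΓ.exists_dist_lt g (ε := min η (ρ / 4)) (lt_min hη (by positivity))
  have hd : ∀ x : ℝ, dist (γ₀ x) (γ x) < min η (ρ / 4) := by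
    intro x
    rw [← hg]
    exact (ContinuousMap.dist_apply_le_dist _).trans_lt hgγ
  have hthk : ∀ x : ℝ, Metric.ball (γ x) ρ ⊆ A := by
    intro x z hz
    apply hball x
    rw [Metric.mem_ball] at hz ⊢
    have h1 := (hd x).trans_le (min_le_right _ _)
    have h3 := dist_triangle z (γ x) (γ₀ x)
    rw [dist_comm (γ x) (γ₀ x)] at h3
    linarith
  refine ⟨γ, hγΓ, ρ, by exact_mod_cast hρ0, hE, hthk, ?_, ⟨0, ?_⟩, ⟨1 / 2, ?_⟩⟩
  · refine hdeg.of_near ?_ ?_ ?_
    · have h1 : Continuous fun x : ℝ => γ (x : UnitAddCircle) :=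
        γ.continuous.comp (AddCircle.continuous_mk' (1 : ℝ))
      exact hE.con.comp_continuous h1 fun x => hthk x (Metric.mem_ball_self hρ0')
    · intro x
      have : ((x + 1 : ℝ) : UnitAddCircle) = (x : UnitAddCircle) := AddCircle.coe_add_period 1 x
      rw [this]
    · intro x
      rw [hE.nor _ (hγ.mem x), ← dist_eq_norm, dist_comm]
      exact hηh ((hd x).trans_le (min_le_left _ _)) ⟨x, rfl⟩
  · rw [← h0, ← dist_eq_norm]
    have h1 := (hd 0).trans_le (min_le_right _ _)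
    linarith
  · rw [← h2, ← dist_eq_norm]
    have h1 := (hd (1 / 2)).trans_le (min_le_right _ _)
    linarith

end PD

end Pool.Agent.Lib.MP9fa4ca
end

section
/-!
# MP_9fa4ca_an, PD : LFB, lifts of balls
-/
set_option autoImplicit false

open Set Topology Filter Complex MeasureTheory

namespace Pool.Agent.Lib.MP9fa4ca

namespace PD

theorem specLFB (hHTI : SpecHTI) : SpecLFB := by
  classical
  intro p A e C h hd q ρ hρ hsub χ hχ
  obtain ⟨hc, hT, -⟩ := hHTI p A e C
  have hq : q ∈ Metric.ball q ρ := Metric.mem_ball_self hρ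
  have : ContractibleSpace (Metric.ball q ρ) := (convex_ball q ρ).contractibleSpace ⟨q, hq⟩
  have : LocallyPathConnectedSpace (Metric.ball q ρ) := Metric.isOpen_ball.locallyPathConnectedSpace
  obtain ⟨v₀, hv₀⟩ := C.Q.surj q (hsub hq)
  obtain ⟨F, hFc, -, hFP⟩ := C.Q.lift (Metric.ball q ρ) (fun x => (x : ℂ)) continuous_subtype_val
    (fun x => hsub x.2) ⟨q, hq⟩ v₀ hv₀
  have hχc : Continuous fun x : Metric.ball q ρ => χ x :=
    continuousOn_iff_continuous_domRestrict.1 hχ.cont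
  have : Nonempty (Metric.ball q ρ) := ⟨⟨q, hq⟩⟩
  obtain ⟨k, hk⟩ := int_const (X := Metric.ball q ρ) (fun x => hti C (F x) - χ x)
    ((hc.comp hFc).sub hχc) (by
      intro x
      have h1 := hd.eq (F x)
      rw [hFP, hχ.eq _ x.2] at h1
      obtain ⟨n, hn⟩ := Complex.exp_eq_exp_iff_exists_int.1 h1.symm
      refine ⟨n, ?_⟩
      have h2 : ((hti C (F x) : ℝ) : ℂ) * (2 * Real.pi * I) = (χ x + n) * (2 * Real.pi * I) := by
        linear_combination hn
      have h3 := mul_right_cancel₀ two_pi_I_ne h2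
      have h4 : hti C (F x) = χ x + n := by exact_mod_cast h3
      show hti C (F x) - χ x = n
      rw [h4]
      ring)
  refine ⟨fun z => if hz : z ∈ Metric.ball q ρ then ((F ⟨z, hz⟩).1 - k, (F ⟨z, hz⟩).2) else 0,
    ?_, ?_, ?_⟩
  · rw [continuousOn_iff_continuous_domRestrict]
    have h5 : Continuous fun x : Metric.ball q ρ => ((F x).1 - k, (F x).2) := by fun_prop
    convert h5 using 1
    funext x
    exact dif_pos x.2
  · intro z hz
    simp only [hz, dif_pos]
    have h6 := C.Q.perk (F ⟨z, hz⟩) (-k)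
    push_cast at h6
    rw [← sub_eq_add_neg] at h6
    rw [h6, hFP]
  · intro z hz
    simp only [hz, dif_pos]
    have h6 := iterFun hT (F ⟨z, hz⟩) (-k)
    push_cast at h6
    rw [← sub_eq_add_neg, ← sub_eq_add_neg] at h6
    rw [h6]
    have h7 := hk ⟨z, hz⟩
    simp only at h7
    linarith

end PD

end Pool.Agent.Lib.MP9fa4ca
end

section
/-!
# MP_9fa4ca_an, PD : module LGX (logarithms from degrees)
-/
set_option autoImplicit false

open Set Topology Filter Complex MeasureTheory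

namespace Pool.Agent.Lib.MP9fa4ca

namespace PD

namespace LGXAux

/-- `w` is the value at `z` of the logarithm of `u` continued along a path from `z₀`. -/
def R (S : Set ℂ) (u : ℂ → ℂ) (z₀ z w : ℂ) : Prop :=
  ∃ (c : ℝ → ℂ) (L : ℝ → ℂ), Continuous c ∧ Continuous L ∧ (∀ x, c x ∈ S) ∧ c 0 = z₀ ∧ c 1 = z ∧
    (∀ x, exp (L x) = u (c x)) ∧ L 0 = log (u z₀) ∧ L 1 = w

theorem R_unique {S : Set ℂ} {u : ℂ → ℂ} {z₀ z w w' : ℂ}
    (hdeg : ∀ σ, Lp σ S → LDeg (fun x => u (σ x)) 0)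
    (h : R S u z₀ z w) (h' : R S u z₀ z w') : w = w' := by
  obtain ⟨c, L, hc, hL, hcS, hc0, hc1, hLe, hL0, hL1⟩ := h
  obtain ⟨c', L', hc', hL', hcS', hc0', hc1', hLe', hL0', hL1'⟩ := h'
  set p : ℝ → ℂ := fun t => if t ≤ 1 / 2 then c (2 * t) else c' (2 - 2 * t) with hp
  have hpc : Continuous p := by
    refine Continuous.if_le (by fun_prop) (by fun_prop) continuous_id continuous_const ?_
    intro x hx
    have hx' : x = 1 / 2 := hx
    rw [hx']
    norm_num
    rw [hc1, hc1']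
  have hp0 : p 0 = z₀ := by
    simp only [hp]
    rw [if_pos (by norm_num), mul_zero, hc0]
  have hp1 : p 1 = z₀ := by
    simp only [hp]
    rw [if_neg (by norm_num)]
    norm_num
    exact hc0'
  have hpS : ∀ t, p t ∈ S := by
    intro t
    simp only [hp]
    split_ifs
    · exact hcS _
    · exact hcS' _
  have hσc : Continuous (p ∘ Int.fract) :=
    ContinuousOn.comp_fract'' hpc.continuousOn (hp0.trans hp1.symm)
  have hσ : Lp (p ∘ Int.fract) S :=
    ⟨hσc, fun x => by simp [Function.comp, Int.fract_add_one], fun x => hpS _⟩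
  obtain ⟨M, hM, hMe, hM1⟩ := hdeg _ hσ
  have hσ1 : ∀ x ∈ Icc (0 : ℝ) (1 / 2), (p ∘ Int.fract) x = c (2 * x) := by
    intro x hx
    have : Int.fract x = x := Int.fract_eq_self.2 ⟨hx.1, by linarith [hx.2]⟩
    simp only [Function.comp, this, hp]
    rw [if_pos hx.2]
  have hσ2 : ∀ x ∈ Icc (1 / 2 : ℝ) 1, (p ∘ Int.fract) x = c' (2 - 2 * x) := by
    intro x hx
    rcases hx.2.eq_or_lt with h1 | h1
    · rw [h1]
      simp only [Function.comp, Int.fract_one, hp0]
      norm_num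
      exact hc0'.symm
    · have : Int.fract x = x := Int.fract_eq_self.2 ⟨by linarith [hx.1], h1⟩
      simp only [Function.comp, this, hp]
      rcases hx.1.eq_or_lt with h2 | h2
      · rw [if_pos h2.symm.le, ← h2]
        norm_num
        rw [hc1, hc1']
      · rw [if_neg (not_le.2 h2)]
  obtain ⟨k, hk⟩ := log_unique_on (isPreconnected_Icc (a := (0 : ℝ)) (b := 1 / 2))
    ⟨0, by norm_num⟩ M (fun x => L (2 * x)) hM.continuousOn (by fun_prop)
    (fun x hx => by
      rw [hMe, hLe]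
      beta_reduce
      rw [hσ1 x hx])
  obtain ⟨k', hk'⟩ := log_unique_on (isPreconnected_Icc (a := (1 / 2 : ℝ)) (b := 1))
    ⟨1, by norm_num⟩ M (fun x => L' (2 - 2 * x)) hM.continuousOn (by fun_prop)
    (fun x hx => by
      rw [hMe, hLe']
      beta_reduce
      rw [hσ2 x hx])
  have e0 := hk 0 (by norm_num)
  have e1 := hk' 1 (by norm_num)
  have e2 := hk (1 / 2) (by norm_num)
  have e3 := hk' (1 / 2) (by norm_num)
  have e4 := hM1 0
  norm_num at e0 e1 e2 e3 e4
  rw [hL0] at e0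
  rw [hL0'] at e1
  rw [hL1] at e2
  rw [hL1'] at e3
  linear_combination e3 - e2 + e0 - e1 + e4

theorem R_exists {S : Set ℂ} {u : ℂ → ℂ} {z₀ z : ℂ} (hu : ContinuousOn u S)
    (h0 : ∀ z ∈ S, u z ≠ 0) (hj : JoinedIn S z₀ z) : ∃ w, R S u z₀ z w := by
  obtain ⟨γ, hγ⟩ := hj
  have hc : Continuous (fun x : ℝ => γ.extend x) := γ.continuous_extend
  have hcS : ∀ x : ℝ, γ.extend x ∈ S := by
    intro x
    exact hγ (projIcc 0 1 zero_le_one x)
  have hz₀ : z₀ ∈ S := by
    have := hcS 0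
    rwa [γ.extend_zero] at this
  obtain ⟨L, hL, hLe⟩ := exists_log (fun x : ℝ => u (γ.extend x))
    (hu.comp_continuous hc hcS) (fun x => h0 _ (hcS x))
  refine ⟨L 1 + (log (u z₀) - L 0), fun x => γ.extend x, fun x => L x + (log (u z₀) - L 0), hc,
    by fun_prop, hcS, γ.extend_zero, γ.extend_one, fun x => ?_, by ring, rfl⟩
  have h1 : exp (L 0) = u z₀ := by
    have := hLe 0
    rwa [γ.extend_zero] at this
  rw [exp_add, exp_sub, exp_log (h0 _ hz₀), h1, div_self (h0 _ hz₀), mul_one, hLe]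

theorem R_exp {S : Set ℂ} {u : ℂ → ℂ} {z₀ z w : ℂ} (h : R S u z₀ z w) : exp w = u z := by
  obtain ⟨c, L, hc, hL, hcS, hc0, hc1, hLe, hL0, hL1⟩ := h
  rw [← hL1, hLe, hc1]

theorem R_step {S : Set ℂ} {u : ℂ → ℂ} {z₀ z w : ℂ} (h : R S u z₀ z w) {ε : ℝ}
    (hb : Metric.ball z ε ⊆ S) (hu : ContinuousOn u S) (hz : u z ≠ 0)
    (hn : ∀ y ∈ Metric.ball z ε, ‖u y - u z‖ < ‖u z‖) {y : ℂ} (hy : y ∈ Metric.ball z ε) :
    R S u z₀ y (w + log (u y / u z)) := by
  obtain ⟨c, L, hc, hL, hcS, hc0, hc1, hLe, hL0, hL1⟩ := h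
  set s : ℝ → ℝ := fun x => max 0 (min (2 * x - 1) 1) with hs
  have hsc : Continuous s := by fun_prop
  have hs01 : ∀ x, s x ∈ Icc (0 : ℝ) 1 := fun x =>
    ⟨le_max_left _ _, max_le zero_le_one (min_le_right _ _)⟩
  set d : ℝ → ℂ := fun x => z + (s x : ℂ) * (y - z) with hd
  have hdc : Continuous d := by fun_prop
  have hdb : ∀ x, d x ∈ Metric.ball z ε := by
    intro x
    rw [Metric.mem_ball, dist_eq_norm] at hy ⊢
    simp only [hd, add_sub_cancel_left, norm_mul, Complex.norm_real]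
    have h1 := hs01 x
    rw [Real.norm_of_nonneg h1.1]
    have h2 := norm_nonneg (y - z)
    nlinarith [h1.2, h1.1]
  have hdS : ∀ x, d x ∈ S := fun x => hb (hdb x)
  have hslit : ∀ x, u (d x) / u z ∈ slitPlane := by
    intro x
    have h1 := hn _ (hdb x)
    have h2 : u (d x) / u z = 1 + (u (d x) - u z) / u z := by
      field_simp
      ring
    rw [h2]
    apply mem_slitPlane_of_norm_lt_one
    rw [norm_div, div_lt_one (norm_pos_iff.2 hz)]
    exact h1
  have hlc : Continuous (fun x => log (u (d x) / u z)) := by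
    refine Continuous.clog ?_ hslit
    exact (hu.comp_continuous hdc hdS).div_const _
  have hsh : s (1 / 2) = 0 := by
    simp only [hs]
    norm_num
  have hs1 : s 1 = 1 := by
    simp only [hs]
    norm_num
  refine ⟨fun x => if x ≤ 1 / 2 then c (2 * x) else d x,
    fun x => if x ≤ 1 / 2 then L (2 * x) else w + log (u (d x) / u z), ?_, ?_, ?_, ?_, ?_, ?_, ?_,
    ?_⟩
  · refine Continuous.if_le (by fun_prop) hdc continuous_id continuous_const ?_
    intro x hx
    have hx' : x = 1 / 2 := hx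
    rw [hx']
    simp only [hd, hsh]
    norm_num
    exact hc1
  · refine Continuous.if_le (by fun_prop) (by fun_prop) continuous_id continuous_const ?_
    intro x hx
    have hx' : x = 1 / 2 := hx
    rw [hx']
    simp only [hd, hsh]
    norm_num
    rw [hL1]
  · intro x
    beta_reduce
    split_ifs
    · exact hcS _
    · exact hdS _
  · beta_reduce
    rw [if_pos (by norm_num), mul_zero, hc0]
  · beta_reduce
    rw [if_neg (by norm_num)]
    simp only [hd, hs1]
    push_cast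
    ring
  · intro x
    beta_reduce
    split_ifs
    · exact hLe _
    · rw [exp_add, exp_log (slitPlane_ne_zero (hslit x)), ← hL1, hLe, hc1]
      field_simp
  · beta_reduce
    rw [if_pos (by norm_num), mul_zero, hL0]
  · beta_reduce
    rw [if_neg (by norm_num)]
    have : d 1 = y := by
      simp only [hd, hs1]
      push_cast
      ring
    rw [this]

end LGXAux

open LGXAux in
theorem specLGX : SpecLGX := by
  classical
  intro S hS hSc u hu h0 hdeg
  obtain ⟨z₀, hz₀⟩ := hSc.nonempty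
  have hpc : IsPathConnected S := (hS.isConnected_iff_isPathConnected).1 hSc
  have hex : ∀ z ∈ S, ∃ w, R S u z₀ z w := fun z hz =>
    R_exists hu h0 (hpc.joinedIn z₀ hz₀ z hz)
  choose! l hl using hex
  refine ⟨l, ?_, fun z hz => R_exp (hl z hz)⟩
  intro z hz
  have hzu := h0 z hz
  have hcz : ContinuousAt u z := hu.continuousAt (hS.mem_nhds hz)
  obtain ⟨ε₁, hε₁, hb₁⟩ := Metric.isOpen_iff.1 hS z hz
  obtain ⟨ε₂, hε₂, hb₂⟩ := Metric.continuousAt_iff.1 hcz ‖u z‖ (norm_pos_iff.2 hzu)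
  set ε := min ε₁ ε₂ with hε
  have hεp : 0 < ε := lt_min hε₁ hε₂
  have hbS : Metric.ball z ε ⊆ S :=
    (Metric.ball_subset_ball (min_le_left _ _)).trans hb₁
  have hn : ∀ y ∈ Metric.ball z ε, ‖u y - u z‖ < ‖u z‖ := by
    intro y hy
    rw [← dist_eq_norm]
    exact hb₂ (lt_of_lt_of_le hy (min_le_right _ _))
  have hev : ∀ᶠ y in 𝓝 z, l z + log (u y / u z) = l y := by
    filter_upwards [Metric.ball_mem_nhds z hεp] with y hy
    exact R_unique hdeg (R_step (hl z hz) hbS hu hzu hn hy) (hl y (hbS hy))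
  have hca : ContinuousAt (fun y => l z + log (u y / u z)) z := by
    refine continuousAt_const.add (ContinuousAt.clog (hcz.div_const _) ?_)
    rw [div_self hzu]
    exact one_mem_slitPlane
  exact (hca.congr hev).continuousWithinAt

end PD

end Pool.Agent.Lib.MP9fa4ca
end

section
set_option autoImplicit false

open Set Topology Filter Complex MeasureTheory

namespace Pool.Agent.Lib.MP9fa4ca

namespace PD

universe u

namespace LIXAux

theorem point {X : Type u} [TopologicalSpace X] {d : ℕ} (D : Dat X d) (t : X) (W : Ultrafilter X)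
    (hW : (W : Filter X) ≤ 𝓝[D.P] t) (z : ℂ) (hz : z ∈ D.Ut t) :
    ∃ w : ℂ, Tendsto (fun t' => D.h t' z) W (𝓝 w) := by
  obtain ⟨_, N, hN, r, hr, hb⟩ := hz
  have hmem : ∀ᶠ t' in (W : Filter X), D.h t' z ∈ Metric.closedBall (0 : ℂ) 1 := by
    apply hW
    rw [mem_nhdsWithin_iff_eventually]
    filter_upwards [hN] with t' ht' hP
    have h1 : z ∈ D.A t' := hb t' ht' hP (Metric.mem_ball_self hr)
    have h2 : ‖D.h t' z‖ = 1 := (D.eig t' hP).nor z h1
    simp [h2]
  have hle : ((W.map (fun t' => D.h t' z) : Ultrafilter ℂ) : Filter ℂ) ≤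
      𝓟 (Metric.closedBall (0 : ℂ) 1) := by
    rw [Filter.le_principal_iff]
    exact hmem
  obtain ⟨w, _, hw⟩ := (isCompact_closedBall (0 : ℂ) 1).ultrafilter_le_nhds _ hle
  exact ⟨w, hw⟩

end LIXAux

open Classical in
theorem specLIX : SpecLIX.{u} := by
  intro X _ d D t W hW
  refine ⟨fun z => if hz : z ∈ D.Ut t then (LIXAux.point D t W hW z hz).choose else 0, ?_⟩
  intro z hz
  have h := (LIXAux.point D t W hW z hz).choose_spec
  simp only [hz, dif_pos]
  exact h

end PD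

end Pool.Agent.Lib.MP9fa4ca
end
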