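import Pool.Agent.Lib.MP_9fa4ca_an.PD.Defs

/-!
# MP_9fa4ca_an, PD : the specifications for one annulus (`SpecE`)

Each docstring contains the proof. The statements used are hypotheses of the theorem of the module,
in the order given in the docstring. Everything of `Lib/MP_9fa4ca_an` (`ROT`, `LOC`, `Log`, `Ann`,
`HNE`, `CR/...`) can be used.
-/

set_option autoImplicit false

open Set Topology Filter Complex MeasureTheory

namespace Pool.Agent.Lib.MP9fa4ca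

namespace PD

/-! ### General lemmas -/

/-- ARG. A continuous argument on a ball. Uses: nothing. Proof: `exists_log_on` (the ball is convex,
open, nonempty) gives `L` with `exp L = h`; the real part of `L` is `0` since `‖h‖ = 1`;
`χ = im L / (2 π)`. -/
def SpecARG : Prop :=
  ∀ (h : ℂ → ℂ) (q : ℂ) (ρ : ℝ), 0 < ρ → ContinuousOn h (Metric.ball q ρ) →
    (∀ z ∈ Metric.ball q ρ, ‖h z‖ = 1) → ∃ χ, Arg h (Metric.ball q ρ) χ

/-- NUM. A finite set of integers such that every interval of length `δ` contains a number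
`j - m α`. Uses: nothing. Proof: it is enough to have this for intervals starting in `[0, 1)` (add
an integer to `j`) and for `δ ≤ 1`. Let `K ≥ 2 / δ`. For `k = 0, ..., 2 K` the interval
`(k / K, (k + 1) / K)`: by `ROTAux.dense_comb` twice it contains two numbers `j - m α < j' - m' α`;
`m ≠ m'`, since otherwise the difference would be an integer `≥ 1`; choose the one with `m ≠ m₀`.
Every interval `(x, x + δ)`, `0 ≤ x < 1`, contains an interval `(k / K, (k + 1) / K)`,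
`0 ≤ k ≤ 2 K`. -/
def SpecNUM : Prop :=
  ∀ α : ℝ, Irrational α → ∀ δ : ℝ, 0 < δ → ∀ m₀ : ℤ, ∃ S : Finset ℤ, m₀ ∉ S ∧
    ∀ x : ℝ, ∃ m ∈ S, ∃ j : ℤ, x < j - m * α ∧ j - m * α < x + δ

/-- JCO. Joint continuity. Uses: nothing. Proof: `fc c z = ⟨pol c z.re - z.im, z.re⟩` and
`(fc c)⁻¹ z = ⟨z.im, pol c z.im - z.re⟩` are jointly continuous (`continuous_mk`,
`SGNAux.continuous_pol`); induction on `m : ℤ` (`Int.induction_on`), `fc c ^ (m + 1) =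
fc c ^ m * fc c`. -/
def SpecJCO : Prop :=
  ∀ (d : ℕ) (m : ℤ), Continuous fun x : (Fin (d + 1) → ℝ) × ℂ => (fc x.1 ^ m) x.2

/-- BND. Bounded invariant sets are uniformly bounded, locally in the parameter. Uses: nothing.
Proof: let `S` be nonempty, `M` the supremum of `|re z|` on `S`; since `im (f z) = re z` and `S` is
invariant also `|im z| ≤ M` on `S`. For `z ∈ S`: `re (f z) = p (re z) - im z`, so
`|p (re z)| ≤ 2 M` and `|c_d| |re z| ^ d ≤ 2 M + ∑_{i < d} |c_i| M ^ i`; take the supremum over `z`: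
`|c_d| M ^ d ≤ 2 M + ∑_{i < d} |c_i| M ^ i`. If `M ≥ 1` this gives
`|c_d| M ≤ 2 + ∑_{i < d} |c_i|`. So `M ≤ 1 + (2 + ∑_i |c_i|) / |c_d|`, which is continuous in `c`
at `c₀`; `‖z‖ ≤ 2 M`. -/
def SpecBND : Prop :=
  ∀ d : ℕ, 2 ≤ d → ∀ c₀ : Fin (d + 1) → ℝ, c₀ (Fin.last d) ≠ 0 → ∃ N ∈ 𝓝 c₀, ∃ R : ℝ, ∀ c ∈ N,
    ∀ S : Set ℂ, Bornology.IsBounded S → (∀ z, fc c z ∈ S ↔ z ∈ S) → S ⊆ Metric.ball 0 R

/-- EVZ. Powers. Uses: nothing. Proof: `Int.induction_on`. -/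
def SpecEVZ : Prop :=
  ∀ (f : ℂ ≃ₜ ℂ) (S : Set ℂ), (∀ z, f z ∈ S ↔ z ∈ S) → ∀ (g : ℂ → ℂ) (α : ℝ),
    (∀ z ∈ S, g (f z) = lam α * g z) → ∀ (m : ℤ), ∀ z ∈ S,
      (f ^ m) z ∈ S ∧ g ((f ^ m) z) = lam α ^ m * g z

/-- REF. Reversibility. Uses: nothing. Proof: `hen_refl` says `f (refl (f z)) = refl z`, so
`refl (f z) = f⁻¹ (refl z)`; `Int.induction_on`. -/
def SpecREF : Prop :=
  ∀ (p : ℝ → ℝ) (hp : Continuous p) (m : ℤ) (z : ℂ),
    (hf p hp ^ m) (refl z) = refl ((hf p hp ^ (-m)) z)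

/-- SYM. A point which visits the diagonal twice is periodic. Uses: REF. Proof: `f ^ m₁ q ∈ Δ` means
`refl (f ^ m₁ q) = f ^ m₁ q`, and `refl (f ^ m₁ q) = f ^ (-m₁) (refl q)`; so
`refl q = f ^ (2 m₁) q`. In the same way `refl q = f ^ (2 m₂) q`. So `f ^ (2 (m₁ - m₂)) q = q`, take
`n = 2 |m₁ - m₂|`. -/
def SpecSYM : Prop :=
  ∀ (d : ℕ) (c : Fin (d + 1) → ℝ) (q : ℂ) (m₁ m₂ : ℤ), m₁ ≠ m₂ →
    ((fc c ^ m₁) q).re = ((fc c ^ m₁) q).im → ((fc c ^ m₂) q).re = ((fc c ^ m₂) q).im →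
    ∃ n : ℕ, 0 < n ∧ (fc c ^ n) q = q

/-- WND. The winding number is constant on connected sets. Uses: nothing. Proof: let
`Z = {b ∈ S | LDeg (σ - b) 0}`. For `b ∈ S` the distance of `b` from `σ` is positive (`σ` is
periodic), and for `b' ∈ S` nearer to `b` than this distance `LDeg (σ - b) m` implies
`LDeg (σ - b') m` (`LDeg.of_near`); every `b ∈ S` has a degree `m` (`exists_log` on the line, the
difference of `L (x + 1)` and `L x` is constant by `log_unique`). So `Z` and `S \ Z` are relatively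
open; `S` is preconnected. -/
def SpecWND : Prop :=
  ∀ σ : ℝ → ℂ, Continuous σ → (∀ x, σ (x + 1) = σ x) → ∀ S : Set ℂ, IsPreconnected S →
    (∀ x, σ x ∉ S) → ∀ b ∈ S, ∀ b' ∈ S, LDeg (fun x => σ x - b) 0 → LDeg (fun x => σ x - b') 0

/-- ARN. An eigenfunction is not constant on a ball. Uses: EVZ. Proof: if `g` is constant on the ball
`B = ball q r` then the images `f ^ n B`, `n ∈ ℕ`, are pairwise disjoint (`g = λ ^ n g q` on
`f ^ n B`, `g q ≠ 0` and `λ ^ n = λ ^ m` only for `n = m` since `α` is irrational), have the area of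
`B` (`vol_zpow`), which is positive, and are contained in the bounded set `S`. -/
def SpecARN : Prop :=
  ∀ (p : ℝ → ℝ) (hp : Continuous p) (S : Set ℂ), Bornology.IsBounded S →
    (∀ z, hf p hp z ∈ S ↔ z ∈ S) → ∀ (g : ℂ → ℂ) (α : ℝ), Irrational α →
    (∀ z ∈ S, g (hf p hp z) = lam α * g z) → (∀ z ∈ S, ‖g z‖ = 1) → ∀ (q : ℂ) (r : ℝ), 0 < r →
    Metric.ball q r ⊆ S → ∃ z ∈ Metric.ball q r, ∃ z' ∈ Metric.ball q r, g z ≠ g z'

/-! ### The universal cover of an annulus -/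

/-- NUO. The index is `-1`, `0` or `1`. Uses: nothing. Proof: suppose `N = |n| ≥ 2`, `n = nu b`. Let
`L` be as in `Ann.nu_deg`: `exp (L w) = P w - b`, `L (T w) = L w + n 2 π i`. Put
`γ x = exp (L (x, 0) / N)`: periodic, `LDeg γ (±1)`. Let `ζ = exp (2 π i / N) ≠ 1`. Claim:
`γ x ≠ ζ γ y` for all `x`, `y`. If they are equal then the `N`-th powers are equal:
`P (x, 0) = P (y, 0)`, so `y = x + k` (`inj`) and `γ y = γ x`, `γ y = ζ γ y`, contradiction since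
`γ y ≠ 0`. By the claim `Φ (x, y) = γ x - ζ γ y` has no zero on `ℝ × ℝ`, `exists_log` gives a
logarithm `M`, and `M (x + 1, y) = M (x, y) + j 2 π i` with a constant `j`: `x ↦ Φ (x, y)` has the
degree `j` for every `y`. Choose `y` with `‖γ y‖` maximal: `Φ (x, y) = -ζ γ y (1 - γ x / (ζ γ y))`,
the bracket is `1 - w` with `‖w‖ ≤ 1`, `w ≠ 1`, so it is in the slit plane: `j = 0`. Choose `y` with
`‖γ y‖` minimal: `Φ (x, y) = γ x (1 - ζ γ y / γ x)`: `j = ±1`, the degree of `γ`.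
Contradiction. -/
def SpecNUO : Prop :=
  ∀ (A : Set ℂ) (Q : Ann A) (b : ℂ), b ∉ A → |Q.nu b| ≤ 1

/-- LPL. Lifts of loops. Uses: nothing. Proof: `Q.lift` with `X = ℝ`; `s (x + 1)` and `s x` have the
same image, so `s (x + 1) = ((s x).1 + k x, (s x).2)` with an integer `k x` (`inj`), which is
constant (`int_const`). -/
def SpecLPL : Prop :=
  ∀ (A : Set ℂ) (Q : Ann A) (γ : ℝ → ℂ), Lp γ A → ∃ s : ℝ → ℝ × ℝ, Continuous s ∧
    (∀ x, Q.P (s x) = γ x) ∧ ∃ k : ℤ, ∀ x, s (x + 1) = ((s x).1 + k, (s x).2)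

/-- LPD. Loops of degree `1`. Uses: LPL. Proof: let `s`, `k` be as in LPL. If `Q.Deg φ m` with the
logarithm `L` then `L (s (x + 1)) = L (s x) + k m 2 π i` (iterate `L (T w) = L w + m 2 π i`, for
`k : ℤ`, as in `Ann.Deg.exists_log`), so `LDeg (φ ∘ γ) (k m)`. For `φ = h`, `m = 1` this gives
`k = 1` by `LDeg.unique`. -/
def SpecLPD : Prop :=
  ∀ (A : Set ℂ) (Q : Ann A) (h : ℂ → ℂ), Q.Deg h 1 → ∀ γ : ℝ → ℂ, Lp γ A →
    LDeg (fun x => h (γ x)) 1 → (∃ s : ℝ → ℝ × ℝ, Continuous s ∧ (∀ x, Q.P (s x) = γ x) ∧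
      ∀ x, s (x + 1) = T (s x)) ∧
    ∀ (φ : ℂ → ℂ) (m : ℤ), Q.Deg φ m → LDeg (fun x => φ (γ x)) m

/-- UPO. A loop in the cover `{ζ | exp ζ + b ∈ A}` has winding number `0` around the points outside
of the cover. Uses: LPL, LPD. Proof: `n = Q.nu b` is not `0`: `LDeg (γ - b) n` by LPD and `nu_deg`.
`L`: `exp (L w) = Q.P w - b`, `L (T w) = L w + n 2 π i`. Let `s` be a lift (LPL) of the loop
`x ↦ exp (σ x) + b`, `s (x + 1) = ((s x).1 + k, (s x).2)`. `exp (L (s x)) = exp (σ x)`, so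
`L (s x) = σ x + j 2 π i` with a constant `j` (`log_unique`), hence `L (s (x + 1)) = L (s x)`; it is
also `L (s x) + k n 2 π i`; so `k = 0` and `s` is periodic. The function
`w ↦ L w - j 2 π i - β` has no zero on `ℝ × ℝ` (at a zero `exp (L w) = exp β`, so
`Q.P w = exp β + b ∉ A`); it has a continuous logarithm `M` (`exists_log`); `x ↦ M (s x)` is
periodic and a logarithm of `σ x - β`. -/
def SpecUPO : Prop :=
  ∀ (A : Set ℂ) (Q : Ann A) (h : ℂ → ℂ), Q.Deg h 1 → ∀ b, b ∉ A → ∀ γ, Lp γ A →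
    LDeg (fun x => h (γ x)) 1 → ¬ LDeg (fun x => γ x - b) 0 →
    ∀ σ : ℝ → ℂ, Continuous σ → (∀ x, σ (x + 1) = σ x) → (∀ x, exp (σ x) + b ∈ A) →
      ∀ β, exp β + b ∉ A → LDeg (fun x => σ x - β) 0

/-! ### The eigenfunction of an annulus -/

/-- HTI. The lift of the eigenfunction. Uses: nothing. Proof: as in `specRot'` (`ROT.lean`), with
`ROTAux.lo_le`, `lo_ne`, `lo_bdd`, `isLUB_shift`, `dense_comb`. There the hypothesis `hd` is used in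
the form: `θ w = j` implies `θ (F ^ n w) ≠ k` for `n ≠ 0`; here it follows from `C.pos`, `C.neg`:
`n α + (j - k) ≠ 0` since `α` is irrational. `θ w = 0 → hti w = 0`: a member `j - n α` of `Lo` is
`≤ 0` (otherwise `n α - j < 0`, `C.neg n (-j)` gives `θ (F ^ n w) < j`), and every `j - n α < 0` is
a member (`C.pos n (-j)`); `dense_comb`. `hti w < j - n α → θ (F ^ n w) ≤ j`: otherwise `j - n α` is
a member. `j - n α < hti w → j ≤ θ (F ^ n w)`: otherwise `lo_le` gives `hti w ≤ j - n α`. -/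
def SpecHTI : Prop :=
  ∀ (p : ℝ → ℝ) (A : Set ℂ) (e : ↥A ≃ₜ (Circle × ↥(Ioo (0 : ℝ) 1))) (C : Core2 p A e),
    Continuous (hti C) ∧ (∀ w, hti C (T w) = hti C w + 1) ∧
    (∀ w, hti C (C.F w) = hti C w + C.α) ∧ (∀ w, C.θ w = 0 → hti C w = 0) ∧
    (∀ (w : ℝ × ℝ) (n j : ℤ), hti C w < j - n * C.α → C.θ ((C.F ^ n) w) ≤ j) ∧
    ∀ (w : ℝ × ℝ) (n j : ℤ), j - n * C.α < hti C w → (j : ℝ) ≤ C.θ ((C.F ^ n) w)

/-- DSC. The eigenfunction. Uses: HTI. Proof: `exp (2 π i hti w)` depends only on `Q.P w`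
(`Q.inj`, iterate `hti (T w) = hti w + 1`, `iterFun`); continuity from `Q.opn` as in
`Ann.Deg.exists_log`. -/
def SpecDSC : Prop :=
  ∀ (p : ℝ → ℝ) (A : Set ℂ) (e : ↥A ≃ₜ (Circle × ↥(Ioo (0 : ℝ) 1))) (C : Core2 p A e),
    ∃ h, Dsc C h

/-- EQH. Uses: HTI. Proof: every `z ∈ A` is `Q.P w`; `h (f z) = h (Q.P (F w))`. For `s₀ < s < s₁`
take `w` with `Q.P w = ⟨s, s⟩` (`C.seg`, `Q.surj`, `diag_eq`); `θ w = n` is an integer (`C.int`);
`w' = (T ^ (-n)) w` has `θ w' = 0` (`ROTAux.theta_T`) and the same image, `hti w' = 0`.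
Degree: the logarithm `2 π i hti`. -/
def SpecEQH : Prop :=
  ∀ (p : ℝ → ℝ) (A : Set ℂ) (e : ↥A ≃ₜ (Circle × ↥(Ioo (0 : ℝ) 1))) (C : Core2 p A e)
    (h : ℂ → ℂ), Dsc C h → (∀ z ∈ A, ‖h z‖ = 1) ∧ (∀ z ∈ A, h (hen p 1 z) = lam C.α * h z) ∧
    (∀ s : ℝ, C.s₀ < s → s < C.s₁ → h ⟨s, s⟩ = 1) ∧ C.Q.Deg h 1

/-- LFB. Lifts of balls. Uses: HTI. Proof: `Q.lift` with `X` the ball (a convex open set: it is
contractible and locally path connected, see `exists_log_on`) gives `s'` with `Q.P (s' z) = z`.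
`hti (s' z) - χ z` is continuous with integer values on the ball, so it is a constant `k`
(`int_const`); `s z = ((s' z).1 - k, (s' z).2)` (`Ann.perk`, `iterFun`). -/
def SpecLFB : Prop :=
  ∀ (p : ℝ → ℝ) (A : Set ℂ) (e : ↥A ≃ₜ (Circle × ↥(Ioo (0 : ℝ) 1))) (C : Core2 p A e)
    (h : ℂ → ℂ), Dsc C h → ∀ (q : ℂ) (ρ : ℝ), 0 < ρ → Metric.ball q ρ ⊆ A → ∀ χ,
    Arg h (Metric.ball q ρ) χ → ∃ s : ℂ → ℝ × ℝ, ContinuousOn s (Metric.ball q ρ) ∧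
      (∀ z ∈ Metric.ball q ρ, C.Q.P (s z) = z) ∧ ∀ z ∈ Metric.ball q ρ, hti C (s z) = χ z

/-- CRB. Crossings. Uses: HTI, LFB. Proof: with `s` from LFB: `θ (F ^ m (s z)) ≤ j` and
`j ≤ θ (F ^ m (s z'))` by HTI. The segment is connected and in the ball, `y ↦ θ (F ^ m (s y))` is
continuous on it, so it takes the value `j` at some `y`. By `C.int` and `lft_zpow`:
`f ^ m y = Q.P (F ^ m (s y)) = ⟨s', s'⟩` with `s₀ < s' < s₁` (`diag_eq`). -/
def SpecCRB : Prop :=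
  ∀ (p : ℝ → ℝ) (hp : Continuous p) (A : Set ℂ) (e : ↥A ≃ₜ (Circle × ↥(Ioo (0 : ℝ) 1)))
    (C : Core2 p A e) (h : ℂ → ℂ), Dsc C h → ∀ (q : ℂ) (ρ : ℝ), Metric.ball q ρ ⊆ A → ∀ χ,
    Arg h (Metric.ball q ρ) χ → ∀ z ∈ Metric.ball q ρ, ∀ z' ∈ Metric.ball q ρ, ∀ m j : ℤ,
    χ z < j - m * C.α → j - m * C.α < χ z' →
    ∃ y ∈ segment ℝ z z', ∃ s : ℝ, C.s₀ < s ∧ s < C.s₁ ∧ (hf p hp ^ m) y = ⟨s, s⟩

/-- OSB. The oscillation on a ball is at most `2`. Uses: HTI, LFB. Proof: if `χ z' - χ z > 2` there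
is an integer `j` with `χ z < j` and `j + 1 < χ z'`. With `s` from LFB and HTI (`n = 0`):
`θ (s z) ≤ j`, `j + 1 ≤ θ (s z')`; so there are `y₁`, `y₂` on the segment `[z, z']` with
`θ (s y₁) = j`, `θ (s y₂) = j + 1`. By `C.int` both `y₁ = ⟨s₁', s₁'⟩` and `y₂ = ⟨s₂', s₂'⟩` are on
the crosscut, so the segment `[y₁, y₂]` is on the crosscut and in the ball; by `C.int` `θ ∘ s` has
integer values on it; it is continuous, so constant (intermediate values): `j = j + 1`. -/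
def SpecOSB : Prop :=
  ∀ (p : ℝ → ℝ) (A : Set ℂ) (e : ↥A ≃ₜ (Circle × ↥(Ioo (0 : ℝ) 1)))
    (C : Core2 p A e) (h : ℂ → ℂ), Dsc C h → ∀ (q : ℂ) (ρ : ℝ), Metric.ball q ρ ⊆ A → ∀ χ,
    Arg h (Metric.ball q ρ) χ → ∀ z ∈ Metric.ball q ρ, ∀ z' ∈ Metric.ball q ρ, χ z' - χ z ≤ 2

/-- DNO. The images of the crosscut are dense. Uses: ARG, ARN, EQH, CRB. Proof: by ARN `h` is not
constant on the ball, let `χ` be an argument (ARG): `χ z < χ z'` for some `z`, `z'` in the ball;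
`dense_comb` gives `m`, `j` with `χ z < j - m α < χ z'`; CRB. -/
def SpecDNO : Prop :=
  ∀ (p : ℝ → ℝ) (hp : Continuous p) (A : Set ℂ), IsARD p A →
    ∀ (e : ↥A ≃ₜ (Circle × ↥(Ioo (0 : ℝ) 1))) (C : Core2 p A e) (h : ℂ → ℂ), Dsc C h →
    ∀ (q : ℂ) (r : ℝ), 0 < r → Metric.ball q r ⊆ A → ∃ y ∈ Metric.ball q r, ∃ m : ℤ, ∃ s : ℝ,
      C.s₀ < s ∧ s < C.s₁ ∧ (hf p hp ^ m) y = ⟨s, s⟩

/-- RFH. The eigenfunction is `±1` on the diagonal. Uses: EVZ, REF, EQH, DNO. Proof: let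
`D` be the set of the `z ∈ A` with `f ^ m z = ℓ = ⟨s', s'⟩`, `s₀ < s' < s₁`, for some `m`. For
`z ∈ D`: `refl z = f ^ m ℓ` (REF: `f ^ (-m) (refl z) = refl (f ^ m z) = refl ℓ = ℓ`), so it is in
`A`, `h z = λ ^ (-m) h ℓ = λ ^ (-m)` and `h (refl z) = λ ^ m = conj (h z)`. Let
`z₀ = ⟨s, s⟩ ∈ A`: by DNO there are `z_n ∈ D` with `z_n → z₀`, and `refl z_n → refl z₀ = z₀`
(`refl_isometry`). So `h z₀ = conj (h z₀)`, real of norm `1`. -/
def SpecRFH : Prop :=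
  ∀ (p : ℝ → ℝ), Continuous p → ∀ (A : Set ℂ), IsARD p A →
    ∀ (e : ↥A ≃ₜ (Circle × ↥(Ioo (0 : ℝ) 1))) (C : Core2 p A e) (h : ℂ → ℂ), Dsc C h →
    ∀ s : ℝ, (⟨s, s⟩ : ℂ) ∈ A → h ⟨s, s⟩ = 1 ∨ h ⟨s, s⟩ = -1

/-- IDO. The degree of `f z - z` is not zero. Uses: LPD, EQH. Proof: `Ann.exists_deg` gives a degree
`m` of `z ↦ hen p 1 z - z` on `A` (no fixed point in `A`, `IsARD.per` with `n = 1`), `m ≠ 0` by
`specDeg specNat specRec` (with `C.F`, `C.lft`); LPD gives `LDeg` with `m`, `LDeg.unique`. -/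
def SpecIDO : Prop :=
  ∀ (p : ℝ → ℝ), Continuous p → ∀ (A : Set ℂ), IsARD p A →
    ∀ (e : ↥A ≃ₜ (Circle × ↥(Ioo (0 : ℝ) 1))) (C : Core2 p A e) (h : ℂ → ℂ), Dsc C h →
    ∀ γ, Lp γ A → LDeg (fun x => h (γ x)) 1 → ¬ LDeg (fun x => hen p 1 (γ x) - γ x) 0

/-- LP1. A loop of degree `1` through `z` and `f z`. Uses: HTI. Proof: `Q.P w₀ = z`. Put
`s x = w₀ + (x, 0) + β x (F w₀ - w₀ - (1 / 2, 0))`, `β x = (1 - cos (2 π x)) / 2`. `β 0 = 0`,
`β (1 / 2) = 1`, `β` has the period `1`: `s (x + 1) = T (s x)`, `s 0 = w₀`, `s (1 / 2) = F w₀`.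
`γ x = Q.P (s x)`. `LDeg (h ∘ γ) 1` with the logarithm `2 π i hti (s x)`. -/
def SpecLP1 : Prop :=
  ∀ (p : ℝ → ℝ) (A : Set ℂ) (e : ↥A ≃ₜ (Circle × ↥(Ioo (0 : ℝ) 1)))
    (C : Core2 p A e) (h : ℂ → ℂ), Dsc C h → ∀ z ∈ A, ∃ γ, Lp γ A ∧
      LDeg (fun x => h (γ x)) 1 ∧ γ 0 = z ∧ γ (1 / 2) = hen p 1 z

/-- EIG (assembly, captain). Uses: all of the above. -/
def SpecEIG : Prop :=
  ∀ d : ℕ, 2 ≤ d → ∀ (c : Fin (d + 1) → ℝ) (A : Set ℂ), IsARD (pol c) A →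
    ∀ (e : ↥A ≃ₜ (Circle × ↥(Ioo (0 : ℝ) 1))), ∃ (α : ℝ) (u : ℚ) (h : ℂ → ℂ),
      HasRot (pol c) A e α ∧ Irrational α ∧ Eig c A α u h ∧ ∃ γ, Lp γ A ∧
        LDeg (fun x => h (γ x)) 1 ∧ γ 0 = ⟨u, u⟩ ∧ γ (1 / 2) = fc c ⟨u, u⟩

end PD

end Pool.Agent.Lib.MP9fa4ca
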