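import Pool.Agent.Lib.MP_9fa4ca_an.PD.SpecL
import Pool.Agent.Lib.MP_9fa4ca_an.PD.SpecB
import Pool.Agent.Lib.MP_9fa4ca_an.PD.SpecE
import Pool.Agent.Lib.MP_9fa4ca_an.Minus
import Pool.Agent.Lib.MP_9fa4ca_an.PD.SpecD

section
/-!
# MP_9fa4ca_an, PD : LMC, the limit functions are continuous
-/
set_option autoImplicit false

open Set Topology Filter Complex MeasureTheory

namespace Pool.Agent.Lib.MP9fa4ca

namespace PD

universe u

theorem specLMC (_hUOP : SpecUOP.{u}) (hEQC : SpecEQC.{u}) : SpecLMC.{u} := by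
  intro X _ d D t W hW g hg
  have hP : ∀ᶠ t' in (W : Filter X), t' ∈ D.P := hW self_mem_nhdsWithin
  have hN : ∀ N ∈ 𝓝 t, ∀ᶠ t' in (W : Filter X), t' ∈ N := fun N hN =>
    hW (mem_nhdsWithin_of_mem_nhds hN)
  have hin : ∀ z ∈ D.Ut t, ∀ᶠ t' in (W : Filter X), t' ∈ D.P ∧ z ∈ D.A t' := by
    intro z hz
    obtain ⟨-, N, hNt, r, hr, hball⟩ := hz
    filter_upwards [hP, hN N hNt] with t' h1 h2
    exact ⟨h1, hball t' h2 h1 (Metric.mem_ball_self hr)⟩
  refine ⟨?_, ?_, ?_, ?_⟩
  · rw [Metric.continuousOn_iff]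
    intro q hq ε hε
    obtain ⟨N, hNt, r, hr, hb⟩ := hEQC X d D t q hq (ε / 2) (by linarith)
    refine ⟨r, hr, fun y hy hyq => ?_⟩
    have hlim : Tendsto (fun t' => ‖D.h t' y - D.h t' q‖) (W : Filter X) (𝓝 ‖g y - g q‖) :=
      ((hg y hy).sub (hg q hq)).norm
    have hle : ‖g y - g q‖ ≤ ε / 2 := by
      apply le_of_tendsto hlim
      filter_upwards [hP, hN N hNt] with t' h1 h2
      exact (hb t' h2 h1).2 y hyq
    rw [dist_eq_norm]
    linarith
  · intro z hz
    have hlim : Tendsto (fun t' => ‖D.h t' z‖) (W : Filter X) (𝓝 ‖g z‖) := (hg z hz).norm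
    have hc : Tendsto (fun t' => ‖D.h t' z‖) (W : Filter X) (𝓝 1) := by
      apply tendsto_const_nhds.congr'
      filter_upwards [hin z hz] with t' h1
      exact ((D.eig t' h1.1).nor z h1.2).symm
    exact tendsto_nhds_unique hlim hc
  · intro s hs
    have hcl : IsClosed ({1, -1} : Set ℂ) := (Set.toFinite _).isClosed
    have hmem : g ⟨s, s⟩ ∈ ({1, -1} : Set ℂ) := by
      apply hcl.mem_of_tendsto (hg _ hs)
      filter_upwards [hin _ hs] with t' h1
      have := (D.eig t' h1.1).rea s h1.2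
      simpa using this
    simpa using hmem
  · intro hu
    have hc : Tendsto (fun t' => D.h t' ⟨D.u, D.u⟩) (W : Filter X) (𝓝 1) := by
      apply tendsto_const_nhds.congr'
      filter_upwards [hP] with t' h1
      exact (D.eig t' h1).one.symm
    exact tendsto_nhds_unique (hg _ hu) hc

end PD

end Pool.Agent.Lib.MP9fa4ca
end

section
/-!
# MP_9fa4ca_an, PD : LMV, the equation of the limit functions
-/
set_option autoImplicit false

open Set Topology Filter Complex MeasureTheory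

namespace Pool.Agent.Lib.MP9fa4ca

namespace PD

universe u

theorem specLMV (hJCO : SpecJCO) (hUIN : SpecUIN.{u}) (hEQC : SpecEQC.{u}) : SpecLMV.{u} := by
  intro X _ d D t W hW g hg z hz
  have hP : ∀ᶠ t' in (W : Filter X), t' ∈ D.P := hW self_mem_nhdsWithin
  have hN : ∀ N ∈ 𝓝 t, ∀ᶠ t' in (W : Filter X), t' ∈ N := fun N hN =>
    hW (mem_nhdsWithin_of_mem_nhds hN)
  have hfz : D.f t z ∈ D.Ut t := (hUIN X d D t z).1 hz
  -- the map `t' ↦ f_t' z`
  have hc : Continuous fun t' : X => D.f t' z := by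
    have h1 := hJCO d 1
    have h2 : Continuous fun t' : X => (D.c t', z) := D.cc.prodMk continuous_const
    have h3 := h1.comp h2
    have h4 : (fun t' : X => D.f t' z) =
        (fun x : (Fin (d + 1) → ℝ) × ℂ => (fc x.1 ^ (1 : ℤ)) x.2) ∘ fun t' : X => (D.c t', z) := by
      funext t'
      simp only [Function.comp_apply, zpow_one]
      rfl
    rw [h4]
    exact h3
  obtain ⟨-, N, hNt, r, hr, hNr⟩ := id hz
  -- the equation of the eigenfunctions
  have heq : ∀ᶠ t' in (W : Filter X), D.h t' (D.f t' z) = lam D.α * D.h t' z := by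
    filter_upwards [hP, hN N hNt] with t' h1 h2
    exact (D.eig t' h1).eqv z (hNr t' h2 h1 (Metric.mem_ball_self hr))
  -- `h t' (f_t' z) - h t' (f_t z) → 0`
  have hdiff : Tendsto (fun t' => D.h t' (D.f t' z) - D.h t' (D.f t z)) (W : Filter X) (𝓝 0) := by
    rw [Metric.tendsto_nhds]
    intro ε hε
    obtain ⟨N₁, hN₁, r₁, hr₁, hb⟩ := hEQC X d D t (D.f t z) hfz (ε / 2) (by linarith)
    have h2 : ∀ᶠ t' in (W : Filter X), D.f t' z ∈ Metric.ball (D.f t z) r₁ :=
      hN _ (hc.continuousAt.preimage_mem_nhds (Metric.ball_mem_nhds _ hr₁))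
    filter_upwards [hP, hN N₁ hN₁, h2] with t' h3 h4 h5
    rw [dist_zero_right]
    have h6 := (hb t' h4 h3).2 _ h5
    linarith
  have hL1 : Tendsto (fun t' => D.h t' (D.f t' z)) (W : Filter X) (𝓝 (g (D.f t z))) := by
    have h1 := hdiff.add (hg _ hfz)
    simpa using h1
  have hL2 : Tendsto (fun t' => lam D.α * D.h t' z) (W : Filter X) (𝓝 (lam D.α * g z)) :=
    (hg z hz).const_mul _
  exact tendsto_nhds_unique hL1 (hL2.congr' (heq.mono fun t' h => h.symm))

end PD

end Pool.Agent.Lib.MP9fa4ca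
end

section
/-!
# MP_9fa4ca_an, PD : module LOZ (nondegenerate zeros)
-/
set_option autoImplicit false

open Set Topology Filter Complex MeasureTheory

namespace Pool.Agent.Lib.MP9fa4ca

namespace PD

namespace LOZAux

/-- `x + y` divided by `x` has a positive real part if `y` is smaller than `x` -/
theorem re_pos (w x : ℂ) (h : ‖w - x‖ < ‖x‖) : 0 < (w / x).re := by
  have hx : 0 < ‖x‖ := (norm_nonneg _).trans_lt h
  have hx' : x ≠ 0 := norm_pos_iff.1 hx
  have e : w / x = 1 + (w - x) / x := by field_simp; ring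
  have h1 : ‖(w - x) / x‖ < 1 := by
    rw [norm_div, div_lt_one hx]; exact h
  have h2 := (abs_le.1 (abs_re_le_norm ((w - x) / x))).1
  rw [e, add_re, one_re]
  linarith

theorem lin (L : ℂ →L[ℝ] ℂ) (ζ : ℂ) :
    L ζ = (L 1 - I * L I) / 2 * ζ + (L 1 + I * L I) / 2 * (starRingEnd ℂ) ζ := by
  have h : L ζ = ζ.re * L 1 + ζ.im * L I := by
    have : ζ = ζ.re • (1 : ℂ) + ζ.im • I := by
      apply Complex.ext <;> simp
    conv_lhs => rw [this]
    rw [map_add, map_smul, map_smul]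
    simp
  rw [h]
  apply Complex.ext
  · simp
    ring
  · simp
    ring

theorem det_eq (L : ℂ →L[ℝ] ℂ) :
    L.det = (L 1).re * (L I).im - (L 1).im * (L I).re := by
  unfold ContinuousLinearMap.det
  rw [← LinearMap.det_toMatrix basisOneI, Matrix.det_fin_two]
  simp [LinearMap.toMatrix_apply, coe_basisOneI, coe_basisOneI_repr]
  ring

theorem det_ne (L : ℂ →L[ℝ] ℂ) (h : L.det ≠ 0) :
    ‖(L 1 - I * L I) / 2‖ ≠ ‖(L 1 + I * L I) / 2‖ := by
  intro e
  apply h
  rw [det_eq]
  have e' := congrArg (fun x => x ^ 2) e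
  simp only [← normSq_eq_norm_sq, normSq_apply] at e'
  simp at e'
  nlinarith [e']

end LOZAux

open LOZAux in
theorem specLOZ : SpecLOZ := by
  intro v hv z₀ h0 hdet
  have hd : HasFDerivAt v (fderiv ℝ v z₀) z₀ :=
    (hv.differentiable (by norm_num) z₀).hasFDerivAt
  set L := fderiv ℝ v z₀ with hL
  have hne := det_ne L hdet
  set a := (L 1 - I * L I) / 2 with ha
  set b := (L 1 + I * L I) / 2 with hb
  have hlin : ∀ ζ, L ζ = a * ζ + b * (starRingEnd ℂ) ζ := lin L
  have hc : 0 < |‖a‖ - ‖b‖| / 2 := by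
    have := abs_pos.2 (sub_ne_zero.2 hne)
    linarith
  have hlo := hd.isLittleO.def hc
  obtain ⟨r, hr, hball⟩ := Metric.eventually_nhds_iff_ball.1 hlo
  have hest : ∀ z ∈ Metric.ball z₀ r, ‖v z - L (z - z₀)‖ ≤ |‖a‖ - ‖b‖| / 2 * ‖z - z₀‖ := by
    intro z hz
    have := hball z hz
    rwa [h0, sub_zero] at this
  rcases lt_or_gt_of_ne hne with hlt | hlt
  · -- ‖a‖ < ‖b‖
    have hb0 : b ≠ 0 := norm_pos_iff.1 ((norm_nonneg _).trans_lt hlt)
    refine ⟨fun _ => b, r, hr, continuousOn_const, fun _ _ => hb0, Or.inr fun z hz hzz => ?_⟩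
    have hp : 0 < ‖z - z₀‖ := norm_pos_iff.2 (sub_ne_zero.2 hzz)
    apply re_pos
    have h1 : ‖v z - b * (starRingEnd ℂ) (z - z₀)‖ ≤
        ‖v z - L (z - z₀)‖ + ‖a * (z - z₀)‖ := by
      have : v z - b * (starRingEnd ℂ) (z - z₀) = (v z - L (z - z₀)) + a * (z - z₀) := by
        rw [hlin]; ring
      rw [this]
      exact norm_add_le _ _
    have h2 := hest z hz
    rw [abs_of_neg (by linarith)] at h2
    rw [norm_mul] at h1
    rw [norm_mul, RCLike.norm_conj]
    nlinarith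
  · have ha0 : a ≠ 0 := norm_pos_iff.1 ((norm_nonneg _).trans_lt hlt)
    refine ⟨fun _ => a, r, hr, continuousOn_const, fun _ _ => ha0, Or.inl fun z hz hzz => ?_⟩
    have hp : 0 < ‖z - z₀‖ := norm_pos_iff.2 (sub_ne_zero.2 hzz)
    apply re_pos
    have h1 : ‖v z - a * (z - z₀)‖ ≤
        ‖v z - L (z - z₀)‖ + ‖b * (starRingEnd ℂ) (z - z₀)‖ := by
      have : v z - a * (z - z₀) = (v z - L (z - z₀)) + b * (starRingEnd ℂ) (z - z₀) := by
        rw [hlin]; ring
      rw [this]
      exact norm_add_le _ _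
    have h2 := hest z hz
    rw [abs_of_pos (by linarith)] at h2
    rw [norm_mul, RCLike.norm_conj] at h1
    rw [norm_mul]
    nlinarith

end PD

end Pool.Agent.Lib.MP9fa4ca
end

section
/-!
# MP_9fa4ca_an, PD : LP1, a loop of degree one through `z` and `f z`
-/
set_option autoImplicit false

open Set Topology Filter Complex MeasureTheory

namespace Pool.Agent.Lib.MP9fa4ca

namespace PD

namespace LP1M

/-- the bump -/
noncomputable def bt (x : ℝ) : ℝ := (1 - Real.cos (2 * Real.pi * x)) / 2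

theorem bt_cont : Continuous bt := by
  unfold bt
  fun_prop

theorem bt_per (x : ℝ) : bt (x + 1) = bt x := by
  unfold bt
  rw [mul_add, mul_one, Real.cos_add_two_pi]

theorem bt_zero : bt 0 = 0 := by
  unfold bt
  simp

theorem bt_half : bt (1 / 2) = 1 := by
  unfold bt
  have : 2 * Real.pi * (1 / 2) = Real.pi := by ring
  rw [this, Real.cos_pi]
  norm_num

/-- the path in the cover -/
noncomputable def pth (w v : ℝ × ℝ) (x : ℝ) : ℝ × ℝ :=
  (w.1 + x + bt x * (v.1 - w.1 - 1 / 2), w.2 + bt x * (v.2 - w.2))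

theorem pth_cont (w v : ℝ × ℝ) : Continuous (pth w v) := by
  unfold pth
  have := bt_cont
  fun_prop

theorem pth_per (w v : ℝ × ℝ) (x : ℝ) : pth w v (x + 1) = T (pth w v x) := by
  rw [T_apply]
  unfold pth
  rw [bt_per]
  refine Prod.ext ?_ rfl
  show w.1 + (x + 1) + _ = w.1 + x + _ + 1
  ring

theorem pth_zero (w v : ℝ × ℝ) : pth w v 0 = w := by
  unfold pth
  rw [bt_zero]
  simp

theorem pth_half (w v : ℝ × ℝ) : pth w v (1 / 2) = v := by
  unfold pth
  rw [bt_half]
  refine Prod.ext ?_ ?_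
  · show w.1 + 1 / 2 + 1 * (v.1 - w.1 - 1 / 2) = v.1
    ring
  · show w.2 + 1 * (v.2 - w.2) = v.2
    ring

end LP1M

open LP1M in
theorem specLP1 (hHTI : SpecHTI) : SpecLP1 := by
  intro p A e C h hd z hz
  obtain ⟨hc, hT, -⟩ := hHTI p A e C
  obtain ⟨w₀, hw₀⟩ := C.Q.surj z hz
  refine ⟨fun x => C.Q.P (pth w₀ (C.F w₀) x), ⟨?_, ?_, ?_⟩, ?_, ?_, ?_⟩
  · exact C.Q.cP.comp (pth_cont _ _)
  · intro x
    show C.Q.P (pth w₀ (C.F w₀) (x + 1)) = _
    rw [pth_per, C.Q.per]
  · intro x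
    exact C.Q.mem _
  · refine ⟨fun x => 2 * Real.pi * hti C (pth w₀ (C.F w₀) x) * I, ?_, ?_, ?_⟩
    · have h1 : Continuous fun x => hti C (pth w₀ (C.F w₀) x) := hc.comp (pth_cont _ _)
      fun_prop
    · intro x
      exact (hd.eq _).symm
    · intro x
      show 2 * (Real.pi : ℂ) * (hti C (pth w₀ (C.F w₀) (x + 1)) : ℝ) * I = _
      rw [pth_per, hT]
      push_cast
      ring
  · show C.Q.P (pth w₀ (C.F w₀) 0) = z
    rw [pth_zero, hw₀]
  · show C.Q.P (pth w₀ (C.F w₀) (1 / 2)) = _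
    rw [pth_half, C.lft, hw₀]

end PD

end Pool.Agent.Lib.MP9fa4ca
end

section
/-!
# MP_9fa4ca_an, PD, module LPD : loops of degree `1`
-/
set_option autoImplicit false

open Set Topology Filter Complex MeasureTheory

namespace Pool.Agent.Lib.MP9fa4ca

namespace PD

namespace LPDAux

theorem shift {L : ℝ × ℝ → ℂ} {m : ℤ} (hL : ∀ w, L (T w) = L w + m * (2 * Real.pi * I))
    (w : ℝ × ℝ) (k : ℤ) : L (w.1 + k, w.2) = L w + (k * m) * (2 * Real.pi * I) := by
  induction k using Int.induction_on with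
  | zero => simp
  | succ n ih =>
    have := hL (w.1 + n, w.2)
    simp only [T_apply] at this
    push_cast at ih ⊢
    rw [← add_assoc, this, ih]
    ring
  | pred n ih =>
    have := hL (w.1 + (-n - 1), w.2)
    simp only [T_apply] at this
    push_cast at ih ⊢
    have h2 : w.1 + (-(n : ℝ) - 1) + 1 = w.1 + -(n : ℝ) := by ring
    rw [h2, ih] at this
    linear_combination -this

end LPDAux

open LPDAux in
theorem specLPD (hLPL : SpecLPL) : SpecLPD := by
  intro A Q h hh γ hγ hd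
  obtain ⟨s, hs, hsP, k, hk⟩ := hLPL A Q γ hγ
  have key : ∀ (φ : ℂ → ℂ) (m : ℤ), Q.Deg φ m → LDeg (fun x => φ (γ x)) (k * m) := by
    rintro φ m ⟨L, hL, hLe, hLm⟩
    refine ⟨fun x => L (s x), hL.comp hs, fun x => ?_, fun x => ?_⟩
    · beta_reduce
      rw [hLe, hsP]
    · beta_reduce
      rw [hk, shift hLm]
      push_cast
      ring
  have hk1 : k = 1 := by
    have := (key h 1 hh).unique hd
    simpa using this
  subst hk1
  refine ⟨⟨s, hs, hsP, fun x => ?_⟩, fun φ m hφ => ?_⟩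
  · rw [hk, T_apply]
    simp
  · simpa using key φ m hφ

end PD

end Pool.Agent.Lib.MP9fa4ca
end

section
/-!
# MP_9fa4ca_an, PD : module LPL (lifts of loops)
-/
set_option autoImplicit false

open Set Topology Filter Complex MeasureTheory

namespace Pool.Agent.Lib.MP9fa4ca

namespace PD

theorem specLPL : SpecLPL := by
  intro A Q γ hγ
  obtain ⟨w₀, hw₀⟩ := Q.surj (γ 0) (hγ.mem 0)
  obtain ⟨s, hs, -, hPs⟩ := Q.lift ℝ γ hγ.cont hγ.mem 0 w₀ hw₀
  have hinj : ∀ x, ∃ k : ℤ, s (x + 1) = ((s x).1 + k, (s x).2) := fun x =>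
    Q.inj (s x) (s (x + 1)) (by rw [hPs, hPs, hγ.per])
  obtain ⟨k, hk⟩ := int_const (fun x => (s (x + 1)).1 - (s x).1) (by fun_prop) (fun x => by
    obtain ⟨j, hj⟩ := hinj x
    exact ⟨j, by rw [hj]; simp⟩)
  refine ⟨s, hs, hPs, k, fun x => ?_⟩
  obtain ⟨j, hj⟩ := hinj x
  have h1 := hk x
  rw [hj] at h1
  simp only [add_sub_cancel_left] at h1
  rw [hj, h1]

end PD

end Pool.Agent.Lib.MP9fa4ca
end

section
/-! Module MGR: a countable union of boundaries of closed sets is meagre. -/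
open Set

namespace Pool.Agent.Lib.MP9fa4ca.PD

universe u

namespace MGRAux

lemma nowhere {X : Type u} [TopologicalSpace X] (s : Set X) :
    IsNowhereDense (closure s \ interior (closure s)) := by
  have h1 : closure s \ interior (closure s) = frontier (closure s) := by
    rw [frontier, closure_closure]
  rw [h1, IsNowhereDense, isClosed_frontier.closure_eq]
  exact interior_frontier isClosed_closure

end MGRAux

theorem specMGR : SpecMGR.{u} := by
  intro X _ ι _ P
  exact isMeagre_iUnion fun i => (MGRAux.nowhere (P i)).isMeagre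

end Pool.Agent.Lib.MP9fa4ca.PD
end

section
/-!
# PD/NPR : no periodic points in the fibre
-/
set_option autoImplicit false

open Set Topology Filter Complex

namespace Pool.Agent.Lib.MP9fa4ca

namespace PD

universe u

namespace NPRAux

/-- a number which is not an integer has a positive distance from the integers -/
theorem exists_gap {x : ℝ} (hx : ∀ k : ℤ, x ≠ k) : ∃ δ : ℝ, 0 < δ ∧ ∀ k : ℤ, δ ≤ |x + k| := by
  refine ⟨|x - round x|, abs_pos.2 (sub_ne_zero.2 (hx _)), fun k => ?_⟩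
  have := round_le x (-k)
  push_cast at this
  rwa [sub_neg_eq_add] at this

theorem eig_pow {d : ℕ} {c : Fin (d + 1) → ℝ} {A : Set ℂ} {α v : ℝ} {h : ℂ → ℂ}
    (E : Eig c A α v h) (n : ℕ) (z : ℂ) (hz : z ∈ A) :
    (fc c ^ n) z ∈ A ∧ h ((fc c ^ n) z) = lam α ^ n * h z := by
  induction n with
  | zero => simp [hz]
  | succ n ih =>
    have h1 : (fc c ^ (n + 1)) z = fc c ((fc c ^ n) z) := by
      rw [pow_succ', Homeomorph.mul_apply]
    rw [h1]
    refine ⟨(E.inv _).2 ih.1, ?_⟩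
    rw [E.eqv _ ih.1, ih.2, pow_succ']
    ring

/-- the argument along the map -/
theorem arg_step {n : ℕ} {α a b : ℝ} {x y : ℂ} (hx : x = exp (2 * Real.pi * a * I))
    (hy : y = exp (2 * Real.pi * b * I)) (h : x = lam α ^ n * y) :
    ∃ k : ℤ, a - b - n * α = k := by
  rw [hx, hy, lam, ← Complex.exp_nat_mul, ← Complex.exp_add,
    Complex.exp_eq_exp_iff_exists_int] at h
  obtain ⟨k, hk⟩ := h
  refine ⟨k, ?_⟩
  have h2 : ((a - b - n * α : ℝ) : ℂ) * (2 * Real.pi * I) = (k : ℂ) * (2 * Real.pi * I) := by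
    push_cast
    linear_combination hk
  have h3 := mul_right_cancel₀ two_pi_I_ne h2
  exact_mod_cast h3

end NPRAux

open NPRAux in
/-- NPR. No periodic points. -/
theorem specNPR (hARG : SpecARG) (hJCO : SpecJCO) : SpecNPR.{u} := by
  intro X _ d D t q hq n hn hper
  obtain ⟨htV, N, hN, r, hr, hNr⟩ := hq
  have htV' : t ∈ D.V := htV
  have hJ : ∀ m : ℕ, Continuous fun x : X × ℂ => (D.f x.1 ^ m) x.2 := by
    intro m
    have h1 := hJCO d (m : ℤ)
    have h2 : Continuous fun x : X × ℂ => ((D.c x.1, x.2) : (Fin (d + 1) → ℝ) × ℂ) :=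
      (D.cc.comp continuous_fst).prodMk continuous_snd
    have h3 := h1.comp h2
    refine h3.congr fun x => ?_
    simp only [Function.comp, zpow_natCast]
    rfl
  -- the neighbourhoods
  have h1 : (fun x : X × ℂ => (D.f x.1 ^ n) x.2) ⁻¹' Metric.ball q r ∈ 𝓝 (t, q) := by
    refine (hJ n).continuousAt.preimage_mem_nhds ?_
    show Metric.ball q r ∈ 𝓝 ((D.f t ^ n) q)
    rw [hper]
    exact Metric.ball_mem_nhds q hr
  obtain ⟨N₁, hN₁, B, hB, hNB⟩ := mem_nhds_prod_iff.1 h1
  obtain ⟨r₁, hr₁, hB₁⟩ := Metric.mem_nhds_iff.1 hB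
  set r' := min r r₁ with hr'
  have hr'0 : 0 < r' := lt_min hr hr₁
  have hmap : ∀ t' ∈ N₁, ∀ y ∈ Metric.ball q r', (D.f t' ^ n) y ∈ Metric.ball q r := by
    intro t' ht' y hy
    have h3 : (t', y) ∈ N₁ ×ˢ B := mk_mem_prod ht'
      (hB₁ (Metric.ball_subset_ball (min_le_right _ _) hy))
    have h4 := hNB h3
    rw [mem_preimage] at h4
    exact h4
  have hsub : Metric.ball q r' ⊆ Metric.ball q r := Metric.ball_subset_ball (min_le_left _ _)
  -- the number `M`
  have hα : ∀ k : ℤ, (n : ℝ) * D.α ≠ k := by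
    intro k hk
    have h2 : Irrational ((n : ℝ) * D.α) := D.irr.natCast_mul hn.ne'
    exact h2.ne_int k hk
  obtain ⟨δ, hδ, hδk⟩ := exists_gap hα
  obtain ⟨M, hM⟩ := exists_nat_gt (2 / δ)
  have hM' : 2 < M * δ := by
    rw [div_lt_iff₀ hδ] at hM
    exact hM
  have hperi : ∀ i : ℕ, (D.f t ^ (n * i)) q = q := by
    intro i
    induction i with
    | zero => simp
    | succ i ih =>
      rw [mul_add, mul_one, add_comm, pow_add, Homeomorph.mul_apply, ih, hper]
  have h2 : ∀ᶠ t' in 𝓝 t, ∀ i ∈ Finset.range (M + 1),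
      (D.f t' ^ (n * i)) q ∈ Metric.ball q r' := by
    rw [Filter.eventually_all_finset]
    intro i _
    have h3 : Continuous fun t' : X => (D.f t' ^ (n * i)) q :=
      (hJ (n * i)).comp (continuous_id.prodMk continuous_const)
    refine h3.continuousAt.eventually_mem ?_
    show Metric.ball q r' ∈ 𝓝 ((D.f t ^ (n * i)) q)
    rw [hperi]
    exact Metric.ball_mem_nhds q hr'0
  obtain ⟨t', ⟨⟨htN, htN₁⟩, htN₂⟩, htP⟩ := mem_closure_iff_nhds.1 (D.cl htV') _
    (inter_mem (inter_mem hN hN₁) h2)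
  have htN₂ : ∀ i ∈ Finset.range (M + 1), (D.f t' ^ (n * i)) q ∈ Metric.ball q r' := htN₂
  have E := D.eig t' htP
  have hball := hNr t' htN htP
  obtain ⟨χ, hχ⟩ := hARG (D.h t') q r hr (E.con.mono hball) (fun z hz => E.nor z (hball hz))
  -- the function with integer values
  have hint : ∀ y ∈ Metric.ball q r', ∃ k : ℤ, χ ((D.f t' ^ n) y) - χ y - n * D.α = k := by
    intro y hy
    exact arg_step (hχ.eq _ (hmap t' htN₁ y hy)) (hχ.eq _ (hsub hy))
      (eig_pow E n y (hball (hsub hy))).2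
  have hcont : ContinuousOn (fun y => χ ((D.f t' ^ n) y) - χ y - n * D.α)
      (Metric.ball q r') := by
    refine ContinuousOn.sub (ContinuousOn.sub ?_ (hχ.cont.mono hsub)) continuousOn_const
    exact hχ.cont.comp (D.f t' ^ n).continuous.continuousOn (fun y hy => hmap t' htN₁ y hy)
  have hpre : PreconnectedSpace (Metric.ball q r') :=
    isPreconnected_iff_preconnectedSpace.1 (convex_ball q r').isPreconnected
  have hne : Nonempty (Metric.ball q r') := ⟨⟨q, Metric.mem_ball_self hr'0⟩⟩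
  obtain ⟨k, hk⟩ := int_const (X := Metric.ball q r')
    (fun y => χ ((D.f t' ^ n) y) - χ y - n * D.α)
    (continuousOn_iff_continuous_domRestrict.1 hcont) (fun y => hint y y.2)
  have hk' : ∀ y ∈ Metric.ball q r', χ ((D.f t' ^ n) y) - χ y = n * D.α + k := by
    intro y hy
    have := hk ⟨y, hy⟩
    simp only at this
    linarith
  -- the sum
  have hsum : ∀ i : ℕ, i ≤ M → χ ((D.f t' ^ (n * i)) q) - χ q = i * (n * D.α + k) := by
    intro i
    induction i with
    | zero => intro _; simp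
    | succ i ih =>
      intro hi
      have h3 := ih (by omega)
      have h4 := hk' _ (htN₂ i (Finset.mem_range.2 (by omega)))
      have h5 : (D.f t' ^ (n * (i + 1))) q = (D.f t' ^ n) ((D.f t' ^ (n * i)) q) := by
        rw [mul_add, mul_one, add_comm, pow_add, Homeomorph.mul_apply]
      rw [h5]
      push_cast
      linarith
  have hsM := hsum M le_rfl
  have hwM : (D.f t' ^ (n * M)) q ∈ Metric.ball q r :=
    hsub (htN₂ M (Finset.mem_range.2 (by omega)))
  have hq' : q ∈ Metric.ball q r := Metric.mem_ball_self hr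
  have ho1 := E.osc q r hball χ hχ q hq' _ hwM
  have ho2 := E.osc q r hball χ hχ _ hwM q hq'
  have habs : |(M : ℝ) * (n * D.α + k)| ≤ 2 := by
    rw [← hsM, abs_le]
    constructor <;> linarith
  rw [abs_mul, abs_of_nonneg (Nat.cast_nonneg M)] at habs
  have h6 := hδk k
  have h7 : (M : ℝ) * δ ≤ M * |(n : ℝ) * D.α + k| :=
    mul_le_mul_of_nonneg_left h6 (Nat.cast_nonneg M)
  linarith

end PD

end Pool.Agent.Lib.MP9fa4ca
end

section
/-!
# PD, module NUM: numbers `j - m α` in all intervals of a given length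
-/
set_option autoImplicit false

open Set Topology Filter Complex MeasureTheory

namespace Pool.Agent.Lib.MP9fa4ca

namespace PD

namespace NUMAux

/-- a number `j - m α` with `m ≠ m₀` in a short interval -/
theorem short {α : ℝ} (hα : Irrational α) (m₀ : ℤ) {a b : ℝ} (hab : a < b) (h1 : b - a ≤ 1) :
    ∃ m j : ℤ, m ≠ m₀ ∧ a < j - m * α ∧ j - m * α < b := by
  obtain ⟨m, j, h2, h3⟩ := ROTAux.dense_comb hα hab
  by_cases hm : m = m₀
  · obtain ⟨m', j', h4, h5⟩ := ROTAux.dense_comb hα h2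
    by_cases hm' : m' = m₀
    · exfalso
      rw [hm] at h2 h3 h5
      rw [hm'] at h4 h5
      have h6 : (j' : ℝ) < j := by linarith
      have h7 : j' + 1 ≤ j := Int.cast_lt.1 h6
      have h8 : ((j' + 1 : ℤ) : ℝ) ≤ j := Int.cast_le.2 h7
      push_cast at h8
      linarith
    · exact ⟨m', j', hm', h4, h5.trans h3⟩
  · exact ⟨m, j, hm, h2, h3⟩

end NUMAux

open NUMAux in
/-- NUM -/
theorem specNUM : SpecNUM := by
  intro α hα δ hδ m₀
  obtain ⟨K, hK⟩ := exists_nat_gt (2 / δ)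
  have hK0 : (0 : ℝ) < K := lt_trans (by positivity) hK
  have hKn : 0 < K := Nat.cast_pos.1 hK0
  have hK1 : (1 : ℝ) ≤ K := by exact_mod_cast hKn
  have hKd : 2 / (K : ℝ) < δ := by
    rw [div_lt_iff₀ hδ] at hK
    rw [div_lt_iff₀ hK0]
    linarith
  have hex : ∀ k : ℕ, ∃ m j : ℤ, m ≠ m₀ ∧ (k : ℝ) / K < j - m * α ∧
      (j : ℝ) - m * α < (k : ℝ) / K + 1 / K := by
    intro k
    refine short hα m₀ (by linarith [show (0 : ℝ) < 1 / K by positivity]) ?_
    rw [add_sub_cancel_left, div_le_one hK0]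
    exact hK1
  choose m j hm h1 h2 using hex
  refine ⟨(Finset.range (K + 1)).image m, ?_, ?_⟩
  · intro h
    obtain ⟨k, -, hk⟩ := Finset.mem_image.1 h
    exact hm k hk
  · intro x
    have hf0 : 0 ≤ Int.fract x := Int.fract_nonneg x
    have hf1 : Int.fract x < 1 := Int.fract_lt_one x
    have hx : x = Int.fract x + ⌊x⌋ := (Int.fract_add_floor x).symm
    have hy0 : 0 ≤ K * Int.fract x := mul_nonneg hK0.le hf0
    set k := ⌈K * Int.fract x⌉₊ with hk
    have hk1 : K * Int.fract x ≤ k := Nat.le_ceil _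
    have hk2 : (k : ℝ) < K * Int.fract x + 1 := Nat.ceil_lt_add_one hy0
    have hk3 : k ≤ K := by
      apply Nat.ceil_le.2
      nlinarith
    refine ⟨m k, Finset.mem_image.2 ⟨k, Finset.mem_range.2 (by omega), rfl⟩, j k + ⌊x⌋, ?_, ?_⟩
    · have h3 : Int.fract x ≤ (k : ℝ) / K := by
        rw [le_div_iff₀ hK0]
        linarith
      have h4 := h1 k
      push_cast
      linarith
    · have h3 : (k : ℝ) / K < Int.fract x + 1 / K := by
        rw [div_lt_iff₀ hK0, add_mul, one_div, inv_mul_cancel₀ hK0.ne']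
        linarith
      have h4 := h2 k
      have h5 : 2 / (K : ℝ) = 1 / K + 1 / K := by ring
      push_cast
      linarith

end PD

end Pool.Agent.Lib.MP9fa4ca
end

section
/-!
# Module NUO: the index of an annulus is `-1`, `0` or `1`
-/
set_option autoImplicit false

open Set Topology Filter Complex MeasureTheory

namespace Pool.Agent.Lib.MP9fa4ca

namespace PD

namespace NUOAux

theorem fract_eq {Y : Type*} {γ : ℝ → Y} (hp : ∀ x, γ (x + 1) = γ x) (x : ℝ) :
    γ (Int.fract x) = γ x := by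
  have h : Function.Periodic γ 1 := hp
  have := h.sub_zsmul_eq (x := x) ⌊x⌋
  rw [← this, Int.fract]
  simp

theorem exists_min (g : ℝ → ℝ) (hg : Continuous g) (hp : ∀ x, g (x + 1) = g x) :
    ∃ y, ∀ x, g y ≤ g x := by
  obtain ⟨y, -, hy⟩ := (isCompact_Icc (a := (0 : ℝ)) (b := 1)).exists_isMinOn
    (nonempty_Icc.2 zero_le_one) hg.continuousOn
  refine ⟨y, fun x => ?_⟩
  rw [← fract_eq hp x]
  exact hy ⟨Int.fract_nonneg x, (Int.fract_lt_one x).le⟩

theorem exists_max (g : ℝ → ℝ) (hg : Continuous g) (hp : ∀ x, g (x + 1) = g x) :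
    ∃ y, ∀ x, g x ≤ g y := by
  obtain ⟨y, hy⟩ := exists_min (fun x => -g x) hg.neg (fun x => by rw [hp])
  exact ⟨y, fun x => neg_le_neg_iff.1 (hy x)⟩

theorem one_sub_slit {w : ℂ} (h : ‖w‖ ≤ 1) (h1 : w ≠ 1) : 1 - w ∈ slitPlane := by
  left
  rw [sub_re, one_re, sub_pos]
  have h2 : w.re ≤ ‖w‖ := re_le_norm w
  rcases lt_or_eq_of_le (h2.trans h) with h3 | h3
  · exact h3
  · exfalso
    apply h1
    have h4 : ‖w‖ = 1 := le_antisymm h (h3 ▸ h2)
    have h5 : w.re ^ 2 + w.im ^ 2 = 1 := by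
      have := Complex.sq_norm w
      rw [h4, normSq_apply] at this
      linarith
    rw [h3] at h5
    have h6 : w.im = 0 := by nlinarith
    exact Complex.ext (by rw [h3, one_re]) (by rw [h6, one_im])

/-- the two degrees -/
theorem two_deg (γ l : ℝ → ℂ) (ζ : ℂ) (e : ℤ) (hl : Continuous l) (hle : ∀ x, exp (l x) = γ x)
    (hlp : ∀ x, l (x + 1) = l x + e * (2 * Real.pi * I)) (hζ : ‖ζ‖ = 1)
    (hne : ∀ x y, γ x ≠ ζ * γ y) : e = 0 := by
  have hγ : Continuous γ := by
    have : γ = fun x => exp (l x) := funext fun x => (hle x).symm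
    rw [this]
    fun_prop
  have hγ0 : ∀ x, γ x ≠ 0 := fun x => by rw [← hle]; exact exp_ne_zero _
  have hγp : ∀ x, γ (x + 1) = γ x := fun x => by
    rw [← hle, ← hle, hlp, exp_add, exp_int_mul, exp_two_pi_mul_I, one_zpow, mul_one]
  have hζ0 : ζ ≠ 0 := by
    rintro rfl
    simp at hζ
  obtain ⟨M, hM, hMe⟩ := exists_log (fun w : ℝ × ℝ => γ w.1 - ζ * γ w.2) (by fun_prop)
    (fun w => sub_ne_zero.2 (hne w.1 w.2))
  obtain ⟨j, hj⟩ := log_unique (fun w => M (T w)) M (hM.comp T.continuous) hM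
    (fun w => by rw [hMe, hMe, T_apply, hγp])
  have hdeg : ∀ y, LDeg (fun x => γ x - ζ * γ y) j := fun y =>
    ⟨fun x => M (x, y), by fun_prop, fun x => hMe (x, y), fun x => hj (x, y)⟩
  -- the maximum
  obtain ⟨y₁, hy₁⟩ := exists_max (fun x => ‖γ x‖) (by fun_prop) (fun x => by rw [hγp])
  have h0 : LDeg (fun x => γ x - ζ * γ y₁) 0 := by
    have ha : ζ * γ y₁ ≠ 0 := mul_ne_zero hζ0 (hγ0 _)
    have hs : ∀ x, 1 - γ x / (ζ * γ y₁) ∈ slitPlane := by
      intro x
      refine one_sub_slit ?_ ?_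
      · rw [norm_div, norm_mul, hζ, one_mul]
        exact (div_le_one (norm_pos_iff.2 (hγ0 _))).2 (hy₁ x)
      · intro h
        rw [div_eq_one_iff_eq ha] at h
        exact hne _ _ h
    refine ⟨fun x => log (-(ζ * γ y₁)) + log (1 - γ x / (ζ * γ y₁)), ?_, fun x => ?_, fun x => ?_⟩
    · exact continuous_const.add ((continuous_const.sub (hγ.div_const _)).clog hs)
    · have h5 := hγ0 y₁
      rw [exp_add, exp_log (neg_ne_zero.2 ha), exp_log (slitPlane_ne_zero (hs x))]
      field_simp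
      ring
    · beta_reduce
      rw [hγp]
      simp
  -- the minimum
  obtain ⟨y₂, hy₂⟩ := exists_min (fun x => ‖γ x‖) (by fun_prop) (fun x => by rw [hγp])
  have h1 : LDeg (fun x => γ x - ζ * γ y₂) e := by
    have hs : ∀ x, 1 - ζ * γ y₂ / γ x ∈ slitPlane := by
      intro x
      refine one_sub_slit ?_ ?_
      · rw [norm_div, norm_mul, hζ, one_mul]
        exact (div_le_one (norm_pos_iff.2 (hγ0 _))).2 (hy₂ x)
      · intro h
        rw [div_eq_one_iff_eq (hγ0 x)] at h
        exact hne _ _ h.symm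
    refine ⟨fun x => l x + log (1 - ζ * γ y₂ / γ x), ?_, fun x => ?_, fun x => ?_⟩
    · exact hl.add ((continuous_const.sub (continuous_const.div hγ hγ0)).clog hs)
    · have := hγ0 x
      rw [exp_add, hle, exp_log (slitPlane_ne_zero (hs x))]
      field_simp
    · beta_reduce
      rw [hγp, hlp]
      ring
  have h2 := (hdeg y₁).unique h0
  have h3 := (hdeg y₂).unique h1
  omega

end NUOAux

open NUOAux in
theorem specNUO : SpecNUO := by
  intro A Q b hb
  by_contra hgt
  have hgt : 1 < |Q.nu b| := not_le.1 hgt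
  obtain ⟨L, hL, hLe, hLm⟩ := Q.nu_deg hb
  set n : ℤ := Q.nu b with hn
  set N : ℕ := n.natAbs with hN
  have hNabs : (N : ℤ) = |n| := by rw [hN, Int.natCast_natAbs]
  have hN2 : 1 < N := by omega
  have hN0 : (N : ℂ) ≠ 0 := by
    have : N ≠ 0 := by omega
    exact_mod_cast this
  have hsign : (n : ℂ) = n.sign * N := by
    have h1 : n = n.sign * N := by rw [hNabs, Int.sign_mul_abs]
    exact_mod_cast h1
  have hne0 : n.sign ≠ 0 := by
    rw [Ne, Int.sign_eq_zero_iff_zero]
    rintro h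
    rw [h] at hgt
    simp at hgt
  apply hne0
  have hz := Complex.isPrimitiveRoot_exp N (by omega)
  refine two_deg (fun x => exp (L (x, 0) / N)) (fun x => L (x, 0) / N)
    (exp (2 * Real.pi * I / N)) n.sign (by fun_prop) (fun x => rfl) (fun x => ?_) ?_ ?_
  · have h1 := hLm (x, 0)
    simp only [T_apply] at h1
    rw [h1, hsign]
    field_simp
  · exact hz.norm'_eq_one (by omega)
  · intro x y h
    have h1 := congrArg (· ^ N) h
    simp only [mul_pow, hz.pow_eq_one, one_mul] at h1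
    have h2 : ∀ x : ℝ, exp (L (x, 0) / N) ^ N = Q.P (x, 0) - b := by
      intro x
      rw [← Complex.exp_nat_mul, mul_div_cancel₀ _ hN0, hLe]
    rw [h2, h2, sub_left_inj] at h1
    obtain ⟨k, hk⟩ := Q.inj _ _ h1
    have hk1 : y = x + k := congrArg Prod.fst hk
    have hper : Function.Periodic (fun x : ℝ => exp (L (x, 0) / N)) 1 := by
      intro x
      have h1 := hLm (x, 0)
      simp only [T_apply] at h1
      beta_reduce
      rw [h1, hsign]
      have h2 : (L (x, 0) + n.sign * N * (2 * Real.pi * I)) / N =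
          L (x, 0) / N + n.sign * (2 * Real.pi * I) := by
        field_simp
      rw [h2, exp_add, exp_int_mul, exp_two_pi_mul_I, one_zpow, mul_one]
    have h3 : exp (L (y, 0) / N) = exp (L (x, 0) / N) := by
      have h4 := hper.int_mul k x
      simp only [mul_one] at h4
      rw [hk1]
      exact h4
    rw [h3] at h
    have h5 : exp (2 * Real.pi * I / N) = 1 := by
      have h6 : exp (L (x, 0) / N) ≠ 0 := exp_ne_zero _
      apply mul_right_cancel₀ h6
      rw [← h, one_mul]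
    exact hz.ne_one hN2 h5

end PD

end Pool.Agent.Lib.MP9fa4ca
end

section
/-! # MP_9fa4ca_an, PD : OIN, the domains are invariant -/
set_option autoImplicit false

open Set Topology Filter Complex MeasureTheory

namespace Pool.Agent.Lib.MP9fa4ca

namespace PD

universe u

theorem specOIN (hUIN : SpecUIN.{u}) (hTHK : SpecTHK.{u}) : SpecOIN.{u} := by
  intro X _ d D t ht z
  obtain ⟨-, hz, hfz⟩ := hTHK X d D t ht
  have hzU : (⟨D.u, D.u⟩ : ℂ) ∈ D.Ut t := connectedComponentIn_subset _ _ hz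
  have him : D.f t '' D.Ut t = D.Ut t := by
    ext y
    constructor
    · rintro ⟨x, hx, rfl⟩
      exact (hUIN X d D t x).1 hx
    · intro hy
      refine ⟨(D.f t).symm y, ?_, (D.f t).apply_symm_apply y⟩
      refine (hUIN X d D t _).2 ?_
      rw [(D.f t).apply_symm_apply y]
      exact hy
  have h1 : D.f t '' D.O t = D.O t := by
    have h2 := (D.f t).image_connectedComponentIn hzU
    rw [him] at h2
    have h3 : connectedComponentIn (D.Ut t) (⟨D.u, D.u⟩ : ℂ) =
        connectedComponentIn (D.Ut t) (D.f t ⟨D.u, D.u⟩) := connectedComponentIn_eq hfz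
    show D.f t '' connectedComponentIn (D.Ut t) (⟨D.u, D.u⟩ : ℂ) =
      connectedComponentIn (D.Ut t) (⟨D.u, D.u⟩ : ℂ)
    rw [h2]
    exact h3.symm
  constructor
  · intro h
    rw [← h1] at h
    obtain ⟨x, hx, hxz⟩ := h
    rwa [(D.f t).injective hxz] at hx
  · intro h
    rw [← h1]
    exact ⟨z, h, rfl⟩

end PD

end Pool.Agent.Lib.MP9fa4ca
end

section
/-!
# MP_9fa4ca_an, PD : module OSB, the oscillation on a ball is at most `2`
-/
set_option autoImplicit false

open Set Topology Filter Complex MeasureTheory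

namespace Pool.Agent.Lib.MP9fa4ca

namespace PD

namespace OSBAux

/-- A continuous function which takes two consecutive integers at two points of an interval has a
non-integer value between them. -/
theorem between {g : ℝ → ℝ} {a b : ℝ} (hg : ContinuousOn g (uIcc a b)) (j : ℤ) (ha : g a = j)
    (hb : g b = j + 1) : ∃ t ∈ uIcc a b, ∀ n : ℤ, g t ≠ n := by
  have h1 : (j : ℝ) + 1 / 2 ∈ uIcc (g a) (g b) := by
    rw [ha, hb, uIcc_of_le (by linarith)]
    constructor <;> linarith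
  obtain ⟨t, ht, h2⟩ := intermediate_value_uIcc hg h1
  refine ⟨t, ht, fun n hn => ?_⟩
  rw [h2] at hn
  have h3 : (j : ℝ) < n := by linarith
  have h4 : (n : ℝ) < j + 1 := by linarith
  have h5 : j < n := by exact_mod_cast h3
  have h6 : n < j + 1 := by exact_mod_cast h4
  omega

end OSBAux

theorem specOSB (hHTI : SpecHTI) (hLFB : SpecLFB) : SpecOSB := by
  intro p A e C h hD q ρ hA χ hχ z hz z' hz'
  by_contra hlt
  rw [not_le] at hlt
  have hρ : 0 < ρ := Metric.nonempty_ball.mp ⟨z, hz⟩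
  obtain ⟨s, hsc, hsP, hsχ⟩ := hLFB p A e C h hD q ρ hρ hA χ hχ
  obtain ⟨-, -, -, -, hlo, hhi⟩ := hHTI p A e C
  set j : ℤ := ⌊χ z⌋ + 1 with hj
  have hj1 : χ z < j := by rw [hj]; push_cast; exact Int.lt_floor_add_one _
  have hj2 : (j : ℝ) ≤ χ z + 1 := by rw [hj]; push_cast; linarith [Int.floor_le (χ z)]
  have hlz : C.θ (s z) ≤ j := by
    have := hlo (s z) 0 j (by rw [hsχ z hz]; simpa using hj1)
    simpa using this
  have hhz : (j : ℝ) + 1 ≤ C.θ (s z') := by
    have := hhi (s z') 0 (j + 1) (by rw [hsχ z' hz']; push_cast; linarith)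
    simpa using this
  -- the segment
  set y : ℝ → ℂ := fun t => z + t * (z' - z) with hy
  have hyc : Continuous y := by fun_prop
  have hyb : ∀ t ∈ Icc (0 : ℝ) 1, y t ∈ Metric.ball q ρ := by
    intro t ht
    have h1 := (convex_ball q ρ).add_smul_sub_mem hz hz' ht
    simpa [hy] using h1
  set g : ℝ → ℝ := fun t => C.θ (s (y t)) with hg
  have hgc : ContinuousOn g (Icc 0 1) :=
    C.cut.cont.comp_continuousOn (hsc.comp hyc.continuousOn hyb)
  have hg0 : g 0 ≤ j := by
    have : y 0 = z := by simp [hy]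
    rw [hg]; simp only [this]; exact hlz
  have hg1 : (j : ℝ) + 1 ≤ g 1 := by
    have : y 1 = z' := by simp [hy]
    rw [hg]; simp only [this]; exact hhz
  have hivt := intermediate_value_Icc (zero_le_one' ℝ) hgc
  obtain ⟨t₁, ht₁, he₁⟩ := hivt (show (j : ℝ) ∈ Icc (g 0) (g 1) from ⟨hg0, by linarith⟩)
  obtain ⟨t₂, ht₂, he₂⟩ := hivt (show (j : ℝ) + 1 ∈ Icc (g 0) (g 1) from ⟨by linarith, hg1⟩)
  have hsub : uIcc t₁ t₂ ⊆ Icc (0 : ℝ) 1 := (ordConnected_Icc).uIcc_subset ht₁ ht₂
  obtain ⟨t, ht, hne⟩ := OSBAux.between (hgc.mono hsub) j he₁ he₂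
  -- the two points of the crosscut
  obtain ⟨s₁, ha1, hb1, hc1⟩ := (C.int (s (y t₁))).mp ⟨j, he₁⟩
  obtain ⟨s₂, ha2, hb2, hc2⟩ := (C.int (s (y t₂))).mp ⟨j + 1, by push_cast; exact he₂⟩
  rw [hsP _ (hyb t₁ ht₁)] at hc1
  rw [hsP _ (hyb t₂ ht₂)] at hc2
  -- the point `y t` is a convex combination
  obtain ⟨x, hx0, hx1, hxt⟩ : ∃ x : ℝ, 0 ≤ x ∧ x ≤ 1 ∧ t = t₁ + x * (t₂ - t₁) := by
    rcases le_total t₁ t₂ with hle | hle
    · rw [uIcc_of_le hle] at ht
      rcases eq_or_lt_of_le hle with he | hl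
      · exact ⟨0, le_rfl, zero_le_one, by rw [he] at ht ⊢; linarith [ht.1, ht.2]⟩
      · refine ⟨(t - t₁) / (t₂ - t₁), div_nonneg (by linarith [ht.1]) (by linarith), ?_, ?_⟩
        · rw [div_le_one (by linarith)]; linarith [ht.2]
        · have : t₂ - t₁ ≠ 0 := by linarith
          field_simp
          ring
    · rw [uIcc_of_ge hle] at ht
      rcases eq_or_lt_of_le hle with he | hl
      · exact ⟨0, le_rfl, zero_le_one, by rw [he] at ht ⊢; linarith [ht.1, ht.2]⟩
      · refine ⟨(t₁ - t) / (t₁ - t₂), div_nonneg (by linarith [ht.2]) (by linarith), ?_, ?_⟩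
        · rw [div_le_one (by linarith)]; linarith [ht.1]
        · have : t₁ - t₂ ≠ 0 := by linarith
          field_simp
          ring
  have hyt : y t = 0 + ((s₁ + x * (s₂ - s₁) : ℝ) : ℂ) * (1 + I) := by
    have e1 : y t = y t₁ + x * (y t₂ - y t₁) := by
      simp only [hy, hxt]
      push_cast
      ring
    rw [e1, hc1, hc2]
    push_cast
    ring
  have hin : C.s₀ < s₁ + x * (s₂ - s₁) ∧ s₁ + x * (s₂ - s₁) < C.s₁ := by
    have e1 : s₁ + x * (s₂ - s₁) - C.s₀ = (1 - x) * (s₁ - C.s₀) + x * (s₂ - C.s₀) := by ring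
    have e2 : C.s₁ - (s₁ + x * (s₂ - s₁)) = (1 - x) * (C.s₁ - s₁) + x * (C.s₁ - s₂) := by ring
    have p1 : 0 < (1 - x) * (s₁ - C.s₀) + x * (s₂ - C.s₀) := by
      rcases eq_or_lt_of_le hx0 with h | h
      · rw [← h]; linarith
      · have a1 : 0 ≤ (1 - x) * (s₁ - C.s₀) := mul_nonneg (by linarith) (by linarith)
        have a2 : 0 < x * (s₂ - C.s₀) := mul_pos h (by linarith)
        linarith
    have p2 : 0 < (1 - x) * (C.s₁ - s₁) + x * (C.s₁ - s₂) := by
      rcases eq_or_lt_of_le hx0 with h | h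
      · rw [← h]; linarith
      · have a1 : 0 ≤ (1 - x) * (C.s₁ - s₁) := mul_nonneg (by linarith) (by linarith)
        have a2 : 0 < x * (C.s₁ - s₂) := mul_pos h (by linarith)
        linarith
    constructor
    · linarith
    · linarith
  obtain ⟨n, hn⟩ := (C.int (s (y t))).mpr ⟨_, hin.1, hin.2, by rw [hsP _ (hyb t (hsub ht))]; exact hyt⟩
  exact hne n hn

end PD

end Pool.Agent.Lib.MP9fa4ca
end

section
/-!
# MP_9fa4ca_an, PD : PER, the persistence theorem (assembly)
-/
set_option autoImplicit false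

open Set Topology Filter Complex MeasureTheory

namespace Pool.Agent.Lib.MP9fa4ca

namespace PD

universe u

theorem specPER (hEIG : SpecEIG) (hLBL : SpecLBL) (hMGR : SpecMGR.{u}) (hDTH : SpecDTH.{u}) :
    SpecPER.{u} := by
  classical
  intro X _ _ _ d hd c hc hlast
  obtain ⟨S₀, N, hS₀, hN, hrot⟩ := specFab (specSgf specPly) frqAll X d hd c hc hlast
  obtain ⟨Γ, hΓc, hΓd⟩ := TopologicalSpace.exists_countable_dense C(UnitAddCircle, ℂ)
  have : Countable ↥Γ := hΓc.to_subtype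
  have : Countable ↥S₀ := hS₀.to_subtype
  let P : ↥Γ × ℚ × ℚ × ↥S₀ → Set X := fun l =>
    {t | 0 < l.2.1 ∧ Irrational (l.2.2.2 : ℝ) ∧ ∃ (A : Set ℂ) (h : ℂ → ℂ),
      Lab (c t) l.1 l.2.1 l.2.2.1 l.2.2.2 A h}
  refine ⟨S₀, N ∪ ⋃ l, closure (P l) \ interior (closure (P l)), hS₀, hN.union (hMGR X _ P),
    fun t₀ ht₀ A hA e => ⟨hrot t₀ (fun h => ht₀ (Or.inl h)) A hA e, ?_⟩⟩
  obtain ⟨α, u, h₀, hα, hirr, heig, γ₀, hγ₀, hdeg, h0, h1⟩ := hEIG d hd (c t₀) A hA e
  have hαS : α ∈ S₀ := hrot t₀ (fun h => ht₀ (Or.inl h)) A hA e α hα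
  obtain ⟨γ, hγ, ρ, hρ, hlab⟩ := hLBL Γ hΓd d (c t₀) A α u h₀ heig γ₀ hγ₀ hdeg h0 h1
  set l : ↥Γ × ℚ × ℚ × ↥S₀ := (⟨γ, hγ⟩, ρ, u, ⟨α, hαS⟩) with hl
  have ht₀P : t₀ ∈ P l := ⟨hρ, hirr, A, h₀, hlab⟩
  have ht₀V : t₀ ∈ interior (closure (P l)) := by
    by_contra hno
    exact ht₀ (Or.inr (mem_iUnion.2 ⟨l, subset_closure ht₀P, hno⟩))
  have hch : ∀ t ∈ P l, ∃ (A : Set ℂ) (h : ℂ → ℂ), Lab (c t) γ ρ u α A h := fun t ht => ht.2.2
  choose! A' h' hlab' using hch
  have hlab'' : ∀ t ∈ P l, Lab (c t) γ ρ u α (if t = t₀ then A else A' t)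
      (if t = t₀ then h₀ else h' t) := by
    intro t ht
    by_cases h : t = t₀
    · simp only [h, if_true]
      exact hlab
    · simp only [h, if_false]
      exact hlab' t ht
  let D : Dat X d :=
    { c := c
      P := P l
      V := interior (closure (P l))
      A := fun t => if t = t₀ then A else A' t
      h := fun t => if t = t₀ then h₀ else h' t
      α := α
      u := u
      γ := fun x => γ x
      ρ := ρ
      deg2 := hd
      cc := hc
      last := hlast
      irr := hirr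
      opn := isOpen_interior
      cl := interior_subset
      eig := fun t ht => (hlab'' t ht).eig
      hρ := by exact_mod_cast hρ
      γc := γ.continuous.comp (AddCircle.continuous_mk' 1)
      γp := fun x => by
        congr 1
        exact AddCircle.coe_add_period 1 x
      thk := fun t ht => (hlab'' t ht).thk
      deg := fun t ht => (hlab'' t ht).deg
      zu := hlab.zu
      fzu := fun t ht => (hlab'' t ht).fzu }
  obtain ⟨hE, hH, hsub, hall⟩ := hDTH X d D
  refine ⟨α, hαS, hirr, interior (closure (P l)), D.O, D.H, ht₀V, ?_, ?_⟩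
  · have h2 := hsub t₀ ht₀V ht₀P
    have h3 : D.A t₀ = A := if_pos rfl
    rwa [h3] at h2
  · exact ⟨isOpen_interior, hE, hH, fun t ht => (hall t ht).1, fun t ht => (hall t ht).2.1,
      fun t ht => (hall t ht).2.2⟩

end PD

end Pool.Agent.Lib.MP9fa4ca
end

section
/-!
# MP_9fa4ca_an, PD : module QUO (the quotient is an annulus)
-/
set_option autoImplicit false

open Set Topology Filter Complex MeasureTheory

namespace Pool.Agent.Lib.MP9fa4ca

namespace PD

namespace QUOAux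

/-- the map onto the standard annulus -/
noncomputable def Psi (w : ℝ × ℝ) : Circle × ↥(Ioo (0 : ℝ) 1) :=
  (Circle.exp (2 * Real.pi * w.1), kap w.2)

theorem Psi_isQuotientMap : IsQuotientMap Psi := by
  have h1 : IsOpenMap (fun x : ℝ => Circle.exp (2 * Real.pi * x)) := by
    have h2 : (2 * Real.pi : ℝ) ≠ 0 := by positivity
    exact (Circle.isCoveringMap_exp.isOpenMap).comp (Homeomorph.mulLeft₀ _ h2).isOpenMap
  have h3 : IsOpenMap Psi := h1.prodMap kap.isOpenMap
  have h4 : Continuous Psi := by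
    unfold Psi
    have := kap.continuous
    fun_prop
  refine h3.isQuotientMap h4 ?_
  rintro ⟨c, t⟩
  obtain ⟨x, hx⟩ : ∃ x : ℝ, Circle.exp x = c := ⟨Complex.arg c, Circle.exp_arg c⟩
  refine ⟨(x / (2 * Real.pi), kap.symm t), ?_⟩
  unfold Psi
  have h2 : (2 * Real.pi : ℝ) ≠ 0 := by positivity
  simp only [mul_div_cancel₀ _ h2, hx, Homeomorph.apply_symm_apply]

theorem Psi_eq_iff {w w' : ℝ × ℝ} :
    Psi w = Psi w' ↔ ∃ k : ℤ, w' = (w.1 + k, w.2) := by
  have h2 : (2 * Real.pi : ℝ) ≠ 0 := by positivity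
  constructor
  · intro h
    simp only [Psi, Prod.mk.injEq] at h
    obtain ⟨h1, h3⟩ := h
    obtain ⟨m, hm⟩ := Circle.exp_eq_exp.1 h1
    refine ⟨-m, ?_⟩
    ext
    · have : 2 * Real.pi * w.1 = 2 * Real.pi * (w'.1 + m) := by
        rw [hm]; ring
      have h4 := mul_left_cancel₀ h2 this
      push_cast
      linarith
    · exact (kap.injective h3).symm
  · rintro ⟨k, rfl⟩
    simp only [Psi, Prod.mk.injEq, and_true]
    refine Circle.exp_eq_exp.2 ⟨-k, ?_⟩
    push_cast
    ring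

variable {O : Set ℂ} {b : ℂ} {E : ℂ → ℝ × ℝ} {E' : ℝ × ℝ → ℂ}

/-- the map onto the domain -/
noncomputable def PO (hE : Hom {ζ : ℂ | exp ζ + b ∈ O} univ E E') (w : ℝ × ℝ) : ↥O :=
  ⟨exp (E' w) + b, hE.mG w (mem_univ _)⟩

theorem PO_isQuotientMap (hO : IsOpen O) (hb : b ∉ O)
    (hE : Hom {ζ : ℂ | exp ζ + b ∈ O} univ E E') : IsQuotientMap (PO hE) := by
  have hZ : IsOpen {ζ : ℂ | exp ζ + b ∈ O} :=
    hO.preimage (by fun_prop : Continuous fun ζ : ℂ => exp ζ + b)
  have hc' : Continuous E' := by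
    have := hE.cG
    rwa [continuousOn_univ] at this
  have hc : Continuous (PO hE) := by
    unfold PO
    fun_prop
  have hop : IsOpenMap (PO hE) := by
    intro V hV
    have h1 : E' '' V = {ζ : ℂ | exp ζ + b ∈ O} ∩ E ⁻¹' V := by
      ext ζ
      constructor
      · rintro ⟨w, hw, rfl⟩
        refine ⟨hE.mG w (mem_univ _), ?_⟩
        rw [mem_preimage, hE.FG w (mem_univ _)]
        exact hw
      · rintro ⟨h1, h2⟩
        exact ⟨E ζ, h2, hE.GF ζ h1⟩
    have h2 : IsOpen (E' '' V) := by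
      rw [h1]
      exact hE.cF.isOpen_inter_preimage hZ hV
    have h3 : IsOpen ((fun ζ : ℂ => exp ζ + b) '' (E' '' V)) := by
      have h4 : IsOpenMap (fun ζ : ℂ => exp ζ + b) :=
        (Homeomorph.addRight b).isOpenMap.comp Complex.isOpenMap_exp
      exact h4 _ h2
    have h5 : PO hE '' V = Subtype.val ⁻¹' ((fun ζ : ℂ => exp ζ + b) '' (E' '' V)) := by
      ext z
      constructor
      · rintro ⟨w, hw, rfl⟩
        exact ⟨E' w, ⟨w, hw, rfl⟩, rfl⟩
      · rintro ⟨_, ⟨w, hw, rfl⟩, h6⟩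
        exact ⟨w, hw, Subtype.ext h6⟩
    rw [h5]
    exact h3.preimage continuous_subtype_val
  refine hop.isQuotientMap hc ?_
  rintro ⟨z, hz⟩
  have hzb : z - b ≠ 0 := by
    intro h
    rw [sub_eq_zero] at h
    exact hb (h ▸ hz)
  have h1 : exp (log (z - b)) + b = z := by
    rw [exp_log hzb, sub_add_cancel]
  refine ⟨E (log (z - b)), Subtype.ext ?_⟩
  change exp (E' (E (log (z - b)))) + b = z
  rw [hE.GF _ (by rw [mem_setOf_eq, h1]; exact hz), h1]

/-- translations by multiples of `2 π i` -/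
theorem E_add (hper : ∀ ζ, exp ζ + b ∈ O → E (ζ + 2 * Real.pi * I) = ((E ζ).1 + 1, (E ζ).2))
    (k : ℤ) : ∀ ζ, exp ζ + b ∈ O → E (ζ + k * (2 * Real.pi * I)) = ((E ζ).1 + k, (E ζ).2) := by
  induction k with
  | zero => intro ζ _; simp
  | succ n ih =>
    intro ζ hζ
    have h1 := ih ζ hζ
    have h2 := hper (ζ + (n : ℤ) * (2 * Real.pi * I))
      (by rw [exp_add, exp_int_mul_two_pi_mul_I, mul_one]; exact hζ)
    rw [h1] at h2
    have h3 : ζ + ((n + 1 : ℤ) : ℂ) * (2 * Real.pi * I) =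
        ζ + (n : ℤ) * (2 * Real.pi * I) + 2 * Real.pi * I := by
      push_cast
      ring
    rw [h3, h2]
    push_cast
    ext <;> simp <;> ring
  | pred n ih =>
    intro ζ hζ
    have h1 := ih ζ hζ
    have h0 : exp (ζ + (-(n : ℤ) - 1 : ℤ) * (2 * Real.pi * I)) + b ∈ O := by
      rw [exp_add, exp_int_mul_two_pi_mul_I, mul_one]; exact hζ
    have h2 := hper _ h0
    have h3 : ζ + ((-(n : ℤ) - 1 : ℤ) : ℂ) * (2 * Real.pi * I) + 2 * Real.pi * I =
        ζ + ((-(n : ℤ) : ℤ) : ℂ) * (2 * Real.pi * I) := by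
      push_cast
      ring
    rw [h3, h1] at h2
    have h4 := congrArg Prod.fst h2
    have h5 := congrArg Prod.snd h2
    simp only at h4 h5
    ext
    · simp only
      push_cast at h4 ⊢
      linarith
    · exact h5.symm

end QUOAux

open QUOAux in
theorem specQUO : SpecQUO := by
  intro O hO b hb E E' hE hper γ hγ hdeg
  have hPq := PO_isQuotientMap hO hb hE
  have hΨq := Psi_isQuotientMap
  have hadd := E_add hper
  -- the same fibres
  have hfib : ∀ w w', PO hE w = PO hE w' ↔ Psi w = Psi w' := by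
    intro w w'
    rw [Psi_eq_iff]
    constructor
    · intro h
      have h1 : exp (E' w) = exp (E' w') := by
        have := congrArg Subtype.val h
        exact add_right_cancel this
      obtain ⟨k, hk⟩ := exp_eq_exp_iff_exists_int.1 h1.symm
      refine ⟨k, ?_⟩
      have h2 := hadd k (E' w) (hE.mG w (mem_univ _))
      rw [← hk, hE.FG _ (mem_univ _), hE.FG _ (mem_univ _)] at h2
      exact h2
    · rintro ⟨k, hk⟩
      have h2 := hadd k (E' w) (hE.mG w (mem_univ _))
      rw [hE.FG w (mem_univ _), ← hk] at h2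
      have h3 : exp (E' w + k * (2 * Real.pi * I)) + b ∈ O := by
        rw [exp_add, exp_int_mul_two_pi_mul_I, mul_one]
        exact hE.mG w (mem_univ _)
      have h4 := hE.GF _ h3
      rw [h2] at h4
      apply Subtype.ext
      change exp (E' w) + b = exp (E' w') + b
      rw [h4, exp_add, exp_int_mul_two_pi_mul_I, mul_one]
  obtain ⟨e, he⟩ : ∃ e : ↥O ≃ₜ (Circle × ↥(Ioo (0 : ℝ) 1)), ∀ w, e (PO hE w) = Psi w := by
    choose s hs using hPq.surjective
    choose t ht using hΨq.surjective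
    have c1 : Continuous (fun z => Psi (s z)) := by
      rw [hPq.continuous_iff]
      have : (fun z => Psi (s z)) ∘ PO hE = Psi := by
        ext1 w
        exact (hfib _ _).1 (hs _)
      rw [this]
      exact hΨq.continuous
    have c2 : Continuous (fun z => PO hE (t z)) := by
      rw [hΨq.continuous_iff]
      have : (fun z => PO hE (t z)) ∘ Psi = PO hE := by
        ext1 w
        exact (hfib _ _).2 (ht _)
      rw [this]
      exact hPq.continuous
    refine ⟨⟨⟨fun z => Psi (s z), fun z => PO hE (t z), fun z => ?_, fun z => ?_⟩, c1, c2⟩,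
      fun w => ?_⟩
    · have h1 : PO hE (t (Psi (s z))) = PO hE (s z) := (hfib _ _).2 (ht _)
      beta_reduce
      rw [h1, hs]
    · have h1 : Psi (s (PO hE (t z))) = Psi (t z) := (hfib _ _).1 (hs _)
      beta_reduce
      rw [h1, ht]
    · exact (hfib _ _).1 (hs _)
  -- the coordinate of the loop
  have key : ∀ m : ℤ, LDeg (fun x => γ x - b) m →
      ∃ g : ℝ → ℝ, Continuous g ∧ (∀ x, g (x + 1) = g x + m) ∧
        ∀ x, (e ⟨γ x, hγ.mem x⟩).1 = Circle.exp (2 * Real.pi * g x) := by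
    rintro m ⟨L, hL, hLe, hLm⟩
    have hmem : ∀ x, exp (L x) + b ∈ O := by
      intro x
      rw [hLe, sub_add_cancel]
      exact hγ.mem x
    refine ⟨fun x => (E (L x)).1, ?_, fun x => ?_, fun x => ?_⟩
    · exact continuous_fst.comp (hE.cF.comp_continuous hL hmem)
    · beta_reduce
      rw [hLm, hadd m _ (hmem x)]
    · have h1 : (⟨γ x, hγ.mem x⟩ : ↥O) = PO hE (E (L x)) := by
        apply Subtype.ext
        change γ x = exp (E' (E (L x))) + b
        rw [hE.GF _ (hmem x), hLe, sub_add_cancel]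
      rw [h1, he]
      rfl
  have hfin : ∀ (g : ℝ → ℝ) (m : ℤ), Continuous g → (∀ x, g (x + 1) = g x + m) →
      LDeg (fun x => ((Circle.exp (2 * Real.pi * g x) : Circle) : ℂ)) m := by
    intro g m hg hgm
    refine ⟨fun x => 2 * Real.pi * g x * I, by fun_prop, fun x => ?_, fun x => ?_⟩
    · beta_reduce
      rw [Circle.coe_exp]
      push_cast
      rfl
    · beta_reduce
      rw [hgm]
      push_cast
      ring
  rcases hdeg with h | h
  · obtain ⟨g, hg, hgm, hge⟩ := key 1 h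
    refine ⟨e, ?_⟩
    have := hfin g 1 hg hgm
    simpa only [hge] using this
  · obtain ⟨g, hg, hgm, hge⟩ := key (-1) h
    refine ⟨e.trans ((Homeomorph.inv Circle).prodCongr (Homeomorph.refl _)), ?_⟩
    have := hfin (fun x => -g x) 1 hg.neg (fun x => by
      rw [hgm]
      push_cast
      ring)
    have h2 : ∀ x, ((e.trans ((Homeomorph.inv Circle).prodCongr (Homeomorph.refl _)))
        ⟨γ x, hγ.mem x⟩).1 = Circle.exp (2 * Real.pi * -g x) := by
      intro x
      change ((e ⟨γ x, hγ.mem x⟩).1)⁻¹ = _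
      rw [hge, mul_neg, Circle.exp_neg]
    simpa only [h2] using this

end PD

end Pool.Agent.Lib.MP9fa4ca
end

section
/-!
# MP_9fa4ca_an, PD : REF, reversibility
-/
set_option autoImplicit false

open Set Topology Filter Complex MeasureTheory

namespace Pool.Agent.Lib.MP9fa4ca

namespace PD

theorem specREF : SpecREF := by
  intro p hp m
  have hfi : ∀ z, hf p hp ((hf p hp)⁻¹ z) = z := fun z => by
    rw [← Homeomorph.mul_apply, mul_inv_cancel, Homeomorph.one_apply]
  have hif : ∀ z, (hf p hp)⁻¹ (hf p hp z) = z := fun z => by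
    rw [← Homeomorph.mul_apply, inv_mul_cancel, Homeomorph.one_apply]
  have h0 : ∀ z, hf p hp (refl (hf p hp z)) = refl z := fun z => by
    rw [hf_apply, hf_apply, hen_refl]
  have h1 : ∀ z, hf p hp (refl z) = refl ((hf p hp)⁻¹ z) := fun z => by
    have := h0 ((hf p hp)⁻¹ z)
    rwa [hfi] at this
  have h2 : ∀ z, (hf p hp)⁻¹ (refl z) = refl (hf p hp z) := fun z => by
    rw [← h0 z, hif]
  induction m using Int.induction_on with
  | zero =>
    intro z
    rw [neg_zero, zpow_zero, Homeomorph.one_apply, Homeomorph.one_apply]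
  | succ n ih =>
    intro z
    rw [zpow_add_one, Homeomorph.mul_apply, h1, ih, neg_add, zpow_add, zpow_neg_one,
      Homeomorph.mul_apply]
  | pred n ih =>
    intro z
    rw [zpow_sub_one, Homeomorph.mul_apply, h2, ih,
      show -(-(n : ℤ) - 1) = -(-(n : ℤ)) + 1 by ring, zpow_add_one, Homeomorph.mul_apply]

end PD

end Pool.Agent.Lib.MP9fa4ca
end

section
/-!
# MP_9fa4ca_an, PD : RFH, the eigenfunction is `±1` on the diagonal
-/
set_option autoImplicit false

open Set Topology Filter Complex MeasureTheory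

namespace Pool.Agent.Lib.MP9fa4ca

namespace PD

theorem lam_norm_RFH (α : ℝ) : ‖lam α‖ = 1 := by
  rw [lam, show (2 * Real.pi * α * I : ℂ) = ((2 * Real.pi * α : ℝ) : ℂ) * I by push_cast; ring,
    norm_exp_ofReal_mul_I]

theorem specRFH (hEVZ : SpecEVZ) (hREF : SpecREF) (hEQH : SpecEQH) (hDNO : SpecDNO) : SpecRFH := by
  intro p hp A hA e C h hD s hs
  obtain ⟨hnor, heqv, hone, -⟩ := hEQH p A e C h hD
  have hinv : ∀ z, hf p hp z ∈ A ↔ z ∈ A := hA.inv
  have heqv' : ∀ z ∈ A, h (hf p hp z) = lam C.α * h z := heqv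
  have hseg : ∀ s' : ℝ, C.s₀ < s' → s' < C.s₁ → (⟨s', s'⟩ : ℂ) ∈ A := by
    intro s' h0 h1
    have h2 := C.seg s' h0 h1
    have h3 : (0 : ℂ) + s' * (1 + I) = ⟨s', s'⟩ := by
      apply Complex.ext <;> simp
    rwa [h3] at h2
  have key : ∀ z ∈ A, ∀ (m : ℤ) (s' : ℝ), C.s₀ < s' → s' < C.s₁ → (hf p hp ^ m) z = ⟨s', s'⟩ →
      h (refl z) = (starRingEnd ℂ) (h z) := by
    intro z hz m s' h0 h1 hzs
    have hl := hseg s' h0 h1
    have e1 := (hEVZ (hf p hp) A hinv h C.α heqv' m z hz).2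
    have e2 := (hEVZ (hf p hp) A hinv h C.α heqv' m _ hl).2
    have e3 : (hf p hp ^ m) (⟨s', s'⟩ : ℂ) = refl z := by
      have h4 := hREF p hp m ((hf p hp ^ m) z)
      have h5 : (hf p hp ^ (-m)) ((hf p hp ^ m) z) = z := by
        have h6 : (hf p hp ^ (-m)) ((hf p hp ^ m) z) = ((hf p hp ^ (-m)) * (hf p hp ^ m)) z := rfl
        rw [h6, ← zpow_add, neg_add_cancel, zpow_zero]
        rfl
      rw [h5, hzs] at h4
      exact h4
    rw [hzs, hone s' h0 h1] at e1
    rw [e3, hone s' h0 h1, mul_one] at e2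
    rw [e2]
    have hlam : ‖lam C.α ^ m‖ = 1 := by rw [norm_zpow, lam_norm_RFH, one_zpow]
    have h7 : (starRingEnd ℂ) (lam C.α ^ m) * (starRingEnd ℂ) (h z) = 1 := by
      rw [← map_mul, ← e1, map_one]
    have h8 : lam C.α ^ m * (starRingEnd ℂ) (lam C.α ^ m) = 1 := by
      rw [Complex.mul_conj, Complex.normSq_eq_norm_sq, hlam]
      norm_num
    calc lam C.α ^ m = lam C.α ^ m * ((starRingEnd ℂ) (lam C.α ^ m) * (starRingEnd ℂ) (h z)) := by
          rw [h7, mul_one]
      _ = (lam C.α ^ m * (starRingEnd ℂ) (lam C.α ^ m)) * (starRingEnd ℂ) (h z) := by ring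
      _ = (starRingEnd ℂ) (h z) := by rw [h8, one_mul]
  have hconj : h ⟨s, s⟩ = (starRingEnd ℂ) (h ⟨s, s⟩) := by
    by_contra hne
    have hca : ContinuousAt h (⟨s, s⟩ : ℂ) := hD.con.continuousAt (hA.opn.mem_nhds hs)
    have hrc : Continuous refl := by
      have : Isometry refl := Isometry.of_dist_eq fun z w => by
        rw [dist_eq_norm, dist_eq_norm]
        exact refl_isometry z w
      exact this.continuous
    have hca2 : ContinuousAt (fun z => h (refl z) - (starRingEnd ℂ) (h z)) (⟨s, s⟩ : ℂ) := by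
      apply ContinuousAt.sub
      · have h9 : ContinuousAt h (refl (⟨s, s⟩ : ℂ)) := hca
        exact h9.comp hrc.continuousAt
      · exact Complex.continuous_conj.continuousAt.comp hca
    have hev : ∀ᶠ z in 𝓝 (⟨s, s⟩ : ℂ), h (refl z) - (starRingEnd ℂ) (h z) ≠ 0 := by
      apply hca2.eventually_ne
      rw [refl_diag]
      exact sub_ne_zero.mpr hne
    have hev2 := hev.and (hA.opn.mem_nhds hs)
    obtain ⟨r, hr, hball⟩ := Metric.eventually_nhds_iff_ball.mp hev2
    obtain ⟨y, hy, m, s', h0, h1, hys⟩ := hDNO p hp A hA e C h hD ⟨s, s⟩ r hr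
      (fun z hz => (hball z hz).2)
    exact (hball y hy).1 (sub_eq_zero.mpr (key y (hball y hy).2 m s' h0 h1 hys))
  have hn := hnor _ hs
  have him : (h ⟨s, s⟩).im = 0 := by
    have := congrArg Complex.im hconj
    rw [Complex.conj_im] at this
    linarith
  have hre : h ⟨s, s⟩ = ((h ⟨s, s⟩).re : ℂ) := by
    apply Complex.ext
    · simp
    · simpa using him
  rw [hre, Complex.norm_real, Real.norm_eq_abs] at hn
  rcases eq_or_eq_neg_of_abs_eq hn with h1 | h1
  · left
    rw [hre, h1]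
    norm_num
  · right
    rw [hre, h1]
    norm_num

end PD

end Pool.Agent.Lib.MP9fa4ca
end

section
/-!
# MP_9fa4ca_an, PD : RMH, the Riemann map of a domain in a half plane with square roots
-/
set_option autoImplicit false

open Set Topology Filter Complex MeasureTheory

namespace Pool.Agent.Lib.MP9fa4ca

namespace PD

theorem specRMH (hRMR : SpecRMR) (hIND : SpecIND) : SpecRMH := by
  intro S hS hSc hbd hsq
  obtain ⟨C, hC⟩ := hbd
  obtain ⟨ζ₀, hζ₀⟩ := hSc.nonempty
  have hre : ∀ ζ ∈ S, 1 < ‖ζ - ((C : ℂ) + 1)‖ := by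
    intro ζ hζ
    have h1 := hC ζ hζ
    have h2 : |(ζ - ((C : ℂ) + 1)).re| ≤ ‖ζ - ((C : ℂ) + 1)‖ := abs_re_le_norm _
    have h3 : (ζ - ((C : ℂ) + 1)).re = ζ.re - C - 1 := by
      simp only [sub_re, add_re, ofReal_re, one_re]
      ring
    rw [h3] at h2
    have h4 : 1 < |ζ.re - C - 1| := by
      rw [abs_of_neg (by linarith)]
      linarith
    linarith
  have hne : ∀ ζ ∈ S, ζ - ((C : ℂ) + 1) ≠ 0 := fun ζ hζ => by
    have := hre ζ hζ
    intro h
    rw [h, norm_zero] at this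
    linarith
  set c₀ : ℂ := (ζ₀ - ((C : ℂ) + 1))⁻¹ with hc₀
  set κ : ℂ → ℂ := fun ζ => (ζ - ((C : ℂ) + 1))⁻¹ - c₀ with hκ
  set κ' : ℂ → ℂ := fun w => (w + c₀)⁻¹ + ((C : ℂ) + 1) with hκ'
  have hκκ : ∀ z ∈ S, κ' (κ z) = z := by
    intro z _
    simp only [hκ, hκ', sub_add_cancel, inv_inv]
  have hκd : DifferentiableOn ℂ κ S := by
    intro z hz
    have h1 : DifferentiableAt ℂ (fun ζ : ℂ => ζ - ((C : ℂ) + 1)) z :=
      differentiableAt_id.sub_const _
    exact ((h1.inv (hne z hz)).sub_const _).differentiableWithinAt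
  have hκb : BijOn κ S (κ '' S) := by
    have hinj : InjOn κ S := fun a ha b hb h => by
      rw [← hκκ a ha, h, hκκ b hb]
    exact hinj.bijOn_image
  obtain ⟨hS'o, hκ'd⟩ := hIND S (κ '' S) κ κ' hS hκd hκb hκκ
  have hmap' : MapsTo κ' (κ '' S) S := by
    rintro _ ⟨z, hz, rfl⟩
    rw [hκκ z hz]
    exact hz
  have hκκ' : ∀ w ∈ κ '' S, κ (κ' w) = w := by
    rintro _ ⟨z, hz, rfl⟩
    rw [hκκ z hz]
  have hbdd : Bornology.IsBounded (κ '' S) := by
    rw [isBounded_iff_forall_norm_le]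
    refine ⟨2, ?_⟩
    rintro _ ⟨z, hz, rfl⟩
    have h1 : ‖(z - ((C : ℂ) + 1))⁻¹‖ ≤ 1 := by
      rw [norm_inv]
      exact inv_le_one_of_one_le₀ (hre z hz).le
    have h2 : ‖c₀‖ ≤ 1 := by
      rw [hc₀, norm_inv]
      exact inv_le_one_of_one_le₀ (hre ζ₀ hζ₀).le
    calc ‖κ z‖ ≤ ‖(z - ((C : ℂ) + 1))⁻¹‖ + ‖c₀‖ := norm_sub_le _ _
      _ ≤ 2 := by linarith
  have h0 : (0 : ℂ) ∈ κ '' S := ⟨ζ₀, hζ₀, by simp only [hκ, hc₀, sub_self]⟩
  have hpc : IsPreconnected (κ '' S) := hSc.isPreconnected.image κ hκd.continuousOn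
  have hsq' : ∀ u : ℂ → ℂ, ContinuousOn u (κ '' S) → (∀ z ∈ κ '' S, u z ≠ 0) →
      ∃ g : ℂ → ℂ, ContinuousOn g (κ '' S) ∧ ∀ z ∈ κ '' S, g z ^ 2 = u z := by
    intro u hu hu0
    obtain ⟨g, hg, hg2⟩ := hsq (fun z => u (κ z)) (hu.comp hκd.continuousOn (mapsTo_image κ S))
      (fun z hz => hu0 _ (mem_image_of_mem κ hz))
    refine ⟨fun w => g (κ' w), hg.comp hκ'd.continuousOn hmap', fun w hw => ?_⟩
    have := hg2 (κ' w) (hmap' hw)
    rw [hκκ' w hw] at this
    exact this
  obtain ⟨F', hF'd, hF'b⟩ := hRMR (κ '' S) hS'o hbdd h0 hpc hsq'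
  have hFd : DifferentiableOn ℂ (fun z => F' (κ z)) S :=
    hF'd.comp hκd (mapsTo_image κ S)
  have hFb : BijOn (fun z => F' (κ z)) S (Metric.ball 0 1) := hF'b.comp hκb
  set G : ℂ → ℂ := Function.invFunOn (fun z => F' (κ z)) S with hG
  have hGF : ∀ z ∈ S, G (F' (κ z)) = z := fun z hz => hFb.injOn.leftInvOn_invFunOn hz
  obtain ⟨-, hGd⟩ := hIND S (Metric.ball 0 1) (fun z => F' (κ z)) G hS hFd hFb hGF
  refine ⟨fun z => F' (κ z), G,
    { cF := hFd.continuousOn
      cG := hGd.continuousOn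
      mF := fun y hy => hFb.mapsTo hy
      mG := fun z hz => ?_
      GF := hGF
      FG := fun z hz => ?_ }, hFd, hGd⟩
  · obtain ⟨y, hy, rfl⟩ := hFb.surjOn hz
    rw [hGF y hy]
    exact hy
  · obtain ⟨y, hy, rfl⟩ := hFb.surjOn hz
    simp only
    rw [hGF y hy]

end PD

end Pool.Agent.Lib.MP9fa4ca
end

section
/-!
# MP_9fa4ca_an, PD : RMR, the Riemann mapping theorem from square roots

Adapted from `Pool/Agent/Lib/MP_87ece0_an/RMT.lean` (the hypothesis of simple connectedness is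
replaced by the existence of square roots).
-/
set_option autoImplicit false

open Filter Topology Set Metric
open scoped ComplexConjugate

namespace Pool.Agent.Lib.MP9fa4ca

namespace PD

namespace RMRAux

/-- a uniform local Lipschitz bound for holomorphic functions with values in the unit ball -/
theorem lip_ball {z₀ : ℂ} {r : ℝ} (hr : 0 < r) {F : ℂ → ℂ}
    (hF : DifferentiableOn ℂ F (ball z₀ (2 * r))) (hm : ∀ z ∈ ball z₀ (2 * r), ‖F z‖ ≤ 1)
    {z : ℂ} (hz : z ∈ ball z₀ r) : ‖F z - F z₀‖ ≤ r⁻¹ * ‖z - z₀‖ := by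
  have hder : ∀ w ∈ ball z₀ r, ‖deriv F w‖ ≤ r⁻¹ := by
    intro w hw
    have hlt : ∀ s : ℝ, 0 < s → s < r → ‖deriv F w‖ ≤ 1 / s := by
      intro s hs0 hs
      have hsub : closedBall w s ⊆ ball z₀ (2 * r) := by
        intro u hu
        rw [mem_closedBall] at hu
        rw [mem_ball] at hw ⊢
        have := dist_triangle u w z₀
        linarith
      refine Complex.norm_deriv_le_of_forall_mem_sphere_norm_le hs0
        (hF.diffContOnCl_ball hsub) fun u hu => hm u (hsub (sphere_subset_closedBall hu))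
    have ht : Tendsto (fun s : ℝ => 1 / s) (𝓝[<] r) (𝓝 (1 / r)) := by
      refine tendsto_nhdsWithin_of_tendsto_nhds ?_
      exact tendsto_const_nhds.div tendsto_id hr.ne'
    rw [← one_div]
    refine ge_of_tendsto ht ?_
    filter_upwards [Ioo_mem_nhdsLT hr] with s hs
    exact hlt s hs.1 hs.2
  have := (convex_ball z₀ r).norm_image_sub_le_of_norm_deriv_le (f := F) (C := r⁻¹)
    (fun w hw => (hF.differentiableAt (isOpen_ball.mem_nhds
      (ball_subset_ball (by linarith) hw)))) hder (mem_ball_self hr) hz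
  exact this

/-- pointwise limits along a filter of holomorphic functions with values in the ball are
locally uniform -/
theorem locUnif {ι : Type*} {l : Filter ι} [l.NeBot] {D : Set ℂ} (hD : IsOpen D) {F : ι → ℂ → ℂ}
    {G : ℂ → ℂ} (hF : ∀ n, DifferentiableOn ℂ (F n) D) (hm : ∀ n, ∀ z ∈ D, ‖F n z‖ ≤ 1)
    (hG : ∀ z ∈ D, Tendsto (fun n => F n z) l (𝓝 (G z))) :
    TendstoLocallyUniformlyOn F G l D := by
  rw [Metric.tendstoLocallyUniformlyOn_iff]
  intro ε hε z₀ hz₀
  obtain ⟨r', hr', hsub⟩ := Metric.isOpen_iff.1 hD z₀ hz₀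
  set r := r' / 2 with hr
  have hr0 : 0 < r := by positivity
  have h2 : 2 * r = r' := by rw [hr]; ring
  rw [← h2] at hsub
  have hL : ∀ n, ∀ z ∈ ball z₀ r, ‖F n z - F n z₀‖ ≤ r⁻¹ * ‖z - z₀‖ := fun n z hz =>
    lip_ball hr0 ((hF n).mono hsub) (fun z hz => hm n z (hsub hz)) hz
  have hLG : ∀ z ∈ ball z₀ r, ‖G z - G z₀‖ ≤ r⁻¹ * ‖z - z₀‖ := by
    intro z hz
    have hzD : z ∈ D := hsub (ball_subset_ball (by linarith) hz)
    exact le_of_tendsto ((hG z hzD).sub (hG z₀ hz₀)).norm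
      (Eventually.of_forall fun n => hL n z hz)
  set δ := min r (r * (ε / 4)) with hδ
  have hδ0 : 0 < δ := by positivity
  refine ⟨ball z₀ δ, mem_nhdsWithin_of_mem_nhds (ball_mem_nhds z₀ hδ0), ?_⟩
  filter_upwards [(Metric.tendsto_nhds.1 (hG z₀ hz₀)) (ε / 4) (by positivity)] with n hn z hz
  have hz1 : z ∈ ball z₀ r := ball_subset_ball (min_le_left _ _) hz
  have hz2 : ‖z - z₀‖ < r * (ε / 4) := by
    rw [← dist_eq_norm]
    exact lt_of_lt_of_le (mem_ball.1 hz) (min_le_right _ _)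
  have hb : r⁻¹ * ‖z - z₀‖ ≤ ε / 4 := by
    rw [inv_mul_le_iff₀ hr0]
    exact hz2.le
  have h1 := hL n z hz1
  have h3 := hLG z hz1
  rw [dist_eq_norm] at hn ⊢
  have : G z - F n z = (G z - G z₀) - (F n z - F n z₀) - (F n z₀ - G z₀) := by ring
  rw [this]
  have e1 := norm_sub_le ((G z - G z₀) - (F n z - F n z₀)) (F n z₀ - G z₀)
  have e2 := norm_sub_le (G z - G z₀) (F n z - F n z₀)
  linarith

/-- Hurwitz: a non-constant limit of injective holomorphic functions is injective -/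
theorem hurwitz {ι : Type*} {l : Filter ι} [l.NeBot] {D : Set ℂ} (hD : IsOpen D)
    (hDc : IsPreconnected D) {F : ι → ℂ → ℂ} {G : ℂ → ℂ}
    (hF : ∀ n, DifferentiableOn ℂ (F n) D) (hinj : ∀ n, InjOn (F n) D)
    (hG : TendstoLocallyUniformlyOn F G l D) (hne : ∃ z ∈ D, ∃ w ∈ D, G z ≠ G w) :
    InjOn G D := by
  have hGd : DifferentiableOn ℂ G D := hG.differentiableOn (Eventually.of_forall hF) hD
  intro a ha b hb hab
  by_contra hne'
  have hGa : AnalyticOnNhd ℂ (fun z => G z - G a) D :=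
    ((hGd.sub_const _)).analyticOnNhd hD
  -- the function is not locally zero at b
  have hev : ∀ᶠ z in 𝓝[≠] b, G z - G a ≠ 0 := by
    rcases (hGa b hb).eventually_eq_zero_or_eventually_ne_zero with h | h
    · exfalso
      have := hGa.eqOn_zero_of_preconnected_of_eventuallyEq_zero hDc hb h
      obtain ⟨z, hz, w, hw, hzw⟩ := hne
      apply hzw
      have e1 : G z - G a = 0 := this hz
      have e2 : G w - G a = 0 := this hw
      rw [sub_eq_zero.1 e1, sub_eq_zero.1 e2]
    · exact h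
  rw [eventually_nhdsWithin_iff, Metric.eventually_nhds_iff] at hev
  obtain ⟨ε, hε, hev⟩ := hev
  obtain ⟨r', hr', hsub⟩ := Metric.isOpen_iff.1 hD b hb
  have hdab : 0 < dist a b := dist_pos.2 hne'
  obtain ⟨r, hr0, hr1, hr2, hr3⟩ : ∃ r : ℝ, 0 < r ∧ r < ε ∧ r < r' ∧ r < dist a b := by
    refine ⟨min (min (ε / 2) (r' / 2)) (dist a b / 2), by positivity, ?_, ?_, ?_⟩
    · exact lt_of_le_of_lt ((min_le_left _ _).trans (min_le_left _ _)) (by linarith)
    · exact lt_of_le_of_lt ((min_le_left _ _).trans (min_le_right _ _)) (by linarith)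
    · exact lt_of_le_of_lt (min_le_right _ _) (by linarith)
  have hcb : closedBall b r ⊆ D := (closedBall_subset_ball hr2).trans hsub
  -- minimum on the sphere
  have hcont : ContinuousOn (fun z => ‖G z - G a‖) (sphere b r) :=
    ((hGd.continuousOn.mono (sphere_subset_closedBall.trans hcb)).sub continuousOn_const).norm
  have hsne : (sphere b r).Nonempty := (NormedSpace.sphere_nonempty).2 hr0.le
  obtain ⟨p, hp, hmin⟩ := (isCompact_sphere b r).exists_isMinOn hsne hcont
  set m := ‖G p - G a‖ with hm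
  have hm0 : 0 < m := by
    rw [hm, norm_pos_iff]
    refine hev (y := p) ?_ ?_
    · rw [mem_sphere] at hp
      rw [hp]; exact hr1
    · rw [mem_compl_iff, mem_singleton_iff]
      rintro rfl
      simp only [mem_sphere, dist_self] at hp
      exact hr0.ne hp
  have hunif : TendstoUniformlyOn F G l (closedBall b r) :=
    (tendstoLocallyUniformlyOn_iff_forall_isCompact hD).1 hG _ hcb (isCompact_closedBall b r)
  have ha' : Tendsto (fun n => F n a) l (𝓝 (G a)) := hG.tendsto_at ha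
  have hev1 := (Metric.tendstoUniformlyOn_iff.1 hunif) (m / 8) (by positivity)
  have hev2 := (Metric.tendsto_nhds.1 ha') (m / 8) (by positivity)
  obtain ⟨n, hn1, hn2⟩ := (hev1.and hev2).exists
  -- the function h_n = F n - F n a
  have hclose : ∀ z ∈ closedBall b r, ‖(F n z - F n a) - (G z - G a)‖ ≤ m / 4 := by
    intro z hz
    have h1 := hn1 z hz
    rw [dist_eq_norm] at h1 hn2
    have : (F n z - F n a) - (G z - G a) = -(G z - F n z) - (F n a - G a) := by ring
    rw [this]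
    have e := norm_sub_le (-(G z - F n z)) (F n a - G a)
    rw [norm_neg] at e
    linarith
  have hnz : ∀ z ∈ closedBall b r, F n z - F n a ≠ 0 := by
    intro z hz h0
    have := hinj n (hcb hz) ha (sub_eq_zero.1 h0)
    rw [this, mem_closedBall] at hz
    linarith
  have hdc : DiffContOnCl ℂ (fun z => (F n z - F n a)⁻¹) (ball b r) := by
    have hdd : DifferentiableOn ℂ (fun z => (F n z - F n a)⁻¹) (closedBall b r) :=
      (((hF n).mono hcb).sub_const _).inv hnz
    exact DifferentiableOn.diffContOnCl_ball hdd subset_rfl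
  have hsph : ∀ z ∈ frontier (ball b r), ‖(F n z - F n a)⁻¹‖ ≤ (m / 2)⁻¹ := by
    intro z hz
    rw [frontier_ball b hr0.ne'] at hz
    have h1 := hclose z (sphere_subset_closedBall hz)
    have h2 : m ≤ ‖G z - G a‖ := hmin hz
    have h3 : ‖G z - G a‖ ≤ ‖F n z - F n a‖ + ‖(F n z - F n a) - (G z - G a)‖ := by
      have := norm_sub_le (F n z - F n a) ((F n z - F n a) - (G z - G a))
      rwa [sub_sub_cancel] at this
    rw [norm_inv]
    apply inv_anti₀ (by positivity)
    linarith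
  have hmax := Complex.norm_le_of_forall_mem_frontier_norm_le (isBounded_ball) hdc hsph
    (subset_closure (mem_ball_self hr0))
  have hb0 := hclose b (mem_closedBall_self hr0.le)
  have : G b - G a = 0 := by rw [hab]; ring
  rw [this, sub_zero] at hb0
  have hbne := hnz b (mem_closedBall_self hr0.le)
  rw [norm_inv] at hmax
  have := inv_le_inv₀ (norm_pos_iff.2 hbne) (by positivity : (0:ℝ) < m / 2) |>.1 hmax
  linarith

/-- the Moebius transformation -/
noncomputable def mob (a w : ℂ) : ℂ := (w - a) / (1 - conj a * w)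

theorem mob_den_ne {a w : ℂ} (ha : ‖a‖ < 1) (hw : ‖w‖ < 1) : 1 - conj a * w ≠ 0 := by
  intro h
  have h1 : conj a * w = 1 := (sub_eq_zero.1 h).symm
  have h2 : ‖conj a * w‖ = 1 := by rw [h1, norm_one]
  rw [norm_mul, Complex.norm_conj] at h2
  nlinarith [norm_nonneg a, norm_nonneg w]

theorem mob_norm {a w : ℂ} (ha : ‖a‖ < 1) (hw : ‖w‖ < 1) : ‖mob a w‖ < 1 := by
  have hd := mob_den_ne ha hw
  rw [mob, norm_div, div_lt_one (norm_pos_iff.2 hd)]
  have h1 : ‖w - a‖ ^ 2 < ‖1 - conj a * w‖ ^ 2 := by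
    have e1 : ‖w - a‖ ^ 2 = ‖w‖ ^ 2 + ‖a‖ ^ 2 - 2 * (conj a * w).re := by
      rw [← Complex.normSq_eq_norm_sq, ← Complex.normSq_eq_norm_sq, ← Complex.normSq_eq_norm_sq,
        Complex.normSq_sub]
      congr 2
      rw [mul_comm]
    have e2 : ‖1 - conj a * w‖ ^ 2 = 1 + ‖a‖ ^ 2 * ‖w‖ ^ 2 - 2 * (conj a * w).re := by
      rw [← Complex.normSq_eq_norm_sq, ← Complex.normSq_eq_norm_sq, ← Complex.normSq_eq_norm_sq,
        Complex.normSq_sub, Complex.normSq_one, Complex.normSq_mul, Complex.normSq_conj]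
      simp
    rw [e1, e2]
    have h3 : ‖a‖ ^ 2 < 1 := by nlinarith [norm_nonneg a]
    have h4 : ‖w‖ ^ 2 < 1 := by nlinarith [norm_nonneg w]
    nlinarith
  exact lt_of_pow_lt_pow_left₀ 2 (norm_nonneg _) h1

theorem mob_inj {a : ℂ} (ha : ‖a‖ < 1) : InjOn (mob a) (ball 0 1) := by
  intro z hz w hw h
  rw [mem_ball_zero_iff] at hz hw
  rw [mob, mob, div_eq_div_iff (mob_den_ne ha hz) (mob_den_ne ha hw)] at h
  have h1 : (z - w) * (1 - conj a * a) = 0 := by linear_combination h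
  rcases mul_eq_zero.1 h1 with h2 | h2
  · exact sub_eq_zero.1 h2
  · exact absurd h2 (mob_den_ne ha ha)

theorem mob_hasDerivAt {a w : ℂ} (ha : ‖a‖ < 1) (hw : ‖w‖ < 1) :
    HasDerivAt (mob a) ((1 - conj a * a) / (1 - conj a * w) ^ 2) w := by
  have hd := mob_den_ne ha hw
  have h1 : HasDerivAt (fun w : ℂ => w - a) 1 w := (hasDerivAt_id w).sub_const a
  have h2 : HasDerivAt (fun w : ℂ => 1 - conj a * w) (-(conj a * 1)) w :=
    ((hasDerivAt_id w).const_mul (conj a)).const_sub 1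
  have h3 := h1.div h2 hd
  refine h3.congr_deriv ?_
  congr 1
  ring

theorem mob_eq_zero {a w : ℂ} (ha : ‖a‖ < 1) (hw : ‖w‖ < 1) (h : mob a w = 0) : w = a := by
  rw [mob, div_eq_zero_iff] at h
  rcases h with h | h
  · exact sub_eq_zero.1 h
  · exact absurd h (mob_den_ne ha hw)

/-- the family of the proof -/
structure Fam (D : Set ℂ) (F : ℂ → ℂ) : Prop where
  diff : DifferentiableOn ℂ F D
  inj : InjOn F D
  zero : F 0 = 0
  maps : ∀ z ∈ D, ‖F z‖ < 1

/-- the koebe step: a larger derivative if a point is omitted -/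
theorem koebe {D : Set ℂ} (hD : IsOpen D) (h0 : (0:ℂ) ∈ D)
    (hsq : ∀ u : ℂ → ℂ, ContinuousOn u D → (∀ z ∈ D, u z ≠ 0) →
      ∃ g : ℂ → ℂ, ContinuousOn g D ∧ ∀ z ∈ D, g z ^ 2 = u z)
    {F : ℂ → ℂ} (hF : Fam D F) {a : ℂ} (ha : ‖a‖ < 1) (hna : ∀ z ∈ D, F z ≠ a) :
    ∃ G : ℂ → ℂ, Fam D G ∧ (deriv F 0 ≠ 0 → ‖deriv F 0‖ < ‖deriv G 0‖) := by
  have ha0 : a ≠ 0 := by
    rintro rfl
    exact hna 0 h0 hF.zero
  -- the function mob a ∘ F has no zero
  set u : ℂ → ℂ := fun z => mob a (F z) with hu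
  have huD : ∀ z ∈ D, HasDerivAt u ((1 - conj a * a) / (1 - conj a * F z) ^ 2 * deriv F z) z := by
    intro z hz
    exact (mob_hasDerivAt ha (hF.maps z hz)).comp z
      (hF.diff.differentiableAt (hD.mem_nhds hz)).hasDerivAt
  have hucont : ContinuousOn u D := fun z hz => (huD z hz).continuousAt.continuousWithinAt
  have hu0 : ∀ z ∈ D, u z ≠ 0 := fun z hz hz0 =>
    hna z hz (mob_eq_zero ha (hF.maps z hz) hz0)
  obtain ⟨g, hgc, hg⟩ := hsq u hucont hu0
  have hgn : ∀ z ∈ D, ‖g z‖ < 1 := by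
    intro z hz
    have h1 : ‖g z‖ ^ 2 < 1 := by
      rw [← norm_pow, hg z hz]
      exact mob_norm ha (hF.maps z hz)
    nlinarith [norm_nonneg (g z)]
  have hgne : ∀ z ∈ D, g z ≠ 0 := by
    intro z hz h
    apply hu0 z hz
    rw [← hg z hz, h]; simp
  have hgd : ∀ z ∈ D, HasDerivAt g (deriv u z / (2 * g z)) z := by
    intro z hz
    have hsq : HasDerivAt (fun w : ℂ => w ^ 2) (2 * g z) (g z) := by
      simpa using hasDerivAt_pow 2 (g z)
    -- local inverse of the square function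
    have hst : HasStrictDerivAt (fun w : ℂ => w ^ 2) (2 * g z) (g z) := by
      simpa using hasStrictDerivAt_pow 2 (g z)
    have h2 : (2 * g z) ≠ 0 := mul_ne_zero two_ne_zero (hgne z hz)
    have hinv := hst.to_localInverse h2
    have hloc : ∀ᶠ w in 𝓝 z, g w = hst.localInverse (fun w : ℂ => w ^ 2) (2 * g z) (g z) h2 (u w) := by
      have hev := hst.eventually_left_inverse h2
      have hcg : ContinuousAt g z := hgc.continuousAt (hD.mem_nhds hz)
      filter_upwards [hcg.eventually hev, hD.mem_nhds hz] with w hw hwD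
      rw [← hg w hwD]
      exact hw.symm
    have huz : HasDerivAt u (deriv u z) z := (huD z hz).differentiableAt.hasDerivAt
    have hsq' : (g z) ^ 2 = u z := hg z hz
    rw [hsq'] at hinv
    have hcomp := hinv.hasDerivAt.comp z huz
    have := hcomp.congr_of_eventuallyEq (f₁ := g) hloc
    exact this.congr_deriv (div_eq_inv_mul _ _).symm
  have hginj : InjOn g D := by
    intro z hz w hw hzw
    apply hF.inj hz hw
    apply mob_inj ha (mem_ball_zero_iff.2 (hF.maps z hz)) (mem_ball_zero_iff.2 (hF.maps w hw))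
    change u z = u w
    rw [← hg z hz, ← hg w hw, hzw]
  set b := g 0 with hb
  have hbn : ‖b‖ < 1 := hgn 0 h0
  have hb0 : b ≠ 0 := hgne 0 h0
  refine ⟨fun z => mob b (g z), ⟨?_, ?_, ?_, ?_⟩, ?_⟩
  · intro z hz
    exact ((mob_hasDerivAt hbn (hgn z hz)).comp z (hgd z hz)).differentiableAt.differentiableWithinAt
  · intro z hz w hw hzw
    exact hginj hz hw (mob_inj hbn (mem_ball_zero_iff.2 (hgn z hz))
      (mem_ball_zero_iff.2 (hgn w hw)) hzw)
  · show mob b (g 0) = 0
    rw [← hb, mob, sub_self, zero_div]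
  · intro z hz
    exact mob_norm hbn (hgn z hz)
  · intro hd0
    have hd : deriv (fun z => mob b (g z)) 0 =
        (1 - conj b * b) / (1 - conj b * b) ^ 2 * (deriv u 0 / (2 * b)) :=
      ((mob_hasDerivAt hbn (hgn 0 h0)).comp 0 (hgd 0 h0)).deriv
    have hdu : deriv u 0 = (1 - conj a * a) * deriv F 0 := by
      rw [(huD 0 h0).deriv, hF.zero]
      simp
    have hbsq : b ^ 2 = -a := by
      rw [hb, hg 0 h0]
      show mob a (F 0) = -a
      rw [hF.zero, mob]
      simp
    have hna2 : ‖a‖ = ‖b‖ ^ 2 := by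
      rw [← norm_pow, hbsq, norm_neg]
    have hca : conj a * a = ((‖a‖ ^ 2 : ℝ) : ℂ) := by
      rw [← Complex.normSq_eq_norm_sq, Complex.normSq_eq_conj_mul_self]
    have hcb : conj b * b = ((‖b‖ ^ 2 : ℝ) : ℂ) := by
      rw [← Complex.normSq_eq_norm_sq, Complex.normSq_eq_conj_mul_self]
    have hn1 : ‖(1:ℂ) - conj a * a‖ = 1 - ‖b‖ ^ 4 := by
      rw [hca, hna2]
      rw [show (1:ℂ) - (((‖b‖ ^ 2) ^ 2 : ℝ) : ℂ) = ((1 - ‖b‖ ^ 4 : ℝ) : ℂ) by push_cast; ring,
        Complex.norm_real, Real.norm_of_nonneg]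
      have : ‖b‖ ^ 4 < 1 := pow_lt_one₀ (norm_nonneg _) hbn (by norm_num)
      linarith
    have hn2 : ‖(1:ℂ) - conj b * b‖ = 1 - ‖b‖ ^ 2 := by
      rw [hcb, show (1:ℂ) - ((‖b‖ ^ 2 : ℝ) : ℂ) = ((1 - ‖b‖ ^ 2 : ℝ) : ℂ) by push_cast; ring,
        Complex.norm_real, Real.norm_of_nonneg]
      have : ‖b‖ ^ 2 < 1 := pow_lt_one₀ (norm_nonneg _) hbn (by norm_num)
      linarith
    rw [hd, hdu, norm_mul, norm_div, norm_div, norm_mul, norm_mul, norm_pow, hn1, hn2]
    have hbp : 0 < ‖b‖ := norm_pos_iff.2 hb0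
    have hb2 : ‖b‖ ^ 2 < 1 := pow_lt_one₀ (norm_nonneg _) hbn (by norm_num)
    have hFp : 0 < ‖deriv F 0‖ := norm_pos_iff.2 hd0
    have h2n : ‖(2:ℂ)‖ = 2 := by simp
    rw [h2n]
    have key : (1 - ‖b‖ ^ 2) / (1 - ‖b‖ ^ 2) ^ 2 * ((1 - ‖b‖ ^ 4) * ‖deriv F 0‖ / (2 * ‖b‖)) =
        (1 + ‖b‖ ^ 2) / (2 * ‖b‖) * ‖deriv F 0‖ := by
      have : (1 - ‖b‖ ^ 2) ≠ 0 := by linarith
      field_simp
      ring
    rw [key]
    have : 1 < (1 + ‖b‖ ^ 2) / (2 * ‖b‖) := by
      rw [one_lt_div (by positivity)]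
      nlinarith
    nlinarith

/-- the Riemann mapping theorem -/
theorem main {D : Set ℂ} (hD : IsOpen D) (hb : Bornology.IsBounded D) (h0 : (0:ℂ) ∈ D)
    (hDc : IsPreconnected D)
    (hsq : ∀ u : ℂ → ℂ, ContinuousOn u D → (∀ z ∈ D, u z ≠ 0) →
      ∃ g : ℂ → ℂ, ContinuousOn g D ∧ ∀ z ∈ D, g z ^ 2 = u z) :
    ∃ F : ℂ → ℂ, DifferentiableOn ℂ F D ∧ BijOn F D (ball 0 1) ∧ F 0 = 0 := by
  obtain ⟨δ, hδ, hδD⟩ := Metric.isOpen_iff.1 hD 0 h0
  -- the set of values of the derivative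
  set S : Set ℝ := {x | ∃ F : ℂ → ℂ, Fam D F ∧ x = ‖deriv F 0‖} with hS
  obtain ⟨R, hR⟩ := hb.exists_norm_le
  have hR0 : 0 ≤ R := by simpa using hR 0 h0
  set F₀ : ℂ → ℂ := fun z => ((R + 1 : ℝ) : ℂ)⁻¹ * z with hF₀
  have hF₀fam : Fam D F₀ := by
    refine ⟨?_, ?_, ?_, ?_⟩
    · exact (differentiable_id.const_mul _).differentiableOn
    · intro z _ w _ h
      have : ((R + 1 : ℝ) : ℂ)⁻¹ ≠ 0 := inv_ne_zero (by exact_mod_cast (by linarith : R + 1 ≠ 0))
      exact mul_left_cancel₀ this h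
    · simp [hF₀]
    · intro z hz
      rw [hF₀]
      simp only
      rw [norm_mul, norm_inv, Complex.norm_real, Real.norm_of_nonneg (by linarith),
        inv_mul_lt_iff₀ (by linarith)]
      linarith [hR z hz]
  have hF₀d : 0 < ‖deriv F₀ 0‖ := by
    have : deriv F₀ 0 = ((R + 1 : ℝ) : ℂ)⁻¹ := by
      have h1 : HasDerivAt F₀ (((R + 1 : ℝ) : ℂ)⁻¹ * 1) 0 :=
        (hasDerivAt_id (0:ℂ)).const_mul (((R + 1 : ℝ) : ℂ)⁻¹)
      rw [h1.deriv, mul_one]
    rw [this, norm_inv, Complex.norm_real, Real.norm_of_nonneg (by linarith)]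
    positivity
  have hbdd : ∀ F, Fam D F → ‖deriv F 0‖ ≤ 1 / (δ / 2) := by
    intro F hF
    have hsub : closedBall (0:ℂ) (δ / 2) ⊆ D :=
      (closedBall_subset_ball (by linarith)).trans hδD
    exact Complex.norm_deriv_le_of_forall_mem_sphere_norm_le (by positivity)
      ((hF.diff.mono hδD).diffContOnCl_ball (closedBall_subset_ball (by linarith)))
      fun z hz => (hF.maps z (hsub (sphere_subset_closedBall hz))).le
  have hSne : S.Nonempty := ⟨_, F₀, hF₀fam, rfl⟩
  have hSb : BddAbove S := ⟨1 / (δ / 2), by rintro x ⟨F, hF, rfl⟩; exact hbdd F hF⟩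
  have hseq : ∀ n : ℕ, ∃ F, Fam D F ∧ sSup S - 1 / (n + 1) < ‖deriv F 0‖ := by
    intro n
    obtain ⟨x, ⟨F, hF, rfl⟩, hx⟩ := exists_lt_of_lt_csSup hSne
      (show sSup S - 1 / ((n:ℝ) + 1) < sSup S by
        have : (0:ℝ) < 1 / ((n:ℝ) + 1) := by positivity
        linarith)
    exact ⟨F, hF, hx⟩
  choose F hF hFd using hseq
  set l : Filter ℕ := (Filter.hyperfilter ℕ : Filter ℕ) with hl
  have hle : l ≤ atTop := Nat.hyperfilter_le_atTop
  have hlim : ∀ z ∈ D, ∃ w : ℂ, Tendsto (fun n => F n z) l (𝓝 w) := by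
    intro z hz
    have hcomp := isCompact_closedBall (0:ℂ) 1
    have hle' : ((Filter.hyperfilter ℕ).map (fun n => F n z) : Filter ℂ) ≤
        𝓟 (closedBall (0:ℂ) 1) := by
      rw [le_principal_iff, Ultrafilter.coe_map]
      refine Filter.mem_map.mpr (Filter.univ_mem' fun n => ?_)
      rw [mem_preimage, mem_closedBall_zero_iff]
      exact ((hF n).maps z hz).le
    obtain ⟨a, _, ha⟩ := hcomp.ultrafilter_le_nhds ((Filter.hyperfilter ℕ).map (fun n => F n z)) hle'
    exact ⟨a, ha⟩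
  have hlim' : ∃ G : ℂ → ℂ, ∀ z ∈ D, Tendsto (fun n => F n z) l (𝓝 (G z)) := by
    classical
    refine ⟨fun z => if h : z ∈ D then (hlim z h).choose else 0, fun z hz => ?_⟩
    simp only [hz, dif_pos]
    exact (hlim z hz).choose_spec
  obtain ⟨G, hG⟩ := hlim'
  have hLU : TendstoLocallyUniformlyOn F G l D :=
    locUnif hD (fun n => (hF n).diff) (fun n z hz => ((hF n).maps z hz).le) hG
  have hGd : DifferentiableOn ℂ G D :=
    hLU.differentiableOn (Eventually.of_forall fun n => (hF n).diff) hD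
  have hderiv : Tendsto (fun n => deriv (F n) 0) l (𝓝 (deriv G 0)) :=
    (hLU.deriv (Eventually.of_forall fun n => (hF n).diff) hD).tendsto_at h0
  have hGmax : ‖deriv G 0‖ = sSup S := by
    refine tendsto_nhds_unique hderiv.norm ?_
    have h1 : Tendsto (fun n : ℕ => sSup S - 1 / ((n:ℝ) + 1)) l (𝓝 (sSup S)) := by
      have : Tendsto (fun n : ℕ => sSup S - 1 / ((n:ℝ) + 1)) atTop (𝓝 (sSup S - 0)) :=
        tendsto_const_nhds.sub tendsto_one_div_add_atTop_nhds_zero_nat
      rw [sub_zero] at this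
      exact this.mono_left hle
    refine tendsto_of_tendsto_of_tendsto_of_le_of_le h1 tendsto_const_nhds
      (fun n => (hFd n).le) (fun n => le_csSup hSb ⟨F n, hF n, rfl⟩)
  have hpos : 0 < ‖deriv G 0‖ := by
    rw [hGmax]
    exact lt_of_lt_of_le hF₀d (le_csSup hSb ⟨F₀, hF₀fam, rfl⟩)
  -- non-constant
  have hne : ∃ z ∈ D, ∃ w ∈ D, G z ≠ G w := by
    by_contra hcon
    push Not at hcon
    have : G =ᶠ[𝓝 0] fun _ => G 0 := by
      filter_upwards [hD.mem_nhds h0] with z hz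
      exact hcon z hz 0 h0
    have h1 := this.deriv_eq
    rw [deriv_const] at h1
    rw [h1, norm_zero] at hpos
    exact lt_irrefl _ hpos
  have hGinj : InjOn G D := hurwitz hD hDc (fun n => (hF n).diff) (fun n => (hF n).inj) hLU hne
  have hG0 : G 0 = 0 := by
    refine tendsto_nhds_unique (hG 0 h0) ?_
    simp only [(hF _).zero]
    exact tendsto_const_nhds
  have hGle : ∀ z ∈ D, ‖G z‖ ≤ 1 := fun z hz =>
    le_of_tendsto (hG z hz).norm (Eventually.of_forall fun n => ((hF n).maps z hz).le)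
  have hopen : ∀ s ⊆ D, IsOpen s → IsOpen (G '' s) := by
    rcases (hGd.analyticOnNhd hD).is_constant_or_isOpen hDc with ⟨w, hw⟩ | h
    · exfalso
      obtain ⟨z, hz, w', hw', hzw⟩ := hne
      exact hzw ((hw z hz).trans (hw w' hw').symm)
    · exact h
  have hGlt : ∀ z ∈ D, ‖G z‖ < 1 := by
    intro z hz
    have h1 : G '' D ⊆ closedBall 0 1 := by
      rintro _ ⟨w, hw, rfl⟩
      rw [mem_closedBall_zero_iff]; exact hGle w hw
    have h2 : G '' D ⊆ interior (closedBall 0 1) :=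
      interior_maximal h1 (hopen D subset_rfl hD)
    rw [interior_closedBall (0:ℂ) one_ne_zero] at h2
    exact mem_ball_zero_iff.1 (h2 ⟨z, hz, rfl⟩)
  have hGfam : Fam D G := ⟨hGd, hGinj, hG0, hGlt⟩
  refine ⟨G, hGd, ⟨fun z hz => mem_ball_zero_iff.2 (hGlt z hz), hGinj, ?_⟩, hG0⟩
  intro a ha
  by_contra hna
  rw [mem_ball_zero_iff] at ha
  obtain ⟨H, hH, hHd⟩ := koebe hD h0 hsq hGfam ha (fun z hz h => hna ⟨z, hz, h⟩)
  have h1 := hHd (norm_pos_iff.1 hpos)
  rw [hGmax] at h1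
  exact absurd (le_csSup hSb ⟨H, hH, rfl⟩) (not_le.2 h1)

end RMRAux

theorem specRMR : SpecRMR := by
  intro S hS hb h0 hc hsq
  obtain ⟨F, h1, h2, -⟩ := RMRAux.main hS hb h0 hc hsq
  exact ⟨F, h1, h2⟩

end PD

end Pool.Agent.Lib.MP9fa4ca
end

section
/-!
# MP_9fa4ca_an, PD : RMZ, removing zeros
-/
set_option autoImplicit false

open Set Topology Filter Complex MeasureTheory

namespace Pool.Agent.Lib.MP9fa4ca

namespace PD

namespace RMZAux

theorem ldeg_mul_zero {φ ψ : ℝ → ℂ} (h : LDeg φ 0) (h' : LDeg ψ 0) :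
    LDeg (fun x => φ x * ψ x) 0 := by
  obtain ⟨L, hL, hLe, hLm⟩ := h
  obtain ⟨M, hM, hMe, hMm⟩ := h'
  refine ⟨fun x => L x + M x, hL.add hM, fun x => by rw [exp_add, hLe, hMe], fun x => ?_⟩
  beta_reduce
  rw [hLm, hMm]
  push_cast
  ring

theorem ldeg_conj_zero {φ : ℝ → ℂ} (h : LDeg φ 0) :
    LDeg (fun x => (starRingEnd ℂ) (φ x)) 0 := by
  obtain ⟨L, hL, hLe, hLm⟩ := h
  refine ⟨fun x => (starRingEnd ℂ) (L x), continuous_conj.comp hL, fun x => ?_, fun x => ?_⟩
  · beta_reduce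
    rw [← hLe, Complex.exp_conj]
  · beta_reduce
    rw [hLm]
    simp

theorem isCompact_range {σ : ℝ → ℂ} (hσ : Continuous σ) (hp : ∀ x, σ (x + 1) = σ x) :
    IsCompact (range σ) := by
  have hper : Function.Periodic σ 1 := hp
  have : range σ = σ '' Icc (0 : ℝ) (0 + 1) := (hper.image_Icc one_pos 0).symm
  rw [this]
  exact isCompact_Icc.image hσ

/-- the cut-off function -/
noncomputable def chi (z₀ : ℂ) (r : ℝ) (z : ℂ) : ℝ := min 1 (max 0 (2 - 2 * ‖z - z₀‖ / r))

theorem chi_cont (z₀ : ℂ) (r : ℝ) : Continuous (chi z₀ r) := by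
  unfold chi
  fun_prop

theorem chi_nonneg (z₀ : ℂ) (r : ℝ) (z : ℂ) : 0 ≤ chi z₀ r z :=
  le_min zero_le_one (le_max_left _ _)

theorem chi_le (z₀ : ℂ) (r : ℝ) (z : ℂ) : chi z₀ r z ≤ 1 := min_le_left _ _

theorem chi_one {z₀ : ℂ} {r : ℝ} (hr : 0 < r) {z : ℂ} (h : ‖z - z₀‖ ≤ r / 2) :
    chi z₀ r z = 1 := by
  have h1 : 2 * ‖z - z₀‖ / r ≤ 1 := by
    rw [div_le_one hr]
    linarith
  unfold chi
  rw [max_eq_right (by linarith), min_eq_left (by linarith)]

theorem chi_zero {z₀ : ℂ} {r : ℝ} (hr : 0 < r) {z : ℂ} (h : r ≤ ‖z - z₀‖) :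
    chi z₀ r z = 0 := by
  have h1 : 2 ≤ 2 * ‖z - z₀‖ / r := by
    rw [le_div_iff₀ hr]
    linarith
  unfold chi
  rw [max_eq_left (by linarith), min_eq_right zero_le_one]

theorem step {R : ℝ} {σ : ℝ → ℂ} (hσ : Lp σ (Metric.ball 0 R)) {Z : Finset ℂ} {z₀ : ℂ}
    (hz₀ : z₀ ∉ Z) {v : ℂ → ℂ} (hv : ContinuousOn v (Metric.ball 0 R))
    (hzero : ∀ z ∈ Metric.ball 0 R, v z = 0 → z ∈ insert z₀ Z)
    (hZ : ∀ z₁ ∈ Z, SZ v z₁) (hne : ∀ x, σ x ≠ z₀) (hσv : ∀ x, v (σ x) ≠ 0)
    {ω : ℂ → ℂ} (hωc : Continuous ω) (hω0 : ∀ z, z ≠ z₀ → ω z ≠ 0)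
    {k : ℂ → ℂ} {r : ℝ} (hr : 0 < r) (hk : ContinuousOn k (Metric.ball z₀ r))
    (hk0 : ∀ z ∈ Metric.ball z₀ r, k z ≠ 0)
    (hre : ∀ z ∈ Metric.ball z₀ r, z ≠ z₀ → 0 < (v z / (k z * ω z)).re) :
    ∃ v₁ : ℂ → ℂ, ContinuousOn v₁ (Metric.ball 0 R) ∧
      (∀ z ∈ Metric.ball 0 R, v₁ z = 0 → z ∈ Z) ∧ (∀ z₁ ∈ Z, SZ v₁ z₁) ∧
      (∀ x, v₁ (σ x) ≠ 0) ∧ ∀ x, v (σ x) = v₁ (σ x) * ω (σ x) := by
  -- the radius
  have hC : IsClosed ((Z : Set ℂ) ∪ range σ) :=
    Z.finite_toSet.isClosed.union (isCompact_range hσ.cont hσ.per).isClosed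
  have hzC : z₀ ∈ ((Z : Set ℂ) ∪ range σ)ᶜ := by
    rintro (h | ⟨x, hx⟩)
    · exact hz₀ (Finset.mem_coe.1 h)
    · exact hne x hx
  obtain ⟨δ, hδ, hsub⟩ := Metric.isOpen_iff.1 hC.isOpen_compl z₀ hzC
  obtain ⟨s, hs0, hsr, hsδ⟩ : ∃ s : ℝ, 0 < s ∧ s < r ∧ s < δ := by
    refine ⟨min (r / 2) (δ / 2), by positivity, ?_, ?_⟩
    · exact lt_of_le_of_lt (min_le_left _ _) (by linarith)
    · exact lt_of_le_of_lt (min_le_right _ _) (by linarith)
  have hfar : ∀ z ∈ (Z : Set ℂ) ∪ range σ, s < ‖z - z₀‖ := by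
    intro z hz
    by_contra hcon
    push Not at hcon
    have hzb : z ∈ Metric.ball z₀ δ := by
      rw [Metric.mem_ball, dist_eq_norm]
      linarith
    exact hsub hzb hz
  set v₁ : ℂ → ℂ := fun z => (1 - (chi z₀ s z : ℂ)) * (v z / ω z) + (chi z₀ s z : ℂ) * k z
    with hv₁
  have hout : ∀ z, s ≤ ‖z - z₀‖ → v₁ z = v z / ω z := by
    intro z hz
    simp only [hv₁]
    rw [chi_zero hs0 hz]
    simp
  have hin : ∀ z, ‖z - z₀‖ ≤ s / 2 → v₁ z = k z := by
    intro z hz
    simp only [hv₁]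
    rw [chi_one hs0 hz]
    simp
  have hneω : ∀ z, s ≤ ‖z - z₀‖ → ω z ≠ 0 := by
    intro z hz
    refine hω0 z ?_
    rintro rfl
    rw [sub_self, norm_zero] at hz
    linarith
  refine ⟨v₁, ?_, ?_, ?_, ?_, ?_⟩
  · -- continuity
    intro z hz
    refine ContinuousAt.continuousWithinAt ?_
    by_cases h : z = z₀
    · have hkc : ContinuousAt k z := by
        refine hk.continuousAt (Metric.isOpen_ball.mem_nhds ?_)
        rw [h]
        exact Metric.mem_ball_self hr
      refine hkc.congr ?_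
      have : Metric.ball z₀ (s / 2) ∈ 𝓝 z := by
        rw [h]
        exact Metric.ball_mem_nhds _ (by positivity)
      filter_upwards [this] with y hy
      rw [Metric.mem_ball, dist_eq_norm] at hy
      exact (hin y hy.le).symm
    · have hvc : ContinuousAt v z := hv.continuousAt (Metric.isOpen_ball.mem_nhds hz)
      have hdc : ContinuousAt (fun z => v z / ω z) z := hvc.div hωc.continuousAt (hω0 z h)
      by_cases h' : ‖z - z₀‖ < r
      · have hkc : ContinuousAt k z := by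
          refine hk.continuousAt (Metric.isOpen_ball.mem_nhds ?_)
          rw [Metric.mem_ball, dist_eq_norm]
          exact h'
        have hχ : ContinuousAt (fun z => (chi z₀ s z : ℂ)) z :=
          (continuous_ofReal.comp (chi_cont z₀ s)).continuousAt
        exact ((continuousAt_const.sub hχ).mul hdc).add (hχ.mul hkc)
      · refine hdc.congr ?_
        have hev : ∀ᶠ y in 𝓝 z, s < ‖y - z₀‖ := by
          have hc : ContinuousAt (fun y : ℂ => ‖y - z₀‖) z := by fun_prop
          exact hc.eventually (lt_mem_nhds (by linarith))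
        filter_upwards [hev] with y hy
        exact (hout y hy.le).symm
  · -- zeros
    intro z hz h0
    by_cases h : ‖z - z₀‖ < r
    · exfalso
      have hzb : z ∈ Metric.ball z₀ r := by
        rw [Metric.mem_ball, dist_eq_norm]
        exact h
      by_cases hzz : z = z₀
      · have := hin z (by rw [hzz, sub_self, norm_zero]; positivity)
        rw [this] at h0
        exact hk0 z hzb h0
      · have h1 := hre z hzb hzz
        have h2 : v₁ z / k z = (1 - (chi z₀ s z : ℂ)) * (v z / (k z * ω z)) +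
            (chi z₀ s z : ℂ) := by
          simp only [hv₁]
          have hkz := hk0 z hzb
          have hωz := hω0 z hzz
          field_simp
        have h3 : (v₁ z / k z).re = (1 - chi z₀ s z) * (v z / (k z * ω z)).re +
            chi z₀ s z := by
          rw [h2, add_re, ofReal_re]
          congr 1
          rw [← ofReal_one, ← ofReal_sub, re_ofReal_mul]
        rw [h0, zero_div, zero_re] at h3
        have h4 := chi_nonneg z₀ s z
        have h5 := chi_le z₀ s z
        rcases h5.lt_or_eq with h6 | h6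
        · have : 0 < (1 - chi z₀ s z) * (v z / (k z * ω z)).re :=
            mul_pos (by linarith) h1
          linarith
        · rw [h6] at h3
          norm_num at h3
    · push Not at h
      have h1 := hout z (by linarith)
      rw [h1] at h0
      have hωz := hneω z (by linarith)
      have h2 : v z = 0 := by
        rcases div_eq_zero_iff.1 h0 with h | h
        · exact h
        · exact absurd h hωz
      rcases Finset.mem_insert.1 (hzero z hz h2) with h3 | h3
      · exfalso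
        rw [h3, sub_self, norm_zero] at h
        linarith
      · exact h3
  · -- the other zeros
    intro z₁ hz₁
    obtain ⟨k₁, r₁, hr₁, hk₁, hk₁0, hre₁⟩ := hZ z₁ hz₁
    have hd := hfar z₁ (Or.inl (Finset.mem_coe.2 hz₁))
    have hb : ∀ z ∈ Metric.ball z₁ (min r₁ (‖z₁ - z₀‖ - s)), s ≤ ‖z - z₀‖ := by
      intro z hz
      rw [Metric.mem_ball, dist_eq_norm] at hz
      have h1 : ‖z - z₁‖ < ‖z₁ - z₀‖ - s := lt_of_lt_of_le hz (min_le_right _ _)
      have h2 : ‖z₁ - z₀‖ ≤ ‖z - z₀‖ + ‖z - z₁‖ := by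
        have := norm_sub_le (z - z₀) (z - z₁)
        rwa [sub_sub_sub_cancel_left] at this
      linarith
    have hb' : Metric.ball z₁ (min r₁ (‖z₁ - z₀‖ - s)) ⊆ Metric.ball z₁ r₁ :=
      Metric.ball_subset_ball (min_le_left _ _)
    have hq : ∀ z ∈ Metric.ball z₁ (min r₁ (‖z₁ - z₀‖ - s)), ∀ w : ℂ,
        v₁ z / (k₁ z / ω z * w) = v z / (k₁ z * w) := by
      intro z hz w
      have hωz := hneω z (hb z hz)
      rw [hout z (hb z hz), div_mul_eq_mul_div, div_div_div_cancel_right₀ hωz]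
    refine ⟨fun z => k₁ z / ω z, min r₁ (‖z₁ - z₀‖ - s), lt_min hr₁ (by linarith), ?_, ?_, ?_⟩
    · exact (hk₁.mono hb').div hωc.continuousOn fun z hz => hneω z (hb z hz)
    · exact fun z hz => div_ne_zero (hk₁0 z (hb' hz)) (hneω z (hb z hz))
    · rcases hre₁ with h | h
      · left
        intro z hz hzz
        rw [hq z hz]
        exact h z (hb' hz) hzz
      · right
        intro z hz hzz
        rw [hq z hz]
        exact h z (hb' hz) hzz
  · intro x
    have hd := hfar (σ x) (Or.inr ⟨x, rfl⟩)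
    rw [hout _ hd.le]
    exact div_ne_zero (hσv x) (hneω _ hd.le)
  · intro x
    have hd := hfar (σ x) (Or.inr ⟨x, rfl⟩)
    rw [hout _ hd.le, div_mul_cancel₀ _ (hneω _ hd.le)]

end RMZAux

theorem specRMZ : SpecRMZ := by
  intro R σ hσ Z
  induction Z using Finset.induction_on with
  | empty =>
    intro v hv hzero _ _
    obtain ⟨L, hL, hLe⟩ := exists_log_on (convex_ball (0 : ℂ) R) Metric.isOpen_ball
      ⟨σ 0, hσ.mem 0⟩ v hv (fun z hz h => by simpa using hzero z hz h)
    refine ⟨fun x => L (σ x), hL.comp_continuous hσ.cont hσ.mem, fun x => hLe _ (hσ.mem x),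
      fun x => ?_⟩
    beta_reduce
    rw [hσ.per]
    simp
  | insert z₀ Z hz₀ ih =>
    intro v hv hzero hZ hσv
    obtain ⟨hz₀R, ⟨k, r, hr, hk, hk0, hre⟩, hd⟩ := hZ z₀ (Finset.mem_insert_self _ _)
    have hne : ∀ x, σ x ≠ z₀ := by
      intro x hx
      obtain ⟨L, -, hLe, -⟩ := hd
      have h1 : exp (L x) = σ x - z₀ := hLe x
      rw [hx, sub_self] at h1
      exact exp_ne_zero _ h1
    obtain ⟨ω, hωc, hω0, hωd, hreω⟩ : ∃ ω : ℂ → ℂ, Continuous ω ∧ (∀ z, z ≠ z₀ → ω z ≠ 0) ∧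
        LDeg (fun x => ω (σ x)) 0 ∧
        ∀ z ∈ Metric.ball z₀ r, z ≠ z₀ → 0 < (v z / (k z * ω z)).re := by
      rcases hre with h | h
      · exact ⟨fun z => z - z₀, by fun_prop, fun z hz => sub_ne_zero.2 hz, hd, h⟩
      · refine ⟨fun z => (starRingEnd ℂ) (z - z₀), continuous_conj.comp (by fun_prop),
          fun z hz => ?_, RMZAux.ldeg_conj_zero hd, h⟩
        rw [Ne, map_eq_zero]
        exact sub_ne_zero.2 hz
    obtain ⟨v₁, h1, h2, h3, h4, h5⟩ := RMZAux.step hσ hz₀ hv hzero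
      (fun z₁ hz₁ => (hZ z₁ (Finset.mem_insert_of_mem hz₁)).2.1) hne hσv hωc hω0 hr hk hk0 hreω
    have h6 := ih v₁ h1 h2 (fun z₁ hz₁ => ⟨(hZ z₁ (Finset.mem_insert_of_mem hz₁)).1, h3 z₁ hz₁,
      (hZ z₁ (Finset.mem_insert_of_mem hz₁)).2.2⟩) h4
    have h7 := RMZAux.ldeg_mul_zero h6 hωd
    have h8 : (fun x => v (σ x)) = fun x => v₁ (σ x) * ω (σ x) := funext h5
    rw [h8]
    exact h7

end PD

end Pool.Agent.Lib.MP9fa4ca
end

section
/-!
# MP_9fa4ca_an, PD : module RTN
-/
set_option autoImplicit false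

open Set Topology Filter Complex MeasureTheory

namespace Pool.Agent.Lib.MP9fa4ca

namespace PD

theorem specRTN (hLPL : SpecLPL) : SpecRTN := by
  intro O hO e γ hγ hd H hH hH1 hHd
  classical
  obtain ⟨Q, hQ⟩ := exists_ann hO e
  let φ : ℂ → ℂ := fun z => if hz : z ∈ O then (((e ⟨z, hz⟩).1 : Circle) : ℂ) else 1
  have hφO : ∀ z (hz : z ∈ O), φ z = (((e ⟨z, hz⟩).1 : Circle) : ℂ) := fun z hz => by
    show (if hz : z ∈ O then (((e ⟨z, hz⟩).1 : Circle) : ℂ) else 1) = _
    rw [dif_pos hz]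
  have hφP : ∀ w, φ (Q.P w) = exp (2 * Real.pi * w.1 * I) := by
    intro w
    rw [hφO _ (Q.mem w), hQ, Circle.coe_exp]
    push_cast
    ring_nf
  have hφdeg : Q.Deg φ 1 := by
    refine ⟨fun w => 2 * Real.pi * w.1 * I, by fun_prop, fun w => (hφP w).symm, fun w => ?_⟩
    simp only [T_apply]
    push_cast
    ring
  obtain ⟨m, hm⟩ := Q.exists_deg H hH (fun z hz h => by
    have := hH1 z hz
    rw [h, norm_zero] at this
    exact zero_ne_one this)
  obtain ⟨s, hs, hsP, k, hk⟩ := hLPL O Q γ hγ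
  have gen : ∀ (ψ : ℂ → ℂ) (n : ℤ), Q.Deg ψ n → LDeg (fun x => ψ (γ x)) (k * n) := by
    rintro ψ n ⟨L, hL, hLe, hLT⟩
    have hLk : ∀ (j : ℤ) (w : ℝ × ℝ), L (w.1 + j, w.2) = L w + j * (n * (2 * Real.pi * I)) := by
      intro j w
      induction j using Int.induction_on with
      | zero => simp
      | succ j ih =>
        have := hLT (w.1 + j, w.2)
        simp only [T_apply] at this
        push_cast at ih ⊢
        rw [← add_assoc, this, ih]
        ring
      | pred j ih =>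
        have := hLT (w.1 + (-j - 1), w.2)
        simp only [T_apply] at this
        have e1 : w.1 + (-(j : ℝ) - 1) + 1 = w.1 + -(j : ℝ) := by ring
        rw [e1] at this
        push_cast at ih ⊢
        rw [this] at ih
        linear_combination ih
    refine ⟨fun x => L (s x), hL.comp hs, fun x => by rw [hLe, hsP], fun x => ?_⟩
    beta_reduce
    rw [hk, hLk]
    push_cast
    ring
  have h1 := gen φ 1 hφdeg
  have h1' : LDeg (fun x => φ (γ x)) 1 := by
    have : (fun x => φ (γ x)) = fun x => (((e ⟨γ x, hγ.mem x⟩).1 : Circle) : ℂ) :=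
      funext fun x => hφO _ _
    rw [this]
    exact hd
  have hk1 : k = 1 := by
    have := h1.unique h1'
    omega
  have hm1 : m = 1 := by
    have := (gen H m hm).unique hHd
    rw [hk1] at this
    omega
  have hψ : Q.Deg (fun z => H z * (φ z)⁻¹) 0 := by
    have := hm.mul hφdeg.inv
    rw [hm1] at this
    simpa using this
  obtain ⟨l, hl, hle⟩ := hψ.exists_log
  refine ⟨fun z => (l z).im, Complex.continuous_im.comp_continuousOn hl, fun z hz => ?_⟩
  have h := hle z hz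
  have hφ1 : ‖φ z‖ = 1 := by
    rw [hφO z hz]
    exact Circle.norm_coe _
  have hφ0 : φ z ≠ 0 := by
    intro h0
    rw [h0, norm_zero] at hφ1
    exact zero_ne_one hφ1
  have hre : (l z).re = 0 := by
    have hn : ‖exp (l z)‖ = 1 := by
      rw [h, norm_mul, norm_inv, hH1 z hz, hφ1]
      norm_num
    rw [Complex.norm_exp] at hn
    exact (Real.exp_eq_one_iff _).1 hn
  have hl' : l z = ((l z).im : ℂ) * I := by
    apply Complex.ext <;> simp [hre]
  rw [← hφO z hz]
  show H z = φ z * exp (((l z).im : ℂ) * I)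
  rw [← hl', h]
  field_simp

end PD

end Pool.Agent.Lib.MP9fa4ca
end

section
/-!
# MP_9fa4ca_an, PD : module SMA, smooth approximation
-/
set_option autoImplicit false

open Set Topology Filter Complex MeasureTheory
open scoped Manifold ContDiff

namespace Pool.Agent.Lib.MP9fa4ca

namespace PD

theorem specSMA : SpecSMA := by
  intro S hS u hu ε hε
  classical
  obtain ⟨g, hg⟩ := exists_contMDiffMap_forall_mem_convex_of_local_const (n := 1)
    (M := ℂ) (F := ℂ) 𝓘(ℝ, ℂ) (t := fun z => if z ∈ S then Metric.ball (u z) ε else univ)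
    (fun z => by
      by_cases hz : z ∈ S
      · simp only [hz, if_true]
        exact convex_ball _ _
      · simp only [hz, if_false]
        exact convex_univ)
    (fun z => by
      by_cases hz : z ∈ S
      · refine ⟨u z, ?_⟩
        have h1 := Metric.tendsto_nhds.mp (hu z hz) ε hε
        have h2 : ∀ᶠ y in 𝓝 z, y ∈ S → dist (u y) (u z) < ε := by
          rwa [eventually_nhdsWithin_iff] at h1
        filter_upwards [h2] with y hy
        by_cases hyS : y ∈ S
        · simp only [hyS, if_true]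
          rw [Metric.mem_ball, dist_comm]
          exact hy hyS
        · simp only [hyS, if_false]
          exact mem_univ _
      · refine ⟨0, ?_⟩
        filter_upwards [hS.isClosed.isOpen_compl.mem_nhds hz] with y hy
        have hyS : y ∉ S := hy
        simp only [hyS, if_false]
        exact mem_univ _)
  refine ⟨g, g.contMDiff.contDiff, fun z hz => ?_⟩
  have := hg z
  simp only [hz, if_true] at this
  rwa [← dist_eq_norm]

end PD

end Pool.Agent.Lib.MP9fa4ca
end

section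
/-!
# MP_9fa4ca_an, PD : SRD, the regular values of a smooth map of the plane (Sard)
-/
set_option autoImplicit false

open Set Topology Filter Complex MeasureTheory

namespace Pool.Agent.Lib.MP9fa4ca

namespace PD

theorem specSRD : SpecSRD := by
  intro v hv ε hε
  by_contra hcon
  push Not at hcon
  have hd : Differentiable ℝ v := hv.differentiable (by norm_num)
  have h0 : (volume : Measure ℂ) (v '' {z | (fderiv ℝ v z).det = 0}) = 0 :=
    addHaar_image_eq_zero_of_det_fderivWithin_eq_zero volume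
      (fun z _ => (hd z).hasFDerivAt.hasFDerivWithinAt) (fun z hz => hz)
  have hsub : Metric.ball (0 : ℂ) ε ⊆ v '' {z | (fderiv ℝ v z).det = 0} := by
    intro w hw
    rw [mem_ball_zero_iff] at hw
    obtain ⟨z, hz, hz'⟩ := hcon w hw
    exact ⟨z, hz', hz⟩
  exact (Metric.measure_ball_pos volume (0 : ℂ) hε).ne' (measure_mono_null hsub h0)

end PD

end Pool.Agent.Lib.MP9fa4ca
end
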