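import Pool.Agent.Lib.MP_9fa4ca_an.PD.SpecE

/-!
# MP_9fa4ca_an, PD : the specifications of the limit theory (`SpecL`)

`D : Dat X d` is fixed in the docstrings; `f_t = D.f t`, `U`, `Ut t`, `O t`, `E`, `H` as in `Defs`,
`z_u = ⟨u, u⟩`, `Δ` the diagonal. `t'` near `t` means `t' ∈ N`, `t' ∈ P` for a neighbourhood `N`
of `t`. By `D.cl` there are such `t'` for `t ∈ V`; `(t, z) ∈ U` implies `t ∈ V`.
-/

set_option autoImplicit false

open Set Topology Filter Complex MeasureTheory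

namespace Pool.Agent.Lib.MP9fa4ca

namespace PD

universe u

/-- UOP. Uses: nothing. Proof: let `(t, z) ∈ U` with `N` (shrink it to an open one) and `r`. For
`t₁ ∈ N ∩ V` and `z₁ ∈ ball z (r / 2)` the pair `N`, `r / 2` is good for `(t₁, z₁)`. -/
def SpecUOP : Prop :=
  ∀ (X : Type u) [TopologicalSpace X] (d : ℕ) (D : Dat X d), IsOpen D.U

/-- UKT. Compact subsets of the fibre. Uses: nothing. Proof: every `z ∈ K` has `N_z`, `r_z`; a finite
set of the balls `ball z (r_z / 2)` covers `K`; `N` the intersection of the `N_z`, `r` the minimum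
of the `r_z / 2` (and `1`). -/
def SpecUKT : Prop :=
  ∀ (X : Type u) [TopologicalSpace X] (d : ℕ) (D : Dat X d) (t : X) (K : Set ℂ), K ⊆ D.Ut t →
    IsCompact K → ∃ N ∈ 𝓝 t, ∃ r : ℝ, 0 < r ∧ ∀ t' ∈ N, t' ∈ D.P → ∀ z ∈ K,
      Metric.ball z r ⊆ D.A t'

/-- UIN. Uses: JCO. Proof: let `(t, z) ∈ U` with `N`, `r`. By JCO (`m = -1`, composed with `D.cc`)
`(t', y) ↦ f_t'⁻¹ y` is continuous at `(t, f_t z)` with the value `z`: for `t'` near `t` and `y`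
near `f_t z`: `f_t'⁻¹ y ∈ ball z r ⊆ A t'`, so `y ∈ A t'` (`Eig.inv`). The same with `m = 1` for the
converse. -/
def SpecUIN : Prop :=
  ∀ (X : Type u) [TopologicalSpace X] (d : ℕ) (D : Dat X d) (t : X) (z : ℂ),
    (t, z) ∈ D.U ↔ (t, D.f t z) ∈ D.U

/-- NPR. No periodic points. Uses: ARG, JCO. Proof: let `f_t ^ n q = q`, `(t, q) ∈ U` with `N`, `r`.
By JCO there are a neighbourhood `N₁` of `t` and `0 < r' ≤ r` with `f_t' ^ n (ball q r') ⊆ ball q r`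
for `t' ∈ N₁`. Since `n α` is not an integer there is `M : ℕ` with `2 < M |n α + k|` for all
`k : ℤ`. By JCO there is `N₂` with `f_t' ^ (n i) q ∈ ball q r'` for all `i ≤ M`, `t' ∈ N₂`. Take
`t' ∈ N ∩ N₁ ∩ N₂ ∩ P`, `h = h t'`, `χ` an argument of `h` on `ball q r` (ARG). The function
`χ (f_t' ^ n y) - χ y - n α` of `y ∈ ball q r'` is continuous with integer values
(`h (f_t' ^ n y) = λ ^ n h y`), so it is a constant `k` (`int_const`). For `w_i = f_t' ^ (n i) q`: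
`χ w_(i+1) - χ w_i = n α + k` for `i < M`; the sum is `χ w_M - χ w_0 = M (n α + k)`. `Eig.osc` for
`(w_0, w_M)` and for `(w_M, w_0)` gives `|χ w_M - χ w_0| ≤ 2`, contradiction. -/
def SpecNPR : Prop :=
  ∀ (X : Type u) [TopologicalSpace X] (d : ℕ) (D : Dat X d) (t : X) (q : ℂ), (t, q) ∈ D.U →
    ∀ n : ℕ, 0 < n → (D.f t ^ n) q ≠ q

/-- EQC. Equicontinuity. Uses: ARG, NUM, JCO, SYM, NPR. Proof: let `(t, q) ∈ U` with `N₀`, `r₀`. There
is at most one integer `m` with `f_t ^ m q ∈ Δ` (SYM, NPR); let `m₀` be this integer (or `0`). Let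
`δ = ε / (2 π)` and `S` from NUM for `α`, `δ`, `m₀`. For `m ∈ S` the point `f_t ^ m q` is not in the
closed set `Δ`; by JCO there are `N ⊆ N₀` and `r ≤ r₀` such that `f_t' ^ m y ∉ Δ` for all `t' ∈ N`,
`y ∈ ball q r`, `m ∈ S`. Let `t' ∈ N ∩ P`, `y ∈ ball q r`, `χ` an argument of `h t'` on `ball q r`
(ARG). If `χ y > χ q + δ` then by NUM there are `m ∈ S`, `j` with
`χ q < j - m α < χ q + δ < χ y`, and `Eig.crs` gives a point `y'` of the segment `[q, y]` with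
`f_t' ^ m y' ∈ Δ`, contradiction. In the same way `χ q > χ y + δ` is impossible (segment `[y, q]`).
So `|χ y - χ q| ≤ δ` and `‖h y - h q‖ ≤ 2 π δ = ε`. -/
def SpecEQC : Prop :=
  ∀ (X : Type u) [TopologicalSpace X] (d : ℕ) (D : Dat X d) (t : X) (q : ℂ), (t, q) ∈ D.U →
    ∀ ε : ℝ, 0 < ε → ∃ N ∈ 𝓝 t, ∃ r : ℝ, 0 < r ∧ ∀ t' ∈ N, t' ∈ D.P →
      Metric.ball q r ⊆ D.A t' ∧ ∀ y ∈ Metric.ball q r, ‖D.h t' y - D.h t' q‖ ≤ ε

/-- LIX. Limit functions exist. Uses: nothing. Proof: for `z ∈ Ut t` the values `h t' z` are for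
`W`-almost all `t'` in the compact unit circle (`Eig.nor`), so they converge along the ultrafilter
(`IsCompact.ultrafilter_le_nhds`). -/
def SpecLIX : Prop :=
  ∀ (X : Type u) [TopologicalSpace X] (d : ℕ) (D : Dat X d) (t : X) (W : Ultrafilter X),
    (W : Filter X) ≤ 𝓝[D.P] t → ∃ g, D.Lim t W g

/-- LMC. Uses: UOP, EQC. Proof: by EQC: for `q ∈ Ut t` and `ε` there is `r` with
`‖g y - g q‖ ≤ ε` for `y ∈ ball q r ∩ Ut t` (limits of `≤`), so `g` is continuous on `Ut t`. The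
other properties are closed conditions which hold for `W`-almost all `t'` (`Eig.nor`, `Eig.rea`,
`Eig.one`). -/
def SpecLMC : Prop :=
  ∀ (X : Type u) [TopologicalSpace X] (d : ℕ) (D : Dat X d) (t : X) (W : Ultrafilter X),
    (W : Filter X) ≤ 𝓝[D.P] t → ∀ g, D.Lim t W g → ContinuousOn g (D.Ut t) ∧
      (∀ z ∈ D.Ut t, ‖g z‖ = 1) ∧
      (∀ s : ℝ, (⟨s, s⟩ : ℂ) ∈ D.Ut t → g ⟨s, s⟩ = 1 ∨ g ⟨s, s⟩ = -1) ∧
      ((⟨D.u, D.u⟩ : ℂ) ∈ D.Ut t → g ⟨D.u, D.u⟩ = 1)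

/-- LMV. Uses: JCO, UIN, EQC. Proof: `h t' (f_t' z) = λ h t' z` for `t'` near `t`; `f_t' z → f_t z`
(JCO) and by EQC at `(t, f_t z)` (in `U` by UIN) `h t' (f_t' z) - h t' (f_t z) → 0`. -/
def SpecLMV : Prop :=
  ∀ (X : Type u) [TopologicalSpace X] (d : ℕ) (D : Dat X d) (t : X) (W : Ultrafilter X),
    (W : Filter X) ≤ 𝓝[D.P] t → ∀ g, D.Lim t W g → ∀ z ∈ D.Ut t,
      g (D.f t z) = lam D.α * g z

/-- UBD. Uses: BND. Proof: BND at `c t` with `N`, `R`; for `z ∈ Ut t` take `t'` near `t` with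
`c t' ∈ N` and `z ∈ A t'`; `A t' ⊆ ball 0 R` by `Eig.bdd`, `Eig.inv`. -/
def SpecUBD : Prop :=
  ∀ (X : Type u) [TopologicalSpace X] (d : ℕ) (D : Dat X d), ∀ t ∈ D.V,
    Bornology.IsBounded (D.Ut t)

/-- DNS. The points which visit the diagonal are dense in the fibre. Uses: ARG, NUM, JCO, ARN, UKT,
UIN, LIX, LMC, LMV, UBD. Proof: `𝓝[P] t` is not trivial; let `W` be an ultrafilter below it and `g` a
limit function (LIX). By ARN (`S = Ut t`, `p = pol (c t)`) there are `z`, `z'` in `ball q r` with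
`g z ≠ g z'`. Let `r' < r` with `z`, `z'` in `ball q r'`; by UKT for the closed ball of radius `r'`:
`ball q r' ⊆ A t'` for `t'` near `t`. Let `χ_t'` be an argument of `h t'` on `ball q r'` (ARG). `exp (2 π i (χ_t' z' - χ_t' z)) = h t' z' / h t' z →
g z' / g z ≠ 1`, so there is `δ > 0` with `|χ_t' z' - χ_t' z| > δ` for `W`-almost all `t'`. By
symmetry (`W` is an ultrafilter) suppose `χ_t' z' > χ_t' z + δ` for `W`-almost all `t'`. Let `S` be
from NUM for `δ`: for these `t'` there are `m ∈ S`, `j` with `χ_t' z < j - m α < χ_t' z'`, so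
`Eig.crs` gives `y_t' ∈ [z, z']` with `f_t' ^ m y_t' ∈ Δ`. One `m` occurs for `W`-almost all `t'`
(`S` is finite). The segment is compact: `y_t' → y ∈ [z, z'] ⊆ ball q r` along `W`; by JCO
`f_t ^ m y = lim f_t' ^ m y_t' ∈ Δ`. -/
def SpecDNS : Prop :=
  ∀ (X : Type u) [TopologicalSpace X] (d : ℕ) (D : Dat X d), ∀ t ∈ D.V, ∀ (q : ℂ) (r : ℝ),
    0 < r → Metric.ball q r ⊆ D.Ut t → ∃ y ∈ Metric.ball q r, ∃ m : ℤ,
      ((D.f t ^ m) y).re = ((D.f t ^ m) y).im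

/-- UNQ. Two limit functions agree on `O t`. Uses: EVZ, UOP, UIN, LMC, LMV, DNS. Proof: if
`y ∈ Ut t` and `f_t ^ m y ∈ Δ` then `g₁ (f_t ^ m y) = ±1`, so `(g₁ y) ^ 2 = λ ^ (-2 m) =
(g₂ y) ^ 2` (EVZ, LMV, LMC). These `y` are dense in the open set `Ut t` (DNS), so
`g₁ ^ 2 = g₂ ^ 2` on `Ut t` by continuity. On the connected set `O t ⊆ Ut t` the continuous function
`g₁ / g₂` has the values `±1` and is `1` at `z_u`, so it is constant. (If `z_u ∉ Ut t` then `O t` is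
empty.) -/
def SpecUNQ : Prop :=
  ∀ (X : Type u) [TopologicalSpace X] (d : ℕ) (D : Dat X d), ∀ t ∈ D.V,
    ∀ (W₁ W₂ : Ultrafilter X), (W₁ : Filter X) ≤ 𝓝[D.P] t → (W₂ : Filter X) ≤ 𝓝[D.P] t →
    ∀ g₁ g₂, D.Lim t W₁ g₁ → D.Lim t W₂ g₂ → ∀ z ∈ D.O t, g₁ z = g₂ z

/-- THK. Uses: JCO. Proof: `ball (γ x) ρ ⊆ Ut t` for all `x` (`N = univ`, by `D.thk`). The union of
these balls is preconnected (every ball meets the connected set `range γ`, which is in the union)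
and contains `z_u` (`D.zu`), so it is in `O t`. For `f_t z_u`: take `t' ∈ P` near `t` with
`‖f_t' z_u - f_t z_u‖ < ρ / 2` (JCO); `D.fzu t'` gives `x` with `‖f_t z_u - γ x‖ < ρ`. -/
def SpecTHK : Prop :=
  ∀ (X : Type u) [TopologicalSpace X] (d : ℕ) (D : Dat X d), ∀ t ∈ D.V,
    (∀ x, Metric.ball (D.γ x) D.ρ ⊆ D.O t) ∧ (⟨D.u, D.u⟩ : ℂ) ∈ D.O t ∧
      D.f t ⟨D.u, D.u⟩ ∈ D.O t

/-- CNV. The eigenfunctions converge. Uses: EQC, LIX, UNQ. Proof: let `z ∈ O t`; by LIX and UNQ all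
ultrafilters below `𝓝[P] t` give the same limit `g₀` of `h t' z`, so `h t' z → g₀` along `𝓝[P] t`
(`tendsto_iff_ultrafilter`). By EQC `‖h t' y - h t' z‖ ≤ ε` for `(t', y)` near `(t, z)`,
`t' ∈ P`. -/
def SpecCNV : Prop :=
  ∀ (X : Type u) [TopologicalSpace X] (d : ℕ) (D : Dat X d), ∀ t ∈ D.V, ∀ z ∈ D.O t,
    ∃ g₀ : ℂ, Tendsto D.hh (𝓝[D.P ×ˢ univ] (t, z)) (𝓝 g₀)

/-- HPR. The limit eigenfunction. Uses: CNV. Proof: `E ⊆ closure (P ×ˢ univ)` (`D.cl`);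
`continuousOn_extendFrom`, `tendsto_extendFrom`; the norm is a limit of numbers `1`
(`O t ⊆ Ut t`). -/
def SpecHPR : Prop :=
  ∀ (X : Type u) [TopologicalSpace X] (d : ℕ) (D : Dat X d), ContinuousOn D.H D.E ∧
    ∀ t ∈ D.V, ∀ z ∈ D.O t, Tendsto D.hh (𝓝[D.P ×ˢ univ] (t, z)) (𝓝 (D.H (t, z))) ∧
      ‖D.H (t, z)‖ = 1

/-- HEQ. Uses: JCO, HPR. Proof: `h t' (f_t' z) = λ h t' z` for `t' ∈ P` near `t`; `(t', f_t' z)`
tends to `(t, f_t z)` inside `P ×ˢ univ` for `t' → t`, `t' ∈ P` (JCO); uniqueness of limits. -/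
def SpecHEQ : Prop :=
  ∀ (X : Type u) [TopologicalSpace X] (d : ℕ) (D : Dat X d), ∀ t ∈ D.V, ∀ z ∈ D.O t,
    D.f t z ∈ D.O t → D.H (t, D.f t z) = lam D.α * D.H (t, z)

/-- EOP. The family of the domains is open. Uses: UOP, THK. Proof: let `z ∈ O t`, `t ∈ V`. `O t` is
open and connected, so there is a path from `z_u` to `z` in `O t`, with the compact image `K₀`;
let `K = K₀ ∪ closedBall z s` with a small closed ball in `O t`. `{t} × K ⊆ U`, by the tube lemma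
(`generalized_tube_lemma`) there is a neighbourhood `N` of `t` with `N × K ⊆ U`. For `t₁ ∈ N`,
`z₁ ∈ ball z s`: `K` is a connected subset of `Ut t₁` which contains `z_u` and `z₁`, so
`z₁ ∈ O t₁`. -/
def SpecEOP : Prop :=
  ∀ (X : Type u) [TopologicalSpace X] (d : ℕ) (D : Dat X d), IsOpen D.E

/-- OIN. The domains are invariant. Uses: UIN, THK. Proof: `f_t` maps `Ut t` onto itself (UIN), so it
maps the component `O t` of `z_u` onto the component of `f_t z_u`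
(`Homeomorph.image_connectedComponentIn`), which is `O t` by THK
(`connectedComponentIn_eq`). -/
def SpecOIN : Prop :=
  ∀ (X : Type u) [TopologicalSpace X] (d : ℕ) (D : Dat X d), ∀ t ∈ D.V, ∀ z,
    D.f t z ∈ D.O t ↔ z ∈ D.O t

/-- UCV. Uniform convergence on compact sets. Uses: UKT, HPR. Proof: for `z ∈ K` there are
neighbourhoods `N_z` of `t` and `B_z` of `z` with `‖h t' y - H (t, z)‖ < ε / 2` for
`t' ∈ N_z ∩ P`, `y ∈ B_z` (HPR) and `‖H (t, y) - H (t, z)‖ < ε / 2` for `y ∈ B_z ∩ O t`; finite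
subcover. -/
def SpecUCV : Prop :=
  ∀ (X : Type u) [TopologicalSpace X] (d : ℕ) (D : Dat X d), ∀ t ∈ D.V, ∀ K : Set ℂ,
    K ⊆ D.O t → IsCompact K → ∀ ε : ℝ, 0 < ε → ∃ N ∈ 𝓝 t, ∀ t' ∈ N, t' ∈ D.P →
      K ⊆ D.A t' ∧ ∀ z ∈ K, ‖D.h t' z - D.H (t, z)‖ ≤ ε

/-- DG1. Uses: THK, HPR, UCV. Proof: `K = range γ` (compact: the image of `[0, 1]`), `ε = 1 / 2`,
`LDeg.of_near` from `h t' ∘ γ` (`D.deg`) to `H (t, ·) ∘ γ`. -/
def SpecDG1 : Prop :=
  ∀ (X : Type u) [TopologicalSpace X] (d : ℕ) (D : Dat X d), ∀ t ∈ D.V,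
    LDeg (fun x => D.H (t, D.γ x)) 1

/-- STB. A stable fixed point inside of a loop. Uses: FIL. Proof: `r x = pol c x - 2 x` is a
polynomial of degree `≥ 2`; the fixed points are the points `⟨x, x⟩` with `r x = 0`, finitely many,
none on `γ`. Call a root `x₀` inner if `¬ LDeg (γ - ⟨x₀, x₀⟩) 0`. Claim: for some inner root `x₀`:
for all `ε > 0` there are `a`, `b` in `(x₀ - ε, x₀ + ε)` with `r a < 0 < r b`. The claim implies the
statement: `pol c' a - 2 a < 0 < pol c' b - 2 b` for `c'` near `c`, intermediate value. Suppose the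
claim is false: there is `δ > 0` such that for every inner root `x_i` with a sign `s_i = ±1`:
`s_i r ≥ 0` on `(x_i - δ, x_i + δ)`; let `δ` be also smaller than the distances of the points
`z_i = ⟨x_i, x_i⟩` from `γ` and than half of the distances between different fixed points. Let
`κ z = ∑_i s_i max 0 (δ - ‖z - z_i‖)` (inner roots) and `v z = f z - z + κ z`. If `v z = 0` then
(imaginary part) `z = ⟨x, x⟩` and `r x + κ z = 0`: if `κ z = 0` then `z` is a fixed point and not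
one of the `z_i`; if `κ z ≠ 0` then `‖z - z_i‖ < δ` for exactly one `i`, `s_i κ z > 0`,
`|x - x_i| < δ`, `s_i r x ≥ 0`, contradiction. So the zeros of `v` are fixed points `z` with
`LDeg (γ - z) 0`. Let `D` be the plane without the finitely many fixed points `z` with
`LDeg (γ - z) 0`; FIL: `LDeg (v ∘ γ) 0`; `v = f - id` on `γ`. Contradiction. -/
def SpecSTB : Prop :=
  ∀ d : ℕ, 2 ≤ d → ∀ c : Fin (d + 1) → ℝ, c (Fin.last d) ≠ 0 → ∀ γ : ℝ → ℂ, Continuous γ →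
    (∀ x, γ (x + 1) = γ x) → (∀ x, fc c (γ x) ≠ γ x) →
    ¬ LDeg (fun x => fc c (γ x) - γ x) 0 → ∃ x₀ : ℝ, ¬ LDeg (fun x => γ x - ⟨x₀, x₀⟩) 0 ∧
      (∀ x, γ x ≠ ⟨x₀, x₀⟩) ∧ ∀ ε : ℝ, 0 < ε → ∃ N ∈ 𝓝 c, ∀ c' ∈ N, ∃ x' : ℝ, |x' - x₀| < ε ∧
        fc c' ⟨x', x'⟩ = ⟨x', x'⟩

/-- HOL. There is a stable point of the hole. Uses: JCO, NPR, THK, STB. Proof: `γ x ∈ O t ⊆ Ut t`
(THK), so `f_t (γ x) ≠ γ x` (NPR, `n = 1`). `¬ LDeg (f_t ∘ γ - γ) 0`: otherwise by `LDeg.of_near`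
and JCO (uniformly on the compact `[0, 1]`) `LDeg (f_t' ∘ γ - γ) 0` for some `t' ∈ P` near `t`,
against `Eig.idx` (with `D.thk`, `D.deg`). STB at `c t` gives `x₀`; `b = ⟨x₀, x₀⟩`. `b` is fixed by
`f_t` (`c' = c t` in STB: `⟨x', x'⟩ → b` are fixed by `f_t`), so `b ∉ Ut t` by NPR. Let `ε > 0`,
smaller than the distance of `b` from `γ`; for `t' ∈ P` near `t` there is `x'`, `b' = ⟨x', x'⟩`,
`‖b' - b‖ < ε`, fixed by `f_t'`; `b' ∉ A t'`, since `h t' b' = λ h t' b'`, `h t' b' ≠ 0` is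
impossible; `LDeg (γ - b) m ↔ LDeg (γ - b') m` by `LDeg.of_near`. So `¬ LDeg (γ - b') 0`; and by
`Eig.nuo` for one such `t'`: `LDeg (γ - b') m` with `|m| ≤ 1`, `m ≠ 0`. -/
def SpecHOL : Prop :=
  ∀ (X : Type u) [TopologicalSpace X] (d : ℕ) (D : Dat X d), ∀ t ∈ D.V, ∃ b, D.Hole t b

/-- UPL. Loops of the cover, points over the complement of the fibre. Uses: UKT. Proof:
`K = {exp (σ x) + b}` is compact and in `O t ⊆ Ut t`; UKT gives `N`, `r`. `σ x ≠ β` for all `x`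
(`exp (σ x) + b ∈ Ut t`, `exp β + b ∉ Ut t`); let `δ₀ > 0` be the distance. `q = exp β + b`. For
`ε > 0` small: `Hole.st` gives `N'`; since `(t, q) ∉ U`, `t ∈ V` there is `t' ∈ N ∩ N' ∩ P` with
`ball q ε ⊄ A t'`: there is `q' ∉ A t'`, `‖q' - q‖ < ε`; and `b'` with `‖b' - b‖ < ε`, `b' ∉ A t'`,
`¬ LDeg (γ - b') 0`. `q' - b'` is near `exp β ≠ 0`, so `q' - b' = exp β'` with
`‖β' - β‖ < δ₀ / 2` (`β' = β + log ((q' - b') / exp β)`). `exp (σ x) + b' ∈ A t'` if `ε ≤ r`. By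
`Eig.ups` `LDeg (σ - β') 0` and by `LDeg.of_near` `LDeg (σ - β) 0`. -/
def SpecUPL : Prop :=
  ∀ (X : Type u) [TopologicalSpace X] (d : ℕ) (D : Dat X d), ∀ t ∈ D.V, ∀ b, D.Hole t b →
    ∀ σ : ℝ → ℂ, Continuous σ → (∀ x, σ (x + 1) = σ x) → (∀ x, exp (σ x) + b ∈ D.O t) →
      ∀ β, exp β + b ∉ D.Ut t → LDeg (fun x => σ x - β) 0

/-- UPC. Loops of the cover, all points outside of the cover. Uses: WND, UOP, UPL. Proof: if
`exp β + b ∉ Ut t` this is UPL. Otherwise let `Y = {ζ | exp ζ + b ∈ Ut t}` (open) and `C` the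
component of `β` in `Y` (open: `ℂ` is locally connected). No `ζ ∈ C` has `exp ζ + b ∈ O t`: the
image of `C` is a connected subset of `Ut t`, it would be in `O t`, against `exp β + b ∉ O t`. In
particular `σ x ∉ C`, `C ≠ ℂ`. `C` is open, not empty and not `ℂ`, so it is not closed: there is
`β' ∈ closure C`, `β' ∉ C`. `β' ∉ Y`: otherwise the component of `β'` in `Y` is open, it meets `C`,
so it is `C`. So `exp β' + b ∉ Ut t`, UPL: `LDeg (σ - β') 0`. `C ∪ {β'}` is connected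
(`IsPreconnected.subset_closure`) and does not meet `σ`; WND. -/
def SpecUPC : Prop :=
  ∀ (X : Type u) [TopologicalSpace X] (d : ℕ) (D : Dat X d), ∀ t ∈ D.V, ∀ b, D.Hole t b →
    ∀ σ : ℝ → ℂ, Continuous σ → (∀ x, σ (x + 1) = σ x) → (∀ x, exp (σ x) + b ∈ D.O t) →
      ∀ β, exp β + b ∉ D.O t → LDeg (fun x => σ x - β) 0

end PD

end Pool.Agent.Lib.MP9fa4ca
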