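import Pool.Agent.Lib.MP_9fa4ca_an.PD.SpecB
import Pool.Agent.Lib.MP_9fa4ca_an.PD.SpecD
import Pool.Agent.Lib.MP_9fa4ca_an.PD.SpecL
import Pool.Agent.Lib.MP_9fa4ca_an.PD.LIX
import Pool.Agent.Lib.MP_9fa4ca_an.PD.SRD
import Pool.Agent.Lib.MP_9fa4ca_an.PD.FIN

section
/-!
# MP_9fa4ca_an, PD, module STB: a stable fixed point inside of a loop
-/
set_option autoImplicit false

open Set Topology Filter Complex MeasureTheory

namespace Pool.Agent.Lib.MP9fa4ca

namespace PD

namespace STBAux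

/-- the point of the diagonal -/
def dz (x : ℝ) : ℂ := ⟨x, x⟩

theorem dz_re (x : ℝ) : (dz x).re = x := rfl

theorem dz_im (x : ℝ) : (dz x).im = x := rfl

theorem fc_eq {d : ℕ} (c : Fin (d + 1) → ℝ) (z : ℂ) :
    fc c z = ⟨pol c z.re - 1 * z.im, z.re⟩ := rfl

/-- fixed points -/
theorem fixed_iff {d : ℕ} (c : Fin (d + 1) → ℝ) (z : ℂ) :
    fc c z = z ↔ z = dz z.re ∧ pol c z.re - 2 * z.re = 0 := by
  rw [fc_eq, Complex.ext_iff, Complex.ext_iff]
  simp only [dz_re, dz_im]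
  constructor
  · rintro ⟨h1, h2⟩
    refine ⟨⟨trivial, h2.symm⟩, ?_⟩
    rw [← h2] at h1
    linarith
  · rintro ⟨⟨-, h1⟩, h2⟩
    refine ⟨?_, h1.symm⟩
    rw [h1]
    linarith

theorem fixed_dz {d : ℕ} (c : Fin (d + 1) → ℝ) (x : ℝ) :
    fc c (dz x) = dz x ↔ pol c x - 2 * x = 0 := by
  rw [fixed_iff]
  simp [dz_re]

/-- the roots are finitely many -/
theorem finite_roots {d : ℕ} (hd : 2 ≤ d) (c : Fin (d + 1) → ℝ) (hc : c (Fin.last d) ≠ 0) :
    {x : ℝ | pol c x - 2 * x = 0}.Finite := by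
  have h1 : PLYAux.PP c - Polynomial.C 2 * Polynomial.X ≠ 0 := by
    intro h
    have h2 : PLYAux.PP c = Polynomial.C 2 * Polynomial.X := by
      rwa [sub_eq_zero] at h
    have h3 := PLYAux.PP_natDegree c hc
    rw [h2, Polynomial.natDegree_C_mul_X _ (by norm_num)] at h3
    omega
  refine ((PLYAux.PP c - Polynomial.C 2 * Polynomial.X).rootSet_finite ℝ).subset ?_
  intro x hx
  rw [Polynomial.mem_rootSet]
  refine ⟨h1, ?_⟩
  simp only [mem_setOf_eq] at hx
  simp only [map_sub, Polynomial.coe_aeval_eq_eval, Polynomial.eval_sub, Polynomial.eval_mul,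
    Polynomial.eval_C, Polynomial.eval_X, PLYAux.PP_eval]
  exact hx

/-- the sign lemma -/
theorem sign {d : ℕ} (c : Fin (d + 1) → ℝ) (x₀ ε : ℝ)
    (h : ∀ N ∈ 𝓝 c, ∃ c' ∈ N, ∀ x' : ℝ, |x' - x₀| < ε → fc c' (dz x') ≠ dz x') :
    ∃ s : ℝ, (s = 1 ∨ s = -1) ∧ ∀ y, |y - x₀| < ε → 0 ≤ s * (pol c y - 2 * y) := by
  by_cases h1 : ∀ y, |y - x₀| < ε → 0 ≤ pol c y - 2 * y
  · exact ⟨1, Or.inl rfl, fun y hy => by rw [one_mul]; exact h1 y hy⟩
  by_cases h2 : ∀ y, |y - x₀| < ε → pol c y - 2 * y ≤ 0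
  · exact ⟨-1, Or.inr rfl, fun y hy => by have := h2 y hy; linarith⟩
  exfalso
  push Not at h1 h2
  obtain ⟨a, ha, hra⟩ := h1
  obtain ⟨b, hb, hrb⟩ := h2
  have hcont : ∀ y : ℝ, Continuous fun c' : Fin (d + 1) → ℝ => pol c' y - 2 * y := fun y =>
    (SGNAux.continuous_pol.comp (continuous_id.prodMk continuous_const)).sub continuous_const
  have hN : {c' : Fin (d + 1) → ℝ | pol c' a - 2 * a < 0 ∧ 0 < pol c' b - 2 * b} ∈ 𝓝 c := by
    refine IsOpen.mem_nhds ?_ ⟨hra, hrb⟩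
    exact (isOpen_lt (hcont a) continuous_const).inter (isOpen_lt continuous_const (hcont b))
  obtain ⟨c', hc', hno⟩ := h _ hN
  have h3 := intermediate_value_uIcc (a := a) (b := b) (f := fun y => pol c' y - 2 * y)
    (((BAIAux.continuous_pol' c').sub (continuous_const.mul continuous_id)).continuousOn)
  have h4 : (0 : ℝ) ∈ uIcc (pol c' a - 2 * a) (pol c' b - 2 * b) := by
    rw [mem_uIcc]
    exact Or.inl ⟨hc'.1.le, hc'.2.le⟩
  obtain ⟨x', hx', hx0⟩ := h3 h4
  refine hno x' ?_ ((fixed_dz c' x').2 hx0)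
  have h5 : uIcc a b ⊆ Metric.ball x₀ ε := by
    refine (convex_ball x₀ ε).ordConnected.uIcc_subset ?_ ?_
    · rw [Metric.mem_ball, Real.dist_eq]; exact ha
    · rw [Metric.mem_ball, Real.dist_eq]; exact hb
  have h6 := h5 hx'
  rwa [Metric.mem_ball, Real.dist_eq] at h6

theorem re_le (z : ℂ) (x : ℝ) : |z.re - x| ≤ ‖z - dz x‖ := by
  have := abs_re_le_norm (z - dz x)
  rwa [Complex.sub_re, dz_re] at this

/-- the perturbation -/
noncomputable def stbK (T : Finset ℝ) (s : ℝ → ℝ) (δ : ℝ) (z : ℂ) : ℝ :=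
  ∑ i ∈ T, s i * max 0 (δ - ‖z - dz i‖)

theorem stbK_cont (T : Finset ℝ) (s : ℝ → ℝ) (δ : ℝ) : Continuous (stbK T s δ) := by
  unfold stbK
  fun_prop

theorem stbK_zero {T : Finset ℝ} {s : ℝ → ℝ} {δ : ℝ} {z : ℂ}
    (h : ∀ i ∈ T, δ ≤ ‖z - dz i‖) : stbK T s δ z = 0 := by
  unfold stbK
  refine Finset.sum_eq_zero fun i hi => ?_
  rw [max_eq_left (by linarith [h i hi]), mul_zero]

theorem stbK_one {T : Finset ℝ} {s : ℝ → ℝ} {δ : ℝ} {z : ℂ}
    (hT : ∀ i ∈ T, ∀ j ∈ T, i ≠ j → 2 * δ ≤ |i - j|) {i : ℝ} (hi : i ∈ T)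
    (h : ‖z - dz i‖ < δ) : stbK T s δ z = s i * (δ - ‖z - dz i‖) := by
  unfold stbK
  rw [Finset.sum_eq_single i]
  · rw [max_eq_right (by linarith)]
  · intro j hj hji
    have h1 := hT i hi j hj (Ne.symm hji)
    have h2 : |i - j| ≤ ‖z - dz i‖ + ‖z - dz j‖ := by
      have h3 : |i - j| ≤ ‖dz i - dz j‖ := by
        have := re_le (dz i) j
        rwa [dz_re] at this
      have h4 : dz i - dz j = (z - dz j) - (z - dz i) := by ring
      rw [h4] at h3
      have h5 := norm_sub_le (z - dz j) (z - dz i)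
      linarith
    rw [max_eq_left (by linarith), mul_zero]
  · intro h1
    exact absurd hi h1

end STBAux

open STBAux in
/-- STB. -/
theorem specSTB (hFIL : SpecFIL) : SpecSTB := by
  intro d hd c hc γ hγ hγp hfix hdeg
  by_contra hcon
  -- no fixed point is stable
  have hne : ∀ x₀ : ℝ, pol c x₀ - 2 * x₀ = 0 → ∀ x, γ x ≠ dz x₀ := by
    intro x₀ hx₀ x hx
    refine hfix x ?_
    rw [hx]
    exact (fixed_dz c x₀).2 hx₀
  have hs : ∀ x₀ : ℝ, pol c x₀ - 2 * x₀ = 0 → ¬ LDeg (fun x => γ x - dz x₀) 0 →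
      ∃ s ε : ℝ, (s = 1 ∨ s = -1) ∧ 0 < ε ∧ ∀ y, |y - x₀| < ε → 0 ≤ s * (pol c y - 2 * y) := by
    intro x₀ hx₀ hin
    have h1 : ∃ ε : ℝ, 0 < ε ∧ ∀ N ∈ 𝓝 c, ∃ c' ∈ N, ∀ x' : ℝ, |x' - x₀| < ε →
        fc c' (dz x') ≠ dz x' := by
      by_contra h2
      push Not at h2
      refine hcon ⟨x₀, hin, hne x₀ hx₀, fun ε hε => ?_⟩
      obtain ⟨N, hN, h3⟩ := h2 ε hε
      exact ⟨N, hN, h3⟩
    obtain ⟨ε, hε, h2⟩ := h1
    obtain ⟨s, hs1, hs2⟩ := sign c x₀ ε h2
    exact ⟨s, ε, hs1, hε, hs2⟩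
  -- the inner roots
  have hfin := finite_roots hd c hc
  have hfin2 : {x : ℝ | pol c x - 2 * x = 0 ∧ ¬ LDeg (fun y => γ y - dz x) 0}.Finite :=
    hfin.subset fun x hx => hx.1
  set T : Finset ℝ := hfin2.toFinset with hTdef
  have hTm : ∀ x, x ∈ T ↔ pol c x - 2 * x = 0 ∧ ¬ LDeg (fun y => γ y - dz x) 0 := by
    intro x
    rw [hTdef, Set.Finite.mem_toFinset]
    rfl
  have hs' : ∀ i : ℝ, ∃ s ε : ℝ, i ∈ T → (s = 1 ∨ s = -1) ∧ 0 < ε ∧
      ∀ y, |y - i| < ε → 0 ≤ s * (pol c y - 2 * y) := by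
    intro i
    by_cases hi : i ∈ T
    · obtain ⟨s, ε, h⟩ := hs i ((hTm i).1 hi).1 ((hTm i).1 hi).2
      exact ⟨s, ε, fun _ => h⟩
    · exact ⟨0, 0, fun h => absurd h hi⟩
  choose s ε hsε using hs'
  -- the distance from the loop
  have hdist : ∀ i ∈ T, ∃ δ : ℝ, 0 < δ ∧ ∀ x, δ ≤ ‖γ x - dz i‖ := by
    intro i hi
    have hc1 : Continuous fun x : ℝ => ‖γ x - dz i‖ := by fun_prop
    obtain ⟨x₀, -, hx₀⟩ := (isCompact_Icc (a := (0 : ℝ)) (b := 1)).exists_isMinOn
      (nonempty_Icc.2 zero_le_one) hc1.continuousOn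
    refine ⟨‖γ x₀ - dz i‖, ?_, fun x => ?_⟩
    · rw [norm_pos_iff, sub_ne_zero]
      exact hne i ((hTm i).1 hi).1 x₀
    · have hper : Function.Periodic γ 1 := hγp
      have h1 : γ x = γ (Int.fract x) := by
        have := hper.int_mul ⌊x⌋ (Int.fract x)
        rw [← this]
        congr 1
        rw [mul_one, Int.fract_add_floor]
      rw [h1]
      exact hx₀ ⟨Int.fract_nonneg x, (Int.fract_lt_one x).le⟩
  -- the choice of `δ`
  have hev : ∀ᶠ δ in 𝓝[>] (0 : ℝ), (∀ i ∈ T, δ ≤ ε i) ∧ (∀ i ∈ T, ∀ x, δ ≤ ‖γ x - dz i‖) ∧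
      (∀ i ∈ T, ∀ j ∈ T, i ≠ j → 2 * δ ≤ |i - j|) := by
    have hle : ∀ a : ℝ, 0 < a → ∀ᶠ δ in 𝓝[>] (0 : ℝ), δ ≤ a := fun a ha =>
      mem_of_superset (Ioc_mem_nhdsGT ha) fun x hx => hx.2
    refine Eventually.and ?_ (Eventually.and ?_ ?_)
    · rw [Filter.eventually_all_finset]
      intro i hi
      exact hle _ (hsε i hi).2.1
    · rw [Filter.eventually_all_finset]
      intro i hi
      obtain ⟨δ, hδ, h⟩ := hdist i hi
      exact (hle δ hδ).mono fun δ' h' x => h'.trans (h x)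
    · rw [Filter.eventually_all_finset]
      intro i hi
      rw [Filter.eventually_all_finset]
      intro j hj
      by_cases hij : i = j
      · exact Eventually.of_forall fun _ h => absurd hij h
      · refine (hle (|i - j| / 2) (by have := abs_pos.2 (sub_ne_zero.2 hij); linarith)).mono ?_
        intro δ hδ _
        linarith
  obtain ⟨δ, ⟨hδ1, hδ2, hδ3⟩, hδ⟩ := (hev.and self_mem_nhdsWithin).exists
  have hδ0 : 0 < δ := hδ
  -- the vector field
  set v : ℂ → ℂ := fun z => fc c z - z + (stbK T s δ z : ℂ) with hv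
  have hvc : Continuous v := by
    have h1 := (fc c).continuous
    have h2 := stbK_cont T s δ
    have h3 : Continuous fun z => ((stbK T s δ z : ℝ) : ℂ) := Complex.continuous_ofReal.comp h2
    exact (h1.sub continuous_id).add h3
  have hv0 : ∀ z, v z = 0 → fc c z = z ∧ LDeg (fun x => γ x - z) 0 := by
    intro z hz
    have hz' := hz
    rw [hv] at hz
    simp only [fc_eq] at hz
    have him := congrArg Complex.im hz
    have hre := congrArg Complex.re hz
    simp only [Complex.add_im, Complex.sub_im, Complex.ofReal_im, Complex.zero_im, Complex.add_re,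
      Complex.sub_re, Complex.ofReal_re, Complex.zero_re] at him hre
    have h1 : z.re = z.im := by linarith
    have h2 : pol c z.re - 2 * z.re + stbK T s δ z = 0 := by
      rw [← h1] at hre
      linarith
    have hzd : z = dz z.re := by
      rw [Complex.ext_iff, dz_re, dz_im]
      exact ⟨rfl, h1.symm⟩
    by_cases hi : ∃ i ∈ T, ‖z - dz i‖ < δ
    · exfalso
      obtain ⟨i, hiT, hi⟩ := hi
      rw [stbK_one hδ3 hiT hi] at h2
      have h3 := (hsε i hiT).2.2 z.re (lt_of_le_of_lt (re_le z i) (hi.trans_le (hδ1 i hiT)))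
      have h4 : 0 < δ - ‖z - dz i‖ := by linarith
      rcases (hsε i hiT).1 with h5 | h5 <;> rw [h5] at h2 h3 <;> linarith
    · push Not at hi
      rw [stbK_zero hi, add_zero] at h2
      refine ⟨(fixed_iff c z).2 ⟨hzd, h2⟩, ?_⟩
      by_contra h3
      have h4 : z.re ∈ T := by
        rw [hTm]
        refine ⟨h2, ?_⟩
        rw [← hzd]
        exact h3
      have h5 := hi z.re h4
      rw [← hzd, sub_self, norm_zero] at h5
      linarith
  -- the domain
  have hFfin : {z : ℂ | fc c z = z ∧ LDeg (fun x => γ x - z) 0}.Finite := by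
    refine (hfin.image dz).subset ?_
    rintro z ⟨hz, -⟩
    rw [fixed_iff] at hz
    exact ⟨z.re, hz.2, hz.1.symm⟩
  have hopen : IsOpen {z : ℂ | fc c z = z ∧ LDeg (fun x => γ x - z) 0}ᶜ :=
    hFfin.isClosed.isOpen_compl
  have hmain := hFIL {z : ℂ | fc c z = z ∧ LDeg (fun x => γ x - z) 0}ᶜ hopen γ
    ⟨hγ, hγp, fun x hx => hfix x hx.1⟩ (fun b hb => (not_not.1 hb).2) v hvc.continuousOn
    (fun z hz h0 => hz (hv0 z h0))
  refine hdeg ?_
  have he : (fun x => v (γ x)) = fun x => fc c (γ x) - γ x := by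
    funext x
    rw [hv]
    simp only
    rw [stbK_zero (fun i hi => hδ2 i hi x)]
    simp
  rwa [he] at hmain

end PD

end Pool.Agent.Lib.MP9fa4ca
end

section
/-!
# MP_9fa4ca_an, PD : SYM, a point which visits the diagonal twice is periodic
-/
set_option autoImplicit false

open Set Topology Filter Complex MeasureTheory

namespace Pool.Agent.Lib.MP9fa4ca

namespace PD

namespace SYMAux

theorem key (hREF : SpecREF) {d : ℕ} (c : Fin (d + 1) → ℝ) (q : ℂ) (m : ℤ)
    (h : ((fc c ^ m) q).re = ((fc c ^ m) q).im) : refl q = (fc c ^ (2 * m)) q := by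
  have h1 : refl ((fc c ^ m) q) = (fc c ^ m) q := by
    apply Complex.ext
    · exact h.symm
    · exact h
  have h2 := hREF (pol c) (BAIAux.continuous_pol' c) m ((fc c ^ m) q)
  have h3 : (fc c ^ m) (refl ((fc c ^ m) q)) = refl ((fc c ^ (-m)) ((fc c ^ m) q)) := h2
  rw [h1] at h3
  have h4 : (fc c ^ m) ((fc c ^ m) q) = (fc c ^ (2 * m)) q := by
    have : fc c ^ (2 * m) = fc c ^ m * fc c ^ m := by rw [← zpow_add]; congr 1; ring
    rw [this]; rfl
  have h5 : (fc c ^ (-m)) ((fc c ^ m) q) = q := by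
    have : fc c ^ (-m) * fc c ^ m = 1 := by rw [← zpow_add]; simp
    have h6 : (fc c ^ (-m)) ((fc c ^ m) q) = (fc c ^ (-m) * fc c ^ m) q := rfl
    rw [h6, this]; rfl
  rw [h4, h5] at h3
  exact h3.symm

end SYMAux

theorem specSYM (hREF : SpecREF) : SpecSYM := by
  intro d c q m₁ m₂ hne h1 h2
  have k1 := SYMAux.key hREF c q m₁ h1
  have k2 := SYMAux.key hREF c q m₂ h2
  have k3 : (fc c ^ (2 * m₁)) q = (fc c ^ (2 * m₂)) q := by rw [← k1, ← k2]
  have step : ∀ a b : ℤ, (fc c ^ a) q = (fc c ^ b) q → (fc c ^ (a - b)) q = q := by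
    intro a b hab
    have e1 : fc c ^ (a - b) = fc c ^ (-b) * fc c ^ a := by rw [← zpow_add]; congr 1; ring
    have e2 : (fc c ^ (a - b)) q = (fc c ^ (-b)) ((fc c ^ a) q) := by rw [e1]; rfl
    have e3 : (fc c ^ (-b)) ((fc c ^ b) q) = q := by
      have : fc c ^ (-b) * fc c ^ b = 1 := by rw [← zpow_add]; simp
      have h6 : (fc c ^ (-b)) ((fc c ^ b) q) = (fc c ^ (-b) * fc c ^ b) q := rfl
      rw [h6, this]; rfl
    rw [e2, hab, e3]
  refine ⟨(2 * m₁ - 2 * m₂).natAbs, ?_, ?_⟩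
  · apply Int.natAbs_pos.mpr
    omega
  · have e4 : (fc c ^ (2 * m₁ - 2 * m₂).natAbs) = fc c ^ (((2 * m₁ - 2 * m₂).natAbs : ℕ) : ℤ) :=
      (zpow_natCast _ _).symm
    rw [e4]
    rcases Int.natAbs_eq (2 * m₁ - 2 * m₂) with h | h
    · rw [← h]; exact step _ _ k3
    · have h' : (((2 * m₁ - 2 * m₂).natAbs : ℕ) : ℤ) = 2 * m₂ - 2 * m₁ := by omega
      rw [h']; exact step _ _ k3.symm

end PD

end Pool.Agent.Lib.MP9fa4ca
end

section
/-!
# MP_9fa4ca_an, PD : module THK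
-/
set_option autoImplicit false

open Set Topology Filter Complex MeasureTheory

namespace Pool.Agent.Lib.MP9fa4ca

namespace PD

universe u

theorem specTHK (hJCO : SpecJCO) : SpecTHK.{u} := by
  intro X _ d D t ht
  have hball : ∀ x, Metric.ball (D.γ x) D.ρ ⊆ D.Ut t := by
    intro x z hz
    refine ⟨ht, univ, univ_mem, D.ρ - dist z (D.γ x), ?_, ?_⟩
    · rw [Metric.mem_ball] at hz
      linarith
    · intro t' _ ht' y hy
      apply D.thk t' ht' x
      rw [Metric.mem_ball] at hy ⊢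
      have h1 := dist_triangle y z (D.γ x)
      have h2 : dist y z < D.ρ - dist z (D.γ x) := hy
      linarith
  have hSU : (⋃ x, Metric.ball (D.γ x) D.ρ) ⊆ D.Ut t := iUnion_subset hball
  have hSpre : IsPreconnected (⋃ x, Metric.ball (D.γ x) D.ρ) := by
    have e : (⋃ x, Metric.ball (D.γ x) D.ρ) =
        (fun p : ℂ × ℝ => D.γ p.2 + p.1) '' (Metric.ball 0 D.ρ ×ˢ univ) := by
      ext z
      simp only [mem_iUnion, Metric.mem_ball, mem_image, mem_prod, mem_univ, and_true,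
        Prod.exists]
      constructor
      · rintro ⟨x, hx⟩
        exact ⟨z - D.γ x, x, by simpa [dist_eq_norm] using hx, by ring⟩
      · rintro ⟨w, x, hw, rfl⟩
        exact ⟨x, by simpa [dist_eq_norm] using hw⟩
    rw [e]
    have hc : Continuous (fun p : ℂ × ℝ => D.γ p.2 + p.1) :=
      (D.γc.comp continuous_snd).add continuous_fst
    exact ((convex_ball (0 : ℂ) D.ρ).isPreconnected.prod isPreconnected_univ).image _
      hc.continuousOn
  have hzS : (⟨D.u, D.u⟩ : ℂ) ∈ ⋃ x, Metric.ball (D.γ x) D.ρ := by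
    obtain ⟨x, hx⟩ := D.zu
    exact mem_iUnion.2 ⟨x, by rw [Metric.mem_ball, dist_eq_norm]; exact hx⟩
  have hSO : (⋃ x, Metric.ball (D.γ x) D.ρ) ⊆ D.O t :=
    hSpre.subset_connectedComponentIn hzS hSU
  refine ⟨fun x => (subset_iUnion (fun x => Metric.ball (D.γ x) D.ρ) x).trans hSO, hSO hzS, ?_⟩
  apply hSO
  have hcont : Continuous fun t' => (fc (D.c t') ^ (1 : ℤ)) (⟨D.u, D.u⟩ : ℂ) :=
    (hJCO d 1).comp (D.cc.prodMk continuous_const)
  have hcont' : Continuous fun t' => fc (D.c t') (⟨D.u, D.u⟩ : ℂ) := by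
    simpa only [zpow_one] using hcont
  have hev : ∀ᶠ t' in 𝓝 t, fc (D.c t') (⟨D.u, D.u⟩ : ℂ) ∈
      Metric.ball (fc (D.c t) (⟨D.u, D.u⟩ : ℂ)) (D.ρ / 2) :=
    hcont'.continuousAt.eventually (Metric.ball_mem_nhds _ (half_pos D.hρ))
  have hfr : ∃ᶠ t' in 𝓝 t, t' ∈ D.P := mem_closure_iff_frequently.1 (D.cl ht)
  obtain ⟨t', ht'P, ht'⟩ := (hfr.and_eventually hev).exists
  obtain ⟨x, hx⟩ := D.fzu t' ht'P
  refine mem_iUnion.2 ⟨x, ?_⟩
  rw [Metric.mem_ball, dist_comm] at ht'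
  rw [Metric.mem_ball]
  rw [← dist_eq_norm] at hx
  have h1 := dist_triangle (fc (D.c t) (⟨D.u, D.u⟩ : ℂ)) (fc (D.c t') (⟨D.u, D.u⟩ : ℂ)) (D.γ x)
  have h2 : dist (D.f t ⟨D.u, D.u⟩) (D.γ x) = dist (fc (D.c t) (⟨D.u, D.u⟩ : ℂ)) (D.γ x) := rfl
  rw [h2]
  linarith

end PD

end Pool.Agent.Lib.MP9fa4ca
end

section
/-!
# MP_9fa4ca_an, PD : TRN, the affine maps of the half plane are conjugate to a translation
-/
set_option autoImplicit false

open Set Topology Filter Complex MeasureTheory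

namespace Pool.Agent.Lib.MP9fa4ca

namespace PD

namespace TRNAux

theorem case1 (b : ℝ) (hb : b ≠ 0) : ∃ (Θ : ℂ → ℝ × ℝ) (Θ' : ℝ × ℝ → ℂ),
    Hom {ξ : ℂ | 0 < ξ.re} univ Θ Θ' ∧ ∀ ξ : ℂ, 0 < ξ.re →
      Θ (((1 : ℝ) : ℂ) * ξ + b * I) = ((Θ ξ).1 + 1, (Θ ξ).2) := by
  refine ⟨fun ξ => (ξ.im / b, Real.log ξ.re), fun x => ⟨Real.exp x.2, b * x.1⟩, ?_, ?_⟩
  · constructor
    · apply ContinuousOn.prodMk
      · exact (Complex.continuous_im.div_const b).continuousOn
      · apply ContinuousOn.log Complex.continuous_re.continuousOn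
        intro ξ hξ
        exact (ne_of_gt hξ)
    · apply Continuous.continuousOn
      have : (fun x : ℝ × ℝ => (⟨Real.exp x.2, b * x.1⟩ : ℂ)) =
          fun x => ((Real.exp x.2 : ℝ) : ℂ) + ((b * x.1 : ℝ) : ℂ) * I := by
        funext x
        apply Complex.ext
        · simp only [Complex.add_re, Complex.re_ofReal_mul, Complex.I_re, Complex.ofReal_re,
            mul_zero, add_zero]
        · simp only [Complex.add_im, Complex.im_ofReal_mul, Complex.I_im, Complex.ofReal_im,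
            mul_one, zero_add]
      rw [this]
      fun_prop
    · intro y _
      exact mem_univ _
    · intro z _
      exact Real.exp_pos _
    · intro ξ hξ
      have hξ' : 0 < ξ.re := hξ
      apply Complex.ext
      · simp only
        exact Real.exp_log hξ'
      · simp only
        field_simp
    · intro x _
      simp only [Real.log_exp]
      rw [mul_div_cancel_left₀ _ hb]
  · intro ξ hξ
    simp only [Complex.ofReal_one, one_mul, Complex.add_im, Complex.add_re, Complex.mul_im,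
      Complex.mul_re, Complex.ofReal_re, Complex.ofReal_im, Complex.I_re, Complex.I_im, mul_one,
      mul_zero, add_zero, sub_self]
    rw [add_div, div_self hb]

theorem case2 (a b : ℝ) (ha : 0 < a) (ha1 : a ≠ 1) : ∃ (Θ : ℂ → ℝ × ℝ) (Θ' : ℝ × ℝ → ℂ),
    Hom {ξ : ℂ | 0 < ξ.re} univ Θ Θ' ∧ ∀ ξ : ℂ, 0 < ξ.re →
      Θ (a * ξ + b * I) = ((Θ ξ).1 + 1, (Θ ξ).2) := by
  have hla : Real.log a ≠ 0 := by
    intro h
    rcases Real.log_eq_zero.1 h with h | h | h
    · linarith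
    · exact ha1 h
    · linarith
  have h1a : (1 - a) ≠ 0 := fun h => ha1 (by linarith)
  obtain ⟨t, ht⟩ : ∃ t : ℝ, t * (1 - a) = b := ⟨b / (1 - a), div_mul_cancel₀ _ h1a⟩
  have hy : ∀ y : ℝ, (1 : ℂ) + y * I ≠ 0 := by
    intro y h
    have := congrArg Complex.re h
    simp at this
  have hyn : ∀ y : ℝ, 0 < ‖(1 : ℂ) + y * I‖ := fun y => norm_pos_iff.2 (hy y)
  have hne : ∀ ξ : ℂ, 0 < ξ.re → ξ - t * I ≠ 0 := by
    intro ξ hξ h
    have := congrArg Complex.re h
    simp at this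
    linarith
  refine ⟨fun ξ => (Real.log ‖ξ - t * I‖ / Real.log a, (ξ - t * I).im / ξ.re),
    fun x => t * I + ((a ^ x.1 / ‖(1 : ℂ) + x.2 * I‖ : ℝ) : ℂ) * (1 + x.2 * I), ?_, ?_⟩
  · constructor
    · apply ContinuousOn.prodMk
      · apply ContinuousOn.div_const
        apply ContinuousOn.log
        · fun_prop
        · intro ξ hξ
          exact norm_ne_zero_iff.2 (hne ξ hξ)
      · apply ContinuousOn.div
        · apply Continuous.continuousOn
          exact Complex.continuous_im.comp (by fun_prop)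
        · exact Complex.continuous_re.continuousOn
        · intro ξ hξ
          exact ne_of_gt hξ
    · apply Continuous.continuousOn
      apply Continuous.add continuous_const
      apply Continuous.mul
      · apply Complex.continuous_ofReal.comp
        apply Continuous.div
        · exact Real.continuous_const_rpow ha.ne' |>.comp continuous_fst
        · fun_prop
        · intro x
          exact (hyn x.2).ne'
      · fun_prop
    · intro y _
      exact mem_univ _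
    · intro x _
      have h1 : 0 < a ^ x.1 / ‖(1 : ℂ) + x.2 * I‖ := div_pos (Real.rpow_pos_of_pos ha _) (hyn _)
      show 0 < (t * I + ((a ^ x.1 / ‖(1 : ℂ) + x.2 * I‖ : ℝ) : ℂ) * (1 + x.2 * I)).re
      rw [Complex.add_re, Complex.re_ofReal_mul]
      simpa using h1
    · intro ξ hξ
      have hξ' : 0 < ξ.re := hξ
      set ζ := ξ - t * I with hζ
      have hζ0 : ζ ≠ 0 := hne ξ hξ'
      have hre : ζ.re = ξ.re := by simp [hζ]
      have hzn : 0 < ‖ζ‖ := norm_pos_iff.2 hζ0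
      have e1 : a ^ (Real.log ‖ζ‖ / Real.log a) = ‖ζ‖ := by
        rw [Real.rpow_def_of_pos ha, mul_div_cancel₀ _ hla, Real.exp_log hzn]
      have e2 : (1 : ℂ) + ((ζ.im / ξ.re : ℝ) : ℂ) * I = ((ξ.re⁻¹ : ℝ) : ℂ) * ζ := by
        apply Complex.ext
        · rw [Complex.re_ofReal_mul, hre, inv_mul_cancel₀ hξ'.ne']
          simp
        · rw [Complex.im_ofReal_mul]
          simp
          field_simp
      have e3 : ‖(1 : ℂ) + ((ζ.im / ξ.re : ℝ) : ℂ) * I‖ = ξ.re⁻¹ * ‖ζ‖ := by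
        rw [e2, norm_mul, Complex.norm_real, Real.norm_of_nonneg (inv_nonneg.2 hξ'.le)]
      show t * I + ((a ^ (Real.log ‖ζ‖ / Real.log a) / ‖(1 : ℂ) + ((ζ.im / ξ.re : ℝ) : ℂ) * I‖ : ℝ)
        : ℂ) * (1 + ((ζ.im / ξ.re : ℝ) : ℂ) * I) = ξ
      rw [e1, e3, e2]
      have e4 : ((‖ζ‖ / (ξ.re⁻¹ * ‖ζ‖) : ℝ) : ℂ) * (((ξ.re⁻¹ : ℝ) : ℂ) * ζ) = ζ := by
        rw [← mul_assoc, ← Complex.ofReal_mul]
        have : ‖ζ‖ / (ξ.re⁻¹ * ‖ζ‖) * ξ.re⁻¹ = 1 := by
          field_simp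
        rw [this]
        simp
      rw [e4, hζ]
      ring
    · intro x _
      obtain ⟨x, y⟩ := x
      have hax : 0 < a ^ x := Real.rpow_pos_of_pos ha _
      have h1 : 0 < a ^ x / ‖(1 : ℂ) + y * I‖ := div_pos hax (hyn _)
      have e0 : (t * I + ((a ^ x / ‖(1 : ℂ) + y * I‖ : ℝ) : ℂ) * (1 + y * I)) - t * I =
          ((a ^ x / ‖(1 : ℂ) + y * I‖ : ℝ) : ℂ) * (1 + y * I) := by ring
      have e1 : ‖((a ^ x / ‖(1 : ℂ) + y * I‖ : ℝ) : ℂ) * (1 + y * I)‖ = a ^ x := by
        rw [norm_mul, Complex.norm_real, Real.norm_of_nonneg h1.le, div_mul_cancel₀ _ (hyn y).ne']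
      have e2 : (t * I + ((a ^ x / ‖(1 : ℂ) + y * I‖ : ℝ) : ℂ) * (1 + y * I)).re =
          a ^ x / ‖(1 : ℂ) + y * I‖ := by
        rw [Complex.add_re, Complex.re_ofReal_mul]
        simp
      have e3 : (((a ^ x / ‖(1 : ℂ) + y * I‖ : ℝ) : ℂ) * (1 + y * I)).im =
          a ^ x / ‖(1 : ℂ) + y * I‖ * y := by
        rw [Complex.im_ofReal_mul]
        simp
      show (Real.log ‖(t * I + ((a ^ x / ‖(1 : ℂ) + y * I‖ : ℝ) : ℂ) * (1 + y * I)) - t * I‖ /
        Real.log a, ((t * I + ((a ^ x / ‖(1 : ℂ) + y * I‖ : ℝ) : ℂ) * (1 + y * I)) - t * I).im /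
        (t * I + ((a ^ x / ‖(1 : ℂ) + y * I‖ : ℝ) : ℂ) * (1 + y * I)).re) = (x, y)
      rw [e2, e0, e3, e1, Real.log_rpow ha, mul_div_cancel_right₀ _ hla, mul_div_cancel_left₀ _ h1.ne']
  · intro ξ hξ
    have e0 : (a : ℂ) * ξ + b * I - t * I = a * (ξ - t * I) := by
      rw [← ht]
      push_cast
      ring
    have e1 : ‖(a : ℂ) * (ξ - t * I)‖ = a * ‖ξ - t * I‖ := by
      rw [norm_mul, Complex.norm_real, Real.norm_of_nonneg ha.le]
    have e2 : ((a : ℂ) * ξ + b * I).re = a * ξ.re := by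
      rw [Complex.add_re, Complex.re_ofReal_mul]
      simp
    show (Real.log ‖(a : ℂ) * ξ + b * I - t * I‖ / Real.log a,
      ((a : ℂ) * ξ + b * I - t * I).im / ((a : ℂ) * ξ + b * I).re) = _
    rw [e0, e1, e2, Complex.im_ofReal_mul, Real.log_mul ha.ne' (norm_ne_zero_iff.2 (hne ξ hξ)),
      add_div, div_self hla, mul_div_mul_left _ _ ha.ne']
    simp only [add_comm]

end TRNAux

theorem specTRN : SpecTRN := by
  intro a b ha hab
  by_cases h : a = 1
  · subst h
    exact TRNAux.case1 b fun hb => hab ⟨rfl, hb⟩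
  · exact TRNAux.case2 a b ha h

end PD

end Pool.Agent.Lib.MP9fa4ca
end

section
/-!
# MP_9fa4ca_an, PD : UBD, the fibres of `U` are bounded
-/
set_option autoImplicit false

open Set Topology Filter Complex MeasureTheory

namespace Pool.Agent.Lib.MP9fa4ca

namespace PD

universe u

theorem specUBD (hBND : SpecBND) : SpecUBD.{u} := by
  intro X _ d D t ht
  obtain ⟨N, hN, R, hR⟩ := hBND d D.deg2 (D.c t) (D.last t)
  refine (Metric.isBounded_ball (x := (0 : ℂ)) (r := R)).subset ?_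
  intro z hz
  obtain ⟨_, N', hN', r, hr, h⟩ := hz
  have h1 : N' ∩ D.c ⁻¹' N ∈ 𝓝 t :=
    inter_mem hN' (D.cc.continuousAt.preimage_mem_nhds hN)
  obtain ⟨t', ⟨h2, h3⟩, h4⟩ := mem_closure_iff_nhds.1 (D.cl ht) _ h1
  exact hR (D.c t') h3 (D.A t') (D.eig t' h4).bdd (D.eig t' h4).inv
    (h t' h2 h4 (Metric.mem_ball_self hr))

end PD

end Pool.Agent.Lib.MP9fa4ca
end

section
/-!
# MP_9fa4ca_an, PD : UCV, uniform convergence on compact sets
-/
set_option autoImplicit false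

open Set Topology Filter Complex MeasureTheory

namespace Pool.Agent.Lib.MP9fa4ca

namespace PD

universe u

namespace UCVAux

theorem O_subset_Ut {X : Type u} [TopologicalSpace X] {d : ℕ} (D : Dat X d) (t : X) :
    D.O t ⊆ D.Ut t := connectedComponentIn_subset _ _

end UCVAux

theorem specUCV (hUKT : SpecUKT.{u}) (hHPR : SpecHPR.{u}) : SpecUCV.{u} := by
  intro X _ d D t ht K hK hKc ε hε
  obtain ⟨hcont, hlim⟩ := hHPR X d D
  obtain ⟨N₀, hN₀, r, hr, hNr⟩ := hUKT X d D t K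
    (hK.trans (UCVAux.O_subset_Ut D t)) hKc
  have key : ∃ N ∈ 𝓝 t, ∀ t' ∈ N, t' ∈ D.P → ∀ z ∈ K, ‖D.h t' z - D.H (t, z)‖ ≤ ε := by
    refine hKc.induction_on
      (p := fun s => ∃ N ∈ 𝓝 t, ∀ t' ∈ N, t' ∈ D.P → ∀ z ∈ s, ‖D.h t' z - D.H (t, z)‖ ≤ ε)
      ⟨univ, univ_mem, fun t' _ _ z hz => absurd hz (notMem_empty z)⟩ ?_ ?_ ?_
    · rintro s s' hss' ⟨N, hN, h⟩
      exact ⟨N, hN, fun t' h1 h2 z hz => h t' h1 h2 z (hss' hz)⟩
    · rintro s s' ⟨N, hN, h⟩ ⟨N', hN', h'⟩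
      refine ⟨N ∩ N', inter_mem hN hN', fun t' h1 h2 z hz => ?_⟩
      rcases hz with hz | hz
      · exact h t' h1.1 h2 z hz
      · exact h' t' h1.2 h2 z hz
    · intro z hz
      have hzO := hK hz
      have h1 := (hlim t ht z hzO).1
      rw [Metric.tendsto_nhds] at h1
      have h2 := h1 (ε / 2) (half_pos hε)
      rw [nhdsWithin_prod_eq, nhdsWithin_univ] at h2
      obtain ⟨pa, hpa, pb, hpb, hab⟩ := Filter.eventually_prod_iff.1 h2
      have h3 : ContinuousWithinAt (fun y => D.H (t, y)) (D.O t) z := by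
        have h4 : ContinuousOn (fun y : ℂ => D.H (t, y)) (D.O t) :=
          hcont.comp (by fun_prop) fun y hy => ⟨ht, hy⟩
        exact h4 z hzO
      have h5 := (Metric.tendsto_nhds.1 h3) (ε / 2) (half_pos hε)
      have h6 : ∀ᶠ y in 𝓝[K] z, dist (D.H (t, y)) (D.H (t, z)) < ε / 2 :=
        nhdsWithin_mono z hK h5
      refine ⟨{y | pb y ∧ dist (D.H (t, y)) (D.H (t, z)) < ε / 2},
        (hpb.filter_mono nhdsWithin_le_nhds).and h6, ?_⟩
      rw [eventually_nhdsWithin_iff] at hpa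
      refine ⟨{x | x ∈ D.P → pa x}, hpa, fun t' ht' htP y hy => ?_⟩
      have h7 := hab (ht' htP) hy.1
      have h8 := hy.2
      have h9 : dist (D.h t' y) (D.H (t, y)) ≤ dist (D.hh (t', y)) (D.H (t, z)) +
          dist (D.H (t, y)) (D.H (t, z)) := dist_triangle_right _ _ _
      rw [← dist_eq_norm]
      linarith
  obtain ⟨N, hN, h⟩ := key
  refine ⟨N ∩ N₀, inter_mem hN hN₀, fun t' ht' htP => ⟨fun z hz => ?_, h t' ht'.1 htP⟩⟩
  exact hNr t' ht'.2 htP z hz (Metric.mem_ball_self hr)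

end PD

end Pool.Agent.Lib.MP9fa4ca
end

section
/-!
# UIN: the set `U` is invariant
-/
set_option autoImplicit false

open Set Topology Filter Complex MeasureTheory

namespace Pool.Agent.Lib.MP9fa4ca

namespace PD

universe u

namespace UINAux

variable {X : Type u} [TopologicalSpace X] {d : ℕ} (D : Dat X d)

theorem mem_U {t : X} {z : ℂ} : (t, z) ∈ D.U ↔ t ∈ D.V ∧ ∃ N ∈ 𝓝 t, ∃ r : ℝ, 0 < r ∧
    ∀ t' ∈ N, t' ∈ D.P → Metric.ball z r ⊆ D.A t' := Iff.rfl

/-- the core: joint continuity moves the uniform balls -/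
theorem core (F : X → ℂ → ℂ) (hF : Continuous fun x : X × ℂ => F x.1 x.2) (t : X) (y₀ : ℂ)
    (hinv : ∀ t' ∈ D.P, ∀ y, F t' y ∈ D.A t' → y ∈ D.A t')
    (h : (t, F t y₀) ∈ D.U) : (t, y₀) ∈ D.U := by
  obtain ⟨htV, N, hN, r, hr, hball⟩ := (mem_U D).mp h
  refine (mem_U D).mpr ⟨htV, ?_⟩
  have hev : ∀ᶠ x : X × ℂ in 𝓝 (t, y₀), F x.1 x.2 ∈ Metric.ball (F t y₀) r :=
    hF.continuousAt.eventually (Metric.ball_mem_nhds _ hr)
  rw [nhds_prod_eq] at hev
  obtain ⟨N₁, hN₁, B, hB, hNB⟩ := Filter.mem_prod_iff.mp hev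
  obtain ⟨s, hs, hsB⟩ := Metric.mem_nhds_iff.mp hB
  refine ⟨N ∩ N₁, inter_mem hN hN₁, s, hs, ?_⟩
  intro t' ht' htP y hy
  refine hinv t' htP y ?_
  refine hball t' ht'.1 htP ?_
  exact hNB (show ((t', y) : X × ℂ) ∈ N₁ ×ˢ B from ⟨ht'.2, hsB hy⟩)

end UINAux

theorem specUIN (hJCO : SpecJCO) : SpecUIN.{u} := by
  intro X _ d D t z
  have hc : ∀ m : ℤ, Continuous fun x : X × ℂ => (fc (D.c x.1) ^ m) x.2 := fun m =>
    (hJCO d m).comp ((D.cc.comp continuous_fst).prodMk continuous_snd)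
  have h1 : Continuous fun x : X × ℂ => D.f x.1 x.2 := by
    have := hc 1
    simp only [zpow_one] at this
    exact this
  have h2 : Continuous fun x : X × ℂ => (D.f x.1).symm x.2 := by
    have := hc (-1)
    simp only [zpow_neg_one] at this
    exact this
  constructor
  · intro h
    refine UINAux.core D (fun t' y => (D.f t').symm y) h2 t (D.f t z) ?_ ?_
    · intro t' ht' y hy
      have h3 := ((D.eig t' ht').inv ((D.f t').symm y)).mpr hy
      have h4 : fc (D.c t') ((D.f t').symm y) = y := (D.f t').apply_symm_apply y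
      rwa [h4] at h3
    · have e : (D.f t).symm (D.f t z) = z := (D.f t).symm_apply_apply z
      simp only [e]
      exact h
  · intro h
    refine UINAux.core D (fun t' y => D.f t' y) h1 t z ?_ h
    intro t' ht' y hy
    exact ((D.eig t' ht').inv y).mp hy

end PD

end Pool.Agent.Lib.MP9fa4ca
end

section
/-!
# MP_9fa4ca_an, PD : UKT, compact subsets of the fibre
-/
set_option autoImplicit false

open Set Topology Filter Complex MeasureTheory

namespace Pool.Agent.Lib.MP9fa4ca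

namespace PD

universe u

theorem specUKT : SpecUKT.{u} := by
  intro X _ d D t K hK hKc
  have h : ∀ z ∈ K, ∃ N ∈ 𝓝 t, ∃ r : ℝ, 0 < r ∧ ∀ t' ∈ N, t' ∈ D.P →
      Metric.ball z r ⊆ D.A t' := fun z hz => (hK hz).2
  choose! N hN r hr hB using h
  obtain ⟨s, hs, hcov⟩ := hKc.elim_nhds_subcover (fun z => Metric.ball z (r z / 2))
    (fun z hz => Metric.ball_mem_nhds z (half_pos (hr z hz)))
  obtain ⟨ρ, hρ, hle⟩ : ∃ ρ : ℝ, 0 < ρ ∧ ∀ z ∈ s, ρ ≤ r z / 2 := by
    clear hcov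
    induction s using Finset.induction_on with
    | empty => exact ⟨1, one_pos, by simp⟩
    | insert a s ha ih =>
      obtain ⟨ρ, hρ, hle⟩ := ih (fun z hz => hs z (Finset.mem_insert_of_mem hz))
      refine ⟨min ρ (r a / 2),
        lt_min hρ (half_pos (hr a (hs a (Finset.mem_insert_self a s)))), fun z hz => ?_⟩
      rcases Finset.mem_insert.1 hz with rfl | hz
      · exact min_le_right _ _
      · exact (min_le_left _ _).trans (hle z hz)
  refine ⟨⋂ z ∈ s, N z, (Filter.biInter_finset_mem s).2 fun z hz => hN z (hs z hz), ρ, hρ, ?_⟩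
  intro t' ht' hP z hz y hy
  obtain ⟨x, hx, hzx⟩ := mem_iUnion₂.1 (hcov hz)
  refine hB x (hs x hx) t' (mem_iInter₂.1 ht' x hx) hP ?_
  rw [Metric.mem_ball] at hy hzx ⊢
  have h1 := hle x hx
  have h2 := dist_triangle y z x
  linarith

end PD

end Pool.Agent.Lib.MP9fa4ca
end

section
/-!
# MP_9fa4ca_an, PD : module UNQ (two limit functions agree)
-/
set_option autoImplicit false

open Set Topology Filter Complex MeasureTheory

namespace Pool.Agent.Lib.MP9fa4ca

namespace PD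

universe u

namespace UNQAux

variable {X : Type u} [TopologicalSpace X] {d : ℕ} (D : Dat X d)

theorem lam_ne (α : ℝ) : lam α ≠ 0 := exp_ne_zero _

theorem isOpen_Ut (hUOP : SpecUOP.{u}) (t : X) : IsOpen (D.Ut t) := by
  have := (hUOP X d D).preimage (f := fun z : ℂ => (t, z)) (by fun_prop)
  exact this

/-- the value at a point which visits the diagonal -/
theorem sq_val (hEVZ : SpecEVZ) (f : ℂ ≃ₜ ℂ) (S : Set ℂ) (hS : ∀ z, f z ∈ S ↔ z ∈ S) (g : ℂ → ℂ)
    (α : ℝ) (hg : ∀ z ∈ S, g (f z) = lam α * g z)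
    (hr : ∀ s : ℝ, (⟨s, s⟩ : ℂ) ∈ S → g ⟨s, s⟩ = 1 ∨ g ⟨s, s⟩ = -1) (m : ℤ) (y : ℂ) (hy : y ∈ S)
    (hm : ((f ^ m) y).re = ((f ^ m) y).im) : (lam α ^ m) ^ 2 * g y ^ 2 = 1 := by
  obtain ⟨h1, h2⟩ := hEVZ f S hS g α hg m y hy
  have e : (f ^ m) y = ⟨((f ^ m) y).re, ((f ^ m) y).re⟩ := by
    apply Complex.ext
    · rfl
    · exact hm.symm
  rw [e] at h1 h2
  rw [← mul_pow, ← h2]
  rcases hr _ h1 with h | h <;> rw [h] <;> norm_num

end UNQAux

open UNQAux in
theorem specUNQ (hEVZ : SpecEVZ) (hUOP : SpecUOP.{u}) (hUIN : SpecUIN.{u}) (hLMC : SpecLMC.{u})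
    (hLMV : SpecLMV.{u}) (hDNS : SpecDNS.{u}) : SpecUNQ.{u} := by
  intro X _ d D t ht W₁ W₂ hW₁ hW₂ g₁ g₂ hg₁ hg₂ z hz
  have hop := isOpen_Ut D hUOP t
  have hinv : ∀ z, D.f t z ∈ D.Ut t ↔ z ∈ D.Ut t := fun z => (hUIN X d D t z).symm
  obtain ⟨c1, n1, r1, o1⟩ := hLMC X d D t W₁ hW₁ g₁ hg₁
  obtain ⟨c2, n2, r2, o2⟩ := hLMC X d D t W₂ hW₂ g₂ hg₂
  have v1 := hLMV X d D t W₁ hW₁ g₁ hg₁
  have v2 := hLMV X d D t W₂ hW₂ g₂ hg₂
  have hsq : ∀ y ∈ D.Ut t, g₁ y ^ 2 = g₂ y ^ 2 := by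
    intro y hy
    by_contra hne
    have hc : ContinuousOn (fun y => g₁ y ^ 2 - g₂ y ^ 2) (D.Ut t) := (c1.pow 2).sub (c2.pow 2)
    have hcy := hc.continuousAt (hop.mem_nhds hy)
    have hev : ∀ᶠ y' in 𝓝 y, g₁ y' ^ 2 - g₂ y' ^ 2 ≠ 0 :=
      hcy.eventually_ne (sub_ne_zero.2 hne)
    obtain ⟨r, hr, hb⟩ := Metric.eventually_nhds_iff_ball.1 (hev.and (hop.eventually_mem hy))
    obtain ⟨y', hy', m, hm⟩ := hDNS X d D t ht y r hr fun w hw => (hb w hw).2
    obtain ⟨b1, b2⟩ := hb y' hy'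
    have e1 := sq_val hEVZ (D.f t) (D.Ut t) hinv g₁ D.α v1 r1 m y' b2 hm
    have e2 := sq_val hEVZ (D.f t) (D.Ut t) hinv g₂ D.α v2 r2 m y' b2 hm
    apply b1
    have h0 : (lam D.α ^ m) ^ 2 ≠ 0 := pow_ne_zero _ (zpow_ne_zero _ (lam_ne _))
    exact sub_eq_zero.2 (mul_left_cancel₀ h0 (e1.trans e2.symm))
  have hsub : D.O t ⊆ D.Ut t := connectedComponentIn_subset _ _
  by_cases hu : (⟨D.u, D.u⟩ : ℂ) ∈ D.Ut t
  · have hpre : IsPreconnected (D.O t) := isPreconnected_connectedComponentIn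
    have hmem : (⟨D.u, D.u⟩ : ℂ) ∈ D.O t := mem_connectedComponentIn hu
    have hne : ∀ {x : ℂ}, x ∈ D.O t → g₂ x ≠ 0 := by
      intro x hx h0
      have := n2 x (hsub hx)
      rw [h0, norm_zero] at this
      exact zero_ne_one this
    exact hpre.eq_of_sq_eq (c1.mono hsub) (c2.mono hsub) (fun x hx => hsq x (hsub hx)) hne hmem
      ((o1 hu).trans (o2 hu).symm) hz
  · have : D.O t = ∅ := connectedComponentIn_eq_empty hu
    rw [this] at hz
    exact absurd hz (Set.notMem_empty _)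

end PD

end Pool.Agent.Lib.MP9fa4ca
end

section
/-!
# MP_9fa4ca_an, PD : UOP, the set `U` is open
-/
set_option autoImplicit false

open Set Topology Filter Complex MeasureTheory

namespace Pool.Agent.Lib.MP9fa4ca

namespace PD

universe u

theorem specUOP : SpecUOP.{u} := by
  intro X _ d D
  rw [isOpen_iff_mem_nhds]
  rintro ⟨t, z⟩ ⟨hV, N, hN, r, hr, h⟩
  obtain ⟨N₀, hN₀, hN₀o, htN₀⟩ := mem_nhds_iff.1 hN
  have h1 : (N₀ ∩ D.V) ×ˢ Metric.ball z (r / 2) ∈ 𝓝 (t, z) :=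
    prod_mem_nhds ((hN₀o.inter D.opn).mem_nhds ⟨htN₀, hV⟩)
      (Metric.ball_mem_nhds z (half_pos hr))
  refine mem_of_superset h1 ?_
  rintro ⟨t₁, z₁⟩ ⟨⟨ht₁, hV₁⟩, hz₁⟩
  refine ⟨hV₁, N₀, hN₀o.mem_nhds ht₁, r / 2, half_pos hr, ?_⟩
  intro t' ht' hP
  refine (Metric.ball_subset_ball' ?_).trans (h t' (hN₀ ht') hP)
  have h2 : dist z₁ z < r / 2 := hz₁
  linarith

end PD

end Pool.Agent.Lib.MP9fa4ca
end

section
/-!
# MP_9fa4ca_an, PD : module UPC (loops of the cover, all points outside of the cover)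
-/
set_option autoImplicit false

open Set Topology Filter Complex MeasureTheory

namespace Pool.Agent.Lib.MP9fa4ca

namespace PD

universe u

theorem specUPC (hWND : SpecWND) (hUOP : SpecUOP.{u}) (hUPL : SpecUPL.{u}) : SpecUPC.{u} := by
  intro X _ d D t ht b hb σ hσ hper hO β hβ
  by_cases hU : exp β + b ∈ D.Ut t
  swap
  · exact hUPL X d D t ht b hb σ hσ hper hO β hU
  have hUt : IsOpen (D.Ut t) := (hUOP X d D).preimage (by fun_prop : Continuous fun z : ℂ => (t, z))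
  have hg : Continuous fun ζ : ℂ => exp ζ + b := by fun_prop
  set Y : Set ℂ := (fun ζ : ℂ => exp ζ + b) ⁻¹' (D.Ut t) with hYdef
  have hY : IsOpen Y := hUt.preimage hg
  set C : Set ℂ := connectedComponentIn Y β with hC
  have hCo : IsOpen C := hY.connectedComponentIn
  have hβC : β ∈ C := mem_connectedComponentIn hU
  have hCY : C ⊆ Y := connectedComponentIn_subset Y β
  have hCp : IsPreconnected C := isPreconnected_connectedComponentIn
  -- no point of `C` lies over `O t`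
  have hno : ∀ ζ ∈ C, exp ζ + b ∉ D.O t := by
    intro ζ hζ hζO
    apply hβ
    have h1 : D.O t = connectedComponentIn (D.Ut t) (exp ζ + b) := connectedComponentIn_eq hζO
    have h2 : (fun ζ : ℂ => exp ζ + b) '' C ⊆ connectedComponentIn (D.Ut t) (exp ζ + b) := by
      refine (hCp.image _ hg.continuousOn).subset_connectedComponentIn ⟨ζ, hζ, rfl⟩ ?_
      rintro _ ⟨y, hy, rfl⟩
      exact hCY hy
    rw [h1]
    exact h2 ⟨β, hβC, rfl⟩
  have hσC : ∀ x, σ x ∉ C := fun x hx => hno _ hx (hO x)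
  -- `C` is not closed
  have hncl : ¬ IsClosed C := by
    intro hcl
    rcases isClopen_iff.1 (⟨hcl, hCo⟩ : IsClopen C) with h | h
    · rw [h] at hβC; exact hβC
    · exact hσC 0 (by rw [h]; trivial)
  obtain ⟨β', hβ'cl, hβ'C⟩ : ∃ β' ∈ closure C, β' ∉ C := by
    by_contra hcon
    push Not at hcon
    exact hncl (isClosed_of_closure_subset hcon)
  have hβ'Y : β' ∉ Y := by
    intro hY'
    have hC'o : IsOpen (connectedComponentIn Y β') := hY.connectedComponentIn
    obtain ⟨y, hy1, hy2⟩ := mem_closure_iff.1 hβ'cl _ hC'o (mem_connectedComponentIn hY')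
    have e1 : connectedComponentIn Y β' = connectedComponentIn Y y := connectedComponentIn_eq hy1
    have e2 : C = connectedComponentIn Y y := connectedComponentIn_eq hy2
    apply hβ'C
    rw [e2, ← e1]
    exact mem_connectedComponentIn hY'
  have hL := hUPL X d D t ht b hb σ hσ hper hO β' hβ'Y
  have hOU : D.O t ⊆ D.Ut t := connectedComponentIn_subset _ _
  refine hWND σ hσ hper (insert β' C) ?_ ?_ β' (mem_insert _ _) β (mem_insert_of_mem _ hβC) hL
  · refine hCp.subset_closure (subset_insert _ _) ?_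
    exact insert_subset hβ'cl subset_closure
  · intro x hx
    rcases hx with hx | hx
    · apply hβ'Y
      rw [← hx]
      exact hOU (hO x)
    · exact hσC x hx

end PD

end Pool.Agent.Lib.MP9fa4ca
end

section
/-!
# MP_9fa4ca_an, PD : UPL, loops of the cover, points over the complement of the fibre
-/
set_option autoImplicit false

open Set Topology Filter Complex MeasureTheory

namespace Pool.Agent.Lib.MP9fa4ca

namespace PD

universe u

namespace UPLAux

/-- the range of a continuous function of period `1` is compact -/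
theorem isCompact_range_per {Y : Type*} [TopologicalSpace Y] {f : ℝ → Y} (hf : Continuous f)
    (hp : ∀ x, f (x + 1) = f x) : IsCompact (range f) := by
  have hper : Function.Periodic f 1 := hp
  have h : range f = f '' Icc (0 : ℝ) (0 + 1) := by
    rw [hper.image_Icc zero_lt_one]
  rw [h]
  exact isCompact_Icc.image hf

/-- a loop has a positive distance from a point not on it -/
theorem exists_dist {σ : ℝ → ℂ} (hσ : Continuous σ) (hp : ∀ x, σ (x + 1) = σ x) {β : ℂ}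
    (hβ : ∀ x, σ x ≠ β) : ∃ δ : ℝ, 0 < δ ∧ ∀ x, δ ≤ ‖σ x - β‖ := by
  have hK := isCompact_range_per hσ hp
  have hc : ContinuousOn (fun z : ℂ => ‖z - β‖) (range σ) := by fun_prop
  obtain ⟨z, ⟨x₀, rfl⟩, hmin⟩ := hK.exists_isMinOn (range_nonempty σ) hc
  refine ⟨‖σ x₀ - β‖, norm_pos_iff.2 (sub_ne_zero.2 (hβ x₀)), fun x => ?_⟩
  exact hmin (mem_range_self x)

/-- the logarithm is small near `1` -/
theorem log_near_one {δ : ℝ} (hδ : 0 < δ) :
    ∃ η : ℝ, 0 < η ∧ ∀ y : ℂ, ‖y - 1‖ < η → y ≠ 0 ∧ ‖log y‖ < δ := by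
  have hc : ContinuousAt log (1 : ℂ) := continuousAt_clog one_mem_slitPlane
  obtain ⟨η, hη, h⟩ := Metric.continuousAt_iff.1 hc δ hδ
  refine ⟨min η 1, lt_min hη one_pos, fun y hy => ⟨?_, ?_⟩⟩
  · rintro rfl
    have h1 := lt_of_lt_of_le hy (min_le_right _ _)
    rw [zero_sub, norm_neg, norm_one] at h1
    exact lt_irrefl _ h1
  · have h1 := h (x := y) (by rw [dist_eq_norm]; exact lt_of_lt_of_le hy (min_le_left _ _))
    rwa [dist_eq_norm, log_one, sub_zero] at h1

end UPLAux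

theorem specUPL (hUKT : SpecUKT.{u}) : SpecUPL.{u} := by
  intro X _ d D t ht b hb σ hσ hσp hσO β hβ
  have hOU : D.O t ⊆ D.Ut t := connectedComponentIn_subset _ _
  have hK : IsCompact (range fun x => exp (σ x) + b) :=
    UPLAux.isCompact_range_per (by fun_prop) fun x => by rw [hσp]
  obtain ⟨N, hN, r, hr, hNr⟩ := hUKT X d D t (range fun x => exp (σ x) + b)
    (by rintro _ ⟨x, rfl⟩; exact hOU (hσO x)) hK
  have hne : ∀ x, σ x ≠ β := by
    intro x h
    exact hβ (hOU (h ▸ hσO x))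
  obtain ⟨δ, hδ, hδσ⟩ := UPLAux.exists_dist hσ hσp hne
  obtain ⟨η, hη, hηl⟩ := UPLAux.log_near_one (half_pos hδ)
  have hc0 : exp β ≠ 0 := exp_ne_zero β
  have hcn : 0 < ‖exp β‖ := norm_pos_iff.2 hc0
  set ε : ℝ := min r (η * ‖exp β‖ / 2) with hεdef
  have hε : 0 < ε := lt_min hr (by positivity)
  obtain ⟨N', hN', hNb⟩ := hb.st ε hε
  have hnot : ¬ ∀ t' ∈ N ∩ N', t' ∈ D.P → Metric.ball (exp β + b) ε ⊆ D.A t' := fun h =>
    hβ ⟨ht, N ∩ N', inter_mem hN hN', ε, hε, h⟩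
  push Not at hnot
  obtain ⟨t', ⟨htN, htN'⟩, htP, hball⟩ := hnot
  obtain ⟨q', hq', hq'A⟩ := not_subset.1 hball
  obtain ⟨b', hb'b, hb'A, hb'd⟩ := hNb t' htN' htP
  have hq'n : ‖q' - (exp β + b)‖ < ε := by rwa [Metric.mem_ball, dist_eq_norm] at hq'
  set y : ℂ := (q' - b') / exp β with hydef
  have hy1 : ‖y - 1‖ < η := by
    have h1 : y - 1 = ((q' - (exp β + b)) - (b' - b)) / exp β := by
      rw [hydef]
      field_simp
      ring
    rw [h1, norm_div, div_lt_iff₀ hcn]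
    have h2 : ‖(q' - (exp β + b)) - (b' - b)‖ ≤ ‖q' - (exp β + b)‖ + ‖b' - b‖ := norm_sub_le _ _
    have h3 : ε ≤ η * ‖exp β‖ / 2 := min_le_right _ _
    linarith
  obtain ⟨hy0, hyl⟩ := hηl y hy1
  have hexp : exp (β + log y) + b' = q' := by
    rw [exp_add, exp_log hy0, hydef, mul_div_cancel₀ _ hc0, sub_add_cancel]
  have hlog : LDeg (fun x => σ x - (β + log y)) 0 := by
    refine (D.eig t' htP).ups b' hb'A D.γ
      ⟨D.γc, D.γp, fun x => D.thk t' htP x (Metric.mem_ball_self D.hρ)⟩ (D.deg t' htP) hb'd σ hσ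
      hσp (fun x => ?_) (β + log y) (by rwa [hexp])
    refine hNr t' htN htP _ (mem_range_self x) ?_
    rw [Metric.mem_ball, dist_eq_norm, add_sub_add_left_eq_sub]
    exact lt_of_lt_of_le hb'b (min_le_left _ _)
  refine hlog.of_near (hσ.sub continuous_const) (fun x => by rw [hσp]) (fun x => ?_)
  have h1 : σ x - β - (σ x - (β + log y)) = log y := by ring
  rw [h1]
  have h2 := hδσ x
  have h3 : ‖σ x - β‖ ≤ ‖σ x - (β + log y)‖ + ‖log y‖ := by
    calc ‖σ x - β‖ = ‖(σ x - (β + log y)) + log y‖ := by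
          congr 1
          ring
      _ ≤ _ := norm_add_le _ _
  linarith

end PD

end Pool.Agent.Lib.MP9fa4ca
end

section
/-!
# MP_9fa4ca_an, PD, module UPO : loops in the cover `{ζ | exp ζ + b ∈ A}`
-/
set_option autoImplicit false

open Set Topology Filter Complex MeasureTheory

namespace Pool.Agent.Lib.MP9fa4ca

namespace PD

namespace UPOAux

/-- iterates of the deck transformation -/
theorem iter {L : ℝ × ℝ → ℂ} {n : ℤ} (hLm : ∀ w, L (T w) = L w + n * (2 * Real.pi * I))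
    (w : ℝ × ℝ) (k : ℤ) : L (w.1 + k, w.2) = L w + k * n * (2 * Real.pi * I) := by
  induction k using Int.induction_on with
  | zero => simp
  | succ m ih =>
    have := hLm (w.1 + m, w.2)
    simp only [T_apply] at this
    push_cast at ih ⊢
    rw [← add_assoc, this, ih]
    ring
  | pred m ih =>
    have := hLm (w.1 + (-m - 1), w.2)
    simp only [T_apply] at this
    push_cast at ih ⊢
    have e : w.1 + (-(m : ℝ) - 1) + 1 = w.1 + -m := by ring
    rw [e, ih] at this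
    linear_combination -this

end UPOAux

theorem specUPO (hLPL : SpecLPL) (hLPD : SpecLPD) : SpecUPO := by
  intro A Q h hdeg b hb γ hγ hγd hγb σ hσ hσp hσA β hβ
  have hn : Q.nu b ≠ 0 := by
    intro h0
    apply hγb
    have := (hLPD A Q h hdeg γ hγ hγd).2 (fun z => z - b) _ (Ann.nu_deg hb)
    rw [h0] at this
    exact this
  obtain ⟨L, hL, hLe, hLm⟩ := Ann.nu_deg (Q := Q) hb
  have hlp : Lp (fun x => exp (σ x) + b) A :=
    ⟨by fun_prop, fun x => by rw [hσp], hσA⟩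
  obtain ⟨s, hs, hsP, k, hk⟩ := hLPL A Q _ hlp
  obtain ⟨j, hj⟩ := log_unique (fun x => L (s x)) σ (hL.comp hs) hσ (fun x => by
    beta_reduce
    rw [hLe, hsP]
    simp)
  have h1 : ∀ x, L (s (x + 1)) = L (s x) := fun x => by
    have e1 := hj (x + 1)
    have e2 := hj x
    beta_reduce at e1 e2
    rw [e1, e2, hσp]
  have h2 : (k : ℂ) * Q.nu b * (2 * Real.pi * I) = 0 := by
    have := h1 0
    rw [hk, UPOAux.iter hLm] at this
    linear_combination this
  have hk0 : k = 0 := by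
    rcases mul_eq_zero.1 h2 with h | h
    · rcases mul_eq_zero.1 h with h | h
      · exact_mod_cast h
      · exact absurd (by exact_mod_cast h) hn
    · exact absurd h two_pi_I_ne
  have hsp : ∀ x, s (x + 1) = s x := fun x => by
    rw [hk, hk0]
    simp
  obtain ⟨M, hM, hMe⟩ := exists_log (fun w : ℝ × ℝ => L w - j * (2 * Real.pi * I) - β)
    (by fun_prop) (by
      intro w hw
      apply hβ
      have e : β = L w - j * (2 * Real.pi * I) := by linear_combination -hw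
      rw [e, exp_sub, hLe, Complex.exp_int_mul_two_pi_mul_I, div_one, sub_add_cancel]
      exact Q.mem w)
  refine ⟨fun x => M (s x), hM.comp hs, fun x => ?_, fun x => ?_⟩
  · have e2 := hj x
    beta_reduce at e2 ⊢
    rw [hMe, e2]
    ring
  · beta_reduce
    rw [hsp]
    simp

end PD

end Pool.Agent.Lib.MP9fa4ca
end

section
/-!
# MP_9fa4ca_an, PD : everything together
-/
set_option autoImplicit false

open Set Topology Filter Complex MeasureTheory

namespace Pool.Agent.Lib.MP9fa4ca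

namespace PD

universe u

/-! ### One annulus -/

theorem allCRB : SpecCRB := specCRB specHTI (specLFB specHTI)

theorem allDNO : SpecDNO := specDNO specARG (specARN specEVZ) (specEQH specHTI) allCRB

theorem allLPD : SpecLPD := specLPD specLPL

theorem allEIG : SpecEIG :=
  specEIG (specDSC specHTI) (specEQH specHTI) allCRB (specOSB specHTI (specLFB specHTI))
    (specRFH specEVZ specREF (specEQH specHTI) allDNO) specNUO allLPD (specUPO specLPL allLPD)
    (specIDO allLPD (specEQH specHTI)) (specLP1 specHTI)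

/-! ### Plane topology -/

theorem allFIL : SpecFIL := specFIL specCPS specSMA specSRD specLOZ specRMZ

theorem allDCA : SpecDCA :=
  specDCA allFIL specCNN specLGX (specRMH specRMR specIND) (specAUT specAUM specAUP) specTRN
    specQUO

/-! ### The limit theory -/

theorem allNPR : SpecNPR.{u} := specNPR specARG specJCO

theorem allEQC : SpecEQC.{u} := specEQC specARG specNUM specJCO (specSYM specREF) allNPR

theorem allUIN : SpecUIN.{u} := specUIN specJCO

theorem allLMC : SpecLMC.{u} := specLMC specUOP allEQC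

theorem allLMV : SpecLMV.{u} := specLMV specJCO allUIN allEQC

theorem allUBD : SpecUBD.{u} := specUBD specBND

theorem allDNS : SpecDNS.{u} :=
  specDNS specARG specNUM specJCO (specARN specEVZ) specUKT allUIN specLIX allLMC allLMV allUBD

theorem allUNQ : SpecUNQ.{u} := specUNQ specEVZ specUOP allUIN allLMC allLMV allDNS

theorem allTHK : SpecTHK.{u} := specTHK specJCO

theorem allHPR : SpecHPR.{u} := specHPR (specCNV allEQC specLIX allUNQ)

theorem allUCV : SpecUCV.{u} := specUCV specUKT allHPR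

theorem allDG1 : SpecDG1.{u} := specDG1 allTHK allHPR allUCV

theorem allHOL : SpecHOL.{u} := specHOL specJCO allNPR allTHK (specSTB allFIL)

theorem allUPC : SpecUPC.{u} := specUPC specWND specUOP (specUPL specUKT)

theorem allDTH : SpecDTH.{u} :=
  specDTH specUOP allNPR allUBD allTHK allHPR (specHEQ specJCO allHPR) (specEOP specUOP allTHK)
    (specOIN allUIN allTHK) allDG1 allHOL allUPC allDCA (specRTN specLPL)

theorem allPER : SpecPER.{u} := specPER allEIG specLBL specMGR allDTH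

end PD

end Pool.Agent.Lib.MP9fa4ca
end
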