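import Pool.Agent.Lib.MP_9fa4ca_an.CR.Main
import Pool.Agent.Lib.MP_9fa4ca_an.Fin3

/-!
# MP_9fa4ca_an, PD : persistence of annular rotation domains, the definitions

Notation of the proofs: `f = fc c` is the map `hen (pol c) 1` as a homeomorphism of the plane `ℂ`,
`Δ` is the diagonal `{re = im}`, `λ = lam α = exp (2 π i α)`.
-/

set_option autoImplicit false

open Set Topology Filter Complex MeasureTheory

namespace Pool.Agent.Lib.MP9fa4ca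

namespace PD

universe u

/-- the map with the coefficients `c` as a homeomorphism -/
noncomputable def fc {d : ℕ} (c : Fin (d + 1) → ℝ) : ℂ ≃ₜ ℂ := hf (pol c) (BAIAux.continuous_pol' c)

theorem fc_apply {d : ℕ} (c : Fin (d + 1) → ℝ) (z : ℂ) : fc c z = hen (pol c) 1 z := rfl

/-- the eigenvalue -/
noncomputable def lam (α : ℝ) : ℂ := exp (2 * Real.pi * α * I)

/-- a loop in `S`: a continuous map of period `1` -/
structure Lp (γ : ℝ → ℂ) (S : Set ℂ) : Prop where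
  cont : Continuous γ
  per : ∀ x, γ (x + 1) = γ x
  mem : ∀ x, γ x ∈ S

/-- `χ` is a continuous argument (divided by `2 π`) of `h` on `K` -/
structure Arg (h : ℂ → ℂ) (K : Set ℂ) (χ : ℂ → ℝ) : Prop where
  cont : ContinuousOn χ K
  eq : ∀ z ∈ K, h z = exp (2 * Real.pi * χ z * I)

/-- What is used of an annular rotation domain `A` of `fc c`: `h` is the eigenfunction, normalised
by `h = 1` at the point `⟨u, u⟩` of the crosscut. -/
structure Eig {d : ℕ} (c : Fin (d + 1) → ℝ) (A : Set ℂ) (α u : ℝ) (h : ℂ → ℂ) : Prop where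
  opn : IsOpen A
  bdd : Bornology.IsBounded A
  inv : ∀ z, fc c z ∈ A ↔ z ∈ A
  con : ContinuousOn h A
  nor : ∀ z ∈ A, ‖h z‖ = 1
  eqv : ∀ z ∈ A, h (fc c z) = lam α * h z
  mem : (⟨u, u⟩ : ℂ) ∈ A
  one : h ⟨u, u⟩ = 1
  rea : ∀ s : ℝ, (⟨s, s⟩ : ℂ) ∈ A → h ⟨s, s⟩ = 1 ∨ h ⟨s, s⟩ = -1
  crs : ∀ (q : ℂ) (ρ : ℝ), Metric.ball q ρ ⊆ A → ∀ χ, Arg h (Metric.ball q ρ) χ →
    ∀ z ∈ Metric.ball q ρ, ∀ z' ∈ Metric.ball q ρ, ∀ m j : ℤ, χ z < j - m * α →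
      j - m * α < χ z' → ∃ y ∈ segment ℝ z z', ((fc c ^ m) y).re = ((fc c ^ m) y).im
  osc : ∀ (q : ℂ) (ρ : ℝ), Metric.ball q ρ ⊆ A → ∀ χ, Arg h (Metric.ball q ρ) χ →
    ∀ z ∈ Metric.ball q ρ, ∀ z' ∈ Metric.ball q ρ, χ z' - χ z ≤ 2
  idx : ∀ γ, Lp γ A → LDeg (fun x => h (γ x)) 1 → ¬ LDeg (fun x => fc c (γ x) - γ x) 0
  nuo : ∀ b, b ∉ A → ∀ γ, Lp γ A → LDeg (fun x => h (γ x)) 1 →
    ∃ m : ℤ, |m| ≤ 1 ∧ LDeg (fun x => γ x - b) m
  ups : ∀ b, b ∉ A → ∀ γ, Lp γ A → LDeg (fun x => h (γ x)) 1 → ¬ LDeg (fun x => γ x - b) 0 →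
    ∀ σ : ℝ → ℂ, Continuous σ → (∀ x, σ (x + 1) = σ x) → (∀ x, exp (σ x) + b ∈ A) →
      ∀ β, exp β + b ∉ A → LDeg (fun x => σ x - β) 0

/-- The data of the limit theory: for the parameters `t ∈ P` there is an annular rotation domain
`A t` with the eigenfunction `h t`, with the same `α`, the same point `⟨u, u⟩`, the same loop `γ` of
degree `1` (with its neighbourhood of size `ρ`). -/
structure Dat (X : Type u) [TopologicalSpace X] (d : ℕ) where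
  c : X → Fin (d + 1) → ℝ
  P : Set X
  V : Set X
  A : X → Set ℂ
  h : X → ℂ → ℂ
  α : ℝ
  u : ℝ
  γ : ℝ → ℂ
  ρ : ℝ
  deg2 : 2 ≤ d
  cc : Continuous c
  last : ∀ t, c t (Fin.last d) ≠ 0
  irr : Irrational α
  opn : IsOpen V
  cl : V ⊆ closure P
  eig : ∀ t ∈ P, Eig (c t) (A t) α u (h t)
  hρ : 0 < ρ
  γc : Continuous γ
  γp : ∀ x, γ (x + 1) = γ x
  thk : ∀ t ∈ P, ∀ x, Metric.ball (γ x) ρ ⊆ A t
  deg : ∀ t ∈ P, LDeg (fun x => h t (γ x)) 1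
  zu : ∃ x, ‖(⟨u, u⟩ : ℂ) - γ x‖ < ρ
  fzu : ∀ t ∈ P, ∃ x, ‖fc (c t) ⟨u, u⟩ - γ x‖ < ρ / 2

namespace Dat

variable {X : Type u} [TopologicalSpace X] {d : ℕ} (D : Dat X d)

/-- the map of the parameter `t` -/
noncomputable def f (t : X) : ℂ ≃ₜ ℂ := fc (D.c t)

/-- the points which are uniformly inside the annuli of the parameters near `t` -/
def U : Set (X × ℂ) :=
  {x | x.1 ∈ D.V ∧ ∃ N ∈ 𝓝 x.1, ∃ r : ℝ, 0 < r ∧ ∀ t' ∈ N, t' ∈ D.P →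
    Metric.ball x.2 r ⊆ D.A t'}

/-- the fibre of `U` -/
def Ut (t : X) : Set ℂ := {z | (t, z) ∈ D.U}

/-- the component of `⟨u, u⟩` in the fibre -/
def O (t : X) : Set ℂ := connectedComponentIn (D.Ut t) ⟨D.u, D.u⟩

/-- the family of domains -/
def E : Set (X × ℂ) := {x | x.1 ∈ D.V ∧ x.2 ∈ D.O x.1}

/-- the eigenfunctions of the parameters of `P`, as one function -/
def hh (x : X × ℂ) : ℂ := D.h x.1 x.2

/-- the limit eigenfunction -/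
noncomputable def H (x : X × ℂ) : ℂ := extendFrom (D.P ×ˢ univ) D.hh x

/-- `g` is the limit of `h t'` for `t' → t` along the ultrafilter `W` -/
def Lim (t : X) (W : Ultrafilter X) (g : ℂ → ℂ) : Prop :=
  ∀ z ∈ D.Ut t, Tendsto (fun t' => D.h t' z) W (𝓝 (g z))

/-- `b` is a point of the hole of the domain of `t`, near to points of the holes of all annuli
`A t'`, `t'` near `t` -/
structure Hole (t : X) (b : ℂ) : Prop where
  nm : b ∉ D.Ut t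
  dg : LDeg (fun x => D.γ x - b) 1 ∨ LDeg (fun x => D.γ x - b) (-1)
  st : ∀ ε : ℝ, 0 < ε → ∃ N ∈ 𝓝 t, ∀ t' ∈ N, t' ∈ D.P →
    ∃ b', ‖b' - b‖ < ε ∧ b' ∉ D.A t' ∧ ¬ LDeg (fun x => D.γ x - b') 0

end Dat

/-- A homeomorphism of the open sets `S` and `S'`, as a pair of inverse maps. -/
structure Hom {Y Z : Type*} [TopologicalSpace Y] [TopologicalSpace Z] (S : Set Y) (S' : Set Z)
    (F : Y → Z) (G : Z → Y) : Prop where
  cF : ContinuousOn F S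
  cG : ContinuousOn G S'
  mF : ∀ y ∈ S, F y ∈ S'
  mG : ∀ z ∈ S', G z ∈ S
  GF : ∀ y ∈ S, G (F y) = y
  FG : ∀ z ∈ S', F (G z) = z

/-- The lift of the eigenfunction of the annulus `A`: `hti C w` is the supremum of the numbers
`j - n α` with `j < θ (F ^ n w)`. -/
noncomputable def hti {p : ℝ → ℝ} {A : Set ℂ} {e : ↥A ≃ₜ (Circle × ↥(Ioo (0 : ℝ) 1))}
    (C : Core2 p A e) (w : ℝ × ℝ) : ℝ := sSup (ROTAux.Lo C.θ C.F C.α w)

/-- `h` is the eigenfunction of the annulus `A` -/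
structure Dsc {p : ℝ → ℝ} {A : Set ℂ} {e : ↥A ≃ₜ (Circle × ↥(Ioo (0 : ℝ) 1))} (C : Core2 p A e)
    (h : ℂ → ℂ) : Prop where
  con : ContinuousOn h A
  eq : ∀ w, h (C.Q.P w) = exp (2 * Real.pi * hti C w * I)

/-- `z₀` is a zero of `v` of index `1` or `-1`, in a weak sense: `v` is near a multiple, by a
continuous function without zeros, of `z - z₀` or of its conjugate. -/
def SZ (v : ℂ → ℂ) (z₀ : ℂ) : Prop :=
  ∃ (k : ℂ → ℂ) (r : ℝ), 0 < r ∧ ContinuousOn k (Metric.ball z₀ r) ∧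
    (∀ z ∈ Metric.ball z₀ r, k z ≠ 0) ∧
    ((∀ z ∈ Metric.ball z₀ r, z ≠ z₀ → 0 < (v z / (k z * (z - z₀))).re) ∨
      ∀ z ∈ Metric.ball z₀ r, z ≠ z₀ → 0 < (v z / (k z * (starRingEnd ℂ) (z - z₀))).re)

/-- The parameter with the map `fc c` has the label `(γ, ρ, u, α)`, by the annulus `A` and its
eigenfunction `h`. -/
structure Lab {d : ℕ} (c : Fin (d + 1) → ℝ) (γ : C(UnitAddCircle, ℂ)) (ρ u α : ℝ) (A : Set ℂ)
    (h : ℂ → ℂ) : Prop where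
  eig : Eig c A α u h
  thk : ∀ x : ℝ, Metric.ball (γ x) ρ ⊆ A
  deg : LDeg (fun x : ℝ => h (γ x)) 1
  zu : ∃ x : ℝ, ‖(⟨u, u⟩ : ℂ) - γ x‖ < ρ
  fzu : ∃ x : ℝ, ‖fc c ⟨u, u⟩ - γ x‖ < ρ / 2

end PD

end Pool.Agent.Lib.MP9fa4ca
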